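import Mathlib
import Pool.Agent.Helper123.Quad.ArcMeasure

set_option autoImplicit false
set_option linter.all false

open MeasureTheory Set Filter Topology Quad
open scoped ENNReal NNReal Real

namespace Pool.Agent.W562.GP

noncomputable section

/-- One dimensional area formula: Hausdorff measure on a Lipschitz simple curve. -/
theorem curve_meas (γ : ℝ → ℂ) (w : ℝ → ℝ) (K : ℝ≥0) (hγ : LipschitzWith K γ) {I : Set ℝ}
    (hIm : MeasurableSet I) (hIf : volume I < ∞)
    (hinj : InjOn γ I) (hw : Continuous w) (hw0 : ∀ θ, 0 ≤ w θ)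
    (O : Set ℝ) (hO : MeasurableSet O) (hOc : volume (Oᶜ ∩ I) = 0)
    (hder : ∀ θ ∈ O, ∃ v : ℂ, ‖v‖ = w θ ∧ HasStrictDerivAt γ v θ) :
    (μH[1] : Measure ℂ).restrict (γ '' I)
      = Measure.map γ ((volume.restrict I).withDensity
          (fun θ => ENNReal.ofReal (w θ))) := by
  have : StandardBorelSpace I := hIm.standardBorel
  let g : I → ℂ := fun x => γ x
  have hgm : Measurable g := (hγ.continuous.comp continuous_subtype_val).measurable
  have hgi : Function.Injective g := fun x y h => Subtype.ext (hinj x.2 y.2 h)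
  have hge : MeasurableEmbedding g := hgm.measurableEmbedding hgi
  have hrange : range g = γ '' I := by
    ext z
    constructor
    · rintro ⟨x, rfl⟩
      exact ⟨x.1, x.2, rfl⟩
    · rintro ⟨x, hx, rfl⟩
      exact ⟨⟨x, hx⟩, rfl⟩
  let ν : Measure ℝ := Measure.map Subtype.val (Measure.comap g (μH[1] : Measure ℂ))
  let ρ : Measure ℝ := volume.restrict I
  let lam : Measure ℝ := ρ.withDensity (fun θ => ENNReal.ofReal (w θ))
  have : IsFiniteMeasure ρ := by
    constructor
    rw [Measure.restrict_apply_univ]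
    exact hIf
  have hνB : ∀ B, MeasurableSet B → ν B = (μH[1] : Measure ℂ) (γ '' (B ∩ I)) := by
    intro B hB
    rw [Measure.map_apply measurable_subtype_coe hB, hge.comap_apply]
    congr 1
    ext z
    constructor
    · rintro ⟨x, hx, rfl⟩
      exact ⟨x.1, ⟨hx, x.2⟩, rfl⟩
    · rintro ⟨x, ⟨hx, hx'⟩, rfl⟩
      exact ⟨⟨x, hx'⟩, hx, rfl⟩
  have hρB : ∀ B, MeasurableSet B → ρ B = volume (B ∩ I) := fun B hB =>
    Measure.restrict_apply hB
  have hlB : ∀ B, MeasurableSet B → lam B = ∫⁻ θ in B ∩ I, ENNReal.ofReal (w θ) := by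
    intro B hB
    rw [withDensity_apply _ hB, Measure.restrict_restrict hB]
  have hlup : ∀ B, MeasurableSet B → ∀ c : ℝ≥0∞, (∀ s ∈ B, ENNReal.ofReal (w s) ≤ c) →
      lam B ≤ c * ρ B := by
    intro B hB c hc
    rw [hlB B hB, hρB B hB]
    refine (setLIntegral_mono measurable_const fun s hs => hc s hs.1).trans ?_
    rw [setLIntegral_const]
  have hllo : ∀ B, MeasurableSet B → ∀ c : ℝ≥0∞, (∀ s ∈ B, c ≤ ENNReal.ofReal (w s)) →
      c * ρ B ≤ lam B := by
    intro B hB c hc
    rw [hlB B hB, hρB B hB, ← setLIntegral_const]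
    exact setLIntegral_mono (hw.measurable.ennreal_ofReal) fun s hs => hc s hs.1
  have hmain : ν = lam := by
    apply le_antisymm
    · refine le_of_local (ρ := ρ) hO ?_ ?_
      · rw [hνB _ hO.compl]
        refine le_antisymm ?_ zero_le
        refine (upper_meas γ (Oᶜ ∩ I) K fun s _ s' _ => ?_).trans ?_
        · have := hγ.dist_le_mul s s'
          rwa [dist_eq_norm, Real.dist_eq] at this
        · rw [hOc, mul_zero]
      · intro ε hε t ht
        obtain ⟨v, hv, hd⟩ := hder t ht
        obtain ⟨U, hU, htU, hU1, hU2⟩ := local_bounds γ w hw v t hv hd (ε / 2) (by positivity)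
        refine ⟨U, hU, htU, fun B hB hBU => ?_⟩
        have hwt := hw0 t
        have hup : ν B ≤ ENNReal.ofReal (w t + ε / 2) * ρ B := by
          rw [hνB B hB, hρB B hB]
          have h1 := upper_meas γ (B ∩ I) (w t + ε / 2).toNNReal (fun s hs s' hs' => by
            rw [Real.coe_toNNReal _ (by positivity)]
            exact (hU2 s (hBU hs.1) s' (hBU hs'.1)).1)
          exact h1
        have hlo : ENNReal.ofReal (w t - ε / 2) * ρ B ≤ lam B := by
          refine hllo B hB _ fun s hs => ENNReal.ofReal_le_ofReal ?_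
          have := abs_le.1 (hU1 s (hBU hs))
          linarith
        calc ν B ≤ ENNReal.ofReal (w t + ε / 2) * ρ B := hup
          _ ≤ (ENNReal.ofReal (w t - ε / 2) + ε) * ρ B := by
              refine mul_le_mul_left ?_ _
              rw [← ENNReal.ofReal_coe_nnreal]
              refine le_trans ?_ ENNReal.ofReal_add_le
              exact ENNReal.ofReal_le_ofReal (by linarith)
          _ ≤ lam B + ε * ρ B := by
              rw [add_mul]
              exact add_le_add hlo le_rfl
    · refine le_of_local (ρ := ρ) hO ?_ ?_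
      · rw [hlB _ hO.compl]
        exact setLIntegral_measure_zero _ _ hOc
      · intro ε hε t ht
        obtain ⟨v, hv, hd⟩ := hder t ht
        obtain ⟨U, hU, htU, hU1, hU2⟩ := local_bounds γ w hw v t hv hd (ε / 2) (by positivity)
        refine ⟨U, hU, htU, fun B hB hBU => ?_⟩
        have hwt := hw0 t
        have hlo : ENNReal.ofReal (w t - ε / 2) * ρ B ≤ ν B := by
          rw [hνB B hB, hρB B hB]
          have h1 := lower_meas γ (B ∩ I) (w t - ε / 2).toNNReal (fun s hs s' hs' => by
            rcases le_total 0 (w t - ε / 2) with h0 | h0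
            · rw [Real.coe_toNNReal _ h0]
              exact (hU2 s (hBU hs.1) s' (hBU hs'.1)).2
            · rw [Real.toNNReal_of_nonpos h0]
              simp)
          exact h1
        have hup : lam B ≤ ENNReal.ofReal (w t + ε / 2) * ρ B := by
          refine hlup B hB _ fun s hs => ENNReal.ofReal_le_ofReal ?_
          have := abs_le.1 (hU1 s (hBU hs))
          linarith
        calc lam B ≤ ENNReal.ofReal (w t + ε / 2) * ρ B := hup
          _ ≤ (ENNReal.ofReal (w t - ε / 2) + ε) * ρ B := by
              refine mul_le_mul_left ?_ _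
              rw [← ENNReal.ofReal_coe_nnreal]
              refine le_trans ?_ ENNReal.ofReal_add_le
              exact ENNReal.ofReal_le_ofReal (by linarith)
          _ ≤ ν B + ε * ρ B := by
              rw [add_mul]
              exact add_le_add hlo le_rfl
  have h1 : (μH[1] : Measure ℂ).restrict (γ '' I) = Measure.map γ ν := by
    rw [← hrange, ← hge.map_comap]
    show _ = Measure.map γ (Measure.map Subtype.val _)
    rw [Measure.map_map hγ.continuous.measurable measurable_subtype_coe]
    rfl
  rw [h1, hmain]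




/-- area formula for integrals over a simple curve -/
theorem curve_integral {γ γ' : ℝ → ℂ} {α β : ℝ} (hαβ : α ≤ β)
    (hd : ∀ s ∈ Icc α β, HasDerivAt γ (γ' s) s) (hc : ContinuousOn γ' (Icc α β))
    (hinj : InjOn γ (Icc α β)) {f : ℂ → ℝ} (hf : Continuous f) :
    IntegrableOn f (γ '' Icc α β) μH[1] ∧
    ∫ z in γ '' Icc α β, f z ∂μH[1] = ∫ s in α..β, f (γ s) * ‖γ' s‖ := by
  set γe : ℝ → ℂ := fun s => γ (projIcc α β hαβ s) with hγe
  set we : ℝ → ℝ := fun s => ‖γ' (projIcc α β hαβ s)‖ with hwe
  have hγc : ContinuousOn γ (Icc α β) := fun s hs => (hd s hs).continuousAt.continuousWithinAt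
  have hwc : Continuous we := by
    have h1 : Continuous (fun s : Icc α β => γ' s) := continuousOn_iff_continuous_restrict.1 hc
    exact (h1.comp continuous_projIcc).norm
  obtain ⟨M, hM⟩ := isCompact_Icc.exists_bound_of_continuousOn hc
  have hM0 : 0 ≤ M := (norm_nonneg _).trans (hM α ⟨le_rfl, hαβ⟩)
  have hlipI : ∀ x ∈ Icc α β, ∀ y ∈ Icc α β, ‖γ y - γ x‖ ≤ M * ‖y - x‖ := fun x hx y hy =>
    (convex_Icc α β).norm_image_sub_le_of_norm_hasDerivWithin_le
      (fun s hs => (hd s hs).hasDerivWithinAt) (fun s hs => hM s hs) hx hy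
  have hLip : LipschitzWith M.toNNReal γe := by
    apply LipschitzWith.of_dist_le_mul
    intro x y
    rw [Real.coe_toNNReal _ hM0, dist_eq_norm, Real.dist_eq]
    have h1 := hlipI _ (projIcc α β hαβ y).2 _ (projIcc α β hαβ x).2
    refine h1.trans (mul_le_mul_of_nonneg_left ?_ hM0)
    rw [Real.norm_eq_abs]
    exact abs_projIcc_sub_projIcc hαβ
  have heq : ∀ s ∈ Icc α β, γe s = γ s := fun s hs => by
    show γ (projIcc α β hαβ s) = γ s
    rw [projIcc_of_mem hαβ hs]
  have heqw : ∀ s ∈ Icc α β, we s = ‖γ' s‖ := fun s hs => by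
    show ‖γ' (projIcc α β hαβ s)‖ = ‖γ' s‖
    rw [projIcc_of_mem hαβ hs]
  have himg : γe '' Icc α β = γ '' Icc α β := image_congr heq
  have hinje : InjOn γe (Icc α β) := fun x hx y hy h => hinj hx hy (by rwa [heq x hx, heq y hy] at h)
  have hnull : volume ((Ioo α β)ᶜ ∩ Icc α β) = 0 := by
    refine measure_mono_null (t := {α, β}) ?_ ((Set.toFinite {α, β}).measure_zero _)
    rintro s ⟨h1, h2⟩
    rw [mem_compl_iff, mem_Ioo, not_and_or, not_lt, not_lt] at h1
    rcases h1 with h1 | h1
    · exact Or.inl (le_antisymm h1 h2.1)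
    · exact Or.inr (le_antisymm h2.2 h1)
  have key := curve_meas γe we M.toNNReal hLip measurableSet_Icc (I := Icc α β)
    (by rw [Real.volume_Icc]; exact ENNReal.ofReal_lt_top) hinje hwc (fun _ => norm_nonneg _)
    (Ioo α β) measurableSet_Ioo hnull (by
      intro θ hθ
      refine ⟨γ' θ, (heqw θ (Ioo_subset_Icc_self hθ)).symm, ?_⟩
      have h1 : ∀ᶠ y in 𝓝 θ, HasDerivAt γe (γ' y) y := by
        filter_upwards [isOpen_Ioo.mem_nhds hθ] with y hy
        apply (hd y (Ioo_subset_Icc_self hy)).congr_of_eventuallyEq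
        filter_upwards [isOpen_Ioo.mem_nhds hy] with z hz
        exact heq z (Ioo_subset_Icc_self hz)
      exact hasStrictDerivAt_of_hasDerivAt_of_continuousAt h1
        (hc.continuousAt (Icc_mem_nhds hθ.1 hθ.2)))
  rw [himg] at key
  have hme : Measurable γe := hLip.continuous.measurable
  have hint : IntegrableOn (fun s => we s * f (γe s)) (Icc α β) :=
    (hwc.mul (hf.comp hLip.continuous)).continuousOn.integrableOn_Icc
  constructor
  · unfold IntegrableOn
    rw [key, integrable_map_measure hf.aestronglyMeasurable hme.aemeasurable,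
      integrable_withDensity_iff_integrable_smul₀' hwc.measurable.ennreal_ofReal.aemeasurable
      (Eventually.of_forall fun _ => ENNReal.ofReal_lt_top)]
    refine hint.congr (Eventually.of_forall fun s => ?_)
    show we s * f (γe s) = (ENNReal.ofReal (we s)).toReal • f (γe s)
    rw [ENNReal.toReal_ofReal (norm_nonneg _), smul_eq_mul]
  · rw [key, integral_map hme.aemeasurable hf.aestronglyMeasurable,
      integral_withDensity_eq_integral_toReal_smul₀ hwc.measurable.ennreal_ofReal.aemeasurable
      (Eventually.of_forall fun _ => ENNReal.ofReal_lt_top),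
      intervalIntegral.integral_of_le hαβ, ← integral_Icc_eq_integral_Ioc]
    apply setIntegral_congr_fun measurableSet_Icc
    intro s hs
    show (ENNReal.ofReal (we s)).toReal • f (γe s) = f (γ s) * ‖γ' s‖
    rw [ENNReal.toReal_ofReal (norm_nonneg _), smul_eq_mul, heq s hs, projIcc_of_mem hαβ hs, mul_comm]

end

end Pool.Agent.W562.GP
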