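import Pool.Agent.W562.GP.Ode

set_option autoImplicit false
set_option linter.all false

open Set MeasureTheory Real Filter Topology
open scoped NNReal ContDiff

namespace Pool.Agent.W562.GP

noncomputable section

variable {μ : ℝ} {h k : ℝ → ℝ}

/-- `e^{iθ}` -/
def ee (θ : ℝ) : ℂ := ⟨cos θ, sin θ⟩

lemma ee_eq (θ : ℝ) : ee θ = Complex.exp (θ * Complex.I) := by
  apply Complex.ext
  · simp [ee, Complex.exp_ofReal_mul_I_re]
  · simp [ee, Complex.exp_ofReal_mul_I_im]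

@[simp] lemma ee_re (θ : ℝ) : (ee θ).re = cos θ := rfl
@[simp] lemma ee_im (θ : ℝ) : (ee θ).im = sin θ := rfl

lemma ee_add (a b : ℝ) : ee (a + b) = ee a * ee b := by
  apply Complex.ext
  · simp [cos_add]
  · simp [sin_add]; ring

lemma ee_norm (θ : ℝ) : ‖ee θ‖ = 1 := by
  rw [ee_eq]; exact Complex.norm_exp_ofReal_mul_I θ

lemma ee_ne (θ : ℝ) : ee θ ≠ 0 := by
  intro h; have := ee_norm θ; rw [h] at this; simp at this

lemma hasDerivAt_mk {f g : ℝ → ℝ} {f' g' x : ℝ} (hf : HasDerivAt f f' x) (hg : HasDerivAt g g' x) :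
    HasDerivAt (fun t => (⟨f t, g t⟩ : ℂ)) ⟨f', g'⟩ x := by
  have h1 := hf.ofReal_comp.add (hg.ofReal_comp.mul_const Complex.I)
  have e1 : (fun t => (⟨f t, g t⟩ : ℂ)) = fun t => (f t : ℂ) + (g t : ℂ) * Complex.I := by
    ext t; exact Complex.mk_eq_add_mul_I _ _
  rw [e1, Complex.mk_eq_add_mul_I]
  exact h1

/-- the arc, parametrised by the direction of its normal -/
def ax (h k : ℝ → ℝ) (θ : ℝ) : ℂ := ⟨h θ * cos θ - k θ * sin θ, h θ * sin θ + k θ * cos θ⟩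

/-- speed -/
def sg (μ : ℝ) (h : ℝ → ℝ) (θ : ℝ) : ℝ := 1 / (μ + h θ)

lemma Prof.muh (P : Prof μ h k) {θ : ℝ} (hθ : θ ∈ Icc (-1:ℝ) 1) : 2 < μ + h θ := by
  linarith [P.mu, P.pos θ hθ]

lemma Prof.sg_pos (P : Prof μ h k) {θ : ℝ} (hθ : θ ∈ Icc (-1:ℝ) 1) : 0 < sg μ h θ := by
  unfold sg; exact one_div_pos.2 (by linarith [P.muh hθ])

lemma Prof.re_deriv (P : Prof μ h k) {θ : ℝ} (hθ : θ ∈ Icc (-1:ℝ) 1) :
    HasDerivAt (fun θ => (ax h k θ).re) (-(sg μ h θ * sin θ)) θ := by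
  have h1 := ((P.hd θ).mul (hasDerivAt_cos θ)).sub ((P.kd θ hθ).mul (hasDerivAt_sin θ))
  refine h1.congr_deriv ?_
  unfold sg; ring

lemma Prof.im_deriv (P : Prof μ h k) {θ : ℝ} (hθ : θ ∈ Icc (-1:ℝ) 1) :
    HasDerivAt (fun θ => (ax h k θ).im) (sg μ h θ * cos θ) θ := by
  have h1 := ((P.hd θ).mul (hasDerivAt_sin θ)).add ((P.kd θ hθ).mul (hasDerivAt_cos θ))
  refine h1.congr_deriv ?_
  unfold sg; ring

lemma Prof.ax_deriv (P : Prof μ h k) {θ : ℝ} (hθ : θ ∈ Icc (-1:ℝ) 1) :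
    HasDerivAt (ax h k) (sg μ h θ * (Complex.I * ee θ)) θ := by
  have h1 := hasDerivAt_mk (P.re_deriv hθ) (P.im_deriv hθ)
  have e1 : (⟨-(sg μ h θ * sin θ), sg μ h θ * cos θ⟩ : ℂ) = sg μ h θ * (Complex.I * ee θ) := by
    apply Complex.ext <;> simp
  rw [e1] at h1
  exact h1

lemma ax_neg (P : Prof μ h k) (θ : ℝ) : ax h k (-θ) = ⟨(ax h k θ).re, -(ax h k θ).im⟩ := by
  unfold ax
  apply Complex.ext
  · simp [P.even, P.odd]
  · simp [P.even, P.odd]; ring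

lemma ax_normSq (θ : ℝ) : ‖ax h k θ‖ ^ 2 = h θ ^ 2 + k θ ^ 2 := by
  rw [← Complex.normSq_eq_norm_sq, Complex.normSq_apply]
  unfold ax
  simp only
  have := sin_sq_add_cos_sq θ
  linear_combination (h θ ^ 2 + k θ ^ 2) * this

/-- unnormalised Gaussian weight -/
def gw (z : ℂ) : ℝ := exp (-(‖z‖ ^ 2) / 2)

lemma gw_pos (z : ℂ) : 0 < gw z := exp_pos _
lemma gw_le_one (z : ℂ) : gw z ≤ 1 := by
  unfold gw
  rw [exp_le_one_iff]
  have := sq_nonneg ‖z‖
  linarith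

/-- the first integral -/
def CC (μ : ℝ) (h : ℝ → ℝ) : ℝ := (μ + h 0) * exp (-(h 0 ^ 2) / 2)

lemma k_zero (P : Prof μ h k) : k 0 = 0 := by
  have := P.odd 0
  rw [neg_zero] at this; linarith

lemma first_integral (P : Prof μ h k) {θ : ℝ} (hθ : θ ∈ Icc (-1:ℝ) 1) :
    (μ + h θ) * gw (ax h k θ) = CC μ h := by
  have key : ∀ s ∈ Icc (-1:ℝ) 1, HasDerivAt (fun θ => (μ + h θ) * exp (-(h θ ^ 2 + k θ ^ 2) / 2)) 0 s := by
    intro s hs
    have h1 := ((P.hd s).pow 2).add ((P.kd s hs).pow 2)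
    have h2 := ((P.hd s).const_add μ).mul ((h1.neg.div_const 2).exp)
    refine h2.congr_deriv ?_
    have h3 := P.muh hs
    have h4 : μ + h s ≠ 0 := by linarith
    simp only [Pi.neg_apply, Pi.add_apply, Pi.pow_apply]
    field_simp
    ring
  have hconst : ∀ x ∈ Icc (-1:ℝ) 1, ∀ y ∈ Icc (-1:ℝ) 1,
      (μ + h x) * exp (-(h x ^ 2 + k x ^ 2) / 2) = (μ + h y) * exp (-(h y ^ 2 + k y ^ 2) / 2) := by
    intro x hx y hy
    exact (convex_Icc (-1:ℝ) 1).is_const_of_fderivWithin_eq_zero (𝕜 := ℝ)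
      (f := fun θ => (μ + h θ) * exp (-(h θ ^ 2 + k θ ^ 2) / 2))
      (fun s hs => (key s hs).differentiableAt.differentiableWithinAt)
      (fun s hs => by
        have h5 := (key s hs).hasDerivWithinAt (s := Icc (-1:ℝ) 1)
        have h6 := h5.hasFDerivWithinAt.fderivWithin ((uniqueDiffOn_Icc (by norm_num : (-1:ℝ) < 1)) s hs)
        rw [h6]; ext; simp) hx hy
  have := hconst θ hθ 0 ⟨by norm_num, by norm_num⟩
  unfold gw CC
  rw [ax_normSq, this, k_zero P]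
  norm_num

lemma CC_pos (P : Prof μ h k) : 0 < CC μ h := by
  rw [← first_integral P (θ := 0) ⟨by norm_num, by norm_num⟩]
  exact mul_pos (by linarith [P.muh (θ := 0) ⟨by norm_num, by norm_num⟩]) (gw_pos _)

/-- `σ = φ / C` -/
lemma sg_eq (P : Prof μ h k) {θ : ℝ} (hθ : θ ∈ Icc (-1:ℝ) 1) :
    sg μ h θ = gw (ax h k θ) / CC μ h := by
  have h1 := first_integral P hθ
  have h2 := P.muh hθ
  have h3 := CC_pos P
  unfold sg
  rw [div_eq_div_iff (by linarith) h3.ne']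
  linarith

/-! ### the vertex -/

def av (k : ℝ → ℝ) : ℝ := 2 * k (π/6)
def bv (k : ℝ → ℝ) : ℝ := √3 * k (π/6)

lemma pi6_mem : π/6 ∈ Icc (-1:ℝ) 1 := ⟨by linarith [pi_pos], pi6_le⟩
lemma sub_mem {θ : ℝ} (hθ : θ ∈ Icc (-(π/6)) (π/6)) : θ ∈ Icc (-1:ℝ) 1 :=
  ⟨by linarith [hθ.1, pi6_le], by linarith [hθ.2, pi6_le]⟩

lemma av_pos (P : Prof μ h k) : 0 < av k := by
  have := P.kpos (π/6) ⟨pi6_pos, pi6_le⟩
  unfold av; linarith

lemma av_le (P : Prof μ h k) : av k ≤ 2 / μ := by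
  have := P.kle (π/6) ⟨pi6_pos.le, pi6_le⟩
  unfold av
  calc 2 * k (π/6) ≤ 2 * (1/μ) := by linarith
    _ = 2 / μ := by ring

lemma bv_pos (P : Prof μ h k) : 0 < bv k := by
  have := P.kpos (π/6) ⟨pi6_pos, pi6_le⟩
  unfold bv; positivity

lemma ee_pi3 : ee (π/3) = ⟨1/2, √3/2⟩ := by
  unfold ee; rw [cos_pi_div_three, sin_pi_div_three]

lemma ee_pi6 : ee (π/6) = ⟨√3/2, 1/2⟩ := by
  unfold ee; rw [cos_pi_div_six, sin_pi_div_six]

lemma sqrt3_sq : √3 * √3 = 3 := mul_self_sqrt (by norm_num)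

lemma ax_pi6 (P : Prof μ h k) : ax h k (π/6) = ⟨av k / 2, bv k⟩ := by
  unfold ax av bv
  rw [P.bc, cos_pi_div_six, sin_pi_div_six]
  apply Complex.ext
  · simp only
    linear_combination (k (π/6) / 2) * sqrt3_sq
  · simp only
    ring

lemma ax_pi6' (P : Prof μ h k) : ax h k (π/6) = av k * ee (π/3) := by
  rw [ax_pi6 P, ee_pi3]
  apply Complex.ext
  · simp; ring
  · simp [av, bv]; ring

lemma ax_npi6 (P : Prof μ h k) : ax h k (-(π/6)) = ⟨av k / 2, - bv k⟩ := by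
  rw [ax_neg P, ax_pi6 P]

lemma ax_zero (P : Prof μ h k) : ax h k 0 = ⟨h 0, 0⟩ := by
  unfold ax; rw [k_zero P]; simp

/-- radius increases along the arc -/
lemma ax_norm_le (P : Prof μ h k) {θ : ℝ} (hθ : θ ∈ Icc (-(π/6)) (π/6)) :
    ‖ax h k θ‖ ≤ av k := by
  have hmono : MonotoneOn (fun θ => h θ ^ 2 + k θ ^ 2) (Icc 0 (π/6)) := by
    apply monotoneOn_of_deriv_nonneg (convex_Icc _ _)
    · intro s hs
      have hs' : s ∈ Icc (-1:ℝ) 1 := ⟨by linarith [hs.1], by linarith [hs.2, pi6_le]⟩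
      exact (((P.hd s).pow 2).add ((P.kd s hs').pow 2)).continuousAt.continuousWithinAt
    · intro s hs
      rw [interior_Icc] at hs
      have hs' : s ∈ Icc (-1:ℝ) 1 := ⟨by linarith [hs.1], by linarith [hs.2, pi6_le]⟩
      exact (((P.hd s).pow 2).add ((P.kd s hs').pow 2)).differentiableAt.differentiableWithinAt
    · intro s hs
      rw [interior_Icc] at hs
      have hs' : s ∈ Icc (-1:ℝ) 1 := ⟨by linarith [hs.1], by linarith [hs.2, pi6_le]⟩
      have h1 : HasDerivAt (fun θ => h θ ^ 2 + k θ ^ 2) _ s := ((P.hd s).pow 2).add ((P.kd s hs').pow 2)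
      rw [h1.deriv]
      have h2 := P.kpos s ⟨hs.1, by linarith [hs.2, pi6_le]⟩
      have h3 : 0 < 1 / (μ + h s) := P.sg_pos hs'
      have h4 : 0 ≤ 2 * (k s * (1 / (μ + h s))) := by positivity
      refine h4.trans (le_of_eq ?_)
      push_cast
      norm_num
      ring
  have h1 : ‖ax h k θ‖ ^ 2 ≤ av k ^ 2 := by
    rw [ax_normSq]
    have h2 : h θ ^ 2 + k θ ^ 2 = h |θ| ^ 2 + k |θ| ^ 2 := by
      rcases abs_choice θ with e | e
      · rw [e]
      · rw [e, P.even, P.odd]; ring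
    rw [h2]
    have h3 := hmono ⟨abs_nonneg θ, abs_le.2 hθ⟩ ⟨pi6_pos.le, le_rfl⟩ (abs_le.2 hθ)
    simp only at h3
    refine h3.trans (le_of_eq ?_)
    rw [P.bc]
    unfold av
    linear_combination (k (π/6))^2 * sqrt3_sq
  exact abs_le_of_sq_le_sq' h1 (av_pos P).le |>.2

/-- the arc lies inside the sector -/
lemma ax_sector (P : Prof μ h k) {θ : ℝ} (h0 : 0 ≤ θ) (h1 : θ < π/6) :
    (ax h k θ).im < √3 * (ax h k θ).re := by
  have hanti : StrictAntiOn (fun θ => √3 * (ax h k θ).re - (ax h k θ).im) (Icc 0 (π/6)) := by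
    apply strictAntiOn_of_deriv_neg (convex_Icc _ _)
    · intro s hs
      have hs' : s ∈ Icc (-1:ℝ) 1 := ⟨by linarith [hs.1], by linarith [hs.2, pi6_le]⟩
      exact (((P.re_deriv hs').const_mul √3).sub (P.im_deriv hs')).continuousAt.continuousWithinAt
    · intro s hs
      rw [interior_Icc] at hs
      have hs' : s ∈ Icc (-1:ℝ) 1 := ⟨by linarith [hs.1], by linarith [hs.2, pi6_le]⟩
      have h1 : HasDerivAt (fun θ => √3 * (ax h k θ).re - (ax h k θ).im) _ s :=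
        ((P.re_deriv hs').const_mul √3).sub (P.im_deriv hs')
      rw [h1.deriv]
      have h2 : 0 < sin s := sin_pos_of_pos_of_lt_pi hs.1 (by linarith [hs.2, pi_pos])
      have h3 : 0 < cos s := cos_pos_of_mem_Ioo ⟨by linarith [hs.1, pi_pos], by linarith [hs.2, pi_pos]⟩
      have h4 := P.sg_pos hs'
      have h5 : 0 < √3 := by positivity
      have h6 := mul_pos h4 h2
      have h7 := mul_pos h4 h3
      nlinarith [mul_pos h5 h6]
  have h2 := hanti ⟨h0, h1.le⟩ ⟨pi6_pos.le, le_rfl⟩ h1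
  simp only at h2
  have h3 : √3 * (ax h k (π/6)).re - (ax h k (π/6)).im = 0 := by
    rw [ax_pi6 P]; unfold av bv; ring
  linarith

lemma im_nonneg (P : Prof μ h k) {θ : ℝ} (h0 : 0 ≤ θ) (h1 : θ ≤ 1) : 0 ≤ (ax h k θ).im := by
  unfold ax
  simp only
  have a1 := P.pos θ ⟨by linarith, h1⟩
  have a2 : 0 ≤ k θ := by
    rcases h0.eq_or_lt with e | e
    · rw [← e, k_zero P]
    · exact (P.kpos θ ⟨e, h1⟩).le
  have a3 : 0 ≤ sin θ := sin_nonneg_of_nonneg_of_le_pi h0 (by linarith [pi_gt_three])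
  have a4 : 0 ≤ cos θ := cos_nonneg_of_mem_Icc ⟨by linarith [pi_pos], by linarith [pi_gt_three]⟩
  positivity

lemma ax_sector' (P : Prof μ h k) {θ : ℝ} (hθ : θ ∈ Ioo (-(π/6)) (π/6)) :
    |(ax h k θ).im| < √3 * (ax h k θ).re := by
  rcases le_total 0 θ with h0 | h0
  · rw [abs_of_nonneg (im_nonneg P h0 (by linarith [hθ.2, pi6_le]))]
    exact ax_sector P h0 hθ.2
  · have h1 := ax_sector P (θ := -θ) (by linarith) (by linarith [hθ.1])
    have h2 := im_nonneg P (θ := -θ) (by linarith) (by linarith [hθ.1, pi6_le])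
    rw [ax_neg P] at h1 h2
    simp only at h1 h2
    rw [abs_of_nonpos (by linarith)]
    exact h1

end

end Pool.Agent.W562.GP
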