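import Pool.Agent.W562.GP.Stab2

set_option autoImplicit false
set_option linter.all false

open Set MeasureTheory Real Filter Topology
open scoped NNReal ContDiff ComplexConjugate

namespace Pool.Agent.W562.GP

noncomputable section

variable {h k : ℝ → ℝ} (P : Prof 100 h k)

include P in
/-- the rotationally symmetric mode is (exactly) neutral -/
lemma sym_est {m m' u u' : ℝ → ℝ} (hm : ∀ r, HasDerivAt m (m' r) r) (hmc : Continuous m')
    (hu : ∀ x ∈ Icc (-(π/6)) (π/6), HasDerivAt u (u' x) x) (huc : ContinuousOn u' (Icc (-(π/6)) (π/6)))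
    (hodd : ∀ x, u (-x) = - u x) (heven : ∀ x, u' (-x) = u' x) {R : ℝ} (haR : av k ≤ R) (hR : m R = 0)
    (hma : m (av k) = 2 * u (π/6)) :
    0 ≤ 3 * (∫ r in (av k)..R, ph r * (m' r ^ 2 - m r ^ 2)) +
      CC 100 h * (3 * ∫ x in (-(π/6))..(π/6), (u' x ^ 2 - (1 + sg 100 h x ^ 2) * u x ^ 2)) +
      CC 100 h / √3 * (18 * u (π/6) ^ 2) := by
  have h1 := ray_rot hm hmc (av_pos P) haR hR
  have hsub : Icc 0 (π/6) ⊆ Icc (-(π/6)) (π/6) := Icc_subset_Icc_left (by linarith [pi_pos])
  have h2 := arc_rot P (fun x hx => hu x (hsub hx)) (huc.mono hsub)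
    (by have := hodd 0; rw [neg_zero] at this; linarith)
  have hs := sg_contOn P
  have hcu : ContinuousOn u (Icc (-(π/6)) (π/6)) := fun x hx => (hu x hx).continuousAt.continuousWithinAt
  have h3 : ∫ x in (-(π/6))..(π/6), (u' x ^ 2 - (1 + sg 100 h x ^ 2) * u x ^ 2) =
      2 * ∫ x in (0:ℝ)..(π/6), (u' x ^ 2 - (1 + sg 100 h x ^ 2) * u x ^ 2) := by
    apply int_even pi6_pos.le (by fun_prop)
    intro x _
    rw [hodd, heven, sg_even P]; ring
  rw [h3]
  rw [hma, ph_av P] at h1
  have hk := P.kpos (π/6) ⟨pi6_pos, pi6_mem.2⟩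
  have hC := CC_pos P
  have hbc := P.bc
  have hav : av k = 2 * k (π/6) := rfl
  have hsq : √3 ^ 2 = 3 := sq_sqrt (by norm_num)
  have hsp : (0:ℝ) < √3 := by positivity
  set I1 := ∫ r in (av k)..R, ph r * (m' r ^ 2 - m r ^ 2)
  set I2 := ∫ x in (0:ℝ)..(π/6), (u' x ^ 2 - (1 + sg 100 h x ^ 2) * u x ^ 2)
  set s := sg 100 h (π/6)
  set C := CC 100 h
  set κ := k (π/6)
  set U := u (π/6)
  rw [hav] at h1
  rw [hbc] at h2
  have h4 : 6 * C * (U ^ 2 * (s - √3 * κ) / κ) ≤ 6 * C * I2 := mul_le_mul_of_nonneg_left h2 (by positivity)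
  have h5 : 3 * -(C * s * (2 * U) ^ 2 / (2 * κ)) + 6 * C * (U ^ 2 * (s - √3 * κ) / κ) + C / √3 * (18 * U ^ 2) = 0 := by
    field_simp
    ring_nf
    rw [hsq]; ring
  linarith

include P in
theorem stab {f f' g g' : Fin 3 → ℝ → ℝ} (hf : ∀ j r, HasDerivAt (f j) (f' j r) r)
    (hf' : ∀ j, Continuous (f' j))
    (hg : ∀ j, ∀ x ∈ Icc (-(π/6)) (π/6), HasDerivAt (g j) (g' j x) x)
    (hg' : ∀ j, ContinuousOn (g' j) (Icc (-(π/6)) (π/6))) {R : ℝ} (haR : av k ≤ R)
    (hR : ∀ j, f j R = 0) (hm : ∀ j, f j (av k) = g j (π/6) - g (j+1) (-(π/6)))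
    (hcon : ∀ j, CC 100 h * (∫ x in (-(π/6))..(π/6), sg 100 h x ^ 2 * g j x)
      + (∫ r in (av k)..R, ph r * f j r) - (∫ r in (av k)..R, ph r * f (j+2) r) = 0) :
    0 ≤ (∑ j, ∫ r in (av k)..R, ph r * (f' j r ^ 2 - f j r ^ 2)) +
      CC 100 h * (∑ j, ∫ x in (-(π/6))..(π/6), (g' j x ^ 2 - (1 + sg 100 h x ^ 2) * g j x ^ 2)) +
      CC 100 h / √3 * ∑ j, (g j (π/6) ^ 2 + g (j+1) (-(π/6)) ^ 2 - 4 * g j (π/6) * g (j+1) (-(π/6))) := by
  have hfc : ∀ j, Continuous (f j) := fun j => continuous_iff_continuousAt.2 fun r => (hf j r).continuousAt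
  have hgc : ∀ j, ContinuousOn (g j) (Icc (-(π/6)) (π/6)) := fun j x hx =>
    (hg j x hx).continuousAt.continuousWithinAt
  have huc : ContinuousOn (uu g) (Icc (-(π/6)) (π/6)) := fun x hx => (uu_deriv hg hx).continuousAt.continuousWithinAt
  have hu'c := uu'_cont hg'
  have hs := sg_contOn P
  -- symmetric part
  have hmd : ∀ r, HasDerivAt (fun r => (∑ j, f j r) / 3) ((∑ j, f' j r) / 3) r := fun r =>
    (HasDerivAt.fun_sum (fun j _ => hf j r)).div_const 3
  have hmc : Continuous (fun r => (∑ j, f' j r) / 3) :=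
    (continuous_finset_sum _ (fun j _ => hf' j)).div_const 3
  have hmcc : Continuous (fun r => (∑ j, f j r) / 3) :=
    (continuous_finset_sum _ (fun j _ => hfc j)).div_const 3
  have hm0 := hm 0
  have hm1 := hm 1
  have hm2 := hm 2
  have z1 : (0 + 1 : Fin 3) = 1 := rfl
  have z2 : (1 + 1 : Fin 3) = 2 := rfl
  have z3 : (2 + 1 : Fin 3) = 0 := rfl
  rw [z1] at hm0
  rw [z2] at hm1
  rw [z3] at hm2
  have hsym := sym_est P hmd hmc (fun x hx => uu_deriv hg hx) hu'c (uu_odd g) (uu'_even g') haR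
    (by simp only [Fin.sum_univ_three, hR]; norm_num)
    (by simp only [Fin.sum_univ_three, hm0, hm1, hm2, uu]; ring)
  -- the rest
  have hphc := ph_cont
  have hrest := rest_est P (d := fun j r => f j r - (∑ i, f i r) / 3)
    (d' := fun j r => f' j r - (∑ i, f' i r) / 3) (e := fun j x => g j x - uu g x)
    (e' := fun j x => g' j x - uu' g' x) (fun j r => (hf j r).sub (hmd r)) (fun j => (hf' j).sub hmc)
    (fun j x hx => (hg j x hx).sub (uu_deriv hg hx)) (fun j => (hg' j).sub hu'c) haR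
    (by intro j; simp only [Fin.sum_univ_three, hR]; norm_num)
    (by
      intro j
      have e1 := uu_odd g (π/6)
      have e2 : (∑ i, f i (av k)) / 3 = 2 * uu g (π/6) := by
        simp only [Fin.sum_univ_three, hm0, hm1, hm2, uu]; ring
      rw [e1, e2, hm j]; ring)
    (by
      intro j
      have e1 : ∫ x in (-(π/6))..(π/6), sg 100 h x ^ 2 * uu g x = 0 := by
        apply int_odd pi6_pos.le
        intro x _
        rw [uu_odd, sg_even P]; ring
      have e2 : ∫ x in (-(π/6))..(π/6), sg 100 h x ^ 2 * (g j x - uu g x) =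
          ∫ x in (-(π/6))..(π/6), sg 100 h x ^ 2 * g j x := by
        have c1 := hgc j
        have : ∫ x in (-(π/6))..(π/6), sg 100 h x ^ 2 * (g j x - uu g x) =
          (∫ x in (-(π/6))..(π/6), sg 100 h x ^ 2 * g j x) - ∫ x in (-(π/6))..(π/6), sg 100 h x ^ 2 * uu g x := by
          rw [← intervalIntegral.integral_sub (ii_of npi_le (by fun_prop)) (ii_of npi_le (by fun_prop))]
          apply intervalIntegral.integral_congr
          intro x _; simp only; ring
        rw [this, e1, sub_zero]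
      have e3 : ∀ j, ∫ r in (av k)..R, ph r * (f j r - (∑ i, f i r) / 3) =
          (∫ r in (av k)..R, ph r * f j r) - ∫ r in (av k)..R, ph r * ((∑ i, f i r) / 3) := by
        intro j
        have c1 := hfc j
        rw [← intervalIntegral.integral_sub (Continuous.intervalIntegrable (by fun_prop) _ _)
          (Continuous.intervalIntegrable (by fun_prop) _ _)]
        apply intervalIntegral.integral_congr
        intro x _; simp only; ring
      rw [e2, e3, e3]
      have := hcon j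
      linarith)
    (by
      have c1 : ∀ j ∈ Finset.univ, IntervalIntegrable (fun r => ph r * (f j r - (∑ i, f i r) / 3)) volume (av k) R := by
        intro j _
        have c1 := hfc j
        exact Continuous.intervalIntegrable (by fun_prop) _ _
      rw [← intervalIntegral.integral_finset_sum c1]
      have : ∀ r, ∑ j, ph r * (f j r - (∑ i, f i r) / 3) = 0 := by
        intro r; simp only [Fin.sum_univ_three]; ring
      simp_rw [this]
      simp)
  rw [ray_split hfc hf', arc_split P hgc hg' huc]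
  have hv : ∑ j : Fin 3, (g j (π/6) ^ 2 + g (j+1) (-(π/6)) ^ 2 - 4 * g j (π/6) * g (j+1) (-(π/6))) =
      18 * uu g (π/6) ^ 2 + ∑ j : Fin 3, ((g j (π/6) - uu g (π/6)) ^ 2 + (g (j+1) (-(π/6)) - uu g (-(π/6))) ^ 2
        - 4 * (g j (π/6) - uu g (π/6)) * (g (j+1) (-(π/6)) - uu g (-(π/6)))) := by
    rw [uu_odd]
    simp only [Fin.sum_univ_three, z1, z2, z3]
    have e3 : 6 * uu g (π/6) = (g 0 (π/6) + g 1 (π/6) + g 2 (π/6)) - (g 0 (-(π/6)) + g 1 (-(π/6)) + g 2 (-(π/6))) := by
      unfold uu; simp only [Fin.sum_univ_three]; ring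
    linear_combination (-6 * uu g (π/6)) * e3
  rw [hv]
  have hfin := add_nonneg hsym hrest
  refine hfin.trans (le_of_eq ?_)
  ring

end

end Pool.Agent.W562.GP
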