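import Pool.Agent.W562.GP.Var2
import Pool.Agent.W562.GP.Stab3

set_option autoImplicit false
set_option linter.all false

open Set MeasureTheory Real Filter Topology
open scoped NNReal ContDiff ComplexConjugate

namespace Pool.Agent.W562.GP

noncomputable section

variable {μ : ℝ} {h k : ℝ → ℝ} (P : Prof μ h k) {X : ℂ → ℂ} {F : ℝ → ℂ → ℂ}

include P in
lemma sg_contOn' : ContinuousOn (sg μ h) (Icc (-(π/6)) (π/6)) := fun x hx =>
  (sg_deriv P (sub_mem hx)).continuousAt.continuousWithinAt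

lemma ee_cont : Continuous ee := continuous_iff_continuousAt.2 fun θ => (ee_deriv θ).continuousAt

include P in
lemma ca_contOn (j : Fin 3) : ContinuousOn (ca h k j) (Icc (-(π/6)) (π/6)) := fun x hx =>
  (ca_deriv P j (sub_mem hx)).continuousAt.continuousWithinAt

include P in
lemma ca'_contOn (j : Fin 3) : ContinuousOn (ca' μ h j) (Icc (-(π/6)) (π/6)) := by
  unfold ca'
  exact continuousOn_const.mul ((Complex.continuous_ofReal.comp_continuousOn (sg_contOn' P)).mul
    (continuousOn_const.mul ee_cont.continuousOn))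

include P in
lemma ca'_ne (j : Fin 3) {θ : ℝ} (hθ : θ ∈ Icc (-(π/6)) (π/6)) : ca' μ h j θ ≠ 0 := by
  rw [ca'_eq]
  apply smul_ne_zero (P.sg_pos (sub_mem hθ)).ne'
  intro h0
  have := Ta_norm j θ
  rw [h0] at this; simp at this

lemma cy_cont (j : Fin 3) : Continuous (cy j) := continuous_iff_continuousAt.2 fun r =>
  (cy_deriv j r).continuousAt

lemma cy'_cont (j : Fin 3) : Continuous (cy' j) := by unfold cy'; exact continuous_const

lemma cy'_ne (j : Fin 3) (r : ℝ) : cy' j r ≠ 0 := by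
  rw [cy'_eq]; intro h0; have := Er_norm j; rw [h0] at this; simp at this

lemma cy_norm (j : Fin 3) {r : ℝ} (hr : 0 ≤ r) : ‖cy j r‖ = r := by
  rw [cy_eq, norm_mul, Er_norm, mul_one, Complex.norm_real, Real.norm_of_nonneg hr]

lemma gw_cy (j : Fin 3) {r : ℝ} (hr : 0 ≤ r) : gw (cy j r) = ph r := by
  unfold gw ph; rw [cy_norm j hr]

lemma dt_zero_left (z : ℂ) : dt 0 z = 0 := by unfold dt; simp

section

variable (hX : ContDiff ℝ ∞ X) (hc : HasCompactSupport X) (hF : IsFlow X F)

lemma AI_eq (j : Fin 3) (Y : ℂ → ℂ) : AI μ h k j Y =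
    ∫ θ in (-(π/6))..(π/6), sg μ h θ * dt (Y (ca h k j θ)) (Complex.I * Ta j θ) := by
  unfold AI
  apply intervalIntegral.integral_congr
  intro θ _
  simp only [ITa]
  rfl

lemma RI_eq (R : ℝ) (j : Fin 3) (Y : ℂ → ℂ) : RI k R j Y =
    ∫ r in (av k)..R, dt (Y (cy j r)) (Complex.I * Er j) := by
  unfold RI
  apply intervalIntegral.integral_congr
  intro r _
  have : Complex.I * Er j = rho j * (Complex.I * ee (π/3)) := by unfold Er; ring
  simp only [this]
  rfl

include P in
lemma AIc (j : Fin 3) {Y : ℂ → ℂ} (hY : Continuous Y) :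
    ContinuousOn (fun θ => μ * (sg μ h θ * dt (Y (ca h k j θ)) (Complex.I * Ta j θ)))
      (Icc (-(π/6)) (π/6)) := by
  have h1 : ContinuousOn (fun θ => Y (ca h k j θ)) (Icc (-(π/6)) (π/6)) :=
    hY.comp_continuousOn (ca_contOn P j)
  have h2 : ContinuousOn (fun θ => Complex.I * Ta j θ) (Icc (-(π/6)) (π/6)) := by
    unfold Ta
    exact (continuous_const.mul (continuous_const.mul (continuous_const.mul ee_cont))).continuousOn
  exact continuousOn_const.mul ((sg_contOn' P).mul (dt_contOn h1 h2))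

include P hX hc hF in
lemma L1_arc (j : Fin 3) : L1 X F (ca h k j) (ca' μ h j) (-(π/6)) (π/6) 0 =
    Bt1 X (ca h k j (π/6)) (Ta j (π/6)) - Bt1 X (ca h k j (-(π/6))) (Ta j (-(π/6)))
      - μ * AI μ h k j (smX gw X) := by
  set G : ℝ → ℝ := fun θ => g1 (ca h k j θ) (ca' μ h j θ) (aa μ h k X j θ) (X (ca h k j θ)) with hG
  have e1 : ∀ s, g1 (F 0 (ca h k j s)) (Dv F id 0 (ca h k j s) (ca' μ h j s))
      (Dv F X 0 (ca h k j s) (ca' μ h j s)) (X (F 0 (ca h k j s))) = G s := by
    intro s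
    rw [hF.zero, Dv_zero hF, Dv_zero hF, fderiv_id]; rfl
  have hL : L1 X F (ca h k j) (ca' μ h j) (-(π/6)) (π/6) 0 = ∫ s in (-(π/6))..(π/6), G s := by
    unfold L1; simp_rw [e1]
  have hGc : ContinuousOn G (Icc (-(π/6)) (π/6)) := by
    have := slice (g1_contOn hX hc hF (ca_contOn P j) (ca'_contOn P j) (fun s hs => ca'_ne P j hs)) 0
    simp only [e1] at this
    exact this
  have hAc := AIc P j (Y := smX gw X) (smX_smooth gw_smooth hX).continuous
  have h1 : ∫ s in (-(π/6))..(π/6), (G s +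
      μ * (sg μ h s * dt (smX gw X (ca h k j s)) (Complex.I * Ta j s))) =
      Bt1 X (ca h k j (π/6)) (Ta j (π/6)) - Bt1 X (ca h k j (-(π/6))) (Ta j (-(π/6))) := by
    apply intervalIntegral.integral_eq_sub_of_hasDerivAt (f := fun θ => Bt1 X (ca h k j θ) (Ta j θ))
    · intro x hx; rw [uIcc_of_le npi_le] at hx
      exact arc_first P hX j (sub_mem hx)
    · exact ii_of npi_le (hGc.add hAc)
  rw [intervalIntegral.integral_add (ii_of npi_le hGc) (ii_of npi_le hAc),
    intervalIntegral.integral_const_mul, ← AI_eq] at h1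
  rw [hL]; linarith

include P hX hc hF in
lemma L2_arc (j : Fin 3) : L2 X F (ca h k j) (ca' μ h j) (-(π/6)) (π/6) 0 =
    Bt (μ + h (π/6)) X (ca h k j (π/6)) (Ta j (π/6))
      - Bt (μ + h (-(π/6))) X (ca h k j (-(π/6))) (Ta j (-(π/6)))
      - μ * AI μ h k j (smX (dvg (smX gw X)) X)
      + CC μ h * ∫ s in (-(π/6))..(π/6), (fa' μ h k X j s ^ 2 - (1 + sg μ h s ^ 2) * fa h k X j s ^ 2) := by
  set G : ℝ → ℝ := fun θ => g2 (ca h k j θ) (ca' μ h j θ) (aa μ h k X j θ) (aa μ h k (Lie X X) j θ)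
    (X (ca h k j θ)) (Lie X X (ca h k j θ)) with hG
  have e1 : ∀ s, g2 (F 0 (ca h k j s)) (Dv F id 0 (ca h k j s) (ca' μ h j s))
      (Dv F X 0 (ca h k j s) (ca' μ h j s)) (Dv F (Lie X X) 0 (ca h k j s) (ca' μ h j s))
      (X (F 0 (ca h k j s))) (Lie X X (F 0 (ca h k j s))) = G s := by
    intro s
    rw [hF.zero, Dv_zero hF, Dv_zero hF, Dv_zero hF, fderiv_id]; rfl
  have hL : L2 X F (ca h k j) (ca' μ h j) (-(π/6)) (π/6) 0 = ∫ s in (-(π/6))..(π/6), G s := by
    unfold L2; simp_rw [e1]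
  have hGc : ContinuousOn G (Icc (-(π/6)) (π/6)) := by
    have := slice (g2_contOn hX hc hF (ca_contOn P j) (ca'_contOn P j) (fun s hs => ca'_ne P j hs)) 0
    simp only [e1] at this
    exact this
  have hYc : Continuous (smX (dvg (smX gw X)) X) :=
    (smX_smooth (dvg_smooth (smX_smooth gw_smooth hX)) hX).continuous
  have hAc := AIc P j hYc
  have hfc : ContinuousOn (fa h k X j) (Icc (-(π/6)) (π/6)) := fun x hx =>
    (fa_deriv P hX j (sub_mem hx)).continuousAt.continuousWithinAt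
  have huc : ContinuousOn (ua h k X j) (Icc (-(π/6)) (π/6)) := fun x hx =>
    (ua_deriv P hX j (sub_mem hx)).continuousAt.continuousWithinAt
  have hac : ContinuousOn (aa μ h k X j) (Icc (-(π/6)) (π/6)) := by
    unfold aa
    exact (((hX.continuous_fderiv (by simp)).comp_continuousOn (ca_contOn P j)).clm_apply (ca'_contOn P j))
  have hIT : ContinuousOn (fun θ => Complex.I * Ta j θ) (Icc (-(π/6)) (π/6)) := by
    unfold Ta
    exact (continuous_const.mul (continuous_const.mul (continuous_const.mul ee_cont))).continuousOn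
  have hf'c : ContinuousOn (fa' μ h k X j) (Icc (-(π/6)) (π/6)) := by
    unfold fa'
    exact (dt_contOn hac hIT).sub huc
  have hsc := sg_contOn' P
  have hgc : ContinuousOn (fun θ => gw (ca h k j θ)) (Icc (-(π/6)) (π/6)) :=
    gw_cont.comp_continuousOn (ca_contOn P j)
  have hQc : ContinuousOn (fun s => CC μ h * (fa' μ h k X j s ^ 2 - fa h k X j s ^ 2)
          - sg μ h s * gw (ca h k j s) * fa h k X j s ^ 2) (Icc (-(π/6)) (π/6)) := by
    fun_prop
  have h1 : ∫ s in (-(π/6))..(π/6), (G s +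
      μ * (sg μ h s * dt (smX (dvg (smX gw X)) X (ca h k j s)) (Complex.I * Ta j s))
        - (CC μ h * (fa' μ h k X j s ^ 2 - fa h k X j s ^ 2)
          - sg μ h s * gw (ca h k j s) * fa h k X j s ^ 2)) =
      Bt (μ + h (π/6)) X (ca h k j (π/6)) (Ta j (π/6))
      - Bt (μ + h (-(π/6))) X (ca h k j (-(π/6))) (Ta j (-(π/6))) := by
    apply intervalIntegral.integral_eq_sub_of_hasDerivAt
      (f := fun θ => Bt (μ + h θ) X (ca h k j θ) (Ta j θ))
    · intro x hx; rw [uIcc_of_le npi_le] at hx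
      exact arc_second P hX j (sub_mem hx)
    · exact ii_of npi_le ((hGc.add hAc).sub hQc)
  have e2 : ∫ s in (-(π/6))..(π/6), (CC μ h * (fa' μ h k X j s ^ 2 - fa h k X j s ^ 2)
          - sg μ h s * gw (ca h k j s) * fa h k X j s ^ 2) =
      CC μ h * ∫ s in (-(π/6))..(π/6), (fa' μ h k X j s ^ 2 - (1 + sg μ h s ^ 2) * fa h k X j s ^ 2) := by
    rw [← intervalIntegral.integral_const_mul]
    apply intervalIntegral.integral_congr
    intro s hs
    rw [uIcc_of_le npi_le] at hs
    have hm := P.muh (sub_mem hs)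
    have e3 : CC μ h = (μ + h s) * gw (ca h k j s) := by
      rw [← first_integral P (sub_mem hs)]
      unfold gw ca
      rw [norm_mul, rho_norm, one_mul]
    have e4 : sg μ h s * gw (ca h k j s) = CC μ h * sg μ h s ^ 2 := by
      rw [e3]; unfold sg
      have : μ + h s ≠ 0 := by linarith
      field_simp
    simp only
    rw [e4]; ring
  have i1 : IntervalIntegrable (fun s => G s +
      μ * (sg μ h s * dt (smX (dvg (smX gw X)) X (ca h k j s)) (Complex.I * Ta j s))) volume
      (-(π/6)) (π/6) := ii_of npi_le (hGc.add hAc)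
  rw [intervalIntegral.integral_sub i1 (ii_of npi_le hQc), e2,
    intervalIntegral.integral_add (ii_of npi_le hGc) (ii_of npi_le hAc),
    intervalIntegral.integral_const_mul, ← AI_eq] at h1
  rw [hL]; linarith

include hX hc hF in
lemma L1_ray (j : Fin 3) {a R : ℝ} (haR : a ≤ R) (hR : ∀ z, R ≤ ‖z‖ → X z = 0) (hR0 : 0 ≤ R) :
    L1 X F (cy j) (cy' j) a R 0 = - Bt1 X (cy j a) (Er j) := by
  set G : ℝ → ℝ := fun r => g1 (cy j r) (cy' j r) (ar X j r) (X (cy j r)) with hG
  have e1 : ∀ s, g1 (F 0 (cy j s)) (Dv F id 0 (cy j s) (cy' j s))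
      (Dv F X 0 (cy j s) (cy' j s)) (X (F 0 (cy j s))) = G s := by
    intro s
    rw [hF.zero, Dv_zero hF, Dv_zero hF, fderiv_id]; rfl
  have hL : L1 X F (cy j) (cy' j) a R 0 = ∫ s in a..R, G s := by
    unfold L1; simp_rw [e1]
  have hGc : ContinuousOn G (Icc a R) := by
    have := slice (g1_contOn hX hc hF (cy_cont j).continuousOn (cy'_cont j).continuousOn
      (α := a) (β := R) (fun s hs => cy'_ne j s)) 0
    simp only [e1] at this
    exact this
  have h1 : ∫ s in a..R, G s = Bt1 X (cy j R) (Er j) - Bt1 X (cy j a) (Er j) := by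
    apply intervalIntegral.integral_eq_sub_of_hasDerivAt (f := fun r => Bt1 X (cy j r) (Er j))
    · intro x hx
      exact ray_first hX j x
    · exact ii_of haR hGc
  rw [hL, h1]
  have h2 : Bt1 X (cy j R) (Er j) = 0 := by
    unfold Bt1
    rw [hR _ (by rw [cy_norm j hR0]), dt_zero_left, mul_zero]
  rw [h2, zero_sub]

include hX hc hF in
lemma L2_ray (j : Fin 3) {a R : ℝ} (ha : 0 ≤ a) (haR : a ≤ R) (hR : ∀ z, R ≤ ‖z‖ → X z = 0) :
    L2 X F (cy j) (cy' j) a R 0 = - Bt 0 X (cy j a) (Er j)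
      + ∫ r in a..R, ph r * (fr' X j r ^ 2 - fr X j r ^ 2) := by
  set G : ℝ → ℝ := fun r => g2 (cy j r) (cy' j r) (ar X j r) (ar (Lie X X) j r) (X (cy j r))
    (Lie X X (cy j r)) with hG
  have e1 : ∀ s, g2 (F 0 (cy j s)) (Dv F id 0 (cy j s) (cy' j s))
      (Dv F X 0 (cy j s) (cy' j s)) (Dv F (Lie X X) 0 (cy j s) (cy' j s)) (X (F 0 (cy j s)))
      (Lie X X (F 0 (cy j s))) = G s := by
    intro s
    rw [hF.zero, Dv_zero hF, Dv_zero hF, Dv_zero hF, fderiv_id]; rfl
  have hL : L2 X F (cy j) (cy' j) a R 0 = ∫ s in a..R, G s := by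
    unfold L2; simp_rw [e1]
  have hGc : ContinuousOn G (Icc a R) := by
    have := slice (g2_contOn hX hc hF (cy_cont j).continuousOn (cy'_cont j).continuousOn
      (α := a) (β := R) (fun s hs => cy'_ne j s)) 0
    simp only [e1] at this
    exact this
  have hfc : Continuous (fr X j) := continuous_iff_continuousAt.2 fun r => (fr_deriv hX j r).continuousAt
  have hac : Continuous (ar X j) := by
    unfold ar
    exact ((hX.continuous_fderiv (by simp)).comp (cy_cont j)).clm_apply (cy'_cont j)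
  have hf'c : Continuous (fr' X j) := by
    unfold fr'
    exact dt_cont.comp (hac.prodMk continuous_const)
  have hgc : Continuous (fun r => gw (cy j r)) := gw_cont.comp (cy_cont j)
  have hQc : Continuous (fun r => gw (cy j r) * (fr' X j r ^ 2 - fr X j r ^ 2)) := by fun_prop
  have h1 : ∫ s in a..R, (G s - gw (cy j s) * (fr' X j s ^ 2 - fr X j s ^ 2)) =
      Bt 0 X (cy j R) (Er j) - Bt 0 X (cy j a) (Er j) := by
    apply intervalIntegral.integral_eq_sub_of_hasDerivAt (f := fun r => Bt 0 X (cy j r) (Er j))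
    · intro x hx
      exact ray_second hX j x
    · exact ii_of haR (hGc.sub hQc.continuousOn)
  have h2 : Bt 0 X (cy j R) (Er j) = 0 := by
    unfold Bt Lie
    rw [hR _ (by rw [cy_norm j (ha.trans haR)]), map_zero, dt_zero_left]
    ring
  have h3 : ∫ r in a..R, gw (cy j r) * (fr' X j r ^ 2 - fr X j r ^ 2) =
      ∫ r in a..R, ph r * (fr' X j r ^ 2 - fr X j r ^ 2) := by
    apply intervalIntegral.integral_congr
    intro r hr
    rw [uIcc_of_le haR] at hr
    simp only
    rw [gw_cy j (ha.trans hr.1)]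
  rw [intervalIntegral.integral_sub (ii_of haR hGc) (hQc.intervalIntegrable _ _), h2, h3] at h1
  rw [hL]; linarith

end

end

end Pool.Agent.W562.GP
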