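import Pool.Agent.W562.GP.Asm

set_option autoImplicit false
set_option linter.all false

open Set MeasureTheory Real Filter Topology
open scoped NNReal ContDiff ComplexConjugate

namespace Pool.Agent.W562.GP

noncomputable section

variable {μ : ℝ} {h k : ℝ → ℝ} (P : Prof μ h k) {X : ℂ → ℂ} {F : ℝ → ℂ → ℂ}

lemma gw_integrable : Integrable gw := by
  have h1 : Integrable (fun p : ℝ × ℝ => exp (-(1/2) * p.1 ^ 2) * exp (-(1/2) * p.2 ^ 2)) :=
    (integrable_exp_neg_mul_sq (by norm_num : (0:ℝ) < 1/2)).mul_prod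
      (integrable_exp_neg_mul_sq (by norm_num : (0:ℝ) < 1/2))
  have h2 := (Complex.volume_preserving_equiv_real_prod.integrable_comp_emb
    Complex.measurableEquivRealProd.measurableEmbedding).2 h1
  refine h2.congr (Eventually.of_forall fun z => ?_)
  show exp (-(1/2) * z.re ^ 2) * exp (-(1/2) * z.im ^ 2) = gw z
  unfold gw
  rw [normSq_eq, ← exp_add]
  congr 1; ring

/-- total weighted length (up to a constant) of the moving network -/
def En (μ : ℝ) (h k : ℝ → ℝ) (F : ℝ → ℂ → ℂ) (R t : ℝ) : ℝ :=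
  ∑ j, (L0 F (ca h k j) (ca' μ h j) (-(π/6)) (π/6) t + L0 F (cy j) (cy' j) (av k) R t)
def En1 (μ : ℝ) (h k : ℝ → ℝ) (X : ℂ → ℂ) (F : ℝ → ℂ → ℂ) (R t : ℝ) : ℝ :=
  ∑ j, (L1 X F (ca h k j) (ca' μ h j) (-(π/6)) (π/6) t + L1 X F (cy j) (cy' j) (av k) R t)
def En2 (μ : ℝ) (h k : ℝ → ℝ) (X : ℂ → ℂ) (F : ℝ → ℂ → ℂ) (R t : ℝ) : ℝ :=
  ∑ j, (L2 X F (ca h k j) (ca' μ h j) (-(π/6)) (π/6) t + L2 X F (cy j) (cy' j) (av k) R t)

/-- weighted area of the moving outer cells and derivatives -/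
def V0 (F : ℝ → ℂ → ℂ) (S : Set ℂ) (t : ℝ) : ℝ := ∫ z in F t '' S, gw z
def V1 (X : ℂ → ℂ) (F : ℝ → ℂ → ℂ) (S : Set ℂ) (t : ℝ) : ℝ := ∫ z in F t '' S, dvg (smX gw X) z
def V2 (X : ℂ → ℂ) (F : ℝ → ℂ → ℂ) (S : Set ℂ) (t : ℝ) : ℝ :=
  ∫ z in F t '' S, dvg (smX (dvg (smX gw X)) X) z

section

variable (hX : ContDiff ℝ ∞ X) (hc : HasCompactSupport X) (hF : IsFlow X F)

include P hX hc hF in
lemma En_deriv {R : ℝ} (haR : av k ≤ R) (t : ℝ) :
    HasDerivAt (En μ h k F R) (En1 μ h k X F R t) t := by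
  unfold En En1
  apply HasDerivAt.fun_sum
  intro j _
  exact (L0_deriv hX hc hF npi_le (ca_contOn P j) (ca'_contOn P j) (fun s hs => ca'_ne P j hs) t).add
    (L0_deriv hX hc hF haR (cy_cont j).continuousOn (cy'_cont j).continuousOn (fun s hs => cy'_ne j s) t)

include P hX hc hF in
lemma En1_deriv {R : ℝ} (haR : av k ≤ R) (t : ℝ) :
    HasDerivAt (En1 μ h k X F R) (En2 μ h k X F R t) t := by
  unfold En1 En2
  apply HasDerivAt.fun_sum
  intro j _
  exact (L1_deriv hX hc hF npi_le (ca_contOn P j) (ca'_contOn P j) (fun s hs => ca'_ne P j hs) t).add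
    (L1_deriv hX hc hF haR (cy_cont j).continuousOn (cy'_cont j).continuousOn (fun s hs => cy'_ne j s) t)

include hX hc hF in
lemma V0_deriv {S : Set ℂ} (hS : IsOpen S) (t : ℝ) : HasDerivAt (V0 F S) (V1 X F S t) t :=
  transport hX hc hF hS gw_smooth gw_integrable t

include hX hc hF in
lemma V1_deriv {S : Set ℂ} (hS : IsOpen S) (t : ℝ) : HasDerivAt (V1 X F S) (V2 X F S t) t := by
  have h1 : ContDiff ℝ ∞ (dvg (smX gw X)) := dvg_smooth (smX_smooth gw_smooth hX)
  exact transport hX hc hF hS h1 (h1.continuous.integrable_of_hasCompactSupport (dvg_cpt (smX_cpt hc))) t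

include hF in
lemma F_zero_image (S : Set ℂ) : F 0 '' S = S := by
  have : F 0 = id := funext hF.zero
  rw [this, image_id]

include P in
lemma sum_AI {Y : ℂ → ℂ} (hY : ContDiff ℝ 1 Y) (hc : HasCompactSupport Y) {R : ℝ}
    (hR : ∀ z, R ≤ ‖z‖ → Y z = 0) (haR : av k ≤ R) :
    ∑ j, AI μ h k j Y = ∑ j, ∫ z in Oc P j, dvg Y z := by
  have h1 := fun j => div_Oc P hY hc hR haR j
  simp only [Fin.sum_univ_three, h1]
  have z4 : (0 + 2 : Fin 3) = 2 := rfl
  have z5 : (1 + 2 : Fin 3) = 0 := rfl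
  have z6 : (2 + 2 : Fin 3) = 1 := rfl
  rw [z4, z5, z6]; ring

lemma smX_out {ψ : ℂ → ℝ} {R : ℝ} (hR : ∀ z, R ≤ ‖z‖ → X z = 0) : ∀ z, R ≤ ‖z‖ → smX ψ X z = 0 := by
  intro z hz; unfold smX; rw [hR z hz, mul_zero]

include hX hc hF in
/-- first variation formula -/
theorem first_var {R : ℝ} (haR : av k ≤ R) (hR : ∀ z, R ≤ ‖z‖ → X z = 0) :
    En1 μ h k X F R 0 = -μ * ∑ j, V1 X F (Oc P j) 0 := by
  have hR0 : 0 ≤ R := (av_pos P).le.trans haR
  have h1 := fun j => L1_arc P hX hc hF j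
  have h2 := fun j => L1_ray hX hc hF j haR hR hR0
  have h3 := fun j => vertex_first P (X := X) j
  have h4 := sum_AI P ((smX_smooth gw_smooth hX).of_le (by exact_mod_cast le_top)) (smX_cpt hc)
    (smX_out hR) haR (Y := smX gw X)
  unfold En1 V1
  simp only [h1, h2, F_zero_image hF]
  rw [← h4]
  have v0 := h3 0
  have v1 := h3 1
  have v2 := h3 2
  have z1 : (0 + 1 : Fin 3) = 1 := rfl
  have z2 : (1 + 1 : Fin 3) = 2 := rfl
  have z3 : (2 + 1 : Fin 3) = 0 := rfl
  rw [z1] at v0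
  rw [z2] at v1
  rw [z3] at v2
  simp only [Fin.sum_univ_three]
  linarith

include hX hc hF in
/-- second variation formula -/
theorem second_var {R : ℝ} (haR : av k ≤ R) (hR : ∀ z, R ≤ ‖z‖ → X z = 0) :
    En2 μ h k X F R 0 + μ * ∑ j, V2 X F (Oc P j) 0 =
    (∑ j, ∫ r in (av k)..R, ph r * (fr' X j r ^ 2 - fr X j r ^ 2)) +
      CC μ h * (∑ j, ∫ x in (-(π/6))..(π/6), (fa' μ h k X j x ^ 2 - (1 + sg μ h x ^ 2) * fa h k X j x ^ 2)) +
      CC μ h / √3 * ∑ j, (fa h k X j (π/6) ^ 2 + fa h k X (j+1) (-(π/6)) ^ 2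
        - 4 * fa h k X j (π/6) * fa h k X (j+1) (-(π/6))) := by
  have h1 := fun j => L2_arc P hX hc hF j
  have h2 := fun j => L2_ray hX hc hF j (av_pos P).le haR hR
  have h3 := fun j => vertex_second P (X := X) j
  have h4 := sum_AI P ((smX_smooth (dvg_smooth (smX_smooth gw_smooth hX)) hX).of_le (by exact_mod_cast le_top))
    (smX_cpt hc) (smX_out hR) haR (Y := smX (dvg (smX gw X)) X)
  unfold En2 V2
  simp only [h1, h2, F_zero_image hF]
  rw [← h4]
  have v0 := h3 0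
  have v1 := h3 1
  have v2 := h3 2
  have z1 : (0 + 1 : Fin 3) = 1 := rfl
  have z2 : (1 + 1 : Fin 3) = 2 := rfl
  have z3 : (2 + 1 : Fin 3) = 0 := rfl
  rw [z1] at v0
  rw [z2] at v1
  rw [z3] at v2
  simp only [Fin.sum_univ_three, z1, z2, z3]
  linear_combination v0 + v1 + v2

include hX hc hF in
lemma V1_zero {R : ℝ} (haR : av k ≤ R) (hR : ∀ z, R ≤ ‖z‖ → X z = 0) (j : Fin 3) :
    V1 X F (Oc P j) 0 = CC μ h * (∫ x in (-(π/6))..(π/6), sg μ h x ^ 2 * fa h k X j x)
      + (∫ r in (av k)..R, ph r * fr X j r) - (∫ r in (av k)..R, ph r * fr X (j+2) r) := by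
  unfold V1
  rw [F_zero_image hF, div_Oc P ((smX_smooth gw_smooth hX).of_le (by exact_mod_cast le_top)) (smX_cpt hc)
    (smX_out hR) haR j, AI_eq, RI_eq, RI_eq]
  have e1 : ∫ θ in (-(π/6))..(π/6), sg μ h θ * dt (smX gw X (ca h k j θ)) (Complex.I * Ta j θ) =
      CC μ h * (∫ x in (-(π/6))..(π/6), sg μ h x ^ 2 * fa h k X j x) := by
    rw [← intervalIntegral.integral_const_mul]
    apply intervalIntegral.integral_congr
    intro s hs
    rw [uIcc_of_le npi_le] at hs
    have hm := P.muh (sub_mem hs)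
    have e3 : CC μ h = (μ + h s) * gw (ca h k j s) := by
      rw [← first_integral P (sub_mem hs)]
      unfold gw ca
      rw [norm_mul, rho_norm, one_mul]
    have e4 : sg μ h s * gw (ca h k j s) = CC μ h * sg μ h s ^ 2 := by
      rw [e3]; unfold sg
      have : μ + h s ≠ 0 := by linarith
      field_simp
    have e5 : dt (smX gw X (ca h k j s)) (Complex.I * Ta j s) = gw (ca h k j s) * fa h k X j s := by
      unfold smX fa dt
      simp only [Complex.mul_re, Complex.mul_im, Complex.ofReal_re, Complex.ofReal_im]; ring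
    simp only
    rw [e5, ← mul_assoc, e4]; ring
  have e2 : ∀ j, ∫ r in (av k)..R, dt (smX gw X (cy j r)) (Complex.I * Er j) =
      ∫ r in (av k)..R, ph r * fr X j r := by
    intro j
    apply intervalIntegral.integral_congr
    intro r hr
    rw [uIcc_of_le haR] at hr
    simp only
    rw [← gw_cy j ((av_pos P).le.trans hr.1)]
    unfold smX fr dt
    simp only [Complex.mul_re, Complex.mul_im, Complex.ofReal_re, Complex.ofReal_im]; ring
  rw [e1, e2, e2]

end

/-- stability -/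
theorem stab_final (P : Prof 100 h k) (hX : ContDiff ℝ ∞ X) (hc : HasCompactSupport X) (hF : IsFlow X F)
    {R : ℝ} (haR : av k ≤ R) (hR : ∀ z, R ≤ ‖z‖ → X z = 0) (hV : ∀ j, V1 X F (Oc P j) 0 = 0) :
    0 ≤ En2 100 h k X F R 0 + 100 * ∑ j, V2 X F (Oc P j) 0 := by
  rw [second_var P hX hc hF haR hR]
  have hac : ∀ j, ContinuousOn (aa 100 h k X j) (Icc (-(π/6)) (π/6)) := by
    intro j
    unfold aa
    exact (((hX.continuous_fderiv (by simp)).comp_continuousOn (ca_contOn P j)).clm_apply (ca'_contOn P j))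
  have hIT : ∀ j, ContinuousOn (fun θ => Complex.I * Ta j θ) (Icc (-(π/6)) (π/6)) := by
    intro j
    unfold Ta
    exact (continuous_const.mul (continuous_const.mul (continuous_const.mul ee_cont))).continuousOn
  have huc : ∀ j, ContinuousOn (ua h k X j) (Icc (-(π/6)) (π/6)) := fun j x hx =>
    (ua_deriv P hX j (sub_mem hx)).continuousAt.continuousWithinAt
  have hac' : ∀ j, Continuous (ar X j) := by
    intro j
    unfold ar
    exact ((hX.continuous_fderiv (by simp)).comp (cy_cont j)).clm_apply (cy'_cont j)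
  refine stab P (f := fun j => fr X j) (f' := fun j => fr' X j) (g := fun j => fa h k X j)
    (g' := fun j => fa' 100 h k X j) (fun j r => fr_deriv hX j r) ?_
    (fun j x hx => fa_deriv P hX j (sub_mem hx)) ?_ haR ?_ (fun j => matching P j) ?_
  · intro j
    unfold fr'
    exact dt_cont.comp ((hac' j).prodMk continuous_const)
  · intro j
    unfold fa'
    exact (dt_contOn (hac j) (hIT j)).sub (huc j)
  · intro j
    show fr X j R = 0
    unfold fr
    rw [hR _ (by rw [cy_norm j ((av_pos P).le.trans haR)]), dt_zero_left]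
  · intro j
    have := hV j
    rw [V1_zero P hX hc hF haR hR j] at this
    exact this

end

end Pool.Agent.W562.GP
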