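import Mathlib

set_option autoImplicit false

open Set MeasureTheory Filter Topology
open scoped ContDiff ComplexConjugate

/-!
# Partitions of the Gaussian plane

The Gaussian plane is modelled on `ℂ` with its Euclidean structure.
-/

namespace Pool.Agent.W562.GaussPart

noncomputable section

/-- The standard Gaussian density of the plane. -/
def gden (z : ℂ) : ℝ := (2 * Real.pi)⁻¹ * Real.exp (-‖z‖ ^ 2 / 2)

/-- Gaussian measure of a set. -/
def gmeas (S : Set ℂ) : ℝ := ∫ z in S, gden z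

/-- The Gaussian divergence `div X - ⟨z, X⟩` of a planar vector field. -/
def gdiv (X : ℂ → ℂ) (z : ℂ) : ℝ :=
  (fderiv ℝ X z 1).re + (fderiv ℝ X z Complex.I).im - (z.re * (X z).re + z.im * (X z).im)

/-- Finite Gaussian perimeter, in the sense of De Giorgi. -/
def FinitePerimeter (S : Set ℂ) : Prop :=
  ∃ C : ℝ, ∀ X : ℂ → ℂ, ContDiff ℝ ∞ X → HasCompactSupport X → (∀ z, ‖X z‖ ≤ 1) →
    ∫ z in S, gdiv X z * gden z ≤ C

/-- A `q`-partition: nonempty pairwise disjoint open cells of finite perimeter whose closures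
cover the plane. -/
structure IsPartition {q : ℕ} (Ω : Fin q → Set ℂ) : Prop where
  isOpen : ∀ i, IsOpen (Ω i)
  nonempty : ∀ i, (Ω i).Nonempty
  disjoint : ∀ i j, i ≠ j → Disjoint (Ω i) (Ω j)
  cover : ∀ z, ∃ i, z ∈ closure (Ω i)
  perimeter : ∀ i, FinitePerimeter (Ω i)

/-- The interface `∂Ω_i ∩ ∂Ω_j`. -/
def iface {q : ℕ} (Ω : Fin q → Set ℂ) (i j : Fin q) : Set ℂ := frontier (Ω i) ∩ frontier (Ω j)

/-- Gaussian area: the sum over `i < j` of the integrals of the Gaussian density over the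
interfaces with respect to the one dimensional Hausdorff measure. -/
def garea {q : ℕ} (Ω : Fin q → Set ℂ) : ℝ :=
  ∑ i, ∑ j, if i < j then ∫ z in iface Ω i j, gden z ∂μH[1] else 0

/-- Near `p` exactly two cells are present, separated by a smooth curve through `p`: the zero set
of a smooth function with nonzero differential at `p`. -/
def SmoothPoint {q : ℕ} (Ω : Fin q → Set ℂ) (p : ℂ) : Prop :=
  ∃ i j : Fin q, i ≠ j ∧ ∃ U : Set ℂ, IsOpen U ∧ p ∈ U ∧ ∃ f : ℂ → ℝ,
    ContDiffOn ℝ ∞ f U ∧ f p = 0 ∧ fderiv ℝ f p ≠ 0 ∧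
    Ω i ∩ U = {z ∈ U | 0 < f z} ∧ Ω j ∩ U = {z ∈ U | f z < 0} ∧
    ∀ l, l ≠ i → l ≠ j → Ω l ∩ U = ∅

/-- Near `p` exactly three cells are present, separated by three smooth curves ending at `p` that
meet there at 120 degrees: `f 0, f 1, f 2` are smooth near `p`, vanish at `p`, their gradients
`v 0, v 1, v 2` at `p` are unit vectors with sum zero, and the cells are
`{0 < f m, f (m + 1) < 0}`. -/
def TriplePoint {q : ℕ} (Ω : Fin q → Set ℂ) (p : ℂ) : Prop :=
  ∃ c : Fin 3 → Fin q, Function.Injective c ∧ ∃ U : Set ℂ, IsOpen U ∧ p ∈ U ∧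
    ∃ (f : Fin 3 → ℂ → ℝ) (v : Fin 3 → ℂ),
    (∀ m, ContDiffOn ℝ ∞ (f m) U ∧ f m p = 0 ∧ ‖v m‖ = 1 ∧
      HasFDerivAt (f m) (innerSL ℝ (v m)) p) ∧ v 0 + v 1 + v 2 = 0 ∧
    (∀ m, Ω (c m) ∩ U = {z ∈ U | 0 < f m z ∧ f (m + 1) z < 0}) ∧
    ∀ l, (∀ m, c m ≠ l) → Ω l ∩ U = ∅

/-- Regular planar partition: every boundary point is a smooth point or a 120 degree triple
point (no further singular points). -/
def IsRegular {q : ℕ} (Ω : Fin q → Set ℂ) : Prop :=
  ∀ i, ∀ p ∈ frontier (Ω i), SmoothPoint Ω p ∨ TriplePoint Ω p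

/-- `F` is the flow of the smooth compactly supported vector field `X`. -/
def IsFlowOf (X : ℂ → ℂ) (F : ℝ → ℂ → ℂ) : Prop :=
  ContDiff ℝ ∞ X ∧ HasCompactSupport X ∧ (∀ z, F 0 z = z) ∧
    ∀ t z, HasDerivAt (fun s => F s z) (X (F t z)) t

/-- The partition moved by a map. -/
def move {q : ℕ} (f : ℂ → ℂ) (Ω : Fin q → Set ℂ) : Fin q → Set ℂ := fun i => f '' Ω i

/-- The Gaussian area of the partition and of all its images under flows is finite. -/
def FiniteArea {q : ℕ} (Ω : Fin q → Set ℂ) : Prop :=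
  ∀ X F, IsFlowOf X F → ∀ t, ∀ i j, i < j → IntegrableOn gden (iface (move (F t) Ω) i j) μH[1]

/-- Stationary: the Gaussian area is stationary to first order along every flow that preserves
the Gaussian measure of every cell to first order. -/
def Stationary {q : ℕ} (Ω : Fin q → Set ℂ) : Prop :=
  ∀ X F, IsFlowOf X F → (∀ i, HasDerivAt (fun t => gmeas (F t '' Ω i)) 0 0) →
    HasDerivAt (fun t => garea (move (F t) Ω)) 0 0

/-- `f` is differentiable with derivative `f'`, and `f'` has derivative `a` at `0`. -/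
def TwiceDeriv (f f' : ℝ → ℝ) (a : ℝ) : Prop := (∀ t, HasDerivAt f (f' t) t) ∧ HasDerivAt f' a 0

/-- Stable: stationary, and the second derivative of the Gaussian area exists and is nonnegative
along every flow keeping the Gaussian measures of all cells fixed (for small time). -/
def Stable {q : ℕ} (Ω : Fin q → Set ℂ) : Prop :=
  Stationary Ω ∧ ∀ X F, IsFlowOf X F → (∀ i, ∀ᶠ t in 𝓝 0, gmeas (F t '' Ω i) = gmeas (Ω i)) →
    ∃ A' A2, TwiceDeriv (fun t => garea (move (F t) Ω)) A' A2 ∧ 0 ≤ A2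

/-- Nonnegative index form: with Lagrange multipliers `lam i`, the first variation of area is
`∑ lam i` times that of the measures of the cells, and for every field preserving all the measures
to first order the second variation of `A - ∑ lam i * γ(Ω i)` is nonnegative. -/
def IndexNonneg {q : ℕ} (Ω : Fin q → Set ℂ) : Prop :=
  ∃ lam : Fin q → ℝ, ∀ X F, IsFlowOf X F →
    ∃ (A' : ℝ → ℝ) (A2 : ℝ) (V' : Fin q → ℝ → ℝ) (V2 : Fin q → ℝ),
      TwiceDeriv (fun t => garea (move (F t) Ω)) A' A2 ∧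
      (∀ i, TwiceDeriv (fun t => gmeas (F t '' Ω i)) (V' i) (V2 i)) ∧
      A' 0 = ∑ i, lam i * V' i 0 ∧
      ((∀ i, V' i 0 = 0) → 0 ≤ A2 - ∑ i, lam i * V2 i)

/-- Flat interfaces: every interface lies in a line. -/
def FlatInterfaces {q : ℕ} (Ω : Fin q → Set ℂ) : Prop :=
  ∀ i j, i < j → ∃ (v : ℂ) (b : ℝ), v ≠ 0 ∧ ∀ z ∈ iface Ω i j, v.re * z.re + v.im * z.im = b

/-- Product structure: after a rotation `z ↦ u * z` the cells are `Ω' i × ℝ`. -/
def HasProductStructure {q : ℕ} (Ω : Fin q → Set ℂ) : Prop :=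
  ∃ u : ℂ, ‖u‖ = 1 ∧ ∃ Ω' : Fin q → Set ℝ, ∀ i, Ω i = {z | (u * z).re ∈ Ω' i}

end

end Pool.Agent.W562.GaussPart
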