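import Pool.Agent.W562.GP.Graph

set_option autoImplicit false
set_option linter.all false

open Set MeasureTheory Real Filter Topology
open scoped NNReal ContDiff ComplexConjugate

namespace Pool.Agent.W562.GP

noncomputable section

variable {μ : ℝ} {h k : ℝ → ℝ}

/-- the three rotations -/
def rho : Fin 3 → ℂ := ![1, ⟨-1/2, √3/2⟩, ⟨-1/2, -(√3/2)⟩]

def cr (j : Fin 3) (z : ℂ) : ℂ := conj (rho j) * z

lemma cr_zero (z : ℂ) : cr 0 z = z := by simp [cr, rho]
lemma cr_one (z : ℂ) : cr 1 z = ⟨-z.re/2 + √3/2 * z.im, -(√3/2) * z.re - z.im/2⟩ := by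
  apply Complex.ext
  · simp [cr, rho]; ring
  · simp [cr, rho]; ring
lemma cr_two (z : ℂ) : cr 2 z = ⟨-z.re/2 - √3/2 * z.im, √3/2 * z.re - z.im/2⟩ := by
  apply Complex.ext
  · simp [cr, rho]; ring
  · simp [cr, rho]; ring

lemma rho_norm (j : Fin 3) : ‖rho j‖ = 1 := by
  have h3 := sqrt3_sq
  have key : ‖rho j‖ ^ 2 = 1 := by
    rw [← Complex.normSq_eq_norm_sq, Complex.normSq_apply]
    fin_cases j
    · simp [rho]
    · simp [rho]; linear_combination h3 / 4
    · simp [rho]; linear_combination h3 / 4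
  have := norm_nonneg (rho j)
  nlinarith [sq_nonneg (‖rho j‖ - 1)]

lemma rho_conj (j : Fin 3) : conj (rho j) * rho j = 1 := by
  rw [← Complex.normSq_eq_conj_mul_self, Complex.normSq_eq_norm_sq, rho_norm]; simp

lemma rho_conj' (j : Fin 3) : rho j * conj (rho j) = 1 := by
  rw [mul_comm, rho_conj]

lemma rho_ne (j : Fin 3) : rho j ≠ 0 := by
  intro h0; have := rho_norm j; rw [h0] at this; simp at this

lemma cr_mul (j : Fin 3) (z : ℂ) : cr j (rho j * z) = z := by
  unfold cr; rw [← mul_assoc, rho_conj, one_mul]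

lemma mul_cr (j : Fin 3) (z : ℂ) : rho j * cr j z = z := by
  unfold cr; rw [← mul_assoc, rho_conj', one_mul]

lemma cr_norm (j : Fin 3) (z : ℂ) : ‖cr j z‖ = ‖z‖ := by
  unfold cr; rw [norm_mul, RCLike.norm_conj, rho_norm, one_mul]

lemma cr_succ (j : Fin 3) (z : ℂ) : cr (j + 1) z = cr 1 (cr j z) := by
  have h3 := sqrt3_sq
  fin_cases j
  · show cr 1 z = cr 1 (cr 0 z)
    rw [cr_zero]
  · show cr 2 z = cr 1 (cr 1 z)
    rw [cr_two, cr_one, cr_one]
    apply Complex.ext
    · simp only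
      linear_combination (z.re/4) * h3
    · simp only
      linear_combination (z.im/4) * h3
  · show cr 0 z = cr 1 (cr 2 z)
    rw [cr_zero, cr_one, cr_two]
    apply Complex.ext
    · simp only
      linear_combination (-z.re/4) * h3
    · simp only
      linear_combination (-z.im/4) * h3

def crH (j : Fin 3) : ℂ ≃ₜ ℂ where
  toFun := cr j
  invFun := fun z => rho j * z
  left_inv := fun z => mul_cr j z
  right_inv := fun z => cr_mul j z
  continuous_toFun := continuous_const.mul continuous_id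
  continuous_invFun := continuous_const.mul continuous_id

lemma cr_cont (j : Fin 3) : Continuous (cr j) := (crH j).continuous

/-! ### sectors -/

def Sc : Set ℂ := {w | |w.im| ≤ √3 * w.re}

lemma sc_one {z : ℂ} : cr 1 z ∈ Sc ↔ 0 ≤ z.im ∧ √3 * z.re ≤ z.im := by
  have h3 := sqrt3_sq
  unfold Sc
  rw [mem_setOf_eq, cr_one, abs_le]
  simp only
  have e1 : √3 * (-z.re/2 + √3/2 * z.im) = -(√3 * z.re)/2 + 3/2 * z.im := by
    linear_combination (z.im / 2) * h3
  rw [e1]
  constructor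
  · rintro ⟨a, b⟩
    constructor <;> linarith
  · rintro ⟨a, b⟩
    constructor <;> linarith

lemma sc_two {z : ℂ} : cr 2 z ∈ Sc ↔ z.im ≤ 0 ∧ √3 * z.re ≤ -z.im := by
  have h3 := sqrt3_sq
  unfold Sc
  rw [mem_setOf_eq, cr_two, abs_le]
  simp only
  have e1 : √3 * (-z.re/2 - √3/2 * z.im) = -(√3 * z.re)/2 - 3/2 * z.im := by
    linear_combination (-z.im / 2) * h3
  rw [e1]
  constructor
  · rintro ⟨a, b⟩
    constructor <;> linarith
  · rintro ⟨a, b⟩
    constructor <;> linarith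

lemma sc_cover (z : ℂ) : ∃ j, cr j z ∈ Sc := by
  by_cases h0 : |z.im| ≤ √3 * z.re
  · exact ⟨0, by rw [cr_zero]; exact h0⟩
  · push Not at h0
    rcases le_total 0 z.im with h1 | h1
    · refine ⟨1, sc_one.2 ⟨h1, ?_⟩⟩
      rw [abs_of_nonneg h1] at h0; exact h0.le
    · refine ⟨2, sc_two.2 ⟨h1, ?_⟩⟩
      rw [abs_of_nonpos h1] at h0; exact h0.le

lemma sc_excl0 {z : ℂ} (h0 : |z.im| < √3 * z.re) : cr 1 z ∉ Sc ∧ cr 2 z ∉ Sc := by
  constructor
  · intro hc
    have := sc_one.1 hc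
    rw [abs_of_nonneg this.1] at h0
    linarith [this.2]
  · intro hc
    have := sc_two.1 hc
    rw [abs_of_nonpos this.1] at h0
    linarith [this.2]

lemma cr_add (i j : Fin 3) (z : ℂ) : cr (i + j) z = cr j (cr i z) := by
  fin_cases j
  · show cr (i + 0) z = cr 0 (cr i z)
    rw [add_zero, cr_zero]
  · exact cr_succ i z
  · show cr (i + 2) z = cr 2 (cr i z)
    have e1 : i + 2 = (i + 1) + 1 := by fin_cases i <;> rfl
    have e2 : (2 : Fin 3) = 1 + 1 := rfl
    rw [e1, cr_succ, cr_succ, e2, cr_succ]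

lemma sc_excl {i j : Fin 3} {z : ℂ} (h0 : |(cr i z).im| < √3 * (cr i z).re) (hj : cr j z ∈ Sc) :
    j = i := by
  have h1 := sc_excl0 h0
  have e : j = i + (j - i) := (add_sub_cancel i j).symm
  rw [e, cr_add] at hj
  have h2 : j - i = 0 := by
    generalize j - i = m at hj
    fin_cases m
    · rfl
    · exact absurd hj h1.1
    · exact absurd hj h1.2
  rw [e, h2, add_zero]

/-! ### the cells -/

variable (P : Prof μ h k)

def Oc (j : Fin 3) : Set ℂ := {z | Hf P (cr j z).im < (cr j z).re}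
def Oi : Set ℂ := {z | ∀ j, (cr j z).re < Hf P (cr j z).im}

/-- the partition -/
def Om : Fin 4 → Set ℂ := ![Oc P 0, Oc P 1, Oc P 2, Oi P]

lemma Oc_open (j : Fin 3) : IsOpen (Oc P j) :=
  isOpen_lt ((Hf_cont P).comp (Complex.continuous_im.comp (cr_cont j)))
    (Complex.continuous_re.comp (cr_cont j))

lemma Oi_open : IsOpen (Oi P) := by
  have : Oi P = ⋂ j, {z | (cr j z).re < Hf P (cr j z).im} := by ext z; simp [Oi]
  rw [this]
  exact isOpen_iInter_of_finite fun j => isOpen_lt (Complex.continuous_re.comp (cr_cont j))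
    ((Hf_cont P).comp (Complex.continuous_im.comp (cr_cont j)))

lemma sqrt3_pos : 0 < √3 := by positivity

lemma sc_of_ge {w : ℂ} (hw : Hf P w.im ≤ w.re) : w ∈ Sc := by
  have h1 := (Hf_ge P w.im).trans hw
  rw [div_le_iff₀ sqrt3_pos] at h1
  show |w.im| ≤ √3 * w.re
  linarith

lemma sc_of_gt {w : ℂ} (hw : Hf P w.im < w.re) : |w.im| < √3 * w.re := by
  have h1 := (Hf_ge P w.im).trans_lt hw
  rw [div_lt_iff₀ sqrt3_pos] at h1
  linarith

lemma Oc_disj {i j : Fin 3} (hij : i ≠ j) : Disjoint (Oc P i) (Oc P j) := by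
  rw [Set.disjoint_left]
  intro z hi hj
  exact hij (sc_excl (sc_of_gt P hi) (sc_of_ge P (le_of_lt hj))).symm

lemma Oi_disj (i : Fin 3) : Disjoint (Oc P i) (Oi P) := by
  rw [Set.disjoint_left]
  intro z hi hj
  exact absurd (hj i) (not_lt.2 (le_of_lt hi))

/-! ### closures and frontiers -/

lemma closure_sup {g : ℝ → ℝ} (hg : Continuous g) :
    closure {w : ℂ | g w.im < w.re} = {w | g w.im ≤ w.re} := by
  apply subset_antisymm
  · exact closure_minimal (fun w (hw : g w.im < w.re) => (show g w.im ≤ w.re from le_of_lt hw))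
      (isClosed_le (hg.comp Complex.continuous_im) Complex.continuous_re)
  · intro w hw
    have h1 : Tendsto (fun n : ℕ => w + ((1 / ((n:ℝ) + 1) : ℝ) : ℂ)) atTop (𝓝 w) := by
      have h2 := (Complex.continuous_ofReal.tendsto 0).comp tendsto_one_div_add_atTop_nhds_zero_nat
      have h3 := h2.const_add w
      simpa using h3
    apply mem_closure_of_tendsto h1
    apply Eventually.of_forall
    intro n
    show g (w + ((1 / ((n:ℝ) + 1) : ℝ) : ℂ)).im < (w + ((1 / ((n:ℝ) + 1) : ℝ) : ℂ)).re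
    rw [Complex.add_im, Complex.add_re, Complex.ofReal_im, Complex.ofReal_re, add_zero]
    have h2 : 0 < 1 / ((n:ℝ) + 1) := by positivity
    have h3 : g w.im ≤ w.re := hw
    linarith

lemma frontier_sup {g : ℝ → ℝ} (hg : Continuous g) :
    frontier {w : ℂ | g w.im < w.re} = {w | g w.im = w.re} := by
  have ho : IsOpen {w : ℂ | g w.im < w.re} :=
    isOpen_lt (hg.comp Complex.continuous_im) Complex.continuous_re
  rw [ho.frontier_eq, closure_sup hg]
  ext w
  simp only [mem_diff, mem_setOf_eq, not_lt]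
  exact ⟨fun ⟨a, b⟩ => le_antisymm a b, fun a => ⟨a.le, a.ge⟩⟩

lemma Oc_closure (j : Fin 3) : closure (Oc P j) = {z | Hf P (cr j z).im ≤ (cr j z).re} := by
  have h1 := (crH j).preimage_closure {w : ℂ | Hf P w.im < w.re}
  rw [closure_sup (Hf_cont P)] at h1
  exact h1.symm

lemma Oc_frontier (j : Fin 3) : frontier (Oc P j) = {z | Hf P (cr j z).im = (cr j z).re} := by
  have h1 := (crH j).preimage_frontier {w : ℂ | Hf P w.im < w.re}
  rw [frontier_sup (Hf_cont P)] at h1
  exact h1.symm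

lemma cover (z : ℂ) : (∃ j, z ∈ closure (Oc P j)) ∨ z ∈ Oi P := by
  by_cases hz : z ∈ Oi P
  · exact Or.inr hz
  · left
    unfold Oi at hz
    simp only [mem_setOf_eq, not_forall, not_lt] at hz
    obtain ⟨j, hj⟩ := hz
    exact ⟨j, by rw [Oc_closure]; exact hj⟩

/-- arcs and rays -/
def Arc (h k : ℝ → ℝ) (j : Fin 3) : Set ℂ := (fun θ => rho j * ax h k θ) '' Icc (-(π/6)) (π/6)
def Ray (k : ℝ → ℝ) (j : Fin 3) : Set ℂ := (fun r : ℝ => rho j * (r * ee (π/3))) '' Ici (av k)

lemma normSq_eq (w : ℂ) : ‖w‖ ^ 2 = w.re ^ 2 + w.im ^ 2 := by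
  rw [← Complex.normSq_eq_norm_sq, Complex.normSq_apply]; ring

/-- the inner cell is bounded -/
lemma Oi_norm {z : ℂ} (hz : z ∈ Oi P) : ‖z‖ ≤ av k := by
  obtain ⟨j, hj⟩ := sc_cover z
  have h1 := hz j
  rw [← cr_norm j z]
  set w := cr j z with hw
  have h2 : |w.im| ≤ √3 * w.re := hj
  have h3 : 0 ≤ w.re := by
    have := (abs_nonneg _).trans h2
    by_contra hc
    push Not at hc
    nlinarith [sqrt3_pos]
  have h4 : |w.im| < bv k := by
    by_contra hc
    push Not at hc
    rw [Hf_of_ge P hc, lt_div_iff₀ sqrt3_pos] at h1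
    linarith
  have h5 : Hf P w.im = gf P w.im := Hf_of_le P h4.le
  have h6 := ax_norm_le P (Tg_mem P h4.le)
  rw [ax_Tg P h4.le] at h6
  have h7 : ‖(⟨gf P w.im, w.im⟩ : ℂ)‖ ^ 2 ≤ av k ^ 2 :=
    pow_le_pow_left₀ (norm_nonneg _) h6 2
  rw [normSq_eq] at h7
  simp only at h7
  have h8 : ‖w‖ ^ 2 ≤ av k ^ 2 := by
    rw [normSq_eq]
    rw [h5] at h1
    nlinarith
  exact abs_le_of_sq_le_sq' h8 (av_pos P).le |>.2

lemma Oi_closure_norm {z : ℂ} (hz : z ∈ closure (Oi P)) : ‖z‖ ≤ av k := by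
  have h1 : Oi P ⊆ Metric.closedBall 0 (av k) := fun w hw => by
    rw [mem_closedBall_zero_iff]; exact Oi_norm P hw
  have h2 := closure_minimal h1 Metric.isClosed_closedBall hz
  rwa [mem_closedBall_zero_iff] at h2

/-- interface of outer cell `j` with the inner cell -/
lemma iface_arc (j : Fin 3) : frontier (Oc P j) ∩ frontier (Oi P) = Arc h k j := by
  apply subset_antisymm
  · rintro z ⟨h1, h2⟩
    rw [Oc_frontier] at h1
    have h3 : Hf P (cr j z).im = (cr j z).re := h1
    have h4 : ‖z‖ ≤ av k := Oi_closure_norm P h2.1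
    rw [← cr_norm j] at h4
    set w := cr j z with hw
    have h5 : |w.im| ≤ bv k := by
      by_contra hc
      push Not at hc
      rw [Hf_of_ge P hc.le] at h3
      have h6 : w.re ^ 2 * 3 = w.im ^ 2 := by
        rw [← h3, div_pow, sq_abs, sq_sqrt (by norm_num)]
        field_simp
      have h7 : ‖w‖ ^ 2 ≤ av k ^ 2 := pow_le_pow_left₀ (norm_nonneg _) h4 2
      rw [normSq_eq] at h7
      have h8 : av k ^ 2 * 3 = 4 * bv k ^ 2 := by
        unfold av bv
        linear_combination (-4 * k (π/6)^2) * sqrt3_sq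
      have h9 : bv k ^ 2 < w.im ^ 2 := by
        rw [← sq_abs w.im]
        exact pow_lt_pow_left₀ hc (bv_pos P).le (by norm_num)
      nlinarith
    refine ⟨Tg P w.im, Tg_mem P h5, ?_⟩
    show rho j * ax h k (Tg P w.im) = z
    rw [ax_Tg P h5, ← Hf_of_le P h5, h3]
    exact mul_cr j z
  · have hIoo : ∀ θ ∈ Ioo (-(π/6)) (π/6), rho j * ax h k θ ∈ closure (Oi P) := by
      intro θ hθ
      have hs := ax_sector' P hθ
      have hH := Hf_ax P (Ioo_subset_Icc_self hθ)
      set w := ax h k θ with hw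
      have h1 : Tendsto (fun n : ℕ => rho j * (w - ((1 / ((n:ℝ) + 1) : ℝ) : ℂ))) atTop (𝓝 (rho j * w)) := by
        have h2 := (Complex.continuous_ofReal.tendsto 0).comp tendsto_one_div_add_atTop_nhds_zero_nat
        have h3 := (h2.const_sub w).const_mul (rho j)
        simpa using h3
      apply mem_closure_of_tendsto h1
      have h2 : Tendsto (fun n : ℕ => (w.re - 1 / ((n:ℝ) + 1))) atTop (𝓝 w.re) := by
        simpa using (tendsto_one_div_add_atTop_nhds_zero_nat (𝕜 := ℝ)).const_sub w.re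
      have h3 : ∀ᶠ n : ℕ in atTop, |w.im| / √3 < w.re - 1 / ((n:ℝ) + 1) := by
        apply h2.eventually (lt_mem_nhds _)
        rw [div_lt_iff₀ sqrt3_pos]; linarith
      filter_upwards [h3] with n hn
      have hp : 0 < 1 / ((n:ℝ) + 1) := by positivity
      have hre : (w - ((1 / ((n:ℝ) + 1) : ℝ) : ℂ)).re = w.re - 1 / ((n:ℝ) + 1) := by
        rw [Complex.sub_re, Complex.ofReal_re]
      have him : (w - ((1 / ((n:ℝ) + 1) : ℝ) : ℂ)).im = w.im := by
        rw [Complex.sub_im, Complex.ofReal_im, sub_zero]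
      intro i
      by_cases hij : i = j
      · rw [hij, cr_mul, hre, him, hH]
        linarith
      · by_contra hc
        push Not at hc
        have h4 := sc_of_ge P hc
        apply hij
        apply sc_excl _ h4
        rw [cr_mul, hre, him]
        rw [div_lt_iff₀ sqrt3_pos] at hn
        linarith
    rintro z ⟨θ, hθ, rfl⟩
    have hcl : rho j * ax h k θ ∈ closure (Oi P) := by
      have hc : Continuous (fun θ => rho j * ax h k θ) ∨ True := Or.inr trivial
      have h1 : θ ∈ closure (Ioo (-(π/6)) (π/6)) := by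
        rw [closure_Ioo (by linarith [pi_pos])]; exact hθ
      have h2 : ContinuousOn (fun θ => rho j * ax h k θ) (Icc (-(π/6)) (π/6)) := fun s hs =>
        ((P.ax_deriv (sub_mem hs)).continuousAt.const_mul (rho j)).continuousWithinAt
      have h3 : MapsTo (fun θ => rho j * ax h k θ) (Ioo (-(π/6)) (π/6)) (closure (Oi P)) := hIoo
      have h4 := ContinuousWithinAt.mem_closure_image (f := fun θ => rho j * ax h k θ)
        (s := Ioo (-(π/6)) (π/6)) ((h2 θ hθ).mono Ioo_subset_Icc_self) h1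
      have h5 : (fun θ => rho j * ax h k θ) '' Ioo (-(π/6)) (π/6) ⊆ closure (Oi P) := by
        rintro _ ⟨s, hs, rfl⟩; exact hIoo s hs
      exact closure_minimal h5 isClosed_closure h4
    refine ⟨?_, ?_⟩
    · rw [Oc_frontier]
      show Hf P (cr j (rho j * ax h k θ)).im = (cr j (rho j * ax h k θ)).re
      rw [cr_mul]
      exact Hf_ax P hθ
    · rw [(Oi_open P).frontier_eq]
      refine ⟨hcl, ?_⟩
      intro hc
      have := hc j
      simp only at this
      rw [cr_mul, Hf_ax P hθ] at this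
      exact lt_irrefl _ this

lemma ray_aux {w : ℂ} (h1 : Hf P w.im = w.re) (h2 : Hf P (cr 1 w).im = (cr 1 w).re) :
    av k ≤ 2 * w.re ∧ w = ((2 * w.re : ℝ) : ℂ) * ee (π/3) := by
  have s1 : w ∈ Sc := sc_of_ge P h1.le
  have s2 := sc_one.1 (sc_of_ge P h2.le)
  have s3 : |w.im| ≤ √3 * w.re := s1
  rw [abs_of_nonneg s2.1] at s3
  have s4 : w.im = √3 * w.re := le_antisymm s3 s2.2
  have h3 := sqrt3_sq
  constructor
  · by_contra hc
    push Not at hc
    have h5 : |w.im| < bv k := by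
      rw [abs_of_nonneg s2.1, s4]
      unfold bv
      unfold av at hc
      nlinarith [sqrt3_pos]
    have h6 := Hf_lb P h5
    rw [h1, abs_of_nonneg s2.1, s4, mul_comm, mul_div_assoc, div_self sqrt3_pos.ne', mul_one] at h6
    exact lt_irrefl _ h6
  · apply Complex.ext
    · rw [ee_pi3]; simp; ring
    · rw [ee_pi3, s4]; simp; ring

lemma ray_im (r : ℝ) : ((r : ℂ) * ee (π/3)) = ⟨r/2, √3/2 * r⟩ := by
  rw [ee_pi3]
  apply Complex.ext
  · simp; ring
  · simp; ring

lemma ray_graph {r : ℝ} (hr : av k ≤ r) :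
    Hf P (√3/2 * r) = r/2 ∧ Hf P (-(√3/2 * r)) = r/2 := by
  have ha := av_pos P
  have hr0 : 0 < r := by linarith
  have h1 : bv k ≤ |√3/2 * r| := by
    rw [abs_of_nonneg (by positivity)]
    unfold bv
    unfold av at hr
    nlinarith [sqrt3_pos]
  have h2 : Hf P (√3/2 * r) = r/2 := by
    rw [Hf_of_ge P h1, abs_of_nonneg (by positivity)]
    field_simp
  exact ⟨h2, by rw [Hf_even, h2]⟩

lemma cr_one_ray (r : ℝ) : cr 1 ((r : ℂ) * ee (π/3)) = ⟨r/2, -(√3/2 * r)⟩ := by
  rw [ray_im, cr_one]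
  have h3 := sqrt3_sq
  apply Complex.ext
  · simp only
    linear_combination (r/4) * h3
  · simp only; ring

/-- interface of outer cells `j` and `j+1` -/
lemma iface_ray (j : Fin 3) : frontier (Oc P j) ∩ frontier (Oc P (j+1)) = Ray k j := by
  rw [Oc_frontier, Oc_frontier]
  apply subset_antisymm
  · rintro z ⟨h1, h2⟩
    have h1' : Hf P (cr j z).im = (cr j z).re := h1
    have h2' : Hf P (cr (j+1) z).im = (cr (j+1) z).re := h2
    rw [cr_succ] at h2'
    obtain ⟨h3, h4⟩ := ray_aux P h1' h2'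
    refine ⟨2 * (cr j z).re, h3, ?_⟩
    show rho j * (((2 * (cr j z).re : ℝ) : ℂ) * ee (π/3)) = z
    rw [← h4, mul_cr]
  · rintro z ⟨r, hr, rfl⟩
    obtain ⟨h1, h2⟩ := ray_graph P hr
    constructor
    · show Hf P (cr j (rho j * (r * ee (π/3)))).im = (cr j (rho j * (r * ee (π/3)))).re
      rw [cr_mul, ray_im]
      exact h1
    · show Hf P (cr (j+1) (rho j * (r * ee (π/3)))).im = (cr (j+1) (rho j * (r * ee (π/3)))).re
      rw [cr_succ, cr_mul, cr_one_ray]
      exact h2

end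

end Pool.Agent.W562.GP
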