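import Pool.Agent.W562.GP.Sup
import Pool.Agent.W562.GP.Dom

set_option autoImplicit false
set_option linter.all false

open Set MeasureTheory Real Filter Topology
open scoped NNReal ContDiff ComplexConjugate

namespace Pool.Agent.W562.GP

noncomputable section

variable {μ : ℝ} {h k : ℝ → ℝ}

/-- euclidean inner product on `ℂ = ℝ²` -/
def dt (z w : ℂ) : ℝ := z.re * w.re + z.im * w.im

/-- divergence -/
def dvg (Y : ℂ → ℂ) (z : ℂ) : ℝ := (fderiv ℝ Y z 1).re + (fderiv ℝ Y z Complex.I).im

variable (P : Prof μ h k)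

def Hd (P : Prof μ h k) (y : ℝ) : ℝ :=
  if |y| < bv k then -tan (Tg P y) else if 0 < y then 1/√3 else -(1/√3)

lemma tan_le {θ : ℝ} (hθ : θ ∈ Icc (-(π/6)) (π/6)) : |tan θ| ≤ 1 := by
  have h1 := cos_lb (sub_mem hθ)
  have h2 : |sin θ| ≤ 1/2 := by
    have e1 : sin (-(π/6)) ≤ sin θ := sin_le_sin_of_le_of_le_pi_div_two
      (by linarith [pi_pos]) (by linarith [hθ.2, pi_pos]) hθ.1
    have e2 : sin θ ≤ sin (π/6) := sin_le_sin_of_le_of_le_pi_div_two
      (by linarith [hθ.1, pi_pos]) (by linarith [pi_pos]) hθ.2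
    rw [sin_neg, sin_pi_div_six] at e1
    rw [sin_pi_div_six] at e2
    exact abs_le.2 ⟨e1, e2⟩
  rw [tan_eq_sin_div_cos, abs_div, abs_of_pos (by linarith : 0 < cos θ), div_le_one (by linarith)]
  linarith

lemma Hd_bound (y : ℝ) : |Hd P y| ≤ 1 := by
  have h3 : 1 ≤ √3 := by
    rw [show (1:ℝ) = √1 by simp]; exact sqrt_le_sqrt (by norm_num)
  have h4 : 1 / √3 ≤ 1 := by rw [div_le_one (by positivity)]; exact h3
  have h5 : 0 ≤ 1 / √3 := by positivity
  unfold Hd
  split_ifs with h1 h2
  · rw [abs_neg]; exact tan_le (Tg_mem P h1.le)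
  · rw [abs_of_nonneg h5]; exact h4
  · rw [abs_neg, abs_of_nonneg h5]; exact h4

lemma Hd_meas : Measurable (Hd P) := by
  unfold Hd
  apply Measurable.ite
  · exact measurableSet_lt measurable_id.abs measurable_const
  · have : Measurable tan := by
      have h1 : tan = fun x => sin x / cos x := funext tan_eq_sin_div_cos
      rw [h1]
      exact measurable_sin.div measurable_cos
    exact (this.comp (Tg_cont P).measurable).neg
  · apply Measurable.ite measurableSet_Ioi measurable_const measurable_const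

lemma Hd_deriv {y : ℝ} (hy : y ∉ ({-bv k, bv k} : Set ℝ)) : HasDerivAt (Hf P) (Hd P y) y := by
  simp only [mem_insert_iff, mem_singleton_iff, not_or] at hy
  have hb := bv_pos P
  unfold Hd
  split_ifs with h1 h2
  · exact Hf_deriv_in P h1
  · apply Hf_deriv_pos
    rw [not_lt, abs_of_pos h2] at h1
    exact lt_of_le_of_ne h1 (Ne.symm hy.2)
  · apply Hf_deriv_neg
    rw [not_lt, abs_of_nonpos (by linarith)] at h1
    exact lt_of_le_of_ne (by linarith) hy.1

/-- the divergence theorem for the outer cell -/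
theorem div_U {Y : ℂ → ℂ} (hY : ContDiff ℝ 1 Y) (hc : HasCompactSupport Y) {R : ℝ}
    (hR : ∀ z, R ≤ ‖z‖ → Y z = 0) (haR : av k ≤ R) :
    ∫ z in {z : ℂ | Hf P z.im < z.re}, dvg Y z =
      - (∫ θ in (-(π/6))..(π/6), sg μ h θ * dt (Y (ax h k θ)) (ee θ))
      + (∫ r in (av k)..R, dt (Y (r * ee (π/3))) (Complex.I * ee (π/3)))
      - ∫ r in (av k)..R, dt (Y (r * ee (-(π/3)))) (Complex.I * ee (-(π/3))) := by
  set A : ℂ → ℝ := fun z => (Y z).re with hA
  set B : ℂ → ℝ := fun z => (Y z).im with hB
  have hAs : ContDiff ℝ 1 A := Complex.reCLM.contDiff.comp hY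
  have hBs : ContDiff ℝ 1 B := Complex.imCLM.contDiff.comp hY
  have hAc : HasCompactSupport A := hc.comp_left (g := Complex.re) rfl
  have hBc : HasCompactSupport B := hc.comp_left (g := Complex.im) rfl
  have hfd : ∀ z, dvg Y z = fderiv ℝ A z 1 + fderiv ℝ B z Complex.I := by
    intro z
    have hd := hY.differentiable one_ne_zero z
    have e1 : HasFDerivAt A (Complex.reCLM.comp (fderiv ℝ Y z)) z :=
      Complex.reCLM.hasFDerivAt.comp z hd.hasFDerivAt
    have e2 : HasFDerivAt B (Complex.imCLM.comp (fderiv ℝ Y z)) z :=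
      Complex.imCLM.hasFDerivAt.comp z hd.hasFDerivAt
    rw [e1.fderiv, e2.fderiv]
    rfl
  simp_rw [hfd]
  have hcount : ({-bv k, bv k} : Set ℝ).Countable := (Set.toFinite _).countable
  rw [div_sup (Hf_cont P) hcount (fun y hy => Hd_deriv P hy) (Hd_meas P) (Hd_bound P) hAs hBs hAc hBc]
  set R' := √3/2 * R with hR'
  have hb := bv_pos P
  have ha := av_pos P
  have hs := sqrt3_pos
  have hba : bv k = √3/2 * av k := by unfold bv av; ring
  have hbR : bv k ≤ R' := by
    rw [hba, hR']
    exact mul_le_mul_of_nonneg_left haR (by positivity)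
  -- the integrand
  set G : ℝ → ℝ := fun y => -A ⟨Hf P y, y⟩ + Hd P y * B ⟨Hf P y, y⟩ with hG
  have hout : ∀ y, y ∉ Ioc (-R') R' → G y = 0 := by
    intro y hy
    have h1 : R' ≤ |y| := by
      rw [mem_Ioc, not_and_or, not_lt, not_le] at hy
      rcases hy with c | c
      · rw [abs_of_nonpos (by linarith)]; linarith
      · rw [abs_of_nonneg (by linarith)]; linarith
    have h2 : R ≤ ‖(⟨Hf P y, y⟩ : ℂ)‖ := by
      have h3 : |y| / √3 = Hf P y := (Hf_of_ge P (hbR.trans h1)).symm
      have h4 : R ^ 2 ≤ ‖(⟨Hf P y, y⟩ : ℂ)‖ ^ 2 := by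
        rw [normSq_eq]
        simp only
        rw [← h3, div_pow, sq_abs, sq_sqrt (by norm_num : (0:ℝ) ≤ 3)]
        have h5 : R' ^ 2 ≤ y ^ 2 := by
          rw [← sq_abs y]
          exact pow_le_pow_left₀ (by linarith) h1 2
        have h6 : R' ^ 2 = 3/4 * R^2 := by
          rw [hR']; linear_combination (R^2/4) * sqrt3_sq
        linarith
      exact abs_le_of_sq_le_sq' h4 (norm_nonneg _) |>.2
    rw [hG, hA, hB]
    simp only
    rw [hR _ h2]; simp
  have hGi : ∀ a b : ℝ, IntervalIntegrable G volume a b := by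
    intro a b
    have c1 : Continuous (fun y => (⟨Hf P y, y⟩ : ℂ)) := by
      have : (fun y => (⟨Hf P y, y⟩ : ℂ)) = fun y => ((Hf P y : ℝ) : ℂ) + (y : ℂ) * Complex.I := by
        ext y; exact Complex.mk_eq_add_mul_I _ _
      rw [this]
      exact (Complex.continuous_ofReal.comp (Hf_cont P)).add
        (Complex.continuous_ofReal.mul continuous_const)
    have c2 : Continuous (fun y => -A ⟨Hf P y, y⟩) := (hAs.continuous.comp c1).neg
    have c3 : Continuous (fun y => B ⟨Hf P y, y⟩) := hBs.continuous.comp c1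
    apply (c2.intervalIntegrable a b).add
    have h1 := c3.intervalIntegrable (μ := volume) a b
    rw [intervalIntegrable_iff] at h1 ⊢
    exact h1.bdd_mul (c := 1) (Hd_meas P).aestronglyMeasurable (Eventually.of_forall (Hd_bound P))
  have s1 : ∫ y, G y = (∫ y in (-R')..(-bv k), G y) + (∫ y in (-bv k)..(bv k), G y)
      + ∫ y in (bv k)..R', G y := by
    rw [intervalIntegral.integral_add_adjacent_intervals (hGi _ _) (hGi _ _),
      intervalIntegral.integral_add_adjacent_intervals (hGi _ _) (hGi _ _),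
      intervalIntegral.integral_of_le (by linarith), setIntegral_eq_integral_of_forall_compl_eq_zero hout]
  rw [s1]
  -- the middle part
  have s2 : ∫ y in (-bv k)..(bv k), G y =
      - (∫ θ in (-(π/6))..(π/6), sg μ h θ * dt (Y (ax h k θ)) (ee θ)) := by
    set G0 : ℝ → ℝ := fun y => -A (ax h k (Tg P y)) - tan (Tg P y) * B (ax h k (Tg P y)) with hG0
    have t1 : ∫ y in (-bv k)..(bv k), G y = ∫ y in (-bv k)..(bv k), G0 y := by
      apply intervalIntegral.integral_congr_ae
      have hn : ∀ᵐ y : ℝ, y ≠ bv k := by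
        rw [ae_iff]; simp
      filter_upwards [hn] with y hy1 hy2
      rw [uIoc_of_le (by linarith)] at hy2
      have h1 : |y| < bv k := abs_lt.2 ⟨hy2.1, lt_of_le_of_ne hy2.2 hy1⟩
      rw [hG, hG0]
      simp only
      rw [ax_Tg P h1.le, Hf_of_le P h1.le]
      unfold Hd
      rw [if_pos h1]
      ring
    have hsub : ∀ θ ∈ uIcc (-(π/6)) (π/6), θ ∈ Icc (-(π/6)) (π/6) := by
      intro θ hθ
      rwa [uIcc_of_le (by linarith [pi_pos])] at hθ
    have t2 := intervalIntegral.integral_comp_mul_deriv' (a := -(π/6)) (b := π/6)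
      (f := fun θ => (ax h k θ).im) (f' := fun θ => sg μ h θ * cos θ) (g := G0)
      (fun θ hθ => P.im_deriv (sub_mem (hsub θ hθ)))
      (by
        intro θ hθ
        have h1 := P.muh (sub_mem (hsub θ hθ))
        have h2 : ContinuousAt (sg μ h) θ := by
          unfold sg
          exact continuousAt_const.div (continuousAt_const.add (P.hd θ).continuousAt)
            (by show μ + h θ ≠ 0; linarith)
        exact (h2.mul continuous_cos.continuousAt).continuousWithinAt)
      (by
        rintro y ⟨θ, hθ, rfl⟩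
        have hm := hsub θ hθ
        have hT : Tg P (ax h k θ).im = θ := Tg_ax P hm
        have c1 : ContinuousAt (ax h k) (Tg P (ax h k θ).im) := by
          rw [hT]; exact (P.ax_deriv (sub_mem hm)).continuousAt
        have c2 : ContinuousAt (fun y => ax h k (Tg P y)) (ax h k θ).im :=
          ContinuousAt.comp (f := Tg P) (g := ax h k) c1 (Tg_cont P).continuousAt
        have c3 : ContinuousAt (fun y => tan (Tg P y)) (ax h k θ).im := by
          have : ContinuousAt tan (Tg P (ax h k θ).im) := by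
            rw [hT]
            exact continuousAt_tan.2 (by linarith [cos_lb (sub_mem hm)])
          exact ContinuousAt.comp (f := Tg P) (g := tan) this (Tg_cont P).continuousAt
        have c4 : ContinuousAt (fun y => A (ax h k (Tg P y))) (ax h k θ).im :=
          ContinuousAt.comp (f := fun y => ax h k (Tg P y)) (g := A) hAs.continuous.continuousAt c2
        have c5 : ContinuousAt (fun y => B (ax h k (Tg P y))) (ax h k θ).im :=
          ContinuousAt.comp (f := fun y => ax h k (Tg P y)) (g := B) hBs.continuous.continuousAt c2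
        exact (c4.neg.sub (c3.mul c5)).continuousWithinAt)
    rw [im_pi6 P, im_npi6 P] at t2
    rw [t1, ← t2, ← intervalIntegral.integral_neg]
    apply intervalIntegral.integral_congr
    intro θ hθ
    have hm := hsub θ hθ
    have hcos := cos_lb (sub_mem hm)
    simp only [Function.comp, hG0]
    rw [Tg_ax P hm, tan_eq_sin_div_cos]
    unfold dt
    simp only [ee_re, ee_im, hA, hB]
    field_simp
    ring
  have s3 : ∫ y in (bv k)..R', G y =
      ∫ r in (av k)..R, dt (Y (r * ee (π/3))) (Complex.I * ee (π/3)) := by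
    have t1 := intervalIntegral.integral_comp_mul_left (a := av k) (b := R) G
      (c := √3/2) (by positivity)
    rw [← hba, ← hR'] at t1
    have t2 : ∫ y in (bv k)..R', G y = (√3/2) * ∫ r in (av k)..R, G (√3/2 * r) := by
      rw [t1, smul_eq_mul, ← mul_assoc, mul_inv_cancel₀ (by positivity), one_mul]
    rw [t2, ← intervalIntegral.integral_const_mul]
    apply intervalIntegral.integral_congr_ae
    refine Eventually.of_forall fun r hr => ?_
    rw [uIoc_of_le haR] at hr
    have h1 := (ray_graph P hr.1.le).1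
    have h2 : bv k < √3/2 * r := by
      rw [hba]; exact mul_lt_mul_of_pos_left hr.1 (by positivity)
    have h3 : Hd P (√3/2 * r) = 1/√3 := by
      unfold Hd
      rw [if_neg (by rw [abs_of_pos (by linarith)]; linarith), if_pos (by linarith)]
    show √3/2 * (-A ⟨Hf P (√3/2*r), √3/2*r⟩ + Hd P (√3/2*r) * B ⟨Hf P (√3/2*r), √3/2*r⟩) = _
    rw [h3, h1, ray_im]
    unfold dt
    rw [ee_pi3]
    simp only [hA, hB, Complex.mul_re, Complex.mul_im, Complex.I_re, Complex.I_im]
    have h4 : √3/2 * (1/√3) = 1/2 := by field_simp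
    linear_combination ((Y ⟨r/2, √3/2*r⟩).im) * h4
  have s4 : ∫ y in (-R')..(-bv k), G y =
      - ∫ r in (av k)..R, dt (Y (r * ee (-(π/3)))) (Complex.I * ee (-(π/3))) := by
    have t1 := intervalIntegral.integral_comp_mul_left (a := R) (b := av k) G
      (c := -(√3/2)) (by have := sqrt3_pos; linarith)
    have e1 : -(√3/2) * R = -R' := by rw [hR']; ring
    have e2 : -(√3/2) * av k = -bv k := by rw [hba]; ring
    rw [e1, e2] at t1
    have t2 : ∫ y in (-R')..(-bv k), G y = (√3/2) * ∫ r in (av k)..R, G (-(√3/2) * r) := by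
      rw [intervalIntegral.integral_symm R (av k), t1, smul_eq_mul]
      have : √3 ≠ 0 := hs.ne'
      field_simp
    rw [t2, ← intervalIntegral.integral_const_mul, ← intervalIntegral.integral_neg]
    apply intervalIntegral.integral_congr_ae
    refine Eventually.of_forall fun r hr => ?_
    rw [uIoc_of_le haR] at hr
    have h1 := (ray_graph P hr.1.le).2
    have h2 : bv k < √3/2 * r := by
      rw [hba]; exact mul_lt_mul_of_pos_left hr.1 (by positivity)
    have h0 : -(√3/2) * r = -(√3/2*r) := by ring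
    have h3 : Hd P (-(√3/2 * r)) = -(1/√3) := by
      unfold Hd
      rw [if_neg (by rw [abs_of_neg (by linarith)]; linarith), if_neg (by linarith)]
    show √3/2 * (-A ⟨Hf P (-(√3/2)*r), -(√3/2)*r⟩ + Hd P (-(√3/2)*r) * B ⟨Hf P (-(√3/2)*r), -(√3/2)*r⟩) = _
    have h5 : ee (-(π/3)) = ⟨1/2, -(√3/2)⟩ := by
      unfold ee; rw [cos_neg, sin_neg, cos_pi_div_three, sin_pi_div_three]
    have h6 : ((r : ℂ) * ee (-(π/3))) = ⟨r/2, -(√3/2*r)⟩ := by
      rw [h5]; apply Complex.ext
      · simp; ring
      · simp; ring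
    rw [h0, h3, h1, h6]
    unfold dt
    rw [h5]
    simp only [hA, hB, Complex.mul_re, Complex.mul_im, Complex.I_re, Complex.I_im]
    have h4 : √3/2 * (1/√3) = 1/2 := by field_simp
    linear_combination (-(Y ⟨r/2, -(√3/2*r)⟩).im) * h4
  rw [s2, s3, s4]
  ring

end

end Pool.Agent.W562.GP
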