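import Mathlib
import Pool.Agent.GR.Flow

set_option autoImplicit false
set_option linter.all false

open Set MeasureTheory Real Filter Topology
open scoped NNReal ContDiff ComplexConjugate

namespace Pool.Agent.W562.GP

noncomputable section

/-- `F` is the flow of the vector field `X` of the plane. -/
structure IsFlow (X : ℂ → ℂ) (F : ℝ → ℂ → ℂ) : Prop where
  zero : ∀ z, F 0 z = z
  deriv : ∀ t z, HasDerivAt (fun s => F s z) (X (F t z)) t

variable {X : ℂ → ℂ} {F : ℝ → ℂ → ℂ}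

section basic

variable (hX : ContDiff ℝ ∞ X) (hc : HasCompactSupport X) (hF : IsFlow X F)

include hF in
lemma IsFlow.of : Pool.Agent.GR.Flow.IsFlowOf X F := ⟨hF.zero, fun z t => hF.deriv t z⟩

include hX hc in
lemma exists_lip : ∃ K : ℝ≥0, LipschitzWith K X :=
  hX.lipschitzWith_of_hasCompactSupport hc (by simp)

include hX hc hF in
lemma flow_smooth : ContDiff ℝ ∞ (fun q : ℝ × ℂ => F q.1 q.2) := by
  obtain ⟨K, hK⟩ := exists_lip hX hc
  rw [contDiff_infty]
  intro m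
  have key : ∀ m : ℕ, m ≠ 0 → ContDiff ℝ m (fun q : ℝ × ℂ => F q.1 q.2) := by
    intro m hm
    exact Pool.Agent.GR.Flow.contDiff_flow (X := ⟨X, hX.continuous⟩) hm
      (hX.of_le (by exact_mod_cast le_top)) hK hF.of
  exact (key (m + 1) (by omega)).of_le (by exact_mod_cast Nat.le_succ m)

include hX hc hF in
lemma flow_add (s t : ℝ) (z : ℂ) : F (s + t) z = F s (F t z) := by
  obtain ⟨K, hK⟩ := exists_lip hX hc
  exact hF.of.add hK s t z

include hX hc hF in
lemma flow_fix {z : ℂ} (hz : X z = 0) (t : ℝ) : F t z = z := by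
  obtain ⟨K, hK⟩ := exists_lip hX hc
  have h1 : (fun t => F t z) = fun _ => z := by
    refine ODE_solution_unique_univ (v := fun _ => X) (s := fun _ => univ) (K := K) (t₀ := 0)
      (fun t => hK.lipschitzOnWith) (fun t => ⟨hF.deriv t z, trivial⟩)
      (fun t => ⟨?_, trivial⟩) ?_
    · rw [hz]; exact hasDerivAt_const t z
    · rw [hF.zero]
  exact congrFun h1 t

include hX hc hF in
lemma flow_inv (t : ℝ) (z : ℂ) : F (-t) (F t z) = z := by
  rw [← flow_add hX hc hF, neg_add_cancel, hF.zero]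

include hX hc hF in
lemma flow_inv' (t : ℝ) (z : ℂ) : F t (F (-t) z) = z := by
  rw [← flow_add hX hc hF, add_neg_cancel, hF.zero]

include hX hc hF in
lemma flow_sm (t : ℝ) : ContDiff ℝ ∞ (F t) :=
  (flow_smooth hX hc hF).comp (contDiff_const.prodMk contDiff_id)

/-- the flow map as a homeomorphism -/
def flowH (hX : ContDiff ℝ ∞ X) (hc : HasCompactSupport X) (hF : IsFlow X F) (t : ℝ) : ℂ ≃ₜ ℂ where
  toFun := F t
  invFun := F (-t)
  left_inv := flow_inv hX hc hF t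
  right_inv := flow_inv' hX hc hF t
  continuous_toFun := (flow_sm hX hc hF t).continuous
  continuous_invFun := (flow_sm hX hc hF (-t)).continuous

include hc in
lemma exists_rad : ∃ R : ℝ, 0 < R ∧ ∀ z, R ≤ ‖z‖ → X z = 0 := by
  obtain ⟨R, hR⟩ := hc.isCompact.isBounded.subset_closedBall 0
  refine ⟨max R 0 + 1, by positivity, ?_⟩
  intro z hz
  by_contra hne
  have h1 := hR (subset_tsupport X hne)
  rw [mem_closedBall_zero_iff] at h1
  have := le_max_left R 0
  linarith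

end basic

/-! ### derivatives along the flow -/

/-- derivative of `W` along `X` -/
def Lie (X W : ℂ → ℂ) (z : ℂ) : ℂ := fderiv ℝ W z (X z)

lemma Lie_smooth {W : ℂ → ℂ} (hX : ContDiff ℝ ∞ X) (hW : ContDiff ℝ ∞ W) : ContDiff ℝ ∞ (Lie X W) := by
  unfold Lie
  have : ContDiff ℝ ∞ (fderiv ℝ W) := hW.fderiv_right (by simp)
  exact this.clm_apply hX

lemma Lie_id : Lie X id = X := by
  funext z; simp [Lie]

lemma Lie_cpt {W : ℂ → ℂ} (hc : HasCompactSupport X) : HasCompactSupport (Lie X W) := by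
  apply hc.mono
  intro z hz
  simp only [Function.mem_support] at hz ⊢
  intro h; apply hz; unfold Lie; rw [h, map_zero]

section var

variable (hX : ContDiff ℝ ∞ X) (hc : HasCompactSupport X) (hF : IsFlow X F)

include hF in
lemma lie_deriv {W : ℂ → ℂ} (hW : ContDiff ℝ ∞ W) (t : ℝ) (z : ℂ) :
    HasDerivAt (fun t => W (F t z)) (Lie X W (F t z)) t :=
  ((hW.differentiable (by simp) _).hasFDerivAt).comp_hasDerivAt t (hF.deriv t z)

/-- joint derivative in direction `v` of `W ∘ F_t` -/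
def Dv (F : ℝ → ℂ → ℂ) (W : ℂ → ℂ) (t : ℝ) (z v : ℂ) : ℂ := fderiv ℝ (fun z => W (F t z)) z v

include hX hc hF in
lemma joint_smooth {W : ℂ → ℂ} (hW : ContDiff ℝ ∞ W) :
    ContDiff ℝ ∞ (fun q : ℝ × ℂ => W (F q.1 q.2)) := hW.comp (flow_smooth hX hc hF)

include hX hc hF in
lemma Dv_eq {W : ℂ → ℂ} (hW : ContDiff ℝ ∞ W) (t : ℝ) (z v : ℂ) :
    Dv F W t z v = fderiv ℝ (fun q : ℝ × ℂ => W (F q.1 q.2)) (t, z) (0, v) := by
  have h1 := ((joint_smooth hX hc hF hW).differentiable (by simp) (t, z)).hasFDerivAt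
  have h2 : HasFDerivAt (fun z : ℂ => ((t, z) : ℝ × ℂ)) (ContinuousLinearMap.inr ℝ ℝ ℂ) z :=
    hasFDerivAt_prodMk_right t z
  have h3 := h1.comp z h2
  unfold Dv
  have h4 : (fun z => W (F t z)) = (fun q : ℝ × ℂ => W (F q.1 q.2)) ∘ (fun z : ℂ => ((t, z) : ℝ × ℂ)) := rfl
  rw [h4, h3.fderiv]
  rfl

include hX hc hF in
lemma Dv_cont {W : ℂ → ℂ} (hW : ContDiff ℝ ∞ W) :
    Continuous (fun q : ℝ × ℂ × ℂ => Dv F W q.1 q.2.1 q.2.2) := by
  have h1 : Continuous (fderiv ℝ (fun q : ℝ × ℂ => W (F q.1 q.2))) :=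
    (joint_smooth hX hc hF hW).continuous_fderiv (by simp)
  have h2 : (fun q : ℝ × ℂ × ℂ => Dv F W q.1 q.2.1 q.2.2) =
      fun q => fderiv ℝ (fun q : ℝ × ℂ => W (F q.1 q.2)) (q.1, q.2.1) (0, q.2.2) := by
    funext q; exact Dv_eq hX hc hF hW _ _ _
  rw [h2]
  exact (h1.comp (by fun_prop)).clm_apply (by fun_prop)

include hX hc hF in
lemma Dv_deriv {W : ℂ → ℂ} (hW : ContDiff ℝ ∞ W) (t : ℝ) (z v : ℂ) :
    HasDerivAt (fun t => Dv F W t z v) (Dv F (Lie X W) t z v) t := by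
  set G : ℝ × ℂ → ℂ := fun q => W (F q.1 q.2) with hG
  have hGs : ContDiff ℝ ∞ G := joint_smooth hX hc hF hW
  have hG1 : ContDiff ℝ ∞ (fderiv ℝ G) := hGs.fderiv_right (by simp)
  have e1 : (fun t => Dv F W t z v) = fun t => fderiv ℝ G (t, z) (0, v) := by
    funext t; exact Dv_eq hX hc hF hW t z v
  have h1 : HasDerivAt (fun t : ℝ => ((t, z) : ℝ × ℂ)) (1, 0) t :=
    (hasDerivAt_id t).prodMk (hasDerivAt_const t z)
  have h2 : HasDerivAt (fun t => fderiv ℝ G (t, z)) (fderiv ℝ (fderiv ℝ G) (t, z) (1, 0)) t :=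
    ((hG1.differentiable (by simp) (t, z)).hasFDerivAt).comp_hasDerivAt t h1
  have h3 := h2.clm_apply (hasDerivAt_const t ((0, v) : ℝ × ℂ))
  rw [e1]
  have hsym : IsSymmSndFDerivAt ℝ G (t, z) :=
    (hGs.contDiffAt).isSymmSndFDerivAt (by simp; exact WithTop.coe_le_coe.2 (le_top (a := (2 : ℕ∞))))
  have e2 : fderiv ℝ (fderiv ℝ G) (t, z) (1, 0) (0, v) = fderiv ℝ (fderiv ℝ G) (t, z) (0, v) (1, 0) :=
    hsym _ _
  refine h3.congr_deriv ?_
  rw [map_zero, add_zero, e2]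
  -- the other side
  have e3 : ∀ w : ℂ, Lie X W (F t w) = fderiv ℝ G (t, w) (1, 0) := by
    intro w
    have a1 := lie_deriv hF hW t w
    have a2 : HasDerivAt (fun t : ℝ => ((t, w) : ℝ × ℂ)) (1, 0) t :=
      (hasDerivAt_id t).prodMk (hasDerivAt_const t w)
    have a3 : HasDerivAt (G ∘ fun t : ℝ => ((t, w) : ℝ × ℂ)) (fderiv ℝ G (t, w) (1, 0)) t :=
      HasFDerivAt.comp_hasDerivAt t ((hGs.differentiable (by simp) (t, w)).hasFDerivAt) a2
    exact a1.unique a3
  unfold Dv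
  have e4 : (fun w => Lie X W (F t w)) = fun w => fderiv ℝ G (t, w) (1, 0) := funext e3
  rw [e4]
  have h4 : HasFDerivAt (fun z : ℂ => ((t, z) : ℝ × ℂ)) (ContinuousLinearMap.inr ℝ ℝ ℂ) z :=
    hasFDerivAt_prodMk_right t z
  have h5 := ((hG1.differentiable (by simp) (t, z)).hasFDerivAt).comp z h4
  have h6 := h5.clm_apply (hasFDerivAt_const ((1, 0) : ℝ × ℂ) z)
  have h7 : HasFDerivAt (fun w => fderiv ℝ G (t, w) (1, 0)) _ z := h6
  rw [h7.fderiv]
  simp

include hF in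
lemma Dv_zero (W : ℂ → ℂ) (z v : ℂ) : Dv F W 0 z v = fderiv ℝ W z v := by
  unfold Dv
  have : (fun z => W (F 0 z)) = W := by funext z; rw [hF.zero]
  rw [this]

include hX hc hF in
lemma Dv_id_ne (t : ℝ) (z : ℂ) {v : ℂ} (hv : v ≠ 0) : Dv F id t z v ≠ 0 := by
  intro h0
  have h1 : HasFDerivAt (F t) (fderiv ℝ (F t) z) z :=
    ((flow_sm hX hc hF t).differentiable (by simp) z).hasFDerivAt
  have h2 : HasFDerivAt (F (-t)) (fderiv ℝ (F (-t)) (F t z)) (F t z) :=
    ((flow_sm hX hc hF (-t)).differentiable (by simp) _).hasFDerivAt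
  have h3 := h2.comp z h1
  have h4 : F (-t) ∘ F t = id := by funext w; exact flow_inv hX hc hF t w
  rw [h4] at h3
  have h5 := h3.unique (hasFDerivAt_id z)
  have h6 : Dv F id t z v = fderiv ℝ (F t) z v := rfl
  rw [h6] at h0
  have h7 := congrArg (fun L => L v) h5
  simp only [ContinuousLinearMap.comp_apply, h0, map_zero, ContinuousLinearMap.id_apply] at h7
  exact hv h7.symm

end var

end

end Pool.Agent.W562.GP
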