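import Pool.Agent.W562.GP.Arc

set_option autoImplicit false
set_option linter.all false

open Set MeasureTheory Real Filter Topology
open scoped NNReal ContDiff

namespace Pool.Agent.W562.GP

noncomputable section

variable {μ : ℝ} {h k : ℝ → ℝ}

def cm (s : ℝ) : ℝ := max (-1) (min s 1)

lemma cm_cont : Continuous cm := continuous_const.max (continuous_id.min continuous_const)
lemma cm_mem (s : ℝ) : cm s ∈ Icc (-1:ℝ) 1 :=
  ⟨le_max_left _ _, max_le (by norm_num) (min_le_right _ _)⟩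
lemma cm_of {s : ℝ} (hs : s ∈ Icc (-1:ℝ) 1) : cm s = s := by
  unfold cm; rw [min_eq_left hs.2, max_eq_right hs.1]

def st (μ : ℝ) (h : ℝ → ℝ) (s : ℝ) : ℝ := sg μ h (cm s) * cos (cm s)

lemma h_cont (P : Prof μ h k) : Continuous h :=
  continuous_iff_continuousAt.2 fun θ => (P.hd θ).continuousAt

lemma st_cont (P : Prof μ h k) : Continuous (st μ h) := by
  unfold st sg
  apply Continuous.mul _ (continuous_cos.comp cm_cont)
  apply continuous_const.div (continuous_const.add ((h_cont P).comp cm_cont))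
  intro s
  have := P.muh (cm_mem s)
  show μ + h (cm s) ≠ 0
  exact ne_of_gt (by linarith)

lemma cos_lb {s : ℝ} (hs : s ∈ Icc (-1:ℝ) 1) : 1/2 ≤ cos s := by
  have h1 : |s| ≤ π/3 := by
    have := pi_gt_three
    have := abs_le.2 hs
    linarith
  have h2 : cos (π/3) ≤ cos |s| := cos_le_cos_of_nonneg_of_le_pi (abs_nonneg _)
    (by linarith [pi_pos]) h1
  rwa [cos_pi_div_three, cos_abs] at h2

lemma st_lb (P : Prof μ h k) (s : ℝ) : 1 / (2 * (μ + 1)) ≤ st μ h s := by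
  unfold st
  have h1 := cos_lb (cm_mem s)
  have h2 : 1 / (μ + 1) ≤ sg μ h (cm s) := by
    unfold sg
    have h3 := P.muh (cm_mem s)
    have h4 := P.le _ (cm_mem s)
    have h5 : 1 / μ ≤ 1 := by
      rw [div_le_one (by linarith [P.mu])]; linarith [P.mu]
    exact one_div_le_one_div_of_le (by linarith) (by linarith)
  have h3 : 0 < 1 / (μ + 1) := one_div_pos.2 (by linarith [P.mu])
  calc 1 / (2 * (μ + 1)) = 1 / (μ + 1) * (1/2) := by
        have : μ + 1 ≠ 0 := by linarith [P.mu]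
        field_simp
    _ ≤ sg μ h (cm s) * (1/2) := by linarith
    _ ≤ _ := by
        apply mul_le_mul_of_nonneg_left h1
        linarith

lemma st_pos (P : Prof μ h k) (s : ℝ) : 0 < st μ h s :=
  lt_of_lt_of_le (one_div_pos.2 (by linarith [P.mu])) (st_lb P s)

def Yg (μ : ℝ) (h : ℝ → ℝ) (θ : ℝ) : ℝ := ∫ s in (0:ℝ)..θ, st μ h s

lemma Yg_deriv (P : Prof μ h k) (θ : ℝ) : HasDerivAt (Yg μ h) (st μ h θ) θ :=
  intervalIntegral.integral_hasDerivAt_right ((st_cont P).intervalIntegrable _ _)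
    (st_cont P).aestronglyMeasurable.stronglyMeasurableAtFilter (st_cont P).continuousAt

lemma Yg_mono (P : Prof μ h k) : StrictMono (Yg μ h) :=
  strictMono_of_hasDerivAt_pos (fun θ => Yg_deriv P θ) (fun θ => st_pos P θ)

lemma Yg_cont (P : Prof μ h k) : Continuous (Yg μ h) :=
  continuous_iff_continuousAt.2 fun θ => (Yg_deriv P θ).continuousAt

lemma Yg_zero : Yg μ h 0 = 0 := by unfold Yg; simp

lemma Yg_surj (P : Prof μ h k) : Function.Surjective (Yg μ h) := by
  set m := 1 / (2 * (μ + 1)) with hm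
  have hm0 : 0 < m := one_div_pos.2 (by linarith [P.mu])
  have hmono : Monotone (fun θ => Yg μ h θ - m * θ) := by
    apply monotone_of_deriv_nonneg
    · intro θ
      exact ((Yg_deriv P θ).sub ((hasDerivAt_id θ).const_mul m)).differentiableAt
    · intro θ
      have h1 : HasDerivAt (fun θ => Yg μ h θ - m * θ) (st μ h θ - m * 1) θ :=
        (Yg_deriv P θ).sub ((hasDerivAt_id θ).const_mul m)
      rw [h1.deriv]
      have := st_lb P θ
      linarith
  apply (Yg_cont P).surjective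
  · apply tendsto_atTop_mono' atTop (f₁ := fun θ => m * θ)
    · filter_upwards [eventually_ge_atTop (0:ℝ)] with θ hθ
      have := hmono hθ
      simp only [Yg_zero] at this
      linarith
    · exact tendsto_id.const_mul_atTop hm0
  · apply tendsto_atBot_mono' atBot (f₁ := fun θ => m * θ) (f₂ := Yg μ h)
    · filter_upwards [eventually_le_atBot (0:ℝ)] with θ hθ
      have := hmono hθ
      simp only [Yg_zero] at this
      linarith
    · exact tendsto_id.const_mul_atBot hm0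

lemma Yg_eq (P : Prof μ h k) {θ : ℝ} (hθ : θ ∈ Icc (-1:ℝ) 1) : Yg μ h θ = (ax h k θ).im := by
  have key : ∀ s ∈ Icc (-1:ℝ) 1, HasDerivAt (fun θ => Yg μ h θ - (ax h k θ).im) 0 s := by
    intro s hs
    have h1 := (Yg_deriv P s).sub (P.im_deriv hs)
    refine h1.congr_deriv ?_
    unfold st
    rw [cm_of hs]; ring
  have h2 := (convex_Icc (-1:ℝ) 1).is_const_of_fderivWithin_eq_zero (𝕜 := ℝ)
      (f := fun θ => Yg μ h θ - (ax h k θ).im)
      (fun s hs => (key s hs).differentiableAt.differentiableWithinAt)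
      (fun s hs => by
        have h5 := (key s hs).hasDerivWithinAt (s := Icc (-1:ℝ) 1)
        have h6 := h5.hasFDerivWithinAt.fderivWithin ((uniqueDiffOn_Icc (by norm_num : (-1:ℝ) < 1)) s hs)
        rw [h6]; ext; simp) hθ (y := 0) ⟨by norm_num, by norm_num⟩
  rw [Yg_zero, ax_zero P] at h2
  simp only at h2
  linarith

/-- the inverse -/
def Tg (P : Prof μ h k) : ℝ → ℝ :=
  (StrictMono.orderIsoOfSurjective (Yg μ h) (Yg_mono P) (Yg_surj P)).symm

lemma Yg_Tg (P : Prof μ h k) (y : ℝ) : Yg μ h (Tg P y) = y :=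
  (StrictMono.orderIsoOfSurjective (Yg μ h) (Yg_mono P) (Yg_surj P)).apply_symm_apply y

lemma Tg_Yg (P : Prof μ h k) (θ : ℝ) : Tg P (Yg μ h θ) = θ :=
  (StrictMono.orderIsoOfSurjective (Yg μ h) (Yg_mono P) (Yg_surj P)).symm_apply_apply θ

lemma Tg_cont (P : Prof μ h k) : Continuous (Tg P) :=
  (StrictMono.orderIsoOfSurjective (Yg μ h) (Yg_mono P) (Yg_surj P)).symm.continuous

lemma Tg_mono (P : Prof μ h k) : StrictMono (Tg P) :=
  (StrictMono.orderIsoOfSurjective (Yg μ h) (Yg_mono P) (Yg_surj P)).symm.strictMono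

lemma Tg_deriv (P : Prof μ h k) (y : ℝ) : HasDerivAt (Tg P) (st μ h (Tg P y))⁻¹ y :=
  HasDerivAt.of_local_left_inverse (Tg_cont P).continuousAt (Yg_deriv P _) (st_pos P _).ne'
    (Eventually.of_forall fun y => Yg_Tg P y)

lemma im_pi6 (P : Prof μ h k) : (ax h k (π/6)).im = bv k := by rw [ax_pi6 P]
lemma im_npi6 (P : Prof μ h k) : (ax h k (-(π/6))).im = - bv k := by rw [ax_npi6 P]

lemma Tg_bv (P : Prof μ h k) : Tg P (bv k) = π/6 := by
  rw [← im_pi6 P, ← Yg_eq P pi6_mem, Tg_Yg]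
lemma Tg_nbv (P : Prof μ h k) : Tg P (-bv k) = -(π/6) := by
  have hm : -(π/6) ∈ Icc (-1:ℝ) 1 := ⟨by linarith [pi6_le], by linarith [pi6_pos]⟩
  rw [← im_npi6 P, ← Yg_eq P hm, Tg_Yg]

lemma Tg_mem (P : Prof μ h k) {y : ℝ} (hy : |y| ≤ bv k) : Tg P y ∈ Icc (-(π/6)) (π/6) := by
  rw [← Tg_nbv P, ← Tg_bv P]
  exact ⟨(Tg_mono P).monotone (abs_le.1 hy).1, (Tg_mono P).monotone (abs_le.1 hy).2⟩

lemma Tg_mem' (P : Prof μ h k) {y : ℝ} (hy : |y| < bv k) : Tg P y ∈ Ioo (-(π/6)) (π/6) := by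
  rw [← Tg_nbv P, ← Tg_bv P]
  exact ⟨(Tg_mono P) (abs_lt.1 hy).1, (Tg_mono P) (abs_lt.1 hy).2⟩

/-- the arc as a graph -/
def gf (P : Prof μ h k) (y : ℝ) : ℝ := (ax h k (Tg P y)).re

lemma ax_Tg (P : Prof μ h k) {y : ℝ} (hy : |y| ≤ bv k) : ax h k (Tg P y) = ⟨gf P y, y⟩ := by
  apply Complex.ext
  · rfl
  · rw [← Yg_eq P (sub_mem (Tg_mem P hy)), Yg_Tg]

lemma k_cont (P : Prof μ h k) : ContinuousOn k (Icc (-1) 1) := fun θ hθ =>
  (P.kd θ hθ).continuousAt.continuousWithinAt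

lemma gf_deriv (P : Prof μ h k) {y : ℝ} (hy : |y| ≤ bv k) :
    HasDerivAt (gf P) (-tan (Tg P y)) y := by
  have hm := sub_mem (Tg_mem P hy)
  have h1 := HasDerivAt.comp y (P.re_deriv hm) (Tg_deriv P y)
  refine h1.congr_deriv ?_
  unfold st
  rw [cm_of hm, tan_eq_sin_div_cos]
  have h2 := P.sg_pos hm
  have h3 : 0 < cos (Tg P y) := by linarith [cos_lb hm]
  field_simp

/-- the graph function of the outer cell -/
def Hf (P : Prof μ h k) (y : ℝ) : ℝ := if |y| ≤ bv k then gf P y else |y| / √3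

lemma gf_bv (P : Prof μ h k) : gf P (bv k) = bv k / √3 := by
  unfold gf
  rw [Tg_bv, ax_pi6 P]
  unfold av bv
  field_simp

lemma gf_nbv (P : Prof μ h k) : gf P (-bv k) = bv k / √3 := by
  unfold gf
  rw [Tg_nbv, ax_npi6 P]
  unfold av bv
  field_simp

lemma Hf_of_le (P : Prof μ h k) {y : ℝ} (hy : |y| ≤ bv k) : Hf P y = gf P y := if_pos hy

lemma Hf_of_ge (P : Prof μ h k) {y : ℝ} (hy : bv k ≤ |y|) : Hf P y = |y| / √3 := by
  rcases hy.eq_or_lt with e | e
  · rw [Hf_of_le P e.symm.le]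
    rcases abs_choice y with c | c
    · rw [c] at e
      rw [c, ← e, gf_bv]
    · rw [c] at e
      have : y = - bv k := by linarith
      rw [this, gf_nbv, abs_neg, abs_of_pos (bv_pos P)]
  · exact if_neg (not_le.2 e)

lemma Hf_cont (P : Prof μ h k) : Continuous (Hf P) := by
  have e1 : ContinuousOn (gf P) {y | |y| ≤ bv k} := fun y hy =>
    (gf_deriv P hy).continuousAt.continuousWithinAt
  apply continuous_if
  · intro y hy
    have h1 : |y| = bv k := frontier_le_subset_eq continuous_abs continuous_const hy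
    have := Hf_of_ge P h1.ge
    rw [← this, Hf_of_le P h1.le]
  · have hcl : IsClosed {y : ℝ | |y| ≤ bv k} := isClosed_le continuous_abs continuous_const
    rw [hcl.closure_eq]
    exact e1
  · exact (continuous_abs.div_const _).continuousOn

lemma Hf_deriv_in (P : Prof μ h k) {y : ℝ} (hy : |y| < bv k) :
    HasDerivAt (Hf P) (-tan (Tg P y)) y := by
  apply (gf_deriv P hy.le).congr_of_eventuallyEq
  filter_upwards [(continuous_abs.tendsto y).eventually (gt_mem_nhds hy)] with z hz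
  exact Hf_of_le P hz.le

lemma Hf_deriv_pos (P : Prof μ h k) {y : ℝ} (hy : bv k < y) : HasDerivAt (Hf P) (1/√3) y := by
  have h1 : HasDerivAt (fun y : ℝ => y / √3) (1/√3) y := (hasDerivAt_id y).div_const _
  apply h1.congr_of_eventuallyEq
  filter_upwards [lt_mem_nhds hy] with z hz
  have := bv_pos P
  rw [Hf_of_ge P (by rw [abs_of_pos (by linarith)]; exact hz.le), abs_of_pos (by linarith)]

lemma Hf_deriv_neg (P : Prof μ h k) {y : ℝ} (hy : y < -bv k) : HasDerivAt (Hf P) (-(1/√3)) y := by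
  have h1 : HasDerivAt (fun y : ℝ => -(y / √3)) (-(1/√3)) y := ((hasDerivAt_id y).div_const _).neg
  apply h1.congr_of_eventuallyEq
  filter_upwards [gt_mem_nhds hy] with z hz
  have := bv_pos P
  rw [Hf_of_ge P (by rw [abs_of_neg (by linarith)]; linarith), abs_of_neg (by linarith), neg_div]

lemma Hf_lb (P : Prof μ h k) {y : ℝ} (hy : |y| < bv k) : |y| / √3 < Hf P y := by
  rw [Hf_of_le P hy.le]
  have h1 := ax_sector' P (Tg_mem' P hy)
  rw [ax_Tg P hy.le] at h1
  simp only at h1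
  rw [div_lt_iff₀ (by positivity)]
  linarith

lemma Hf_ge (P : Prof μ h k) (y : ℝ) : |y| / √3 ≤ Hf P y := by
  rcases lt_or_ge |y| (bv k) with e | e
  · exact (Hf_lb P e).le
  · exact (Hf_of_ge P e).ge

lemma Yg_abs (P : Prof μ h k) {θ : ℝ} (hθ : θ ∈ Icc (-(π/6)) (π/6)) :
    |(ax h k θ).im| ≤ bv k := by
  rw [← Yg_eq P (sub_mem hθ), abs_le, ← im_pi6 P, ← Yg_eq P pi6_mem]
  have hm : -(π/6) ∈ Icc (-1:ℝ) 1 := ⟨by linarith [pi6_le], by linarith [pi6_pos]⟩
  have e1 : -Yg μ h (π/6) = Yg μ h (-(π/6)) := by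
    rw [Yg_eq P pi6_mem, Yg_eq P hm, im_pi6 P, im_npi6 P]
  rw [e1]
  exact ⟨(Yg_mono P).monotone hθ.1, (Yg_mono P).monotone hθ.2⟩

lemma Hf_ax (P : Prof μ h k) {θ : ℝ} (hθ : θ ∈ Icc (-(π/6)) (π/6)) :
    Hf P (ax h k θ).im = (ax h k θ).re := by
  rw [Hf_of_le P (Yg_abs P hθ)]
  unfold gf
  rw [← Yg_eq P (sub_mem hθ), Tg_Yg]

lemma Tg_ax (P : Prof μ h k) {θ : ℝ} (hθ : θ ∈ Icc (-(π/6)) (π/6)) :
    Tg P (ax h k θ).im = θ := by
  rw [← Yg_eq P (sub_mem hθ), Tg_Yg]

lemma Hf_even (P : Prof μ h k) (y : ℝ) : Hf P (-y) = Hf P y := by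
  rcases le_total |y| (bv k) with e | e
  · have hm := Tg_mem P e
    have hm' : -Tg P y ∈ Icc (-(π/6)) (π/6) := ⟨by linarith [hm.2], by linarith [hm.1]⟩
    have h1 := Hf_ax P hm'
    rw [ax_neg P, ax_Tg P e] at h1
    simp only at h1
    rw [h1, Hf_of_le P e]
  · rw [Hf_of_ge P e, Hf_of_ge P (by rwa [abs_neg]), abs_neg]

lemma Hf_pos (P : Prof μ h k) (y : ℝ) : 0 < Hf P y := by
  rcases lt_or_ge |y| (bv k) with e | e
  · exact lt_of_le_of_lt (by positivity) (Hf_lb P e)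
  · rw [Hf_of_ge P e]
    have := bv_pos P
    have : 0 < |y| := by linarith
    positivity

end

end Pool.Agent.W562.GP
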