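import Pool.Agent.W562.GP.Graph

set_option autoImplicit false
set_option linter.all false

open Set MeasureTheory Real Filter Topology
open scoped NNReal ContDiff ComplexConjugate

namespace Pool.Agent.W562.GP

noncomputable section

lemma int_ge {B B' G : ℝ → ℝ} {α β : ℝ} (hαβ : α ≤ β) (hB : ∀ x ∈ Icc α β, HasDerivAt B (B' x) x)
    (hG : ContinuousOn G (Icc α β)) (hB' : ContinuousOn B' (Icc α β))
    (hle : ∀ x ∈ Icc α β, B' x ≤ G x) : B β - B α ≤ ∫ x in α..β, G x := by
  have h1 : ∫ x in α..β, B' x = B β - B α := by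
    apply intervalIntegral.integral_eq_sub_of_hasDerivAt
    · intro x hx; rw [uIcc_of_le hαβ] at hx; exact hB x hx
    · exact ContinuousOn.intervalIntegrable (by rw [uIcc_of_le hαβ]; exact hB')
  rw [← h1]
  exact intervalIntegral.integral_mono_on hαβ
    (ContinuousOn.intervalIntegrable (by rw [uIcc_of_le hαβ]; exact hB'))
    (ContinuousOn.intervalIntegrable (by rw [uIcc_of_le hαβ]; exact hG)) hle

/-- Gaussian weight on the ray -/
def ph (r : ℝ) : ℝ := exp (-(r ^ 2) / 2)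
def qh (r : ℝ) : ℝ := exp (r ^ 2 / 2)

lemma ph_pos (r : ℝ) : 0 < ph r := exp_pos _
lemma qh_pos (r : ℝ) : 0 < qh r := exp_pos _
lemma ph_qh (r : ℝ) : ph r * qh r = 1 := by
  unfold ph qh; rw [← exp_add]; simp; ring
lemma ph_deriv (r : ℝ) : HasDerivAt ph (-r * ph r) r := by
  have h1 : HasDerivAt (fun r : ℝ => -(r ^ 2) / 2) (-r) r := by
    have := ((hasDerivAt_pow 2 r).neg).div_const 2
    refine this.congr_deriv ?_
    norm_num
    ring
  have := h1.exp
  refine this.congr_deriv ?_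
  unfold ph; ring
lemma qh_deriv (r : ℝ) : HasDerivAt qh (r * qh r) r := by
  have h1 : HasDerivAt (fun r : ℝ => (r ^ 2) / 2) r r := by
    have := ((hasDerivAt_pow 2 r)).div_const 2
    refine this.congr_deriv ?_
    norm_num
  have := h1.exp
  refine this.congr_deriv ?_
  unfold qh; ring
lemma ph_cont : Continuous ph := by unfold ph; fun_prop
lemma qh_cont : Continuous qh := by unfold qh; fun_prop

/-- the ray estimate -/
theorem ray_est {f f' : ℝ → ℝ} (hf : ∀ r, HasDerivAt f (f' r) r) (hc : Continuous f') {a R : ℝ}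
    (ha : 0 ≤ a) (haR : a ≤ R) (hR : f R = 0) :
    ph a * f a ^ 2 - 2 * (1 + a) * (∫ r in a..R, ph r * f r) * f a ≤
      ∫ r in a..R, ph r * (f' r ^ 2 - f r ^ 2) := by
  have hfc : Continuous f := continuous_iff_continuousAt.2 fun r => (hf r).continuousAt
  set D := ∫ r in a..R, ph r * f r with hD
  set P : ℝ → ℝ := fun r => D - ∫ s in a..r, ph s * f s with hP
  have hint : Continuous (fun s => ph s * f s) := ph_cont.mul hfc
  have hPd : ∀ r, HasDerivAt P (-(ph r * f r)) r := by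
    intro r
    have := (intervalIntegral.integral_hasDerivAt_right (hint.intervalIntegrable a r)
      hint.aestronglyMeasurable.stronglyMeasurableAtFilter hint.continuousAt).const_sub D
    exact this
  have hPc : Continuous P := continuous_iff_continuousAt.2 fun r => (hPd r).continuousAt
  have hPa : P a = D := by rw [hP]; simp
  have hPR : P R = 0 := by rw [hP, hD]; simp
  set B : ℝ → ℝ := fun r => 2 * (1 + r) * (P r * f r) - (r + r ^ 2) * (qh r * P r ^ 2) - ph r * f r ^ 2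
    with hB
  set B' : ℝ → ℝ := fun r => 2 * (P r * f r) + 2 * (1 + r) * (-(ph r * f r) * f r + P r * f' r)
    - ((1 + 2 * r) * (qh r * P r ^ 2) + (r + r ^ 2) * (r * qh r * P r ^ 2 + qh r * (2 * P r * (-(ph r * f r)))))
    - (-r * ph r * f r ^ 2 + ph r * (2 * f r * f' r)) with hB'
  have hBd : ∀ r, HasDerivAt B (B' r) r := by
    intro r
    have d1 : HasDerivAt (fun r : ℝ => 2 * (1 + r)) 2 r := by
      have := ((hasDerivAt_id r).const_add 1).const_mul 2
      simpa using this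
    have d2 : HasDerivAt (fun r : ℝ => r + r ^ 2) (1 + 2 * r) r := by
      have := (hasDerivAt_id r).add (hasDerivAt_pow 2 r)
      refine this.congr_deriv ?_
      norm_num
    have d3 := (hPd r).mul (hf r)
    have d4 : HasDerivAt (fun r => P r ^ 2) (2 * P r * (-(ph r * f r))) r := by
      have := (hPd r).pow 2
      refine this.congr_deriv ?_
      norm_num
    have d5 : HasDerivAt (fun r => f r ^ 2) (2 * f r * f' r) r := by
      have := (hf r).pow 2
      refine this.congr_deriv ?_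
      norm_num
    have := ((d1.mul d3).sub (d2.mul ((qh_deriv r).mul d4))).sub ((ph_deriv r).mul d5)
    exact this
  have hmain := int_ge haR (fun r _ => hBd r)
    (G := fun r => ph r * (f' r ^ 2 - f r ^ 2))
    ((ph_cont.mul ((hc.pow 2).sub (hfc.pow 2))).continuousOn)
    (by
      have := ph_cont; have := qh_cont
      rw [hB']; fun_prop)
    (by
      intro r hr
      have hr0 : 0 ≤ r := ha.trans hr.1
      have hpq := ph_qh r
      have key : ph r * (f' r ^ 2 - f r ^ 2) - B' r =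
          qh r * ((1 + r) * P r - ph r * (f r + f' r)) ^ 2 + r * (qh r * (r * P r - ph r * f r) ^ 2) := by
        rw [hB']
        simp only
        linear_combination (-2 * (r + r^2) * P r * f r + 2 * (1 + r) * P r * (f r + f' r)
          - ph r * (f r + f' r)^2 + 2 * r^2 * P r * f r - r * ph r * f r ^ 2) * hpq
      have h1 := qh_pos r
      have h2 : 0 ≤ qh r * ((1 + r) * P r - ph r * (f r + f' r)) ^ 2 := by positivity
      have h3 : 0 ≤ r * (qh r * (r * P r - ph r * f r) ^ 2) := by positivity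
      linarith)
  rw [hB] at hmain
  simp only [hPR, hR, hPa] at hmain
  have h4 : 0 ≤ (a + a ^ 2) * (qh a * D ^ 2) := by have := qh_pos a; positivity
  nlinarith

/-- rotation mode on the ray -/
theorem ray_rot {f f' : ℝ → ℝ} (hf : ∀ r, HasDerivAt f (f' r) r) (hc : Continuous f') {a R : ℝ}
    (ha : 0 < a) (haR : a ≤ R) (hR : f R = 0) :
    -(ph a * f a ^ 2 / a) ≤ ∫ r in a..R, ph r * (f' r ^ 2 - f r ^ 2) := by
  have hfc : Continuous f := continuous_iff_continuousAt.2 fun r => (hf r).continuousAt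
  set B : ℝ → ℝ := fun r => ph r * f r ^ 2 / r with hB
  set B' : ℝ → ℝ := fun r => ((-r * ph r * f r ^ 2 + ph r * (2 * f r * f' r)) * r - ph r * f r ^ 2 * 1) / r ^ 2
    with hB'
  have hBd : ∀ r ∈ Icc a R, HasDerivAt B (B' r) r := by
    intro r hr
    have hr0 : r ≠ 0 := by linarith [hr.1]
    have d5 : HasDerivAt (fun r => f r ^ 2) (2 * f r * f' r) r := by
      have := (hf r).pow 2
      refine this.congr_deriv ?_
      norm_num
    exact ((ph_deriv r).mul d5).div (hasDerivAt_id r) hr0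
  have hmain := int_ge haR hBd
    (G := fun r => ph r * (f' r ^ 2 - f r ^ 2))
    ((ph_cont.mul ((hc.pow 2).sub (hfc.pow 2))).continuousOn)
    (by
      have := ph_cont
      rw [hB']
      apply ContinuousOn.div
      · fun_prop
      · fun_prop
      · intro r hr
        have : 0 < r := by linarith [hr.1]
        positivity)
    (by
      intro r hr
      have hr0 : 0 < r := by linarith [hr.1]
      have key : ph r * (f' r ^ 2 - f r ^ 2) - B' r = ph r * (f' r - f r / r) ^ 2 := by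
        rw [hB']
        field_simp
        ring
      have h2 : 0 ≤ ph r * (f' r - f r / r) ^ 2 := by have := ph_pos r; positivity
      linarith)
  rw [hB] at hmain
  simp only [hR] at hmain
  have : ph R * 0 ^ 2 / R = 0 := by simp
  linarith

/-! ### arcs -/

variable {μ : ℝ} {h k : ℝ → ℝ} (P : Prof μ h k)

/-- Wirtinger inequality -/
theorem wirt {g g' : ℝ → ℝ} (hg : ∀ x ∈ Icc (-(π/6)) (π/6), HasDerivAt g (g' x) x)
    (hc : ContinuousOn g' (Icc (-(π/6)) (π/6))) (h1 : g (π/6) = 0) (h2 : g (-(π/6)) = 0) :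
    0 ≤ ∫ x in (-(π/6))..(π/6), (g' x ^ 2 - 6 * g x ^ 2) := by
  have hgc : ContinuousOn g (Icc (-(π/6)) (π/6)) := fun x hx => (hg x hx).continuousAt.continuousWithinAt
  have hw : ∀ x ∈ Icc (-(π/6)) (π/6), 0 < 1 - 3 * x ^ 2 := by
    intro x hx
    have h3 : x ^ 2 ≤ (π/6) ^ 2 := by
      rw [sq_le_sq, abs_of_pos pi6_pos]; exact abs_le.2 hx
    have h4 : π < 3.15 := pi_lt_d2
    nlinarith [pi_pos]
  set B : ℝ → ℝ := fun x => -6 * x * g x ^ 2 / (1 - 3 * x ^ 2) with hB
  set B' : ℝ → ℝ := fun x => ((-6 * g x ^ 2 + -6 * x * (2 * g x * g' x)) * (1 - 3 * x ^ 2)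
    - -6 * x * g x ^ 2 * (-6 * x)) / (1 - 3 * x ^ 2) ^ 2 with hB'
  have hBd : ∀ x ∈ Icc (-(π/6)) (π/6), HasDerivAt B (B' x) x := by
    intro x hx
    have d1 : HasDerivAt (fun x : ℝ => -6 * x) (-6) x := by
      simpa using (hasDerivAt_id x).const_mul (-6)
    have d5 : HasDerivAt (fun r => g r ^ 2) (2 * g x * g' x) x := by
      have := (hg x hx).pow 2
      refine this.congr_deriv ?_
      norm_num
    have d6 : HasDerivAt (fun x : ℝ => 1 - 3 * x ^ 2) (-6 * x) x := by
      have := ((hasDerivAt_pow 2 x).const_mul 3).const_sub 1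
      refine this.congr_deriv ?_
      norm_num
      ring
    exact (d1.mul d5).div d6 (hw x hx).ne'
  have hmain := int_ge (by linarith [pi_pos]) hBd
    (G := fun x => g' x ^ 2 - 6 * g x ^ 2)
    ((hc.pow 2).sub (continuousOn_const.mul (hgc.pow 2)))
    (by
      rw [hB']
      apply ContinuousOn.div
      · fun_prop
      · fun_prop
      · intro x hx
        exact pow_ne_zero 2 (hw x hx).ne')
    (by
      intro x hx
      have hx0 := hw x hx
      have hx1 : 1 - 3 * x ^ 2 ≠ 0 := hx0.ne'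
      have key : g' x ^ 2 - 6 * g x ^ 2 - B' x =
          (g' x + 6 * x * g x / (1 - 3 * x ^ 2)) ^ 2 + 18 * x ^ 2 * g x ^ 2 / (1 - 3 * x ^ 2) := by
        rw [hB']
        simp only
        obtain ⟨W, hW⟩ : ∃ W, W = 1 - 3 * x ^ 2 := ⟨_, rfl⟩
        rw [← hW] at hx1 ⊢
        have e1 : 18 * x ^ 2 * g x ^ 2 / W = 6 * (1 - W) * g x ^ 2 / W := by rw [hW]; ring
        rw [e1]
        field_simp
        ring
      have h3 : 0 ≤ 18 * x ^ 2 * g x ^ 2 / (1 - 3 * x ^ 2) := by positivity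
      have h4 := sq_nonneg (g' x + 6 * x * g x / (1 - 3 * x ^ 2))
      linarith)
  rw [hB] at hmain
  simp only [h1, h2] at hmain
  have e : ∀ c d : ℝ, c * (0:ℝ) ^ 2 / d = 0 := by intro c d; simp
  rw [e, e] at hmain
  linarith

include P in
lemma sg_deriv {θ : ℝ} (hθ : θ ∈ Icc (-1:ℝ) 1) :
    HasDerivAt (sg μ h) (-(sg μ h θ ^ 2 * k θ)) θ := by
  have h0 : μ + h θ ≠ 0 := by linarith [P.muh hθ]
  have := (hasDerivAt_const θ (1:ℝ)).div ((P.hd θ).const_add μ) h0
  refine this.congr_deriv ?_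
  unfold sg
  field_simp
  ring

include P in
/-- the rotation (Jacobi) field argument away from the centre of the arc -/
lemma arc_rot_delta {u u' : ℝ → ℝ} (hu : ∀ x ∈ Icc 0 (π/6), HasDerivAt u (u' x) x)
    (hc : ContinuousOn u' (Icc 0 (π/6))) {δ : ℝ} (hδ : 0 < δ) (hδ1 : δ ≤ π/6) :
    u (π/6) ^ 2 * (sg μ h (π/6) - h (π/6)) / k (π/6) - u δ ^ 2 * (sg μ h δ - h δ) / k δ ≤
      ∫ x in δ..(π/6), (u' x ^ 2 - (1 + sg μ h x ^ 2) * u x ^ 2) := by
  have hsub : Icc δ (π/6) ⊆ Icc 0 (π/6) := Icc_subset_Icc_left hδ.le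
  have hsub1 : ∀ x ∈ Icc δ (π/6), x ∈ Icc (-1:ℝ) 1 := fun x hx =>
    ⟨by linarith [hx.1], by linarith [hx.2, pi6_le]⟩
  have huc : ContinuousOn u (Icc δ (π/6)) := fun x hx => (hu x (hsub hx)).continuousAt.continuousWithinAt
  have hkc : ContinuousOn k (Icc δ (π/6)) := fun x hx => (P.kd x (hsub1 x hx)).continuousAt.continuousWithinAt
  have hsc : ContinuousOn (sg μ h) (Icc δ (π/6)) := fun x hx =>
    (sg_deriv P (hsub1 x hx)).continuousAt.continuousWithinAt
  have hhc : ContinuousOn h (Icc δ (π/6)) := (h_cont P).continuousOn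
  set B : ℝ → ℝ := fun x => u x ^ 2 * (sg μ h x - h x) / k x with hB
  set B' : ℝ → ℝ := fun x => ((2 * u x * u' x * (sg μ h x - h x) +
    u x ^ 2 * (-(sg μ h x ^ 2 * k x) - k x)) * k x - u x ^ 2 * (sg μ h x - h x) * (sg μ h x - h x))
      / k x ^ 2 with hB'
  have hkp : ∀ x ∈ Icc δ (π/6), 0 < k x := fun x hx =>
    P.kpos x ⟨by linarith [hx.1], by linarith [hx.2, pi6_le]⟩
  have hBd : ∀ x ∈ Icc δ (π/6), HasDerivAt B (B' x) x := by
    intro x hx
    have d5 : HasDerivAt (fun r => u r ^ 2) (2 * u x * u' x) x := by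
      have := (hu x (hsub hx)).pow 2
      refine this.congr_deriv ?_
      norm_num
    have d6 := (sg_deriv P (hsub1 x hx)).sub (P.hd x)
    exact (d5.mul d6).div (P.kd x (hsub1 x hx)) (hkp x hx).ne'
  have hmain := int_ge hδ1 hBd
    (G := fun x => u' x ^ 2 - (1 + sg μ h x ^ 2) * u x ^ 2)
    (((hc.mono hsub).pow 2).sub ((continuousOn_const.add (hsc.pow 2)).mul (huc.pow 2)))
    (by
      have hc' := hc.mono hsub
      rw [hB']
      apply ContinuousOn.div
      · fun_prop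
      · fun_prop
      · intro x hx
        exact pow_ne_zero 2 (hkp x hx).ne')
    (by
      intro x hx
      have hx0 := hkp x hx
      have key : u' x ^ 2 - (1 + sg μ h x ^ 2) * u x ^ 2 - B' x =
          (u' x - u x * (sg μ h x - h x) / k x) ^ 2 := by
        rw [hB']
        field_simp
        ring
      have h4 := sq_nonneg (u' x - u x * (sg μ h x - h x) / k x)
      linarith)
  exact hmain

include P in
/-- the rotation mode on half an arc -/
theorem arc_rot {u u' : ℝ → ℝ} (hu : ∀ x ∈ Icc 0 (π/6), HasDerivAt u (u' x) x)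
    (hc : ContinuousOn u' (Icc 0 (π/6))) (h0 : u 0 = 0) :
    u (π/6) ^ 2 * (sg μ h (π/6) - h (π/6)) / k (π/6) ≤
      ∫ x in (0:ℝ)..(π/6), (u' x ^ 2 - (1 + sg μ h x ^ 2) * u x ^ 2) := by
  have hμ0 : 0 < μ := by linarith [P.mu]
  have huc : ContinuousOn u (Icc 0 (π/6)) := fun x hx => (hu x hx).continuousAt.continuousWithinAt
  have hsub1 : ∀ x ∈ Icc 0 (π/6), x ∈ Icc (-1:ℝ) 1 := fun x hx =>
    ⟨by linarith [hx.1], by linarith [hx.2, pi6_le]⟩
  have hsc : ContinuousOn (sg μ h) (Icc 0 (π/6)) := fun x hx =>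
    (sg_deriv P (hsub1 x hx)).continuousAt.continuousWithinAt
  set G : ℝ → ℝ := fun x => u' x ^ 2 - (1 + sg μ h x ^ 2) * u x ^ 2 with hG
  have hGc : ContinuousOn G (Icc 0 (π/6)) :=
    (hc.pow 2).sub ((continuousOn_const.add (hsc.pow 2)).mul (huc.pow 2))
  obtain ⟨M, hM⟩ := isCompact_Icc.exists_bound_of_continuousOn hc
  obtain ⟨K, hK⟩ := isCompact_Icc.exists_bound_of_continuousOn hGc
  have hM0 : 0 ≤ M := (norm_nonneg _).trans (hM 0 ⟨le_rfl, pi6_pos.le⟩)
  have hub : ∀ δ ∈ Icc 0 (π/6), |u δ| ≤ M * δ := by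
    intro δ hδ
    have := (convex_Icc (0:ℝ) (π/6)).norm_image_sub_le_of_norm_hasDerivWithin_le
      (f := u) (f' := u') (C := M) (fun x hx => (hu x hx).hasDerivWithinAt) hM
      (x := 0) (y := δ) ⟨le_rfl, pi6_pos.le⟩ hδ
    rw [h0, sub_zero, sub_zero, norm_eq_abs, norm_eq_abs, abs_of_nonneg hδ.1] at this
    exact this
  -- limit of the boundary term
  have hlim1 : Tendsto (fun δ => u δ ^ 2 * (sg μ h δ - h δ) / k δ) (𝓝[>] 0) (𝓝 0) := by
    have hb : ∀ δ ∈ Ioc 0 (π/6), |u δ ^ 2 * (sg μ h δ - h δ) / k δ| ≤ 8 * μ * M ^ 2 * δ := by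
      intro δ hδ
      have hδ' : δ ∈ Icc 0 (π/6) := ⟨hδ.1.le, hδ.2⟩
      have hδ1 : δ ≤ 1 := hδ.2.trans pi6_le
      have e1 : 2 / π * δ ≤ sin δ := mul_le_sin hδ.1.le (by linarith [pi_gt_three])
      have e2 : 1 / 2 * δ ≤ 2 / π * δ := by
        apply mul_le_mul_of_nonneg_right _ hδ.1.le
        rw [div_le_div_iff₀ (by norm_num) pi_pos]
        linarith [pi_le_four]
      have e3 := P.klb δ ⟨hδ.1.le, hδ1⟩
      have e4 : δ / (8 * μ) ≤ k δ := by
        have : δ / (8 * μ) = (1/2 * δ) * (1 / (4 * μ)) := by field_simp; ring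
        rw [this]
        exact (mul_le_mul_of_nonneg_right (e2.trans e1) (by positivity)).trans e3
      have e5 : 0 < k δ := lt_of_lt_of_le (by have := hδ.1; positivity) e4
      have e6 : |sg μ h δ - h δ| ≤ 1 := by
        have a1 := P.sg_pos (hsub1 δ hδ')
        have a2 := P.pos δ (hsub1 δ hδ')
        have a3 : sg μ h δ ≤ 1 := by
          unfold sg
          rw [div_le_one (by linarith [P.muh (hsub1 δ hδ')])]
          linarith [P.muh (hsub1 δ hδ')]
        have a4 := P.le δ (hsub1 δ hδ')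
        have a5 : 1 / μ ≤ 1 := by rw [div_le_one hμ0]; linarith [P.mu]
        rw [abs_le]; constructor <;> linarith
      have e7 : u δ ^ 2 ≤ (M * δ) ^ 2 := by
        rw [← sq_abs]
        exact pow_le_pow_left₀ (abs_nonneg _) (hub δ hδ') 2
      rw [abs_div, abs_mul, abs_of_pos e5, abs_of_nonneg (sq_nonneg _), div_le_iff₀ e5]
      calc u δ ^ 2 * |sg μ h δ - h δ| ≤ (M * δ) ^ 2 * 1 :=
            mul_le_mul e7 e6 (abs_nonneg _) (by positivity)
        _ = 8 * μ * M ^ 2 * δ * (δ / (8 * μ)) := by field_simp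
        _ ≤ 8 * μ * M ^ 2 * δ * k δ := by
            apply mul_le_mul_of_nonneg_left e4
            have := hδ.1; positivity
    apply squeeze_zero_norm' (a := fun δ => 8 * μ * M ^ 2 * δ)
    · have : ∀ᶠ δ in 𝓝[>] (0:ℝ), δ ∈ Ioc 0 (π/6) := Ioc_mem_nhdsGT pi6_pos
      filter_upwards [this] with δ hδ
      exact hb δ hδ
    · have : Tendsto (fun δ : ℝ => 8 * μ * M ^ 2 * δ) (𝓝 0) (𝓝 (8 * μ * M ^ 2 * 0)) :=
        (continuous_const.mul continuous_id).tendsto 0
      rw [mul_zero] at this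
      exact this.mono_left nhdsWithin_le_nhds
  have hlim2 : Tendsto (fun δ => ∫ x in δ..(π/6), G x) (𝓝[>] 0) (𝓝 (∫ x in (0:ℝ)..(π/6), G x)) := by
    have hii : ∀ a ∈ Icc 0 (π/6), ∀ b ∈ Icc 0 (π/6), IntervalIntegrable G volume a b := by
      intro a ha b hb
      exact (hGc.mono (by
        intro x hx
        rw [mem_uIcc] at hx
        rcases hx with c | c
        · exact ⟨ha.1.trans c.1, c.2.trans hb.2⟩
        · exact ⟨hb.1.trans c.1, c.2.trans ha.2⟩)).intervalIntegrable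
    have hb : ∀ δ ∈ Ioc 0 (π/6), ‖(∫ x in δ..(π/6), G x) - ∫ x in (0:ℝ)..(π/6), G x‖ ≤ K * δ := by
      intro δ hδ
      have hδ' : δ ∈ Icc 0 (π/6) := ⟨hδ.1.le, hδ.2⟩
      have e1 := intervalIntegral.integral_add_adjacent_intervals
        (hii 0 ⟨le_rfl, pi6_pos.le⟩ δ hδ') (hii δ hδ' (π/6) ⟨pi6_pos.le, le_rfl⟩)
      rw [← e1]
      have e2 : (∫ x in δ..(π/6), G x) - ((∫ x in (0:ℝ)..δ, G x) + ∫ x in δ..(π/6), G x) =
          -∫ x in (0:ℝ)..δ, G x := by ring
      rw [e2, norm_neg]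
      have := intervalIntegral.norm_integral_le_of_norm_le_const (a := 0) (b := δ) (C := K) (f := G)
        (fun x hx => hK x (by
          rw [uIoc_of_le hδ.1.le] at hx
          exact ⟨hx.1.le, hx.2.trans hδ.2⟩))
      rwa [sub_zero, abs_of_pos hδ.1] at this
    rw [tendsto_iff_norm_sub_tendsto_zero]
    apply squeeze_zero_norm' (a := fun δ => K * δ)
    · have : ∀ᶠ δ in 𝓝[>] (0:ℝ), δ ∈ Ioc 0 (π/6) := Ioc_mem_nhdsGT pi6_pos
      filter_upwards [this] with δ hδ
      rw [norm_norm]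
      exact hb δ hδ
    · have : Tendsto (fun δ : ℝ => K * δ) (𝓝 0) (𝓝 (K * 0)) :=
        (continuous_const.mul continuous_id).tendsto 0
      rw [mul_zero] at this
      exact this.mono_left nhdsWithin_le_nhds
  have hlim3 : Tendsto (fun δ => u (π/6) ^ 2 * (sg μ h (π/6) - h (π/6)) / k (π/6)
      - u δ ^ 2 * (sg μ h δ - h δ) / k δ) (𝓝[>] 0)
      (𝓝 (u (π/6) ^ 2 * (sg μ h (π/6) - h (π/6)) / k (π/6) - 0)) :=
    tendsto_const_nhds.sub hlim1
  rw [sub_zero] at hlim3
  apply le_of_tendsto_of_tendsto hlim3 hlim2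
  have : ∀ᶠ δ in 𝓝[>] (0:ℝ), δ ∈ Ioc 0 (π/6) := Ioc_mem_nhdsGT pi6_pos
  filter_upwards [this] with δ hδ
  exact arc_rot_delta P hu hc hδ.1 hδ.2

end

end Pool.Agent.W562.GP
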