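import Pool.Agent.W562.GP.Ineq

set_option autoImplicit false
set_option linter.all false

open Set MeasureTheory Real Filter Topology
open scoped NNReal ContDiff ComplexConjugate

namespace Pool.Agent.W562.GP

noncomputable section

/-- continuous functions on the symmetric interval are integrable -/
lemma ii_of {G : ℝ → ℝ} {α β : ℝ} (hαβ : α ≤ β) (hG : ContinuousOn G (Icc α β)) :
    IntervalIntegrable G volume α β :=
  ContinuousOn.intervalIntegrable (by rw [uIcc_of_le hαβ]; exact hG)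

lemma cs_int {p q : ℝ → ℝ} {α β : ℝ} (hαβ : α ≤ β) (hp : ContinuousOn p (Icc α β))
    (hq : ContinuousOn q (Icc α β)) :
    (∫ x in α..β, p x * q x) ^ 2 ≤ (∫ x in α..β, p x ^ 2) * ∫ x in α..β, q x ^ 2 := by
  set A := ∫ x in α..β, p x ^ 2
  set B := ∫ x in α..β, q x ^ 2
  set D := ∫ x in α..β, p x * q x
  have i1 : IntervalIntegrable (fun x => p x ^ 2) volume α β := ii_of hαβ (hp.pow 2)
  have i2 : IntervalIntegrable (fun x => q x ^ 2) volume α β := ii_of hαβ (hq.pow 2)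
  have i3 : IntervalIntegrable (fun x => p x * q x) volume α β := ii_of hαβ (hp.mul hq)
  have key : ∀ t : ℝ, 0 ≤ A * (t * t) + (-2 * D) * t + B := by
    intro t
    have h1 : 0 ≤ ∫ x in α..β, (t * p x - q x) ^ 2 :=
      intervalIntegral.integral_nonneg hαβ (fun x _ => sq_nonneg _)
    have h2 : ∫ x in α..β, (t * p x - q x) ^ 2 = A * (t * t) + (-2 * D) * t + B := by
      have e1 : ∀ x, (t * p x - q x) ^ 2 = (t * t) * p x ^ 2 + ((-2 * t) * (p x * q x) + q x ^ 2) := by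
        intro x; ring
      simp_rw [e1]
      have j1 : IntervalIntegrable (fun x => (t * t) * p x ^ 2) volume α β := i1.const_mul _
      have j2 : IntervalIntegrable (fun x => (-2 * t) * (p x * q x)) volume α β := i3.const_mul _
      have j3 : IntervalIntegrable (fun x => (-2 * t) * (p x * q x) + q x ^ 2) volume α β := j2.add i2
      rw [intervalIntegral.integral_add j1 j3, intervalIntegral.integral_add j2 i2,
        intervalIntegral.integral_const_mul, intervalIntegral.integral_const_mul]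
      ring
    linarith
  have h := discrim_le_zero key
  unfold discrim at h
  nlinarith

lemma int_neg_sym (G : ℝ → ℝ) (e : ℝ) : ∫ x in (-e)..e, G (-x) = ∫ x in (-e)..e, G x := by
  rw [intervalIntegral.integral_comp_neg, neg_neg]

lemma int_odd {G : ℝ → ℝ} {e : ℝ} (he : 0 ≤ e) (h : ∀ x ∈ Icc (-e) e, G (-x) = - G x) :
    ∫ x in (-e)..e, G x = 0 := by
  have h1 := int_neg_sym G e
  have h2 : ∫ x in (-e)..e, G (-x) = - ∫ x in (-e)..e, G x := by
    rw [← intervalIntegral.integral_neg]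
    apply intervalIntegral.integral_congr
    intro x hx
    rw [uIcc_of_le (by linarith)] at hx
    exact h x hx
  linarith

lemma int_even {G : ℝ → ℝ} {e : ℝ} (he : 0 ≤ e) (hG : ContinuousOn G (Icc (-e) e))
    (h : ∀ x ∈ Icc (-e) e, G (-x) = G x) :
    ∫ x in (-e)..e, G x = 2 * ∫ x in (0:ℝ)..e, G x := by
  have i1 : IntervalIntegrable G volume (-e) 0 := by
    apply ii_of (by linarith)
    exact hG.mono (Icc_subset_Icc_right he)
  have i2 : IntervalIntegrable G volume 0 e := by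
    apply ii_of he
    exact hG.mono (Icc_subset_Icc_left (by linarith))
  rw [← intervalIntegral.integral_add_adjacent_intervals i1 i2]
  have h1 : ∫ x in (-e)..0, G x = ∫ x in (0:ℝ)..e, G x := by
    have h2 := intervalIntegral.integral_comp_neg (a := 0) (b := e) G
    rw [neg_zero] at h2
    rw [← h2]
    apply intervalIntegral.integral_congr
    intro x hx
    rw [uIcc_of_le he] at hx
    exact h x ⟨by linarith [hx.1], hx.2⟩
  rw [h1]; ring

variable {h k : ℝ → ℝ} (P : Prof 100 h k)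

include P in
lemma sg_lb {θ : ℝ} (hθ : θ ∈ Icc (-1:ℝ) 1) : 1 / 100.01 ≤ sg 100 h θ := by
  unfold sg
  have h1 := P.le θ hθ
  have h2 := P.pos θ hθ
  apply one_div_le_one_div_of_le (by linarith)
  norm_num at h1
  linarith

include P in
lemma sg_ub {θ : ℝ} (hθ : θ ∈ Icc (-1:ℝ) 1) : sg 100 h θ ≤ 1 / 100 := by
  unfold sg
  have h2 := P.pos θ hθ
  exact one_div_le_one_div_of_le (by norm_num) (by linarith)

include P in
lemma sg_even (θ : ℝ) : sg 100 h (-θ) = sg 100 h θ := by unfold sg; rw [P.even]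

include P in
lemma sg_contOn : ContinuousOn (sg 100 h) (Icc (-(π/6)) (π/6)) := fun x hx =>
  (sg_deriv P (sub_mem hx)).continuousAt.continuousWithinAt

include P in
lemma av_small : av k ≤ 0.02 := by
  have := av_le P
  norm_num at this ⊢
  exact this

include P in
lemma ph_av : ph (av k) = CC 100 h * sg 100 h (π/6) := by
  have h1 := sg_eq P pi6_mem
  have h2 := CC_pos P
  have h3 : gw (ax h k (π/6)) = ph (av k) := by
    unfold gw ph
    have : ‖ax h k (π/6)‖ = av k := by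
      rw [ax_pi6' P, norm_mul, ee_norm, mul_one, Complex.norm_real, Real.norm_of_nonneg (av_pos P).le]
    rw [this]
  rw [h1, h3]; field_simp

include P in
lemma ph_av_lb : 0.99 ≤ ph (av k) := by
  have h1 := av_small P
  have h2 := av_pos P
  unfold ph
  have h3 := add_one_le_exp (-(av k ^ 2) / 2)
  nlinarith

include P in
lemma CC_lb : 99 ≤ CC 100 h := by
  have h1 := ph_av_lb P
  rw [ph_av P] at h1
  have h2 := sg_ub P pi6_mem
  have h3 := CC_pos P
  norm_num at h1 h2 ⊢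
  nlinarith

include P in
lemma CC_ub : CC 100 h ≤ 100.01 := by
  have h1 : ph (av k) ≤ 1 := by
    unfold ph; rw [exp_le_one_iff]; have := sq_nonneg (av k); linarith
  rw [ph_av P] at h1
  have h2 := sg_lb P pi6_mem
  have h3 := CC_pos P
  norm_num at h1 h2 ⊢
  nlinarith

/-! ### one arc -/

section arc

variable {E E' : ℝ → ℝ} (hE : ∀ x ∈ Icc (-(π/6)) (π/6), HasDerivAt E (E' x) x)
  (hc : ContinuousOn E' (Icc (-(π/6)) (π/6)))

/-- trigonometric interpolant -/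
def Pc (E : ℝ → ℝ) : ℝ := (E (π/6) + E (-(π/6))) / √3
def Rc (E : ℝ → ℝ) : ℝ := E (π/6) - E (-(π/6))
def Ip (E : ℝ → ℝ) (x : ℝ) : ℝ := Pc E * cos x + Rc E * sin x
def Ip' (E : ℝ → ℝ) (x : ℝ) : ℝ := -Pc E * sin x + Rc E * cos x
def Hh (E : ℝ → ℝ) (x : ℝ) : ℝ := E x - Ip E x
def eta (E : ℝ → ℝ) : ℝ := ∫ x in (-(π/6))..(π/6), Hh E x ^ 2

lemma Ip_deriv (E : ℝ → ℝ) (x : ℝ) : HasDerivAt (Ip E) (Ip' E x) x := by
  have := ((hasDerivAt_cos x).const_mul (Pc E)).add ((hasDerivAt_sin x).const_mul (Rc E))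
  refine this.congr_deriv ?_
  unfold Ip'; ring

lemma Ip'_deriv (E : ℝ → ℝ) (x : ℝ) : HasDerivAt (Ip' E) (-Ip E x) x := by
  have := ((hasDerivAt_sin x).const_mul (-Pc E)).add ((hasDerivAt_cos x).const_mul (Rc E))
  refine this.congr_deriv ?_
  unfold Ip; ring

lemma Ip_e (E : ℝ → ℝ) : Ip E (π/6) = E (π/6) := by
  unfold Ip Pc Rc
  rw [cos_pi_div_six, sin_pi_div_six]
  have : (0:ℝ) < √3 := by positivity
  field_simp
  ring

lemma Ip_ne (E : ℝ → ℝ) : Ip E (-(π/6)) = E (-(π/6)) := by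
  unfold Ip Pc Rc
  rw [cos_neg, sin_neg, cos_pi_div_six, sin_pi_div_six]
  have : (0:ℝ) < √3 := by positivity
  field_simp
  ring

lemma eta_nonneg (E : ℝ → ℝ) : 0 ≤ eta E :=
  intervalIntegral.integral_nonneg (by linarith [pi_pos]) (fun x _ => sq_nonneg _)

lemma npi_le : -(π/6) ≤ π/6 := by linarith [pi_pos]

lemma Ip_cont (E : ℝ → ℝ) : Continuous (Ip E) :=
  continuous_iff_continuousAt.2 fun x => (Ip_deriv E x).continuousAt
lemma Ip'_cont (E : ℝ → ℝ) : Continuous (Ip' E) :=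
  continuous_iff_continuousAt.2 fun x => (Ip'_deriv E x).continuousAt

include hE in
lemma E_cont : ContinuousOn E (Icc (-(π/6)) (π/6)) := fun x hx => (hE x hx).continuousAt.continuousWithinAt

include hE in
lemma Hh_cont : ContinuousOn (Hh E) (Icc (-(π/6)) (π/6)) := (E_cont hE).sub (Ip_cont E).continuousOn

include hE hc in
lemma arc1 : (E (π/6) ^ 2 + E (-(π/6)) ^ 2 - 4 * E (π/6) * E (-(π/6))) / √3 + 5 * eta E ≤
    ∫ x in (-(π/6))..(π/6), (E' x ^ 2 - E x ^ 2) := by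
  have hHd : ∀ x ∈ Icc (-(π/6)) (π/6), HasDerivAt (Hh E) (E' x - Ip' E x) x := fun x hx =>
    (hE x hx).sub (Ip_deriv E x)
  have hH'c : ContinuousOn (fun x => E' x - Ip' E x) (Icc (-(π/6)) (π/6)) :=
    hc.sub (Ip'_cont E).continuousOn
  have w := wirt hHd hH'c (by unfold Hh; rw [Ip_e]; ring) (by unfold Hh; rw [Ip_ne]; ring)
  -- the exact part
  have hBd : ∀ x ∈ Icc (-(π/6)) (π/6), HasDerivAt (fun x => Ip' E x * (Ip E x + 2 * Hh E x))
      (-Ip E x * (Ip E x + 2 * Hh E x) + Ip' E x * (Ip' E x + 2 * (E' x - Ip' E x))) x := fun x hx =>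
    (Ip'_deriv E x).mul ((Ip_deriv E x).add ((hHd x hx).const_mul 2))
  have hHc := Hh_cont hE
  have hIc := (Ip_cont E).continuousOn (s := Icc (-(π/6)) (π/6))
  have hI'c := (Ip'_cont E).continuousOn (s := Icc (-(π/6)) (π/6))
  have hBc : ContinuousOn (fun x => -Ip E x * (Ip E x + 2 * Hh E x) +
      Ip' E x * (Ip' E x + 2 * (E' x - Ip' E x))) (Icc (-(π/6)) (π/6)) := by fun_prop
  have h1 : ∫ x in (-(π/6))..(π/6), (-Ip E x * (Ip E x + 2 * Hh E x) +
      Ip' E x * (Ip' E x + 2 * (E' x - Ip' E x))) =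
      Ip' E (π/6) * (Ip E (π/6) + 2 * Hh E (π/6)) - Ip' E (-(π/6)) * (Ip E (-(π/6)) + 2 * Hh E (-(π/6))) := by
    apply intervalIntegral.integral_eq_sub_of_hasDerivAt
      (f := fun x => Ip' E x * (Ip E x + 2 * Hh E x))
    · intro x hx; rw [uIcc_of_le npi_le] at hx; exact hBd x hx
    · exact ii_of npi_le hBc
  have i2 : IntervalIntegrable (fun x => (E' x - Ip' E x) ^ 2 - 6 * Hh E x ^ 2) volume (-(π/6)) (π/6) :=
    ii_of npi_le ((hH'c.pow 2).sub (continuousOn_const.mul (hHc.pow 2)))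
  have i3 : IntervalIntegrable (fun x => 5 * Hh E x ^ 2) volume (-(π/6)) (π/6) :=
    ii_of npi_le (continuousOn_const.mul (hHc.pow 2))
  have h2 : ∫ x in (-(π/6))..(π/6), (E' x ^ 2 - E x ^ 2) =
      (∫ x in (-(π/6))..(π/6), (-Ip E x * (Ip E x + 2 * Hh E x) +
      Ip' E x * (Ip' E x + 2 * (E' x - Ip' E x)))) +
      ((∫ x in (-(π/6))..(π/6), ((E' x - Ip' E x) ^ 2 - 6 * Hh E x ^ 2)) +
        ∫ x in (-(π/6))..(π/6), 5 * Hh E x ^ 2) := by
    rw [← intervalIntegral.integral_add i2 i3, ← intervalIntegral.integral_add (ii_of npi_le hBc) (i2.add i3)]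
    apply intervalIntegral.integral_congr
    intro x hx
    show E' x ^ 2 - E x ^ 2 = (-Ip E x * (Ip E x + 2 * Hh E x) +
      Ip' E x * (Ip' E x + 2 * (E' x - Ip' E x))) + (((E' x - Ip' E x) ^ 2 - 6 * Hh E x ^ 2) + 5 * Hh E x ^ 2)
    have : E x = Ip E x + Hh E x := by unfold Hh; ring
    rw [this]; ring
  have hz1 : Hh E (π/6) = 0 := by unfold Hh; rw [Ip_e]; ring
  have hz2 : Hh E (-(π/6)) = 0 := by unfold Hh; rw [Ip_ne]; ring
  have h3 : Ip' E (π/6) * (Ip E (π/6) + 2 * Hh E (π/6)) - Ip' E (-(π/6)) * (Ip E (-(π/6)) + 2 * Hh E (-(π/6)))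
      = (E (π/6) ^ 2 + E (-(π/6)) ^ 2 - 4 * E (π/6) * E (-(π/6))) / √3 := by
    rw [hz1, hz2, Ip_e, Ip_ne]
    unfold Ip' Pc Rc
    rw [cos_neg, sin_neg, cos_pi_div_six, sin_pi_div_six]
    have h3 : √3 ^ 2 = 3 := sq_sqrt (by norm_num)
    have : (0:ℝ) < √3 := by positivity
    field_simp
    ring_nf
    rw [h3]; ring
  rw [h2, h1, h3, intervalIntegral.integral_const_mul]
  unfold eta
  linarith

include hE in
lemma arc2 : ∫ x in (-(π/6))..(π/6), E x ^ 2 ≤ 4.2 * (E (π/6) ^ 2 + E (-(π/6)) ^ 2) + 2 * eta E := by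
  have hHc := Hh_cont hE
  have i1 : IntervalIntegrable (fun x => (4 * (E (π/6) ^ 2 + E (-(π/6)) ^ 2)) + 2 * Hh E x ^ 2) volume
      (-(π/6)) (π/6) := ii_of npi_le (continuousOn_const.add (continuousOn_const.mul (hHc.pow 2)))
  have h1 : ∫ x in (-(π/6))..(π/6), E x ^ 2 ≤
      ∫ x in (-(π/6))..(π/6), ((4 * (E (π/6) ^ 2 + E (-(π/6)) ^ 2)) + 2 * Hh E x ^ 2) := by
    have i0 : IntervalIntegrable (fun x => E x ^ 2) volume (-(π/6)) (π/6) := ii_of npi_le ((E_cont hE).pow 2)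
    apply intervalIntegral.integral_mono_on npi_le i0 i1
    intro x hx
    have e1 : E x = Ip E x + Hh E x := by unfold Hh; ring
    have e2 : Ip E x ^ 2 ≤ 2 * (E (π/6) ^ 2 + E (-(π/6)) ^ 2) := by
      have e3 : Ip E x ^ 2 ≤ Pc E ^ 2 + Rc E ^ 2 := by
        unfold Ip
        have := sin_sq_add_cos_sq x
        nlinarith [sq_nonneg (Pc E * sin x - Rc E * cos x)]
      have e4 : Pc E ^ 2 = (E (π/6) + E (-(π/6))) ^ 2 / 3 := by
        unfold Pc
        rw [div_pow, sq_sqrt (by norm_num : (0:ℝ) ≤ 3)]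
      rw [e4] at e3
      unfold Rc at e3
      nlinarith [sq_nonneg (E (π/6) + E (-(π/6))), sq_nonneg (E (π/6) - E (-(π/6)))]
    rw [e1] 
    nlinarith [sq_nonneg (Ip E x - Hh E x)]
  refine h1.trans ?_
  have i4 : IntervalIntegrable (fun x => 2 * Hh E x ^ 2) volume (-(π/6)) (π/6) :=
    ii_of npi_le (continuousOn_const.mul (hHc.pow 2))
  rw [intervalIntegral.integral_add (intervalIntegrable_const) i4, intervalIntegral.integral_const,
    intervalIntegral.integral_const_mul, smul_eq_mul]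
  unfold eta
  have h2 : (π/6 - -(π/6)) ≤ 1.05 := by
    have := pi_lt_d2
    linarith
  have h3 : 0 ≤ E (π/6) ^ 2 + E (-(π/6)) ^ 2 := by positivity
  nlinarith

include P hE in
lemma arc3 : ∫ x in (-(π/6))..(π/6), sg 100 h x ^ 2 * E x =
    Pc E * (∫ x in (-(π/6))..(π/6), sg 100 h x ^ 2 * cos x)
      + ∫ x in (-(π/6))..(π/6), sg 100 h x ^ 2 * Hh E x := by
  have hHc := Hh_cont hE
  have hs := sg_contOn P
  have i1 : IntervalIntegrable (fun x => Pc E * (sg 100 h x ^ 2 * cos x)) volume (-(π/6)) (π/6) :=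
    ii_of npi_le (by fun_prop)
  have i2 : IntervalIntegrable (fun x => Rc E * (sg 100 h x ^ 2 * sin x)) volume (-(π/6)) (π/6) :=
    ii_of npi_le (by fun_prop)
  have i3 : IntervalIntegrable (fun x => sg 100 h x ^ 2 * Hh E x) volume (-(π/6)) (π/6) :=
    ii_of npi_le (by fun_prop)
  have h0 : ∫ x in (-(π/6))..(π/6), Rc E * (sg 100 h x ^ 2 * sin x) = 0 := by
    apply int_odd pi6_pos.le
    intro x _
    rw [sg_even P, sin_neg]; ring
  have h1 : ∫ x in (-(π/6))..(π/6), sg 100 h x ^ 2 * E x =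
      ∫ x in (-(π/6))..(π/6), ((Pc E * (sg 100 h x ^ 2 * cos x) + Rc E * (sg 100 h x ^ 2 * sin x))
        + sg 100 h x ^ 2 * Hh E x) := by
    apply intervalIntegral.integral_congr
    intro x _
    simp only
    unfold Hh Ip; ring
  rw [h1, intervalIntegral.integral_add (i1.add i2) i3, intervalIntegral.integral_add i1 i2, h0,
    intervalIntegral.integral_const_mul, add_zero]

include P in
lemma arc4 {G : ℝ → ℝ} (hG : ContinuousOn G (Icc (-(π/6)) (π/6))) :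
    (∫ x in (-(π/6))..(π/6), sg 100 h x ^ 2 * G x) ^ 2 ≤
      1.05 / 100000000 * ∫ x in (-(π/6))..(π/6), G x ^ 2 := by
  have hs := sg_contOn P
  refine (cs_int npi_le (hs.pow 2) hG).trans ?_
  have h0 : 0 ≤ ∫ x in (-(π/6))..(π/6), G x ^ 2 :=
    intervalIntegral.integral_nonneg npi_le (fun x _ => sq_nonneg _)
  apply mul_le_mul_of_nonneg_right _ h0
  have h1 : ∫ x in (-(π/6))..(π/6), (sg 100 h x ^ 2) ^ 2 ≤ ∫ x in (-(π/6))..(π/6), (1 / 100000000 : ℝ) := by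
    apply intervalIntegral.integral_mono_on npi_le (ii_of npi_le ((hs.pow 2).pow 2)) intervalIntegrable_const
    intro x hx
    have e1 := sg_ub P (sub_mem hx)
    have e2 := (P.sg_pos (sub_mem hx)).le
    have e3 : sg 100 h x ^ 4 ≤ (1/100) ^ 4 := pow_le_pow_left₀ e2 e1 4
    calc (sg 100 h x ^ 2) ^ 2 = sg 100 h x ^ 4 := by ring
      _ ≤ (1/100) ^ 4 := e3
      _ = 1 / 100000000 := by norm_num
  refine h1.trans ?_
  rw [intervalIntegral.integral_const, smul_eq_mul]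
  have h2 : (π/6 - -(π/6)) ≤ 1.05 := by
    have := pi_lt_d2
    linarith
  nlinarith

include P in
lemma arc5 : (1/100.01) ^ 2 ≤ ∫ x in (-(π/6))..(π/6), sg 100 h x ^ 2 * cos x := by
  have hs := sg_contOn P
  have h1 : ∫ x in (-(π/6))..(π/6), ((1/100.01 : ℝ)) ^ 2 * cos x ≤ ∫ x in (-(π/6))..(π/6), sg 100 h x ^ 2 * cos x := by
    apply intervalIntegral.integral_mono_on npi_le (ii_of npi_le (by fun_prop)) (ii_of npi_le (by fun_prop))
    intro x hx
    have e1 := sg_lb P (sub_mem hx)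
    have e3 : (1/100.01 : ℝ) ^ 2 ≤ sg 100 h x ^ 2 := pow_le_pow_left₀ (by norm_num) e1 2
    exact mul_le_mul_of_nonneg_right e3 (by linarith [cos_lb (sub_mem hx)])
  refine le_trans ?_ h1
  rw [intervalIntegral.integral_const_mul, integral_cos, sin_neg, sin_pi_div_six]
  norm_num

end arc

/-! ### finite dimensional algebra -/

lemma alg1 (x1 x2 x3 x4 x5 x6 : ℝ) :
    x1^2+x2^2+x3^2+x4^2+x5^2+x6^2 ≤ 4 * ((x2-x3)^2+(x4-x5)^2+(x6-x1)^2)
      + 27/4 * (x1^2+x2^2+x3^2+x4^2+x5^2+x6^2 - 2*(x1*x2+x2*x3+x3*x4+x4*x5+x5*x6+x6*x1))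
      + 3/2 * (x1+x2+x3+x4+x5+x6)^2 := by
  have e : 4 * ((x2-x3)^2+(x4-x5)^2+(x6-x1)^2)
      + 27/4 * (x1^2+x2^2+x3^2+x4^2+x5^2+x6^2 - 2*(x1*x2+x2*x3+x3*x4+x4*x5+x5*x6+x6*x1))
      + 3/2 * (x1+x2+x3+x4+x5+x6)^2 - (x1^2+x2^2+x3^2+x4^2+x5^2+x6^2) =
      (45/4)*((1)*x1 + (-7/15)*x2 + (2/15)*x3 + (2/15)*x4 + (2/15)*x5 + (-37/45)*x6)^2 + (44/5)*((1)*x2 + (-171/176)*x3 + (1/4)*x4 + (1/4)*x5 + (-169/528)*x6)^2 + (1931/704)*((1)*x3 + (-2332/1931)*x4 + (2420/1931)*x5 + (-7/5793)*x6)^2 + (50203/7724)*((1)*x4 + (-45175/50203)*x5 + (79561/150609)*x6)^2 + (46644/50203)*((1)*x5 + (-1267/5382)*x6)^2 + (545/621)*((1)*x6)^2 := by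
    ring
  have e2 : 0 ≤ (45/4)*((1)*x1 + (-7/15)*x2 + (2/15)*x3 + (2/15)*x4 + (2/15)*x5 + (-37/45)*x6)^2 + (44/5)*((1)*x2 + (-171/176)*x3 + (1/4)*x4 + (1/4)*x5 + (-169/528)*x6)^2 + (1931/704)*((1)*x3 + (-2332/1931)*x4 + (2420/1931)*x5 + (-7/5793)*x6)^2 + (50203/7724)*((1)*x4 + (-45175/50203)*x5 + (79561/150609)*x6)^2 + (46644/50203)*((1)*x5 + (-1267/5382)*x6)^2 + (545/621)*((1)*x6)^2 := by
    positivity
  linarith

lemma alg2 (x1 x2 x3 x4 x5 x6 : ℝ) :
    0 ≤ (x1^2+x2^2+x3^2+x4^2+x5^2+x6^2 - 2*(x1*x2+x2*x3+x3*x4+x4*x5+x5*x6+x6*x1))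
      + 1/6 * (x1+x2+x3+x4+x5+x6)^2 := by
  have e : (x1^2+x2^2+x3^2+x4^2+x5^2+x6^2 - 2*(x1*x2+x2*x3+x3*x4+x4*x5+x5*x6+x6*x1))
      + 1/6 * (x1+x2+x3+x4+x5+x6)^2 =
      (7/6)*((1)*x1 + (-5/7)*x2 + (1/7)*x3 + (1/7)*x4 + (1/7)*x5 + (-5/7)*x6)^2 + (4/7)*((1)*x2 + (-5/4)*x3 + (1/2)*x4 + (1/2)*x5 + (-3/4)*x6)^2 + (1/4)*((1)*x3 + (-2)*x4 + (2)*x5 + (-1)*x6)^2 := by
    ring
  rw [e]; positivity

end

end Pool.Agent.W562.GP
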