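import Pool.Agent.W562.GP.Flow
import Pool.Agent.W562.GP.Div

set_option autoImplicit false
set_option linter.all false

open Set MeasureTheory Real Filter Topology
open scoped NNReal ContDiff ComplexConjugate

namespace Pool.Agent.W562.GP

noncomputable section

lemma dt_comm (z w : ℂ) : dt z w = dt w z := by unfold dt; ring
lemma dt_self (z : ℂ) : dt z z = ‖z‖ ^ 2 := by rw [normSq_eq]; unfold dt; ring

lemma dt_deriv {f g : ℝ → ℂ} {f' g' : ℂ} {t : ℝ} (hf : HasDerivAt f f' t) (hg : HasDerivAt g g' t) :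
    HasDerivAt (fun t => dt (f t) (g t)) (dt f' (g t) + dt (f t) g') t := by
  have r1 : HasDerivAt (fun t => (f t).re) f'.re t := Complex.reCLM.hasFDerivAt.comp_hasDerivAt t hf
  have r2 : HasDerivAt (fun t => (g t).re) g'.re t := Complex.reCLM.hasFDerivAt.comp_hasDerivAt t hg
  have i1 : HasDerivAt (fun t => (f t).im) f'.im t := Complex.imCLM.hasFDerivAt.comp_hasDerivAt t hf
  have i2 : HasDerivAt (fun t => (g t).im) g'.im t := Complex.imCLM.hasFDerivAt.comp_hasDerivAt t hg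
  have h := (r1.mul r2).add (i1.mul i2)
  refine h.congr_deriv ?_
  unfold dt; ring

lemma norm_eq_sqrt (z : ℂ) : ‖z‖ = √(dt z z) := by
  rw [dt_self, sqrt_sq (norm_nonneg z)]

lemma norm_deriv {f : ℝ → ℂ} {f' : ℂ} {t : ℝ} (hf : HasDerivAt f f' t) (h0 : f t ≠ 0) :
    HasDerivAt (fun t => ‖f t‖) (dt (f t) f' / ‖f t‖) t := by
  have h1 : (fun t => ‖f t‖) = fun t => √(dt (f t) (f t)) := funext fun t => norm_eq_sqrt _
  have hp : 0 < ‖f t‖ := norm_pos_iff.2 h0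
  have h2 : dt (f t) (f t) ≠ 0 := by rw [dt_self]; positivity
  have h3 := (dt_deriv hf hf).sqrt h2
  rw [h1]
  refine h3.congr_deriv ?_
  rw [← norm_eq_sqrt, dt_comm f' (f t)]
  field_simp
  ring

lemma gw_eq (z : ℂ) : gw z = exp (-(dt z z) / 2) := by rw [dt_self]; rfl

lemma gw_deriv {f : ℝ → ℂ} {f' : ℂ} {t : ℝ} (hf : HasDerivAt f f' t) :
    HasDerivAt (fun t => gw (f t)) (-(dt (f t) f') * gw (f t)) t := by
  have h1 : (fun t => gw (f t)) = fun t => exp (-(dt (f t) (f t)) / 2) := funext fun t => gw_eq _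
  rw [h1]
  have h2 := ((dt_deriv hf hf).neg.div_const 2).exp
  refine h2.congr_deriv ?_
  rw [gw_eq, dt_comm f' (f t)]
  simp only [Pi.neg_apply]
  ring

/-- weighted speed and its first two time derivatives -/
def g0 (y v : ℂ) : ℝ := gw y * ‖v‖
def g1 (y v a η : ℂ) : ℝ := gw y * (dt v a / ‖v‖ - ‖v‖ * dt y η)
def g2 (y v a b η ζ : ℂ) : ℝ :=
  gw y * ((dt a a + dt v b) / ‖v‖ - (dt v a) ^ 2 / ‖v‖ ^ 3 - 2 * (dt v a) / ‖v‖ * dt y η
    - ‖v‖ * (dt η η + dt y ζ) + ‖v‖ * (dt y η) ^ 2)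

lemma g0_deriv {y v : ℝ → ℂ} {η a : ℂ} {t : ℝ} (hy : HasDerivAt y η t) (hv : HasDerivAt v a t)
    (h0 : v t ≠ 0) : HasDerivAt (fun t => g0 (y t) (v t)) (g1 (y t) (v t) a η) t := by
  have h := (gw_deriv hy).mul (norm_deriv hv h0)
  refine h.congr_deriv ?_
  unfold g1; ring

lemma g1_deriv {y v η a : ℝ → ℂ} {ζ b : ℂ} {t : ℝ} (hy : HasDerivAt y (η t) t)
    (hv : HasDerivAt v (a t) t) (hη : HasDerivAt η ζ t) (ha : HasDerivAt a b t)
    (h0 : v t ≠ 0) : HasDerivAt (fun t => g1 (y t) (v t) (a t) (η t))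
      (g2 (y t) (v t) (a t) b (η t) ζ) t := by
  have hp : ‖v t‖ ≠ 0 := norm_ne_zero_iff.2 h0
  have h1 := norm_deriv hv h0
  have h := (gw_deriv hy).mul (((dt_deriv hv ha).div h1 hp).sub (h1.mul (dt_deriv hy hη)))
  refine h.congr_deriv ?_
  unfold g2
  simp only [Pi.sub_apply, Pi.mul_apply, Pi.div_apply]
  field_simp
  ring

lemma gw_cont : Continuous gw := by
  unfold gw; fun_prop

lemma dt_cont : Continuous (fun p : ℂ × ℂ => dt p.1 p.2) := by
  unfold dt; fun_prop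

lemma dt_contOn {S : Type} [TopologicalSpace S] {s : Set S} {f g : S → ℂ} (hf : ContinuousOn f s)
    (hg : ContinuousOn g s) : ContinuousOn (fun x => dt (f x) (g x)) s :=
  dt_cont.comp_continuousOn (hf.prodMk hg)

/-- differentiation under the integral sign -/
lemma param_int {f f' : ℝ → ℝ → ℝ} {α β : ℝ} (hαβ : α ≤ β)
    (hf : ∀ t, ContinuousOn (f t) (Icc α β))
    (hf' : ContinuousOn (fun p : ℝ × ℝ => f' p.1 p.2) (univ ×ˢ Icc α β))
    (hd : ∀ t, ∀ s ∈ Icc α β, HasDerivAt (fun t => f t s) (f' t s) t) (t : ℝ) :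
    HasDerivAt (fun t => ∫ s in α..β, f t s) (∫ s in α..β, f' t s) t := by
  have hK : IsCompact (Icc (t - 1) (t + 1) ×ˢ Icc α β) := isCompact_Icc.prod isCompact_Icc
  obtain ⟨C, hC⟩ := hK.exists_bound_of_continuousOn (hf'.mono (prod_mono (subset_univ _) le_rfl))
  have hsub : uIoc α β ⊆ Icc α β := by rw [uIoc_of_le hαβ]; exact Ioc_subset_Icc_self
  have hf't : ContinuousOn (f' t) (Icc α β) := by
    have : ContinuousOn (fun s : ℝ => (t, s)) (Icc α β) := by fun_prop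
    exact hf'.comp this (fun s hs => ⟨mem_univ _, hs⟩)
  have h := intervalIntegral.hasDerivAt_integral_of_dominated_loc_of_deriv_le (μ := volume)
    (F := f) (F' := f') (x₀ := t) (s := Icc (t - 1) (t + 1)) (bound := fun _ => C)
    (a := α) (b := β)
    (Icc_mem_nhds (by linarith) (by linarith))
    (Eventually.of_forall fun t => ((hf t).mono hsub).aestronglyMeasurable measurableSet_uIoc)
    (ContinuousOn.intervalIntegrable (by rw [uIcc_of_le hαβ]; exact hf t))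
    ((hf't.mono hsub).aestronglyMeasurable measurableSet_uIoc)
    (Eventually.of_forall fun s hs x hx => hC (x, s) ⟨hx, hsub hs⟩)
    (intervalIntegrable_const)
    (Eventually.of_forall fun s hs x hx => hd x s (hsub hs))
  exact h.2

variable {X : ℂ → ℂ} {F : ℝ → ℂ → ℂ}

/-- weighted length of the moving curve `F_t ∘ c` and formal derivatives -/
def L0 (F : ℝ → ℂ → ℂ) (c c' : ℝ → ℂ) (α β t : ℝ) : ℝ :=
  ∫ s in α..β, g0 (F t (c s)) (Dv F id t (c s) (c' s))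
def L1 (X : ℂ → ℂ) (F : ℝ → ℂ → ℂ) (c c' : ℝ → ℂ) (α β t : ℝ) : ℝ :=
  ∫ s in α..β, g1 (F t (c s)) (Dv F id t (c s) (c' s)) (Dv F X t (c s) (c' s)) (X (F t (c s)))
def L2 (X : ℂ → ℂ) (F : ℝ → ℂ → ℂ) (c c' : ℝ → ℂ) (α β t : ℝ) : ℝ :=
  ∫ s in α..β, g2 (F t (c s)) (Dv F id t (c s) (c' s)) (Dv F X t (c s) (c' s))
    (Dv F (Lie X X) t (c s) (c' s)) (X (F t (c s))) (Lie X X (F t (c s)))

variable {c c' : ℝ → ℂ} {α β : ℝ}

section

variable (hX : ContDiff ℝ ∞ X) (hc : HasCompactSupport X) (hF : IsFlow X F)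
  (hαβ : α ≤ β) (h1 : ContinuousOn c (Icc α β)) (h2 : ContinuousOn c' (Icc α β))
  (h3 : ∀ s ∈ Icc α β, c' s ≠ 0)

include hX hc hF h1 h2 in
lemma Dv_contOn {W : ℂ → ℂ} (hW : ContDiff ℝ ∞ W) :
    ContinuousOn (fun p : ℝ × ℝ => Dv F W p.1 (c p.2) (c' p.2)) (univ ×ˢ Icc α β) := by
  have e1 : ContinuousOn (fun p : ℝ × ℝ => ((p.1, c p.2, c' p.2) : ℝ × ℂ × ℂ)) (univ ×ˢ Icc α β) := by
    apply ContinuousOn.prodMk continuousOn_fst
    apply ContinuousOn.prodMk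
    · exact h1.comp continuousOn_snd (fun p hp => hp.2)
    · exact h2.comp continuousOn_snd (fun p hp => hp.2)
  exact (Dv_cont hX hc hF hW).comp_continuousOn e1

include hX hc hF h1 in
lemma F_contOn {W : ℂ → ℂ} (hW : ContDiff ℝ ∞ W) :
    ContinuousOn (fun p : ℝ × ℝ => W (F p.1 (c p.2))) (univ ×ˢ Icc α β) := by
  have e1 : ContinuousOn (fun p : ℝ × ℝ => ((p.1, c p.2) : ℝ × ℂ)) (univ ×ˢ Icc α β) := by
    apply ContinuousOn.prodMk continuousOn_fst
    exact h1.comp continuousOn_snd (fun p hp => hp.2)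
  exact (joint_smooth hX hc hF hW).continuous.comp_continuousOn e1

lemma slice {f : ℝ × ℝ → ℝ} (hf : ContinuousOn f (univ ×ˢ Icc α β)) (t : ℝ) :
    ContinuousOn (fun s => f (t, s)) (Icc α β) := by
  have : ContinuousOn (fun s : ℝ => (t, s)) (Icc α β) := by fun_prop
  exact hf.comp this (fun s hs => ⟨mem_univ _, hs⟩)

include hX hc hF h1 h2 h3 in
lemma g0_contOn : ContinuousOn (fun p : ℝ × ℝ => g0 (F p.1 (c p.2)) (Dv F id p.1 (c p.2) (c' p.2)))
    (univ ×ˢ Icc α β) := by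
  have a1 := F_contOn hX hc hF h1 contDiff_id (α := α) (β := β)
  have a2 := Dv_contOn hX hc hF h1 h2 contDiff_id
  unfold g0
  exact (gw_cont.comp_continuousOn a1).mul a2.norm

include hX hc hF h1 h2 h3 in
lemma g1_contOn : ContinuousOn (fun p : ℝ × ℝ => g1 (F p.1 (c p.2)) (Dv F id p.1 (c p.2) (c' p.2))
    (Dv F X p.1 (c p.2) (c' p.2)) (X (F p.1 (c p.2)))) (univ ×ˢ Icc α β) := by
  have a1 : ContinuousOn (fun p : ℝ × ℝ => F p.1 (c p.2)) (univ ×ˢ Icc α β) :=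
    F_contOn hX hc hF h1 contDiff_id (α := α) (β := β)
  have a2 := Dv_contOn hX hc hF h1 h2 contDiff_id
  have a3 := Dv_contOn hX hc hF h1 h2 hX
  have a4 := F_contOn hX hc hF h1 hX (α := α) (β := β)
  unfold g1
  refine (gw_cont.comp_continuousOn a1).mul (((dt_contOn a2 a3).div a2.norm ?_).sub
    (a2.norm.mul (dt_contOn a1 a4)))
  intro p hp
  exact norm_ne_zero_iff.2 (Dv_id_ne hX hc hF _ _ (h3 _ hp.2))

include hX hc hF h1 h2 h3 in
lemma g2_contOn : ContinuousOn (fun p : ℝ × ℝ => g2 (F p.1 (c p.2)) (Dv F id p.1 (c p.2) (c' p.2))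
    (Dv F X p.1 (c p.2) (c' p.2)) (Dv F (Lie X X) p.1 (c p.2) (c' p.2))
    (X (F p.1 (c p.2))) (Lie X X (F p.1 (c p.2)))) (univ ×ˢ Icc α β) := by
  have a1 : ContinuousOn (fun p : ℝ × ℝ => F p.1 (c p.2)) (univ ×ˢ Icc α β) :=
    F_contOn hX hc hF h1 contDiff_id (α := α) (β := β)
  have a2 := Dv_contOn hX hc hF h1 h2 contDiff_id
  have a3 := Dv_contOn hX hc hF h1 h2 hX
  have a4 := F_contOn hX hc hF h1 hX (α := α) (β := β)
  have hL := Lie_smooth hX hX
  have a5 := Dv_contOn hX hc hF h1 h2 hL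
  have a6 := F_contOn hX hc hF h1 hL (α := α) (β := β)
  have hn : ∀ p ∈ univ ×ˢ Icc α β, ‖Dv F id p.1 (c p.2) (c' p.2)‖ ≠ 0 := fun p hp =>
    norm_ne_zero_iff.2 (Dv_id_ne hX hc hF _ _ (h3 _ hp.2))
  unfold g2
  refine (gw_cont.comp_continuousOn a1).mul ?_
  refine ContinuousOn.add (ContinuousOn.sub (ContinuousOn.sub (ContinuousOn.sub ?_ ?_) ?_) ?_) ?_
  · exact ((dt_contOn a3 a3).add (dt_contOn a2 a5)).div a2.norm hn
  · exact ((dt_contOn a2 a3).pow 2).div (a2.norm.pow 3) (fun p hp => pow_ne_zero 3 (hn p hp))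
  · exact ((continuousOn_const.mul (dt_contOn a2 a3)).div a2.norm hn).mul (dt_contOn a1 a4)
  · exact a2.norm.mul ((dt_contOn a4 a4).add (dt_contOn a1 a6))
  · exact a2.norm.mul ((dt_contOn a1 a4).pow 2)

include hX hc hF hαβ h1 h2 h3 in
theorem L0_deriv (t : ℝ) : HasDerivAt (L0 F c c' α β) (L1 X F c c' α β t) t := by
  refine param_int (f := fun t s => g0 (F t (c s)) (Dv F id t (c s) (c' s)))
    (f' := fun t s => g1 (F t (c s)) (Dv F id t (c s) (c' s)) (Dv F X t (c s) (c' s)) (X (F t (c s))))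
    hαβ (fun t => slice (g0_contOn hX hc hF h1 h2 h3) t) (g1_contOn hX hc hF h1 h2 h3) ?_ t
  intro t s hs
  have e1 : HasDerivAt (fun t => F t (c s)) (X (F t (c s))) t := hF.deriv t (c s)
  have e2 : HasDerivAt (fun t => Dv F id t (c s) (c' s)) (Dv F X t (c s) (c' s)) t := by
    have := Dv_deriv hX hc hF contDiff_id t (c s) (c' s)
    rwa [Lie_id] at this
  exact g0_deriv e1 e2 (Dv_id_ne hX hc hF _ _ (h3 s hs))

include hX hc hF hαβ h1 h2 h3 in
theorem L1_deriv (t : ℝ) : HasDerivAt (L1 X F c c' α β) (L2 X F c c' α β t) t := by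
  refine param_int
    (f := fun t s => g1 (F t (c s)) (Dv F id t (c s) (c' s)) (Dv F X t (c s) (c' s)) (X (F t (c s))))
    (f' := fun t s => g2 (F t (c s)) (Dv F id t (c s) (c' s)) (Dv F X t (c s) (c' s))
      (Dv F (Lie X X) t (c s) (c' s)) (X (F t (c s))) (Lie X X (F t (c s))))
    hαβ (fun t => slice (g1_contOn hX hc hF h1 h2 h3) t) (g2_contOn hX hc hF h1 h2 h3) ?_ t
  intro t s hs
  have e1 : HasDerivAt (fun t => F t (c s)) (X (F t (c s))) t := hF.deriv t (c s)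
  have e2 : HasDerivAt (fun t => Dv F id t (c s) (c' s)) (Dv F X t (c s) (c' s)) t := by
    have := Dv_deriv hX hc hF contDiff_id t (c s) (c' s)
    rwa [Lie_id] at this
  have e3 : HasDerivAt (fun t => X (F t (c s))) (Lie X X (F t (c s))) t := lie_deriv hF hX t (c s)
  have e4 := Dv_deriv hX hc hF hX t (c s) (c' s)
  exact g1_deriv e1 e2 e3 e4 (Dv_id_ne hX hc hF _ _ (h3 s hs))

end

end

end Pool.Agent.W562.GP
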