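import Pool.Agent.W562.GP.Per

set_option autoImplicit false
set_option linter.all false

open Set MeasureTheory Real Filter Topology
open scoped NNReal ContDiff ComplexConjugate
open Pool.Agent.W562.GaussPart

namespace Pool.Agent.W562.GP

noncomputable section

variable {μ : ℝ} {h k : ℝ → ℝ} (P : Prof μ h k) {X : ℂ → ℂ} {F : ℝ → ℂ → ℂ}

lemma toFlow (hF : IsFlowOf X F) : IsFlow X F := ⟨hF.2.2.1, hF.2.2.2⟩

lemma iface_move (hF : IsFlowOf X F) (Ω : Fin 4 → Set ℂ) (t : ℝ) (i j : Fin 4) :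
    iface (move (F t) Ω) i j = F t '' iface Ω i j := by
  have hh := fun S => (flowH hF.1 hF.2.1 (toFlow hF) t).image_frontier S
  have hinj : Function.Injective (F t) := (flowH hF.1 hF.2.1 (toFlow hF) t).injective
  unfold iface move
  rw [image_inter hinj]
  have e : ∀ S, F t '' frontier S = frontier (F t '' S) := hh
  rw [e, e]

lemma garea_four (Ω : Fin 4 → Set ℂ) : garea Ω =
    (∫ z in iface Ω 0 1, gden z ∂μH[1]) + (∫ z in iface Ω 0 2, gden z ∂μH[1])
    + (∫ z in iface Ω 0 3, gden z ∂μH[1]) + (∫ z in iface Ω 1 2, gden z ∂μH[1])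
    + (∫ z in iface Ω 1 3, gden z ∂μH[1]) + (∫ z in iface Ω 2 3, gden z ∂μH[1]) := by
  unfold garea
  simp only [Fin.sum_univ_four]
  have d00 : ¬ ((0:Fin 4) < 0) := by decide
  have d01 : (0:Fin 4) < 1 := by decide
  have d02 : (0:Fin 4) < 2 := by decide
  have d03 : (0:Fin 4) < 3 := by decide
  have d10 : ¬ ((1:Fin 4) < 0) := by decide
  have d11 : ¬ ((1:Fin 4) < 1) := by decide
  have d12 : (1:Fin 4) < 2 := by decide
  have d13 : (1:Fin 4) < 3 := by decide
  have d20 : ¬ ((2:Fin 4) < 0) := by decide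
  have d21 : ¬ ((2:Fin 4) < 1) := by decide
  have d22 : ¬ ((2:Fin 4) < 2) := by decide
  have d23 : (2:Fin 4) < 3 := by decide
  have d30 : ¬ ((3:Fin 4) < 0) := by decide
  have d31 : ¬ ((3:Fin 4) < 1) := by decide
  have d32 : ¬ ((3:Fin 4) < 2) := by decide
  have d33 : ¬ ((3:Fin 4) < 3) := by decide
  simp only [if_pos d01, if_pos d02, if_pos d03, if_pos d12, if_pos d13, if_pos d23, if_neg d00,
    if_neg d10, if_neg d11, if_neg d20, if_neg d21, if_neg d22, if_neg d30, if_neg d31, if_neg d32,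
    if_neg d33]
  ring

lemma if01 : iface (Om P) 0 1 = Ray k 0 := iface_ray P 0
lemma if12 : iface (Om P) 1 2 = Ray k 1 := iface_ray P 1
lemma if02 : iface (Om P) 0 2 = Ray k 2 := by
  have := iface_ray P 2
  rw [inter_comm] at this
  exact this
lemma if03 : iface (Om P) 0 3 = Arc h k 0 := iface_arc P 0
lemma if13 : iface (Om P) 1 3 = Arc h k 1 := iface_arc P 1
lemma if23 : iface (Om P) 2 3 = Arc h k 2 := iface_arc P 2

lemma gden_int (S : Set ℂ) : ∫ z in S, gden z ∂μH[1] = (2 * π)⁻¹ * ∫ z in S, gw z ∂μH[1] := by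
  rw [← integral_const_mul]; rfl

theorem garea_move (hF : IsFlowOf X F) {R : ℝ} (haR : av k ≤ R) (hR : ∀ z, R ≤ ‖z‖ → X z = 0) (t : ℝ) :
    garea (move (F t) (Om P)) = (2 * π)⁻¹ * (En μ h k F R t + ∑ j, Tl j R) := by
  have ha := fun j => (int_arc P hF.1 hF.2.1 (toFlow hF) j t).2
  have hr := fun j => (int_ray P hF.1 hF.2.1 (toFlow hF) j haR hR t).2
  rw [garea_four]
  simp only [iface_move hF, gden_int, if01, if12, if02, if03, if13, if23, ha, hr]
  unfold En
  simp only [Fin.sum_univ_three]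
  ring

lemma gmeas_move (S : Set ℂ) (t : ℝ) : gmeas (F t '' S) = (2 * π)⁻¹ * V0 F S t := by
  unfold gmeas V0
  rw [← integral_const_mul]; rfl

lemma Om_open (i : Fin 4) : IsOpen (Om P i) := by
  induction i using Fin.lastCases with
  | last => exact Oi_open P
  | cast j => rw [Om_cast]; exact Oc_open P j

lemma finite_area : FiniteArea (Om P) := by
  intro X F hF t i j hij
  obtain ⟨R0, hR0, hR⟩ := exists_rad hF.2.1
  have haR : av k ≤ max R0 (av k) := le_max_right _ _
  have hR' : ∀ z, max R0 (av k) ≤ ‖z‖ → X z = 0 := fun z hz => hR z ((le_max_left _ _).trans hz)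
  have ha := fun j => (int_arc P hF.1 hF.2.1 (toFlow hF) j t).1
  have hr := fun j => (int_ray P hF.1 hF.2.1 (toFlow hF) j haR hR' t).1
  rw [iface_move hF]
  have key : ∀ S, IntegrableOn gw S μH[1] → IntegrableOn gden S μH[1] := fun S hS => hS.const_mul _
  apply key
  have hcases : (i = 0 ∧ j = 1) ∨ (i = 0 ∧ j = 2) ∨ (i = 0 ∧ j = 3) ∨ (i = 1 ∧ j = 2) ∨
      (i = 1 ∧ j = 3) ∨ (i = 2 ∧ j = 3) := by
    revert i j; decide
  rcases hcases with ⟨rfl, rfl⟩ | ⟨rfl, rfl⟩ | ⟨rfl, rfl⟩ | ⟨rfl, rfl⟩ | ⟨rfl, rfl⟩ | ⟨rfl, rfl⟩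
  · rw [if01]; exact hr 0
  · rw [if02]; exact hr 2
  · rw [if03]; exact ha 0
  · rw [if12]; exact hr 1
  · rw [if13]; exact ha 1
  · rw [if23]; exact ha 2

theorem index_form (P : Prof 100 h k) : IndexNonneg (Om P) := by
  refine ⟨fun i => if i = Fin.last 3 then 0 else -100, fun X F hF => ?_⟩
  have hX := hF.1
  have hc := hF.2.1
  have hFl := toFlow hF
  obtain ⟨R0, hR0, hR⟩ := exists_rad hc
  set R := max R0 (av k) with hRdef
  have haR : av k ≤ R := le_max_right _ _
  have hR' : ∀ z, R ≤ ‖z‖ → X z = 0 := fun z hz => hR z ((le_max_left _ _).trans hz)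
  have hlast : ∀ j : Fin 3, ¬ (j.castSucc = Fin.last 3) := fun j => (Fin.castSucc_lt_last j).ne
  have hpi : (0:ℝ) < (2 * π)⁻¹ := by positivity
  refine ⟨fun t => (2 * π)⁻¹ * En1 100 h k X F R t, (2 * π)⁻¹ * En2 100 h k X F R 0,
    fun i t => (2 * π)⁻¹ * V1 X F (Om P i) t, fun i => (2 * π)⁻¹ * V2 X F (Om P i) 0,
    ⟨?_, ?_⟩, ?_, ?_, ?_⟩
  · intro t
    have e : (fun t => garea (move (F t) (Om P))) =
        fun t => (2 * π)⁻¹ * (En 100 h k F R t + ∑ j, Tl j R) := funext fun t => garea_move P hF haR hR' t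
    rw [e]
    exact ((En_deriv P hX hc hFl haR t).add_const _).const_mul _
  · exact (En1_deriv P hX hc hFl haR 0).const_mul _
  · intro i
    constructor
    · intro t
      have e : (fun t => gmeas (F t '' Om P i)) = fun t => (2 * π)⁻¹ * V0 F (Om P i) t :=
        funext fun t => gmeas_move _ t
      rw [e]
      exact (V0_deriv hX hc hFl (Om_open P i) t).const_mul _
    · exact (V1_deriv hX hc hFl (Om_open P i) 0).const_mul _
  · rw [Fin.sum_univ_castSucc]
    simp only [if_neg (hlast _), ite_true, Om_cast]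
    rw [first_var P hX hc hFl haR hR', Fin.sum_univ_three, Fin.sum_univ_three]
    ring
  · intro hV
    have hV' : ∀ j, V1 X F (Oc P j) 0 = 0 := by
      intro j
      have := hV j.castSucc
      simp only [Om_cast] at this
      exact (mul_eq_zero.1 this).resolve_left hpi.ne'
    have hs := stab_final P hX hc hFl haR hR' hV'
    rw [Fin.sum_univ_castSucc]
    simp only [if_neg (hlast _), ite_true, Om_cast]
    rw [Fin.sum_univ_three] at hs ⊢
    have := mul_nonneg hpi.le hs
    linarith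

/-- the index form controls the plain notions -/
lemma stationary_of_index {q : ℕ} {Ω : Fin q → Set ℂ} (hI : IndexNonneg Ω) : Stationary Ω := by
  obtain ⟨lam, hlam⟩ := hI
  intro X F hF hV
  obtain ⟨A', A2, V', V2, hA, hVd, hA0, _⟩ := hlam X F hF
  have h1 : ∀ i, V' i 0 = 0 := fun i => ((hVd i).1 0).unique (hV i)
  have h2 : A' 0 = 0 := by
    rw [hA0]; exact Finset.sum_eq_zero fun i _ => by rw [h1 i, mul_zero]
  have h3 := hA.1 0
  rw [h2] at h3
  exact h3

lemma stable_of_index {q : ℕ} {Ω : Fin q → Set ℂ} (hI : IndexNonneg Ω) : Stable Ω := by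
  refine ⟨stationary_of_index hI, ?_⟩
  obtain ⟨lam, hlam⟩ := hI
  intro X F hF hV
  obtain ⟨A', A2, V', V2, hA, hVd, hA0, hpos⟩ := hlam X F hF
  have h1 : ∀ i, ∀ᶠ t in 𝓝 (0:ℝ), V' i t = 0 := by
    intro i
    have h2 := (hV i).eventually_nhds
    filter_upwards [h2] with t ht
    have h3 : HasDerivAt (fun t => gmeas (F t '' Ω i)) 0 t :=
      (hasDerivAt_const t (gmeas (Ω i))).congr_of_eventuallyEq ht
    exact ((hVd i).1 t).unique h3
  have h0 : ∀ i, V' i 0 = 0 := fun i => (h1 i).self_of_nhds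
  have h2 : ∀ i, V2 i = 0 := by
    intro i
    have h3 : HasDerivAt (V' i) 0 0 := (hasDerivAt_const (0:ℝ) (0:ℝ)).congr_of_eventuallyEq (h1 i)
    exact (hVd i).2.unique h3
  refine ⟨A', A2, hA, ?_⟩
  have h4 := hpos h0
  have h5 : ∑ i, lam i * V2 i = 0 := Finset.sum_eq_zero fun i _ => by rw [h2 i, mul_zero]
  rw [h5, sub_zero] at h4
  exact h4

lemma zero_mem : (0:ℂ) ∈ Oi P := by
  intro j
  have : cr j 0 = 0 := by unfold cr; simp
  rw [this]
  exact Hf_pos P _

lemma Om_partition : IsPartition (Om P) := by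
  refine ⟨Om_open P, ?_, ?_, ?_, ?_⟩
  · intro i
    induction i using Fin.lastCases with
    | last => exact ⟨0, zero_mem P⟩
    | cast j =>
      rw [Om_cast]
      refine ⟨rho j * ((Hf P 0 + 1 : ℝ) : ℂ), ?_⟩
      show Hf P (cr j (rho j * ((Hf P 0 + 1 : ℝ) : ℂ))).im < (cr j (rho j * ((Hf P 0 + 1 : ℝ) : ℂ))).re
      rw [cr_mul, Complex.ofReal_re, Complex.ofReal_im]
      linarith
  · intro i j hij
    induction i using Fin.lastCases with
    | last =>
      induction j using Fin.lastCases with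
      | last => exact absurd rfl hij
      | cast b => rw [Om_cast, Om_last]; exact (Oi_disj P b).symm
    | cast a =>
      induction j using Fin.lastCases with
      | last => rw [Om_cast, Om_last]; exact Oi_disj P a
      | cast b =>
        rw [Om_cast, Om_cast]
        exact Oc_disj P (fun e => hij (by rw [e]))
  · intro z
    rcases cover P z with ⟨j, hj⟩ | hz
    · exact ⟨j.castSucc, by rw [Om_cast]; exact hj⟩
    · exact ⟨Fin.last 3, subset_closure hz⟩
  · intro i
    induction i using Fin.lastCases with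
    | last => exact perim_Oi P
    | cast j => rw [Om_cast]; exact perim_Oc P j

lemma no_product : ¬ HasProductStructure (Om P) := by
  rintro ⟨u, hu, Ω', hΩ⟩
  have h1 := hΩ (Fin.last 3)
  have h0 : (0:ℂ) ∈ Om P (Fin.last 3) := zero_mem P
  rw [h1] at h0
  have h2 : (u * 0).re ∈ Ω' (Fin.last 3) := h0
  set w : ℂ := conj u * (((av k + 1 : ℝ) : ℂ) * Complex.I) with hw
  have hun : u * conj u = 1 := by
    rw [Complex.mul_conj, Complex.normSq_eq_norm_sq, hu]; simp
  have h3 : (u * w).re = (u * 0).re := by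
    rw [hw, ← mul_assoc, hun]; simp
  have h4 : w ∈ Om P (Fin.last 3) := by
    rw [h1]
    show (u * w).re ∈ Ω' (Fin.last 3)
    rw [h3]; exact h2
  have h5 := Oi_norm P h4
  have h6 : ‖w‖ = av k + 1 := by
    rw [hw, norm_mul, norm_mul, RCLike.norm_conj, hu, Complex.norm_I, Complex.norm_real,
      Real.norm_of_nonneg (by linarith [av_pos P])]
    ring
  linarith

lemma not_flat : ¬ FlatInterfaces (Om P) := by
  intro hfl
  obtain ⟨v, b, hv, hb⟩ := hfl 0 3 (by decide)
  rw [if03] at hb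
  have hp := hb _ ⟨π/6, ⟨npi_le, le_rfl⟩, rfl⟩
  have hn := hb _ ⟨-(π/6), ⟨le_rfl, npi_le⟩, rfl⟩
  have h0 := hb _ ⟨0, ⟨by linarith [pi_pos], by linarith [pi_pos]⟩, rfl⟩
  have r0 : rho 0 = 1 := rfl
  simp only [r0, one_mul] at hp hn h0
  rw [ax_pi6 P] at hp
  rw [ax_npi6 P] at hn
  rw [ax_zero P] at h0
  simp only at hp hn h0
  have hbv := bv_pos P
  have him : v.im = 0 := by
    have : v.im * bv k = 0 := by linarith
    exact (mul_eq_zero.1 this).resolve_right hbv.ne'
  have hsec := ax_sector' P (θ := 0) ⟨by linarith [pi_pos], by linarith [pi_pos]⟩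
  rw [him] at hp h0
  have hre : v.re * (av k / 2 - h 0) = 0 := by linarith
  rcases mul_eq_zero.1 hre with h1 | h1
  · exact hv (Complex.ext h1 him)
  · -- the support function is strictly larger than the cosine part
    have hd : ∀ s ∈ Icc (-1:ℝ) 1, HasDerivAt (fun θ => (ax h k θ).re) (-(sg μ h s * sin s)) s :=
      fun s hs => P.re_deriv hs
    have hanti : StrictAntiOn (fun θ => (ax h k θ).re) (Icc 0 (π/6)) := by
      apply strictAntiOn_of_deriv_neg (convex_Icc _ _)
      · intro s hs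
        exact (hd s ⟨by linarith [hs.1], by linarith [hs.2, pi6_le]⟩).continuousAt.continuousWithinAt
      · intro s hs
        rw [interior_Icc] at hs
        have hs' : s ∈ Icc (-1:ℝ) 1 := ⟨by linarith [hs.1], by linarith [hs.2, pi6_le]⟩
        rw [(hd s hs').deriv]
        have h2 : 0 < sin s := sin_pos_of_pos_of_lt_pi hs.1 (by linarith [hs.2, pi_pos])
        have := mul_pos (P.sg_pos hs') h2
        linarith
    have h2 := hanti ⟨le_rfl, pi6_pos.le⟩ ⟨pi6_pos.le, le_rfl⟩ pi6_pos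
    simp only at h2
    rw [ax_pi6 P, ax_zero P] at h2
    simp only at h2
    linarith

/-- **Main theorem.** -/
theorem main : ∃ Ω : Fin 4 → Set ℂ, IsPartition Ω ∧ IsRegular Ω ∧ FiniteArea Ω ∧ Stationary Ω ∧
    Stable Ω ∧ IndexNonneg Ω ∧ ¬ HasProductStructure Ω ∧ ¬ FlatInterfaces Ω := by
  obtain ⟨h, k, P⟩ := exists_prof (show (2:ℝ) ≤ 100 by norm_num)
  exact ⟨Om P, Om_partition P, Om_regular P, finite_area P, stationary_of_index (index_form P),
    stable_of_index (index_form P), index_form P, no_product P, not_flat P⟩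

end

end Pool.Agent.W562.GP
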