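import Pool.Agent.W562.GP.Asm2
import Pool.Agent.W562.GP.Area

set_option autoImplicit false
set_option linter.all false

open Set MeasureTheory Real Filter Topology
open scoped NNReal ContDiff ComplexConjugate

namespace Pool.Agent.W562.GP

noncomputable section

variable {μ : ℝ} {h k : ℝ → ℝ} (P : Prof μ h k) {X : ℂ → ℂ} {F : ℝ → ℂ → ℂ}

lemma Arc_eq (j : Fin 3) : Arc h k j = ca h k j '' Icc (-(π/6)) (π/6) := rfl
lemma Ray_eq (j : Fin 3) : Ray k j = cy j '' Ici (av k) := rfl

include P in
lemma ca_injOn (j : Fin 3) : InjOn (ca h k j) (Icc (-(π/6)) (π/6)) := by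
  intro x hx y hy hxy
  have h1 : ax h k x = ax h k y := by
    have := congrArg (cr j) hxy
    unfold ca at this
    rwa [cr_mul, cr_mul] at this
  rw [← Tg_ax P hx, ← Tg_ax P hy, h1]

lemma cy_isometry (j : Fin 3) : Isometry (cy j) := by
  apply Isometry.of_dist_eq
  intro x y
  rw [dist_eq_norm, Real.dist_eq, cy_eq, cy_eq, ← sub_mul, norm_mul, Er_norm, mul_one, ← Complex.ofReal_sub,
    Complex.norm_real, Real.norm_eq_abs]

/-- weight of the fixed tail of a ray -/
def Tl (j : Fin 3) (R : ℝ) : ℝ := ∫ z in cy j '' Ioi R, gw z ∂μH[1]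

lemma tail_meas (j : Fin 3) (R : ℝ) : MeasurableSet (cy j '' Ioi R) :=
  (cy_isometry j).isClosedEmbedding.measurableEmbedding.measurableSet_image.2 measurableSet_Ioi

lemma ph_integrable : Integrable ph := by
  have h1 := integrable_exp_neg_mul_sq (by norm_num : (0:ℝ) < 1/2)
  refine h1.congr (Eventually.of_forall fun r => ?_)
  show exp (-(1/2) * r ^ 2) = ph r
  unfold ph
  congr 1; ring

lemma gw_cy' (j : Fin 3) (r : ℝ) : gw (cy j r) = ph r := by
  unfold gw ph
  rw [cy_eq, norm_mul, Er_norm, mul_one, Complex.norm_real, Real.norm_eq_abs, sq_abs]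

lemma tail_int (j : Fin 3) (S : Set ℝ) : IntegrableOn gw (cy j '' S) μH[1] := by
  have h1 : IntegrableOn gw (range (cy j)) μH[1] := by
    unfold IntegrableOn
    rw [← (cy_isometry j).map_hausdorffMeasure (Or.inl zero_le_one),
      integrable_map_measure gw_cont.aestronglyMeasurable (cy_cont j).aemeasurable, hausdorffMeasure_real]
    refine ph_integrable.congr (Eventually.of_forall fun r => ?_)
    exact (gw_cy' j r).symm
  exact h1.mono_set (image_subset_range _ _)

section

variable (hX : ContDiff ℝ ∞ X) (hc : HasCompactSupport X) (hF : IsFlow X F)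

include hX hc hF in
lemma curve_flow {c c' : ℝ → ℂ} {α β : ℝ} (hαβ : α ≤ β) (hd : ∀ s ∈ Icc α β, HasDerivAt c (c' s) s)
    (hc' : ContinuousOn c' (Icc α β)) (hinj : InjOn c (Icc α β)) (t : ℝ) :
    IntegrableOn gw (F t '' (c '' Icc α β)) μH[1] ∧
    ∫ z in F t '' (c '' Icc α β), gw z ∂μH[1] = L0 F c c' α β t := by
  have hcc : ContinuousOn c (Icc α β) := fun s hs => (hd s hs).continuousAt.continuousWithinAt
  have h1 := curve_integral (γ := fun s => F t (c s)) (γ' := fun s => Dv F id t (c s) (c' s)) hαβ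
    (fun s hs => by
      have h2 : HasFDerivAt (F t) (fderiv ℝ (F t) (c s)) (c s) :=
        ((flow_sm hX hc hF t).differentiable (by simp) _).hasFDerivAt
      exact h2.comp_hasDerivAt s (hd s hs))
    (by
      have h2 := Dv_contOn hX hc hF hcc hc' contDiff_id
      have h3 : ContinuousOn (fun s : ℝ => (t, s)) (Icc α β) := by fun_prop
      exact h2.comp h3 (fun s hs => ⟨mem_univ _, hs⟩))
    (fun x hx y hy hxy => hinj hx hy ((flowH hX hc hF t).injective hxy)) gw_cont
  rw [image_image]
  exact h1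

include P hX hc hF in
lemma int_arc (j : Fin 3) (t : ℝ) :
    IntegrableOn gw (F t '' Arc h k j) μH[1] ∧
    ∫ z in F t '' Arc h k j, gw z ∂μH[1] = L0 F (ca h k j) (ca' μ h j) (-(π/6)) (π/6) t :=
  curve_flow hX hc hF npi_le (fun s hs => ca_deriv P j (sub_mem hs)) (ca'_contOn P j) (ca_injOn P j) t

include P hX hc hF in
lemma int_ray (j : Fin 3) {R : ℝ} (haR : av k ≤ R) (hR : ∀ z, R ≤ ‖z‖ → X z = 0) (t : ℝ) :
    IntegrableOn gw (F t '' Ray k j) μH[1] ∧
    ∫ z in F t '' Ray k j, gw z ∂μH[1] = L0 F (cy j) (cy' j) (av k) R t + Tl j R := by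
  have h1 := curve_flow hX hc hF haR (fun s _ => cy_deriv j s) (cy'_cont j).continuousOn
    (cy_isometry j).injective.injOn t
  have hsplit : Ici (av k) = Icc (av k) R ∪ Ioi R := (Icc_union_Ioi_eq_Ici haR).symm
  have htail : F t '' (cy j '' Ioi R) = cy j '' Ioi R := by
    apply Set.EqOn.image_eq_self
    rintro _ ⟨r, hr, rfl⟩
    have hr' : R < r := hr
    have h0 : 0 ≤ r := by linarith [av_pos P]
    exact flow_fix hX hc hF (hR _ (by rw [cy_norm j h0]; exact hr'.le)) t
  rw [Ray_eq, hsplit, image_union, image_union, htail]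
  have hdisj : Disjoint (F t '' (cy j '' Icc (av k) R)) (cy j '' Ioi R) := by
    have hi : Function.Injective (F t) := (flowH hX hc hF t).injective
    rw [← htail, disjoint_image_iff hi, disjoint_image_iff (cy_isometry j).injective]
    rw [Set.disjoint_left]
    intro x hx hx'
    exact absurd hx.2 (not_le.2 hx')
  refine ⟨h1.1.union (tail_int j _), ?_⟩
  rw [setIntegral_union hdisj (tail_meas j R) h1.1 (tail_int j _), h1.2]
  rfl

end

end

end Pool.Agent.W562.GP
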