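import Mathlib

set_option autoImplicit false
set_option linter.unusedVariables false
set_option linter.all false

open Set MeasureTheory Real Filter Topology
open scoped NNReal ContDiff

namespace Pool.Agent.W562.GP

noncomputable section

/-! ### Variation of constants -/

def Af (Q : ℝ → ℝ) (θ : ℝ) : ℝ := ∫ η in (0:ℝ)..θ, cos η * Q η
def Bf (Q : ℝ → ℝ) (θ : ℝ) : ℝ := ∫ η in (0:ℝ)..θ, sin η * Q η
def Sf (Q : ℝ → ℝ) (θ : ℝ) : ℝ := sin θ * Af Q θ - cos θ * Bf Q θ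
def Pf (Q : ℝ → ℝ) (θ : ℝ) : ℝ := cos θ * Af Q θ + sin θ * Bf Q θ

variable {Q : ℝ → ℝ}

lemma Af_deriv (hQ : Continuous Q) (θ : ℝ) : HasDerivAt (Af Q) (cos θ * Q θ) θ := by
  have hc : Continuous (fun η => cos η * Q η) := continuous_cos.mul hQ
  exact intervalIntegral.integral_hasDerivAt_right (hc.intervalIntegrable _ _)
    hc.aestronglyMeasurable.stronglyMeasurableAtFilter hc.continuousAt

lemma Bf_deriv (hQ : Continuous Q) (θ : ℝ) : HasDerivAt (Bf Q) (sin θ * Q θ) θ := by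
  have hc : Continuous (fun η => sin η * Q η) := continuous_sin.mul hQ
  exact intervalIntegral.integral_hasDerivAt_right (hc.intervalIntegrable _ _)
    hc.aestronglyMeasurable.stronglyMeasurableAtFilter hc.continuousAt

lemma Sf_deriv (hQ : Continuous Q) (θ : ℝ) : HasDerivAt (Sf Q) (Pf Q θ) θ := by
  have h1 := ((hasDerivAt_sin θ).mul (Af_deriv hQ θ)).sub ((hasDerivAt_cos θ).mul (Bf_deriv hQ θ))
  refine h1.congr_deriv ?_
  unfold Pf; ring

lemma Pf_deriv (hQ : Continuous Q) (θ : ℝ) : HasDerivAt (Pf Q) (Q θ - Sf Q θ) θ := by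
  have h1 := ((hasDerivAt_cos θ).mul (Af_deriv hQ θ)).add ((hasDerivAt_sin θ).mul (Bf_deriv hQ θ))
  refine h1.congr_deriv ?_
  unfold Sf
  have := sin_sq_add_cos_sq θ
  linear_combination (Q θ) * this

lemma Sf_eq (hQ : Continuous Q) (θ : ℝ) : Sf Q θ = ∫ η in (0:ℝ)..θ, sin (θ - η) * Q η := by
  unfold Sf Af Bf
  rw [← intervalIntegral.integral_const_mul, ← intervalIntegral.integral_const_mul,
    ← intervalIntegral.integral_sub]
  · apply intervalIntegral.integral_congr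
    intro η _
    simp only
    rw [sin_sub]; ring
  · exact (continuous_const.mul (continuous_cos.mul hQ)).intervalIntegrable _ _
  · exact (continuous_const.mul (continuous_sin.mul hQ)).intervalIntegrable _ _

lemma Pf_eq (hQ : Continuous Q) (θ : ℝ) : Pf Q θ = ∫ η in (0:ℝ)..θ, cos (θ - η) * Q η := by
  unfold Pf Af Bf
  rw [← intervalIntegral.integral_const_mul, ← intervalIntegral.integral_const_mul,
    ← intervalIntegral.integral_add]
  · apply intervalIntegral.integral_congr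
    intro η _
    simp only
    rw [cos_sub]; ring
  · exact (continuous_const.mul (continuous_cos.mul hQ)).intervalIntegrable _ _
  · exact (continuous_const.mul (continuous_sin.mul hQ)).intervalIntegrable _ _

lemma int_cos_sub (θ : ℝ) : ∫ η in (0:ℝ)..θ, cos (θ - η) = sin θ := by
  rw [intervalIntegral.integral_comp_sub_left (fun x => cos x)]
  simp

lemma int_sin_sub (θ : ℝ) : ∫ η in (0:ℝ)..θ, sin (θ - η) = 1 - cos θ := by
  rw [intervalIntegral.integral_comp_sub_left (fun x => sin x)]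
  simp

lemma Pf_bounds (hQ : Continuous Q) {m M : ℝ} (hm : ∀ η, m ≤ Q η) (hM : ∀ η, Q η ≤ M) {θ : ℝ}
    (h0 : 0 ≤ θ) (h1 : θ ≤ 1) : m * sin θ ≤ Pf Q θ ∧ Pf Q θ ≤ M * sin θ := by
  rw [Pf_eq hQ, ← int_cos_sub θ, ← intervalIntegral.integral_const_mul,
    ← intervalIntegral.integral_const_mul]
  have hpi := pi_gt_three
  have hcos : ∀ η ∈ Icc 0 θ, 0 ≤ cos (θ - η) := fun η hη =>
    cos_nonneg_of_mem_Icc ⟨by linarith [hη.2], by linarith [hη.1]⟩
  have c1 : Continuous (fun η => cos (θ - η)) := continuous_cos.comp (continuous_const.sub continuous_id)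
  have i1 : IntervalIntegrable (fun η => cos (θ - η) * Q η) volume 0 θ :=
    (c1.mul hQ).intervalIntegrable _ _
  have i2 : ∀ k : ℝ, IntervalIntegrable (fun η => k * cos (θ - η)) volume 0 θ := fun k =>
    (continuous_const.mul c1).intervalIntegrable _ _
  constructor
  · apply intervalIntegral.integral_mono_on h0 (i2 m) i1
    intro η hη
    nlinarith [hcos η hη, hm η]
  · apply intervalIntegral.integral_mono_on h0 i1 (i2 M)
    intro η hη
    nlinarith [hcos η hη, hM η]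

lemma Sf_bounds (hQ : Continuous Q) {m M : ℝ} (hm : ∀ η, m ≤ Q η) (hM : ∀ η, Q η ≤ M) {θ : ℝ}
    (h0 : 0 ≤ θ) (h1 : θ ≤ 1) : m * (1 - cos θ) ≤ Sf Q θ ∧ Sf Q θ ≤ M * (1 - cos θ) := by
  rw [Sf_eq hQ, ← int_sin_sub θ, ← intervalIntegral.integral_const_mul,
    ← intervalIntegral.integral_const_mul]
  have hpi := pi_gt_three
  have hsin : ∀ η ∈ Icc 0 θ, 0 ≤ sin (θ - η) := fun η hη =>
    sin_nonneg_of_nonneg_of_le_pi (by linarith [hη.2]) (by linarith [hη.1])
  have c1 : Continuous (fun η => sin (θ - η)) := continuous_sin.comp (continuous_const.sub continuous_id)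
  have i1 : IntervalIntegrable (fun η => sin (θ - η) * Q η) volume 0 θ :=
    (c1.mul hQ).intervalIntegrable _ _
  have i2 : ∀ k : ℝ, IntervalIntegrable (fun η => k * sin (θ - η)) volume 0 θ := fun k =>
    (continuous_const.mul c1).intervalIntegrable _ _
  constructor
  · apply intervalIntegral.integral_mono_on h0 (i2 m) i1
    intro η hη
    nlinarith [hsin η hη, hm η]
  · apply intervalIntegral.integral_mono_on h0 i1 (i2 M)
    intro η hη
    nlinarith [hsin η hη, hM η]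

lemma Af_neg (he : ∀ η, Q (-η) = Q η) (θ : ℝ) : Af Q (-θ) = - Af Q θ := by
  unfold Af
  have h := intervalIntegral.integral_comp_neg (a := 0) (b := θ) (fun η => cos η * Q η)
  rw [neg_zero] at h
  rw [intervalIntegral.integral_symm (-θ) 0, ← h]
  congr 1
  apply intervalIntegral.integral_congr
  intro η _
  simp only [cos_neg, he]

lemma Bf_neg (he : ∀ η, Q (-η) = Q η) (θ : ℝ) : Bf Q (-θ) = Bf Q θ := by
  unfold Bf
  have h := intervalIntegral.integral_comp_neg (a := 0) (b := θ) (fun η => sin η * Q η)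
  rw [neg_zero] at h
  rw [intervalIntegral.integral_symm (-θ) 0, ← h, ← intervalIntegral.integral_neg]
  apply intervalIntegral.integral_congr
  intro η _
  simp only [sin_neg, he]
  ring

lemma Sf_neg (he : ∀ η, Q (-η) = Q η) (θ : ℝ) : Sf Q (-θ) = Sf Q θ := by
  unfold Sf
  rw [Af_neg he, Bf_neg he, sin_neg, cos_neg]; ring

lemma Pf_neg (he : ∀ η, Q (-η) = Q η) (θ : ℝ) : Pf Q (-θ) = - Pf Q θ := by
  unfold Pf
  rw [Af_neg he, Bf_neg he, sin_neg, cos_neg]; ring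

/-- constant fixing the boundary condition -/
def alf (Q : ℝ → ℝ) : ℝ := Pf Q (π/6) - Sf Q (π/6) / √3

def hf (Q : ℝ → ℝ) (θ : ℝ) : ℝ := alf Q * cos θ + Sf Q θ
def kf (Q : ℝ → ℝ) (θ : ℝ) : ℝ := - alf Q * sin θ + Pf Q θ

lemma hf_deriv (hQ : Continuous Q) (θ : ℝ) : HasDerivAt (hf Q) (kf Q θ) θ := by
  have h1 := ((hasDerivAt_cos θ).const_mul (alf Q)).add (Sf_deriv hQ θ)
  refine h1.congr_deriv ?_
  unfold kf; ring

lemma kf_deriv (hQ : Continuous Q) (θ : ℝ) : HasDerivAt (kf Q) (Q θ - hf Q θ) θ := by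
  have h1 := ((hasDerivAt_sin θ).const_mul (-alf Q)).add (Pf_deriv hQ θ)
  refine h1.congr_deriv ?_
  unfold hf; ring

lemma hf_cont (hQ : Continuous Q) : Continuous (hf Q) :=
  continuous_iff_continuousAt.2 fun θ => (hf_deriv hQ θ).continuousAt

lemma hf_neg (he : ∀ η, Q (-η) = Q η) (θ : ℝ) : hf Q (-θ) = hf Q θ := by
  unfold hf; rw [Sf_neg he, cos_neg]

lemma kf_neg (he : ∀ η, Q (-η) = Q η) (θ : ℝ) : kf Q (-θ) = - kf Q θ := by
  unfold kf; rw [Pf_neg he, sin_neg]; ring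

lemma hf_bc (Q : ℝ → ℝ) : hf Q (π/6) = √3 * kf Q (π/6) := by
  unfold hf kf alf
  rw [cos_pi_div_six, sin_pi_div_six]
  have h3 : √3 * √3 = 3 := mul_self_sqrt (by norm_num)
  have h3' : √3 ≠ 0 := by positivity
  field_simp
  nlinarith [h3]

/-! ### difference estimates -/

lemma ii_sin {f : ℝ → ℝ} (hf : Continuous f) (θ a b : ℝ) :
    IntervalIntegrable (fun η => sin (θ - η) * f η) volume a b :=
  Continuous.intervalIntegrable (by fun_prop) _ _

lemma ii_cos {f : ℝ → ℝ} (hf : Continuous f) (θ a b : ℝ) :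
    IntervalIntegrable (fun η => cos (θ - η) * f η) volume a b :=
  Continuous.intervalIntegrable (by fun_prop) _ _

lemma sub_cont {R : ℝ → ℝ} (hQ : Continuous Q) (hR : Continuous R) :
    Continuous (fun η => Q η - R η) := hQ.sub hR

lemma Sf_sub {R : ℝ → ℝ} (hQ : Continuous Q) (hR : Continuous R) {δ : ℝ}
    (h : ∀ η, |Q η - R η| ≤ δ) {θ : ℝ} (h0 : 0 ≤ θ) (h1 : θ ≤ 1) :
    |Sf Q θ - Sf R θ| ≤ δ := by
  have hd : 0 ≤ δ := (abs_nonneg _).trans (h 0)
  rw [Sf_eq hQ, Sf_eq hR, ← intervalIntegral.integral_sub (ii_sin hQ _ _ _) (ii_sin hR _ _ _)]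
  have := intervalIntegral.norm_integral_le_of_norm_le_const (a := 0) (b := θ) (C := δ)
    (f := fun η => sin (θ - η) * Q η - sin (θ - η) * R η) (fun η _ => by
      rw [← mul_sub, norm_mul, norm_eq_abs, norm_eq_abs]
      nlinarith [abs_sin_le_one (θ - η), h η, abs_nonneg (Q η - R η), abs_nonneg (sin (θ - η))])
  rw [norm_eq_abs, sub_zero, abs_of_nonneg h0] at this
  nlinarith

lemma Pf_sub {R : ℝ → ℝ} (hQ : Continuous Q) (hR : Continuous R) {δ : ℝ}
    (h : ∀ η, |Q η - R η| ≤ δ) {θ : ℝ} (h0 : 0 ≤ θ) (h1 : θ ≤ 1) :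
    |Pf Q θ - Pf R θ| ≤ δ := by
  have hd : 0 ≤ δ := (abs_nonneg _).trans (h 0)
  rw [Pf_eq hQ, Pf_eq hR, ← intervalIntegral.integral_sub (ii_cos hQ _ _ _) (ii_cos hR _ _ _)]
  have := intervalIntegral.norm_integral_le_of_norm_le_const (a := 0) (b := θ) (C := δ)
    (f := fun η => cos (θ - η) * Q η - cos (θ - η) * R η) (fun η _ => by
      rw [← mul_sub, norm_mul, norm_eq_abs, norm_eq_abs]
      nlinarith [abs_cos_le_one (θ - η), h η, abs_nonneg (Q η - R η), abs_nonneg (cos (θ - η))])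
  rw [norm_eq_abs, sub_zero, abs_of_nonneg h0] at this
  nlinarith

lemma pi6_le : π / 6 ≤ 1 := by linarith [pi_le_four]
lemma pi6_pos : 0 < π / 6 := by positivity

lemma hf_sub {R : ℝ → ℝ} (hQ : Continuous Q) (hR : Continuous R) {δ : ℝ}
    (h : ∀ η, |Q η - R η| ≤ δ) {θ : ℝ} (h0 : 0 ≤ θ) (h1 : θ ≤ 1) :
    |hf Q θ - hf R θ| ≤ 3 * δ := by
  have hd : 0 ≤ δ := (abs_nonneg _).trans (h 0)
  have e1 := Sf_sub hQ hR h h0 h1
  have e2 := Sf_sub hQ hR h pi6_pos.le pi6_le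
  have e3 := Pf_sub hQ hR h pi6_pos.le pi6_le
  have h3 : 1 ≤ √3 := by
    rw [show (1:ℝ) = √1 by simp]; exact sqrt_le_sqrt (by norm_num)
  have e4 : |Sf Q (π/6) / √3 - Sf R (π/6) / √3| ≤ δ := by
    rw [← sub_div, abs_div, abs_of_pos (by positivity : (0:ℝ) < √3), div_le_iff₀ (by positivity)]
    nlinarith
  have e5 : |alf Q - alf R| ≤ 2 * δ := by
    unfold alf
    rw [abs_le] at *
    constructor <;> linarith [e3.1, e3.2, e4.1, e4.2]
  have e6 : |(alf Q - alf R) * cos θ| ≤ 2 * δ := by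
    rw [abs_mul]
    nlinarith [abs_cos_le_one θ, abs_nonneg (alf Q - alf R), abs_nonneg (cos θ)]
  have e7 : hf Q θ - hf R θ = (alf Q - alf R) * cos θ + (Sf Q θ - Sf R θ) := by
    unfold hf; ring
  rw [e7]
  exact (abs_add_le _ _).trans (by linarith)

/-! ### the contraction -/

variable (μ : ℝ)

def cl (η : ℝ) : Icc (0:ℝ) 1 := projIcc 0 1 zero_le_one |η|

lemma cl_cont : Continuous cl := continuous_projIcc.comp continuous_abs

lemma cl_neg (η : ℝ) : cl (-η) = cl η := by unfold cl; rw [abs_neg]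

lemma cl_of {η : ℝ} (h : |η| ≤ 1) : (cl η : ℝ) = |η| := by
  unfold cl; rw [projIcc_of_mem _ ⟨abs_nonneg _, h⟩]

def Qu (u : C(Icc (0:ℝ) 1, ℝ)) (η : ℝ) : ℝ := 1 / (μ + |u (cl η)|)

variable {μ}

lemma Qu_cont (hμ : 2 ≤ μ) (u : C(Icc (0:ℝ) 1, ℝ)) : Continuous (Qu μ u) := by
  unfold Qu
  apply continuous_const.div (continuous_const.add ((u.continuous.comp cl_cont).abs))
  intro η
  have := abs_nonneg (u (cl η))
  show μ + |u (cl η)| ≠ 0
  exact ne_of_gt (by linarith)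

lemma Qu_pos (hμ : 2 ≤ μ) (u : C(Icc (0:ℝ) 1, ℝ)) (η : ℝ) : 0 < Qu μ u η := by
  unfold Qu
  have := abs_nonneg (u (cl η))
  exact one_div_pos.2 (by linarith)

lemma Qu_le (hμ : 2 ≤ μ) (u : C(Icc (0:ℝ) 1, ℝ)) (η : ℝ) : Qu μ u η ≤ 1 / μ := by
  unfold Qu
  have := abs_nonneg (u (cl η))
  exact one_div_le_one_div_of_le (by linarith) (by linarith)

lemma Qu_neg (u : C(Icc (0:ℝ) 1, ℝ)) (η : ℝ) : Qu μ u (-η) = Qu μ u η := by
  unfold Qu; rw [cl_neg]

lemma Qu_sub (hμ : 2 ≤ μ) (u v : C(Icc (0:ℝ) 1, ℝ)) (η : ℝ) :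
    |Qu μ u η - Qu μ v η| ≤ dist u v / 4 := by
  unfold Qu
  have h1 := abs_nonneg (u (cl η))
  have h2 := abs_nonneg (v (cl η))
  have h3 : |u (cl η) - v (cl η)| ≤ dist u v := by
    rw [← Real.dist_eq]; exact ContinuousMap.dist_apply_le_dist _
  have h4 := abs_abs_sub_abs_le_abs_sub (u (cl η)) (v (cl η))
  set a := |u (cl η)|
  set b := |v (cl η)|
  have ha : 0 < μ + a := by linarith
  have hb : 0 < μ + b := by linarith
  have e1 : 1 / (μ + a) - 1 / (μ + b) = (b - a) / ((μ + a) * (μ + b)) := by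
    field_simp; ring
  rw [e1, abs_div, abs_of_pos (mul_pos ha hb), div_le_div_iff₀ (mul_pos ha hb) (by norm_num)]
  have h5 : |b - a| ≤ dist u v := by rw [abs_sub_comm]; exact h4.trans h3
  have h6 : 4 ≤ (μ + a) * (μ + b) := by nlinarith
  nlinarith [dist_nonneg (x := u) (y := v)]

def Ph (hμ : 2 ≤ μ) (u : C(Icc (0:ℝ) 1, ℝ)) : C(Icc (0:ℝ) 1, ℝ) :=
  ⟨fun θ => hf (Qu μ u) θ, (hf_cont (Qu_cont hμ u)).comp continuous_subtype_val⟩

lemma Ph_contr (hμ : 2 ≤ μ) : ContractingWith (3/4 : ℝ≥0) (Ph hμ) := by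
  constructor
  · rw [← NNReal.coe_lt_coe]; norm_num
  · apply LipschitzWith.of_dist_le_mul
    intro u v
    rw [ContinuousMap.dist_le (by positivity)]
    intro θ
    rw [Real.dist_eq]
    have := hf_sub (Qu_cont hμ u) (Qu_cont hμ v) (Qu_sub hμ u v) θ.2.1 θ.2.2
    refine this.trans (le_of_eq ?_)
    push_cast; ring

/-- the profile: support function of the arc -/
structure Prof (μ : ℝ) (h k : ℝ → ℝ) : Prop where
  mu : 2 ≤ μ
  even : ∀ θ, h (-θ) = h θ
  odd : ∀ θ, k (-θ) = - k θ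
  hd : ∀ θ, HasDerivAt h (k θ) θ
  kd : ∀ θ ∈ Icc (-1:ℝ) 1, HasDerivAt k (1 / (μ + h θ) - h θ) θ
  pos : ∀ θ ∈ Icc (-1:ℝ) 1, 0 < h θ
  le : ∀ θ ∈ Icc (-1:ℝ) 1, h θ ≤ 1 / μ
  kpos : ∀ θ ∈ Ioc (0:ℝ) 1, 0 < k θ
  kle : ∀ θ ∈ Icc (0:ℝ) 1, k θ ≤ 1 / μ
  klb : ∀ θ ∈ Icc (0:ℝ) 1, sin θ * (1 / (4 * μ)) ≤ k θ
  bc : h (π/6) = √3 * k (π/6)

theorem exists_prof (hμ : 2 ≤ μ) : ∃ h k : ℝ → ℝ, Prof μ h k := by
  have : Nonempty C(Icc (0:ℝ) 1, ℝ) := ⟨0⟩
  set u := (Ph_contr hμ).fixedPoint with hu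
  have hfix : Ph hμ u = u := (Ph_contr hμ).fixedPoint_isFixedPt
  have hμ0 : 0 < μ := by linarith
  set Q := Qu μ u with hQ
  have hQc : Continuous Q := Qu_cont hμ u
  have hQe : ∀ η, Q (-η) = Q η := Qu_neg u
  have hQ0 : ∀ η, 0 < Q η := Qu_pos hμ u
  have hQ1 : ∀ η, Q η ≤ 1 / μ := Qu_le hμ u
  have hval : ∀ x : Icc (0:ℝ) 1, u x = hf Q x := fun x => by
    conv_lhs => rw [← hfix]
    rfl
  have hs3 : 1 < √3 := by
    rw [show (1:ℝ) = √1 by simp]; exact sqrt_lt_sqrt (by norm_num) (by norm_num)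
  have hb6 := Pf_bounds hQc (m := 0) (fun η => (hQ0 η).le) hQ1 pi6_pos.le pi6_le
  have hs6 := Sf_bounds hQc (m := 0) (fun η => (hQ0 η).le) hQ1 pi6_pos.le pi6_le
  rw [sin_pi_div_six] at hb6
  rw [cos_pi_div_six] at hs6
  -- alf is positive
  have hSP : Sf Q (π/6) ≤ Pf Q (π/6) := by
    rw [Sf_eq hQc, Pf_eq hQc]
    apply intervalIntegral.integral_mono_on pi6_pos.le
      (((continuous_sin.comp (continuous_const.sub continuous_id)).mul hQc).intervalIntegrable _ _)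
      (((continuous_cos.comp (continuous_const.sub continuous_id)).mul hQc).intervalIntegrable _ _)
    intro η hη
    show sin (π/6 - η) * Q η ≤ cos (π/6 - η) * Q η
    apply mul_le_mul_of_nonneg_right _ (hQ0 η).le
    have e1 : sin (π/6 - η) ≤ sin (π/6) := sin_le_sin_of_le_of_le_pi_div_two
      (by linarith [hη.2, pi_pos]) (by linarith [pi_pos]) (by linarith [hη.1])
    have e2 : cos (π/6) ≤ cos (π/6 - η) := cos_le_cos_of_nonneg_of_le_pi (by linarith [hη.2])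
      (by linarith [pi_pos]) (by linarith [hη.1])
    rw [sin_pi_div_six] at e1
    rw [cos_pi_div_six] at e2
    linarith
  have hPpos : 0 < Pf Q (π/6) := by
    rw [Pf_eq hQc]
    apply intervalIntegral.intervalIntegral_pos_of_pos_on
      (((continuous_cos.comp (continuous_const.sub continuous_id)).mul hQc).intervalIntegrable _ _)
      _ pi6_pos
    intro η hη
    show 0 < cos (π/6 - η) * Q η
    apply mul_pos _ (hQ0 η)
    exact cos_pos_of_mem_Ioo ⟨by linarith [hη.2, pi_pos], by linarith [hη.1, pi_pos]⟩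
  have ha0 : 0 < alf Q := by
    unfold alf
    have e1 : Sf Q (π/6) / √3 ≤ Pf Q (π/6) / √3 := div_le_div_of_nonneg_right hSP (by positivity)
    have e2 : Pf Q (π/6) / √3 < Pf Q (π/6) := div_lt_self hPpos hs3
    linarith
  have ha1 : alf Q ≤ 1 / (2 * μ) := by
    unfold alf
    have e1 : 0 ≤ Sf Q (π/6) / √3 := by
      apply div_nonneg _ (by positivity)
      linarith [hs6.1]
    have e2 : 1 / (2 * μ) = 1 / μ * (1/2) := by field_simp
    rw [e2]
    linarith [hb6.2]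
  -- bounds for h on [0,1]
  have hh : ∀ θ ∈ Icc (0:ℝ) 1, 0 < hf Q θ ∧ hf Q θ ≤ 1 / μ := by
    intro θ hθ
    have c1 : 0 < cos θ := cos_pos_of_mem_Ioo ⟨by linarith [hθ.1, pi_pos], by linarith [hθ.2, pi_gt_three]⟩
    have c2 := cos_le_one θ
    have s1 := Sf_bounds hQc (m := 0) (fun η => (hQ0 η).le) hQ1 hθ.1 hθ.2
    have e2 : 1 / (2 * μ) = 1 / μ * (1/2) := by field_simp
    rw [e2] at ha1
    have hm : 0 < 1 / μ := by positivity
    unfold hf
    constructor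
    · nlinarith [mul_pos ha0 c1, s1.1]
    · nlinarith [mul_le_mul_of_nonneg_right ha1 c1.le, s1.2, mul_pos hm c1]
  have hcl : ∀ η, |u (cl η)| ≤ 1 / μ := by
    intro η
    rw [hval, abs_of_pos (hh _ (cl η).2).1]
    exact (hh _ (cl η).2).2
  have hQ2 : ∀ η, 1 / (μ + 1 / μ) ≤ Q η := by
    intro η
    have := hcl η
    have h2 := abs_nonneg (u (cl η))
    exact one_div_le_one_div_of_le (by positivity) (by linarith)
  have hQv : ∀ θ ∈ Icc (-1:ℝ) 1, Q θ = 1 / (μ + hf Q θ) := by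
    intro θ hθ
    have h1 : |θ| ≤ 1 := abs_le.2 hθ
    have h2 : hf Q (cl θ) = hf Q θ := by
      rw [cl_of h1]
      rcases abs_choice θ with h | h
      · rw [h]
      · rw [h, hf_neg hQe]
    have h3 : Q θ = 1 / (μ + |u (cl θ)|) := rfl
    rw [h3, hval, abs_of_pos (hh _ (cl θ).2).1, h2]
  have habs : ∀ θ ∈ Icc (-1:ℝ) 1, hf Q θ = hf Q |θ| := by
    intro θ hθ
    rcases abs_choice θ with h | h
    · rw [h]
    · rw [h, hf_neg hQe]
  refine ⟨hf Q, kf Q, ⟨hμ, hf_neg hQe, kf_neg hQe, hf_deriv hQc, ?_, ?_, ?_, ?_, ?_, ?_, hf_bc Q⟩⟩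
  · intro θ hθ
    rw [← hQv θ hθ]
    exact kf_deriv hQc θ
  · intro θ hθ
    rw [habs θ hθ]
    exact (hh _ ⟨abs_nonneg _, abs_le.2 hθ⟩).1
  · intro θ hθ
    rw [habs θ hθ]
    exact (hh _ ⟨abs_nonneg _, abs_le.2 hθ⟩).2
  · intro θ hθ
    have hp := Pf_bounds hQc hQ2 hQ1 hθ.1.le hθ.2
    have hs : 0 < sin θ := sin_pos_of_pos_of_lt_pi hθ.1 (by linarith [hθ.2, pi_gt_three])
    have h1 : 1 / (2 * μ) < 1 / (μ + 1 / μ) := by
      apply one_div_lt_one_div_of_lt (by positivity)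
      have : 1 / μ < μ := by
        rw [div_lt_iff₀ hμ0]; nlinarith
      linarith
    unfold kf
    nlinarith [hp.1, mul_pos hs (by linarith : 0 < 1 / (μ + 1 / μ) - alf Q)]
  · intro θ hθ
    have hp := Pf_bounds hQc hQ2 hQ1 hθ.1 hθ.2
    have hs : 0 ≤ sin θ := sin_nonneg_of_nonneg_of_le_pi hθ.1 (by linarith [hθ.2, pi_gt_three])
    have hs1 := sin_le_one θ
    have hm : 0 < 1 / μ := by positivity
    unfold kf
    nlinarith [hp.2, mul_nonneg ha0.le hs]
  · intro θ hθ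
    have hp := Pf_bounds hQc hQ2 hQ1 hθ.1 hθ.2
    have hs : 0 ≤ sin θ := sin_nonneg_of_nonneg_of_le_pi hθ.1 (by linarith [hθ.2, pi_gt_three])
    have h1 : 3 / (4 * μ) ≤ 1 / (μ + 1 / μ) := by
      rw [div_le_div_iff₀ (by positivity) (by positivity)]
      have h2 : 1 / μ ≤ μ / 4 := by
        rw [div_le_div_iff₀ hμ0 (by norm_num)]; nlinarith
      linarith
    have h2 : alf Q ≤ 2 / (4 * μ) := by
      have : 2 / (4 * μ) = 1 / (2 * μ) := by field_simp; norm_num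
      rw [this]; exact ha1
    have h3 : 1 / (4 * μ) ≤ 1 / (μ + 1 / μ) - alf Q := by
      have : 3 / (4 * μ) = 2 / (4 * μ) + 1 / (4 * μ) := by field_simp; norm_num
      linarith
    unfold kf
    nlinarith [hp.1, mul_le_mul_of_nonneg_left h3 hs]

lemma Prof.smooth {h k : ℝ → ℝ} (P : Prof μ h k) :
    ContDiffOn ℝ ∞ h (Ioo (-1) 1) ∧ ContDiffOn ℝ ∞ k (Ioo (-1) 1) := by
  have key : ∀ n : ℕ, ContDiffOn ℝ n h (Ioo (-1) 1) ∧ ContDiffOn ℝ n k (Ioo (-1) 1) := by
    intro n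
    induction n with
    | zero =>
      constructor
      · exact contDiffOn_zero.2 fun θ hθ => (P.hd θ).continuousAt.continuousWithinAt
      · exact contDiffOn_zero.2 fun θ hθ =>
          (P.kd θ (Ioo_subset_Icc_self hθ)).continuousAt.continuousWithinAt
    | succ n ih =>
      constructor
      · push_cast
        rw [contDiffOn_succ_iff_deriv_of_isOpen isOpen_Ioo]
        refine ⟨fun θ hθ => (P.hd θ).differentiableAt.differentiableWithinAt, by simp, ?_⟩
        exact ih.2.congr fun θ hθ => (P.hd θ).deriv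
      · push_cast
        rw [contDiffOn_succ_iff_deriv_of_isOpen isOpen_Ioo]
        refine ⟨fun θ hθ => (P.kd θ (Ioo_subset_Icc_self hθ)).differentiableAt.differentiableWithinAt,
          by simp, ?_⟩
        have e1 : ContDiffOn ℝ n (fun θ => 1 / (μ + h θ) - h θ) (Ioo (-1) 1) := by
          apply ContDiffOn.sub _ ih.1
          apply ContDiffOn.div contDiffOn_const (contDiffOn_const.add ih.1)
          intro θ hθ
          have h1 := P.pos θ (Ioo_subset_Icc_self hθ)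
          have h2 := P.mu
          exact ne_of_gt (by linarith)
        exact e1.congr fun θ hθ => (P.kd θ (Ioo_subset_Icc_self hθ)).deriv
  exact ⟨contDiffOn_infty.2 fun n => (key n).1, contDiffOn_infty.2 fun n => (key n).2⟩

end

end Pool.Agent.W562.GP
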