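import Pool.Agent.W562.GP.Reg2

set_option autoImplicit false
set_option linter.all false

open Set MeasureTheory Real Filter Topology
open scoped NNReal ContDiff ComplexConjugate
open Pool.Agent.W562.GaussPart

namespace Pool.Agent.W562.GP

noncomputable section

variable {μ : ℝ} {h k : ℝ → ℝ} (P : Prof μ h k)

lemma tan_pi6 : tan (π/6) = 1/√3 := tan_pi_div_six

/-- the neighbourhood of a vertex -/
def Uv (j : Fin 3) : Set ℂ := {z | (0 < (cr j z).im ∧ (cr j z).im ∈ Wd P) ∧
  ((cr (j+1) z).im < 0 ∧ (cr (j+1) z).im ∈ Wd P) ∧ (cr (j+2) z).re < 0}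

lemma Uv_open (j : Fin 3) : IsOpen (Uv P j) := by
  have ci : ∀ i, Continuous (fun z => (cr i z).im) := fun i => Complex.continuous_im.comp (cr_cont i)
  have cre : ∀ i, Continuous (fun z => (cr i z).re) := fun i => Complex.continuous_re.comp (cr_cont i)
  exact ((isOpen_lt continuous_const (ci _)).inter ((Wd_open P).preimage (ci _))).inter
    (((isOpen_lt (ci _) continuous_const).inter ((Wd_open P).preimage (ci _))).inter
      (isOpen_lt (cre _) continuous_const))

lemma cr_vtx (j : Fin 3) : cr j (cy j (av k)) = ⟨av k / 2, bv k⟩ := by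
  rw [cr_cy]; unfold av bv
  apply Complex.ext
  · rfl
  · simp only; ring

lemma cr_vtx1 (j : Fin 3) : cr (j+1) (cy j (av k)) = ⟨av k / 2, -bv k⟩ := by
  rw [cr_j1, cr_vtx]
  have h3 := sqrt3_sq
  apply Complex.ext
  · simp only; unfold av bv; linear_combination (k (π/6)/2) * h3
  · simp only; unfold av bv; ring

lemma cr_vtx2 (j : Fin 3) : cr (j+2) (cy j (av k)) = ⟨-av k, 0⟩ := by
  rw [cr_j2, cr_vtx]
  have h3 := sqrt3_sq
  apply Complex.ext
  · simp only; unfold av bv; linear_combination (-k (π/6)/2) * h3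
  · simp only; unfold av bv; ring

lemma bv_mem : bv k ∈ Wd P := Wd_of P (by rw [abs_of_pos (bv_pos P)])
lemma nbv_mem : -bv k ∈ Wd P := Wd_of P (by rw [abs_neg, abs_of_pos (bv_pos P)])

def ef (P : Prof μ h k) (j : Fin 3) : Fin 3 → ℂ → ℝ :=
  ![fun z => -(√3/2) * (cr j z).re + (cr j z).im / 2,
    fun z => √3/2 * (gf P (cr (j+1) z).im - (cr (j+1) z).re),
    fun z => √3/2 * ((cr j z).re - gf P (cr j z).im)]

def ev (j : Fin 3) : Fin 3 → ℂ :=
  ![rho j * ⟨-(√3/2), 1/2⟩, rho j * ⟨0, -1⟩, rho j * ⟨√3/2, 1/2⟩]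

lemma norm_of_sq {x y : ℝ} (h : x ^ 2 + y ^ 2 = 1) : ‖(⟨x, y⟩ : ℂ)‖ = 1 := by
  have h1 : ‖(⟨x, y⟩ : ℂ)‖ ^ 2 = 1 := by rw [normSq_eq]; exact h
  have := norm_nonneg (⟨x, y⟩ : ℂ)
  nlinarith [sq_nonneg (‖(⟨x, y⟩ : ℂ)‖ - 1)]

lemma ev_norm (j m : Fin 3) : ‖ev j m‖ = 1 := by
  have h3 := sqrt3_sq
  fin_cases m
  · show ‖rho j * ⟨-(√3/2), 1/2⟩‖ = 1
    rw [norm_mul, rho_norm, one_mul]
    apply norm_of_sq; linear_combination (1/4) * h3
  · show ‖rho j * ⟨0, -1⟩‖ = 1
    rw [norm_mul, rho_norm, one_mul]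
    apply norm_of_sq; norm_num
  · show ‖rho j * ⟨√3/2, 1/2⟩‖ = 1
    rw [norm_mul, rho_norm, one_mul]
    apply norm_of_sq; linear_combination (1/4) * h3

lemma ev_sum (j : Fin 3) : ev j 0 + ev j 1 + ev j 2 = 0 := by
  show rho j * ⟨-(√3/2), 1/2⟩ + rho j * ⟨0, -1⟩ + rho j * ⟨√3/2, 1/2⟩ = 0
  rw [← mul_add, ← mul_add]
  have : (⟨-(√3/2), 1/2⟩ : ℂ) + ⟨0, -1⟩ + ⟨√3/2, 1/2⟩ = 0 := by
    apply Complex.ext
    · simp
    · simp; norm_num
  rw [this, mul_zero]

lemma cr_re_fd (i : Fin 3) (p : ℂ) : HasFDerivAt (fun z => (cr i z).re) (innerSL ℝ (rho i)) p := by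
  have : (fun z => (cr i z).re) = fun z => innerSL ℝ (rho i) z := funext (re_inner i)
  rw [this]; exact (innerSL ℝ (rho i)).hasFDerivAt
lemma cr_im_fd (i : Fin 3) (p : ℂ) : HasFDerivAt (fun z => (cr i z).im) (innerSL ℝ (Complex.I * rho i)) p := by
  have : (fun z => (cr i z).im) = fun z => innerSL ℝ (Complex.I * rho i) z := funext (im_inner i)
  rw [this]; exact (innerSL ℝ (Complex.I * rho i)).hasFDerivAt

lemma innerSL_val (v z : ℂ) : innerSL ℝ v z = v.re * z.re + v.im * z.im := by
  rw [innerSL_apply_apply, Complex.inner]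
  simp only [Complex.mul_re, Complex.conj_re, Complex.conj_im]; ring

lemma ef_deriv (j m : Fin 3) : HasFDerivAt (ef P j m) (innerSL ℝ (ev j m)) (cy j (av k)) := by
  have h3 := sqrt3_sq
  have h3p := sqrt3_pos
  set p := cy j (av k) with hp
  have g0 : HasDerivAt (gf P) (-(1/√3)) (cr j p).im := by
    have h1 : (cr j p).im = bv k := by rw [hp, cr_vtx]
    rw [h1]
    have := gf_deriv' P (bv_mem P)
    rwa [Tg_bv, tan_pi6] at this
  have g1 : HasDerivAt (gf P) (1/√3) (cr (j+1) p).im := by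
    have h1 : (cr (j+1) p).im = -bv k := by rw [hp, cr_vtx1]
    rw [h1]
    have := gf_deriv' P (nbv_mem P)
    rwa [Tg_nbv, tan_neg, tan_pi6, neg_neg] at this
  have r1 : rho (j+1) = rho j * ⟨-1/2, √3/2⟩ := by rw [rho_succ]; rfl
  fin_cases m
  · have h1 := ((cr_re_fd j p).const_mul (-(√3/2))).add ((cr_im_fd j p).const_mul (1/2))
    have h2 : HasFDerivAt (fun z => -(√3/2) * (cr j z).re + (cr j z).im / 2)
        (innerSL ℝ (rho j * ⟨-(√3/2), 1/2⟩)) p := by
      have h3 : (fun z => -(√3/2) * (cr j z).re + (cr j z).im / 2) =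
        fun z => -(√3/2) * (cr j z).re + (1/2) * (cr j z).im := by funext z; ring
      rw [h3]
      refine h1.congr_fderiv ?_
      ext z
      simp only [ContinuousLinearMap.add_apply, ContinuousLinearMap.smul_apply, innerSL_val, smul_eq_mul,
        Complex.mul_re, Complex.mul_im, Complex.I_re, Complex.I_im]
      ring
    exact h2
  · have h1 := ((g1.comp_hasFDerivAt p (cr_im_fd (j+1) p)).sub (cr_re_fd (j+1) p)).const_mul (√3/2)
    have h2 : HasFDerivAt (fun z => √3/2 * (gf P (cr (j+1) z).im - (cr (j+1) z).re))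
        (innerSL ℝ (rho j * ⟨0, -1⟩)) p := by
      refine h1.congr_fderiv ?_
      ext z
      simp only [ContinuousLinearMap.sub_apply, ContinuousLinearMap.smul_apply, innerSL_val, smul_eq_mul,
        Complex.mul_re, Complex.mul_im, Complex.I_re, Complex.I_im, r1]
      field_simp
      have e3 : √3 ^ 2 = 3 := by rw [sq]; exact h3
      ring_nf
      rw [e3]
      ring
    exact h2
  · have h1 := ((cr_re_fd j p).sub (g0.comp_hasFDerivAt p (cr_im_fd j p))).const_mul (√3/2)
    have h2 : HasFDerivAt (fun z => √3/2 * ((cr j z).re - gf P (cr j z).im))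
        (innerSL ℝ (rho j * ⟨√3/2, 1/2⟩)) p := by
      refine h1.congr_fderiv ?_
      ext z
      simp only [ContinuousLinearMap.sub_apply, ContinuousLinearMap.smul_apply, innerSL_val, smul_eq_mul,
        Complex.mul_re, Complex.mul_im, Complex.I_re, Complex.I_im]
      field_simp
      ring
    exact h2

lemma ef_smooth (j m : Fin 3) : ContDiffOn ℝ ∞ (ef P j m) (Uv P j) := by
  intro z hz
  apply ContDiffAt.contDiffWithinAt
  fin_cases m
  · show ContDiffAt ℝ ∞ (fun z => -(√3/2) * (cr j z).re + (cr j z).im / 2) z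
    exact ((contDiff_const.mul (cr_re_smooth j)).add ((cr_im_smooth j).div_const 2)).contDiffAt
  · show ContDiffAt ℝ ∞ (fun z => √3/2 * (gf P (cr (j+1) z).im - (cr (j+1) z).re)) z
    exact contDiffAt_const.mul ((gfcr_smooth P (j+1) hz.2.1.2).sub (cr_re_smooth (j+1)).contDiffAt)
  · show ContDiffAt ℝ ∞ (fun z => √3/2 * ((cr j z).re - gf P (cr j z).im)) z
    exact contDiffAt_const.mul ((cr_re_smooth j).contDiffAt.sub (gfcr_smooth P j hz.1.2))

lemma ef_zero (j m : Fin 3) : ef P j m (cy j (av k)) = 0 := by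
  fin_cases m
  · show -(√3/2) * (cr j (cy j (av k))).re + (cr j (cy j (av k))).im / 2 = 0
    rw [cr_vtx]; simp only; unfold av bv; ring
  · show √3/2 * (gf P (cr (j+1) (cy j (av k))).im - (cr (j+1) (cy j (av k))).re) = 0
    rw [cr_vtx1]; simp only; rw [gf_nbv]; unfold av bv
    have := sqrt3_pos
    field_simp
    ring
  · show √3/2 * ((cr j (cy j (av k))).re - gf P (cr j (cy j (av k))).im) = 0
    rw [cr_vtx]; simp only; rw [gf_bv]; unfold av bv
    have := sqrt3_pos
    field_simp
    ring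

def cc (j : Fin 3) : Fin 3 → Fin 4 := ![(j+1).castSucc, Fin.last 3, j.castSucc]

lemma cc_inj (j : Fin 3) : Function.Injective (cc j) := by
  revert j; decide

theorem triple (j : Fin 3) : TriplePoint (Om P) (cy j (av k)) := by
  have ha := av_pos P
  have hb := bv_pos P
  have h3 := sqrt3_sq
  have h3p := sqrt3_pos
  have hs2 : 0 < √3/2 := by positivity
  refine ⟨cc j, cc_inj j, Uv P j, Uv_open P j, ?_, ef P j, ev j,
    fun m => ⟨ef_smooth P j m, ef_zero P j m, ev_norm j m, ef_deriv P j m⟩, ev_sum j, ?_, ?_⟩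
  · refine ⟨?_, ?_, ?_⟩
    · rw [cr_vtx]; exact ⟨hb, bv_mem P⟩
    · rw [cr_vtx1]; exact ⟨by simp only; linarith, nbv_mem P⟩
    · rw [cr_vtx2]; simp only; linarith
  · intro m
    have key0 : ∀ z ∈ Uv P j, (0 < -(√3/2) * (cr j z).re + (cr j z).im / 2 ↔
        (cr j z).re < (cr j z).im / √3) := by
      intro z hz
      rw [lt_div_iff₀ h3p]
      constructor <;> intro h <;> linarith
    have key1 : ∀ z ∈ Uv P j, (-(√3/2) * (cr j z).re + (cr j z).im / 2 < 0 ↔
        (cr j z).im / √3 < (cr j z).re) := by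
      intro z hz
      rw [div_lt_iff₀ h3p]
      constructor <;> intro h <;> linarith
    fin_cases m
    · show Om P (j+1).castSucc ∩ Uv P j = {z ∈ Uv P j | 0 < -(√3/2) * (cr j z).re + (cr j z).im / 2 ∧
        √3/2 * (gf P (cr (j+1) z).im - (cr (j+1) z).re) < 0}
      rw [Om_cast]
      ext z
      rw [mem_inter_iff, and_comm, mem_setOf_eq]
      apply and_congr_right
      intro hz
      have hmem : z ∈ Oc P (j+1) ↔ Hf P (cr (j+1) z).im < (cr (j+1) z).re := Iff.rfl
      have hev : Hf P (cr (j+1) z).im = Hf P (-(cr (j+1) z).im) := (Hf_even P _).symm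
      have hn := hz.2.1.1
      have hW := Wd_neg P hz.2.1.2
      rw [hmem, hev, outer_iff P hW (by linarith), gf_even P hz.2.1.2]
      have e1 : (cr (j+1) z).re = -(cr j z).re/2 + √3/2 * (cr j z).im := by rw [cr_j1]
      have e2 : (cr (j+1) z).im = -(√3/2) * (cr j z).re - (cr j z).im/2 := by rw [cr_j1]
      constructor
      · rintro ⟨a, b⟩
        rw [div_lt_iff₀ h3p, e1, e2, sq3_e] at b
        exact ⟨by linarith, mul_neg_of_pos_of_neg hs2 (by linarith)⟩
      · rintro ⟨a, b⟩
        have b' : gf P (cr (j+1) z).im - (cr (j+1) z).re < 0 := by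
          by_contra hc
          push Not at hc
          have := mul_nonneg hs2.le hc
          linarith
        refine ⟨by linarith, ?_⟩
        rw [div_lt_iff₀ h3p, e1, e2, sq3_e]
        linarith
    · show Om P (Fin.last 3) ∩ Uv P j = {z ∈ Uv P j |
        0 < √3/2 * (gf P (cr (j+1) z).im - (cr (j+1) z).re) ∧ √3/2 * ((cr j z).re - gf P (cr j z).im) < 0}
      rw [Om_last]
      ext z
      rw [mem_inter_iff, and_comm, mem_setOf_eq]
      apply and_congr_right
      intro hz
      have e1 : (cr (j+1) z).re = -(cr j z).re/2 + √3/2 * (cr j z).im := by rw [cr_j1]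
      have e2 : (cr (j+1) z).im = -(√3/2) * (cr j z).re - (cr j z).im/2 := by rw [cr_j1]
      have hi := inner_iff P hz.1.2 hz.2.1.2 hz.1.1 hz.2.1.1 e1 e2
      constructor
      · intro a
        obtain ⟨a1, a2⟩ := hi.1 ⟨a j, a (j+1)⟩
        exact ⟨mul_pos hs2 (by linarith), mul_neg_of_pos_of_neg hs2 (by linarith)⟩
      · rintro ⟨a, b⟩
        have a' : 0 < gf P (cr (j+1) z).im - (cr (j+1) z).re := by
          by_contra hc
          push Not at hc
          have := mul_nonneg hs2.le (neg_nonneg.2 hc)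
          linarith
        have b' : (cr j z).re - gf P (cr j z).im < 0 := by
          by_contra hc
          push Not at hc
          have := mul_nonneg hs2.le hc
          linarith
        obtain ⟨a1, a2⟩ := hi.2 ⟨by linarith, by linarith⟩
        intro i
        rcases fin3_cases i j with e | e | e
        · rw [e]; exact a1
        · rw [e]; exact a2
        · rw [e]
          have := hz.2.2
          linarith [Hf_pos P (cr (j+2) z).im]
    · show Om P j.castSucc ∩ Uv P j = {z ∈ Uv P j |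
        0 < √3/2 * ((cr j z).re - gf P (cr j z).im) ∧ -(√3/2) * (cr j z).re + (cr j z).im / 2 < 0}
      rw [Om_cast]
      ext z
      rw [mem_inter_iff, and_comm, mem_setOf_eq]
      apply and_congr_right
      intro hz
      have hmem : z ∈ Oc P j ↔ Hf P (cr j z).im < (cr j z).re := Iff.rfl
      rw [hmem, outer_iff P hz.1.2 hz.1.1, key1 z hz]
      constructor
      · rintro ⟨a, b⟩
        exact ⟨mul_pos hs2 (by linarith), b⟩
      · rintro ⟨a, b⟩
        refine ⟨?_, b⟩
        by_contra hc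
        push Not at hc
        have := mul_nonneg hs2.le (sub_nonneg.2 hc)
        linarith
  · intro l hl
    induction l using Fin.lastCases with
    | last => exact absurd rfl (hl 1)
    | cast i =>
      rw [Om_cast]
      apply Set.eq_empty_of_forall_notMem
      rintro z ⟨a, b⟩
      rcases fin3_cases i j with e | e | e
      · exact hl 2 (by rw [e]; rfl)
      · exact hl 0 (by rw [e]; rfl)
      · rw [e] at a
        have a' : Hf P (cr (j+2) z).im < (cr (j+2) z).re := a
        have b3 : (cr (j+2) z).re < 0 := b.2.2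
        linarith [Hf_pos P (cr (j+2) z).im]

/-- every arc point is regular -/
lemma reg_arc (j : Fin 3) {z : ℂ} (hz : z ∈ Arc h k j) : SmoothPoint (Om P) z ∨ TriplePoint (Om P) z := by
  obtain ⟨θ, hθ, rfl⟩ := hz
  show SmoothPoint (Om P) (ca h k j θ) ∨ TriplePoint (Om P) (ca h k j θ)
  rcases hθ.1.eq_or_lt with e | e
  · right
    have hj : j = (j + 2) + 1 := by revert j; decide
    rw [← e, hj, vertex_p2 P]
    exact triple P _
  · rcases hθ.2.eq_or_lt with e' | e'
    · right
      rw [e', vertex_p1 P]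
      exact triple P _
    · left
      exact smooth_arc P j ⟨e, e'⟩

lemma reg_ray (j : Fin 3) {z : ℂ} (hz : z ∈ Ray k j) : SmoothPoint (Om P) z ∨ TriplePoint (Om P) z := by
  obtain ⟨r, hr, rfl⟩ := hz
  show SmoothPoint (Om P) (cy j r) ∨ TriplePoint (Om P) (cy j r)
  rcases (show av k ≤ r from hr).eq_or_lt with e | e
  · right; rw [← e]; exact triple P _
  · left; exact smooth_ray P j e

lemma front_Oc {j : Fin 3} {z : ℂ} (hz : z ∈ frontier (Oc P j)) :
    z ∈ Arc h k j ∨ z ∈ Ray k j ∨ z ∈ Ray k (j+2) := by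
  rw [Oc_frontier] at hz
  have hz' : Hf P (cr j z).im = (cr j z).re := hz
  have h3p := sqrt3_pos
  have h3 := sqrt3_sq
  rcases le_or_gt |(cr j z).im| (bv k) with hb | hb
  · left
    refine ⟨Tg P (cr j z).im, Tg_mem P hb, ?_⟩
    show rho j * ax h k (Tg P (cr j z).im) = z
    rw [ax_Tg P hb, ← Hf_of_le P hb, hz']
    exact mul_cr j z
  · right
    rw [Hf_of_ge P hb.le, div_eq_iff h3p.ne'] at hz'
    have hr : av k ≤ 2 * (cr j z).re := by
      by_contra hc
      push Not at hc
      unfold av at hc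
      unfold bv at hb
      nlinarith
    rcases le_total 0 (cr j z).im with h0 | h0
    · left
      refine ⟨2 * (cr j z).re, hr, ?_⟩
      show rho j * (((2 * (cr j z).re : ℝ) : ℂ) * ee (π/3)) = z
      rw [abs_of_nonneg h0] at hz'
      rw [ray_im]
      have : (⟨2 * (cr j z).re / 2, √3/2 * (2 * (cr j z).re)⟩ : ℂ) = cr j z := by
        apply Complex.ext
        · simp only; ring
        · simp only; rw [hz']; ring
      rw [this]
      exact mul_cr j z
    · right
      refine ⟨2 * (cr j z).re, hr, ?_⟩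
      show rho (j+2) * (((2 * (cr j z).re : ℝ) : ℂ) * ee (π/3)) = z
      have e1 : rho (j+2) * (((2 * (cr j z).re : ℝ) : ℂ) * ee (π/3)) =
          rho j * (((2 * (cr j z).re : ℝ) : ℂ) * ee (-(π/3))) := by
        linear_combination (-((2 * (cr j z).re : ℝ) : ℂ)) * rho_pred_ee j
      rw [e1, ee_neg3]
      rw [abs_of_nonpos h0] at hz'
      have : (((2 * (cr j z).re : ℝ) : ℂ) * ⟨1/2, -(√3/2)⟩) = cr j z := by
        apply Complex.ext
        · simp only [Complex.mul_re, Complex.ofReal_re, Complex.ofReal_im]; ring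
        · simp only [Complex.mul_im, Complex.ofReal_re, Complex.ofReal_im]; linarith
      rw [this]
      exact mul_cr j z

lemma front_Oi {z : ℂ} (hz : z ∈ frontier (Oi P)) : ∃ j, z ∈ Arc h k j := by
  have hn : z ∉ Oi P := by
    rw [(Oi_open P).frontier_eq] at hz
    exact hz.2
  obtain ⟨j, hj⟩ := (cover P z).resolve_right hn
  refine ⟨j, ?_⟩
  rw [← iface_arc P j]
  refine ⟨?_, hz⟩
  rw [(Oc_open P j).frontier_eq]
  refine ⟨hj, ?_⟩
  intro hc
  have h1 : z ∈ closure (Oi P) := hz.1
  obtain ⟨w, hw1, hw2⟩ := mem_closure_iff.1 h1 (Oc P j) (Oc_open P j) hc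
  exact Set.disjoint_left.1 (Oi_disj P j) hw1 hw2

theorem Om_regular : IsRegular (Om P) := by
  intro i p hp
  induction i using Fin.lastCases with
  | last =>
    obtain ⟨j, hj⟩ := front_Oi P hp
    exact reg_arc P j hj
  | cast j =>
    rw [Om_cast] at hp
    rcases front_Oc P hp with h1 | h1 | h1
    · exact reg_arc P j h1
    · exact reg_ray P j h1
    · exact reg_ray P _ h1

end

end Pool.Agent.W562.GP
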