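import Pool.Agent.W562.GP.Moved
import Pool.Agent.W562.GP.Reg3

set_option autoImplicit false
set_option linter.all false

open Set MeasureTheory Real Filter Topology
open scoped NNReal ContDiff ComplexConjugate
open Pool.Agent.W562.GaussPart

namespace Pool.Agent.W562.GP

noncomputable section

variable {μ : ℝ} {h k : ℝ → ℝ} (P : Prof μ h k) {X : ℂ → ℂ}

lemma gden_eq (z : ℂ) : gden z = (2 * π)⁻¹ * gw z := rfl

lemma gdiv_eq (hX : ContDiff ℝ ∞ X) (z : ℂ) : gdiv X z * gden z = (2 * π)⁻¹ * dvg (smX gw X) z := by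
  rw [psi1_eq hX, gden_eq]
  unfold gdiv dvg dt
  ring

lemma graph_null {H : ℝ → ℝ} (hH : Continuous H) : volume {z : ℂ | H z.im = z.re} = 0 := by
  have h1 := (shH_mp H hH).measure_preimage_emb (shH H hH).measurableEmbedding {z : ℂ | H z.im = z.re}
  have h2 : shH H hH ⁻¹' {z : ℂ | H z.im = z.re} = univ ×ˢ {0} := by
    ext p
    simp only [mem_preimage, mem_setOf_eq, shH_apply, mem_prod, mem_univ, true_and, mem_singleton_iff]
    constructor <;> intro h <;> linarith
  rw [h2, Measure.prod_prod, Real.volume_singleton, mul_zero] at h1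
  exact h1.symm

lemma frontier_null (j : Fin 3) : volume (frontier (Oc P j)) = 0 := by
  rw [Oc_frontier]
  have h1 := (rotL j).measurePreserving.measure_preimage_emb (rotL j).toHomeomorph.measurableEmbedding
    {z | Hf P (cr j z).im = (cr j z).re}
  rw [← h1]
  have h2 : rotL j ⁻¹' {z | Hf P (cr j z).im = (cr j z).re} = {z : ℂ | Hf P z.im = z.re} := by
    ext w
    rw [mem_preimage, rotL_apply]
    show Hf P (cr j (rho j * w)).im = (cr j (rho j * w)).re ↔ _
    rw [cr_mul]; rfl
  rw [h2]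
  exact graph_null (Hf_cont P)

lemma int_split {g : ℂ → ℝ} (hg : Integrable g) :
    ∫ z, g z = (∫ z in Oi P, g z) + ∑ j, ∫ z in Oc P j, g z := by
  have hU : ((⋃ j, Oc P j) ∪ Oi P : Set ℂ) =ᵐ[volume] (univ : Set ℂ) := by
    rw [ae_eq_univ]
    refine measure_mono_null (t := ⋃ j, frontier (Oc P j)) ?_ (measure_iUnion_null fun j => frontier_null P j)
    intro z hz
    rw [mem_compl_iff, mem_union, not_or] at hz
    obtain ⟨j, hj⟩ := (cover P z).resolve_right hz.2
    rw [mem_iUnion]
    refine ⟨j, ?_⟩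
    rw [(Oc_open P j).frontier_eq]
    exact ⟨hj, fun hc => hz.1 (mem_iUnion.2 ⟨j, hc⟩)⟩
  rw [← setIntegral_univ, ← setIntegral_congr_set hU]
  have hd : Disjoint (⋃ j, Oc P j) (Oi P) := by
    rw [disjoint_iUnion_left]
    exact fun j => Oi_disj P j
  rw [setIntegral_union hd (Oi_open P).measurableSet hg.integrableOn hg.integrableOn,
    integral_iUnion_fintype (fun j => (Oc_open P j).measurableSet) (fun i j hij => Oc_disj P hij)
      (fun j => hg.integrableOn), add_comm]

lemma int_fderiv_zero {A : ℂ → ℝ} (hA : ContDiff ℝ 1 A) (hc : HasCompactSupport A) (v : ℂ) :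
    ∫ z, fderiv ℝ A z v = 0 := by
  have c1 : Continuous (fun z => fderiv ℝ A z v) := (hA.continuous_fderiv one_ne_zero).clm_apply continuous_const
  have c2 : HasCompactSupport (fun z => fderiv ℝ A z v) := by
    have := hc.fderiv (𝕜 := ℝ)
    exact this.comp_left (g := fun L : ℂ →L[ℝ] ℝ => L v) (by simp)
  have h1 := integral_mul_fderiv_eq_neg_fderiv_mul_of_integrable (μ := (volume : Measure ℂ))
    (f := fun _ : ℂ => (1:ℝ)) (g := A) (v := v)
    (by simp) (by simpa using c1.integrable_of_hasCompactSupport c2)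
    (by simpa using hA.continuous.integrable_of_hasCompactSupport hc)
    (fun _ _ => differentiableAt_const _) (fun x _ => hA.differentiable one_ne_zero x)
  simpa using h1

lemma dvg_total {Y : ℂ → ℂ} (hY : ContDiff ℝ 1 Y) (hc : HasCompactSupport Y) : ∫ z, dvg Y z = 0 := by
  have hA : ContDiff ℝ 1 (fun z => (Y z).re) := Complex.reCLM.contDiff.comp hY
  have hB : ContDiff ℝ 1 (fun z => (Y z).im) := Complex.imCLM.contDiff.comp hY
  have hAc : HasCompactSupport (fun z => (Y z).re) := hc.comp_left (g := Complex.re) (by simp)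
  have hBc : HasCompactSupport (fun z => (Y z).im) := hc.comp_left (g := Complex.im) (by simp)
  have e1 : ∀ z v, (fderiv ℝ Y z v).re = fderiv ℝ (fun z => (Y z).re) z v := by
    intro z v
    have h1 : HasFDerivAt (fun z => (Y z).re) (Complex.reCLM.comp (fderiv ℝ Y z)) z :=
      Complex.reCLM.hasFDerivAt.comp z (hY.differentiable one_ne_zero z).hasFDerivAt
    rw [h1.fderiv]; rfl
  have e2 : ∀ z v, (fderiv ℝ Y z v).im = fderiv ℝ (fun z => (Y z).im) z v := by
    intro z v
    have h1 : HasFDerivAt (fun z => (Y z).im) (Complex.imCLM.comp (fderiv ℝ Y z)) z :=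
      Complex.imCLM.hasFDerivAt.comp z (hY.differentiable one_ne_zero z).hasFDerivAt
    rw [h1.fderiv]; rfl
  have i1 : Integrable (fun z => fderiv ℝ (fun z => (Y z).re) z 1) := by
    have c1 : Continuous (fun z => fderiv ℝ (fun z => (Y z).re) z 1) :=
      (hA.continuous_fderiv one_ne_zero).clm_apply continuous_const
    exact c1.integrable_of_hasCompactSupport
      ((hAc.fderiv (𝕜 := ℝ)).comp_left (g := fun L : ℂ →L[ℝ] ℝ => L 1) (by simp))
  have i2 : Integrable (fun z => fderiv ℝ (fun z => (Y z).im) z Complex.I) := by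
    have c1 : Continuous (fun z => fderiv ℝ (fun z => (Y z).im) z Complex.I) :=
      (hB.continuous_fderiv one_ne_zero).clm_apply continuous_const
    exact c1.integrable_of_hasCompactSupport
      ((hBc.fderiv (𝕜 := ℝ)).comp_left (g := fun L : ℂ →L[ℝ] ℝ => L Complex.I) (by simp))
  unfold dvg
  simp_rw [e1, e2]
  rw [integral_add i1 i2, int_fderiv_zero hA hAc, int_fderiv_zero hB hBc, add_zero]

lemma dt_le (z w : ℂ) : |dt z w| ≤ ‖z‖ * ‖w‖ := by
  have h1 : dt z w = inner ℝ z w := by
    rw [← innerSL_apply_apply, innerSL_val]; rfl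
  rw [h1]
  exact abs_real_inner_le_norm z w

lemma gw_le (z : ℂ) : gw z ≤ 1 := by
  unfold gw
  rw [exp_le_one_iff]
  have := sq_nonneg ‖z‖
  linarith

include P in
lemma AI_bound (hX1 : ∀ z, ‖X z‖ ≤ 1) (j : Fin 3) : |AI μ h k j (smX gw X)| ≤ π := by
  rw [AI_eq]
  have h1 := intervalIntegral.norm_integral_le_of_norm_le_const (a := -(π/6)) (b := π/6) (C := 1)
    (f := fun θ => sg μ h θ * dt (smX gw X (ca h k j θ)) (Complex.I * Ta j θ)) (by
      intro θ hθ
      rw [uIoc_of_le npi_le] at hθ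
      have hm := sub_mem (Ioc_subset_Icc_self hθ)
      have e1 := P.muh hm
      have e2 : sg μ h θ ≤ 1 := by
        unfold sg; rw [div_le_one (by linarith)]; linarith
      have e3 := dt_le (smX gw X (ca h k j θ)) (Complex.I * Ta j θ)
      have e4 : ‖Complex.I * Ta j θ‖ = 1 := by rw [norm_mul, Ta_norm, Complex.norm_I, one_mul]
      have e5 : ‖smX gw X (ca h k j θ)‖ ≤ 1 := by
        unfold smX
        rw [norm_mul, Complex.norm_real, Real.norm_of_nonneg (gw_pos _).le]
        exact mul_le_one₀ (gw_le _) (norm_nonneg _) (hX1 _)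
      rw [e4, mul_one] at e3
      rw [Real.norm_eq_abs, abs_mul, abs_of_pos (P.sg_pos hm)]
      exact mul_le_one₀ e2 (abs_nonneg _) (e3.trans e5))
  rw [Real.norm_eq_abs] at h1
  refine h1.trans ?_
  rw [one_mul, abs_of_nonneg (by linarith [pi_pos])]
  linarith [pi_pos]

include P in
lemma RI_bound (hX1 : ∀ z, ‖X z‖ ≤ 1) {R : ℝ} (haR : av k ≤ R) (j : Fin 3) :
    |RI k R j (smX gw X)| ≤ ∫ r, ph r := by
  rw [RI_eq]
  have h1 : ‖∫ r in (av k)..R, dt (smX gw X (cy j r)) (Complex.I * Er j)‖ ≤ ∫ r in (av k)..R, ph r := by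
    apply intervalIntegral.norm_integral_le_of_norm_le haR
    · apply Eventually.of_forall
      intro r hr
      have e3 := dt_le (smX gw X (cy j r)) (Complex.I * Er j)
      have e4 : ‖Complex.I * Er j‖ = 1 := by rw [norm_mul, Er_norm, Complex.norm_I, one_mul]
      rw [e4, mul_one] at e3
      refine e3.trans ?_
      unfold smX
      rw [norm_mul, Complex.norm_real, Real.norm_of_nonneg (gw_pos _).le, gw_cy']
      exact mul_le_of_le_one_right (ph_pos r).le (hX1 _)
    · exact ph_cont.intervalIntegrable _ _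
  rw [Real.norm_eq_abs] at h1
  refine h1.trans ?_
  rw [intervalIntegral.integral_of_le haR]
  exact setIntegral_le_integral ph_integrable (Eventually.of_forall fun r => (ph_pos r).le)

/-- bound for the flux through the boundary of an outer cell -/
lemma outer_bound (hX : ContDiff ℝ ∞ X) (hc : HasCompactSupport X) (hX1 : ∀ z, ‖X z‖ ≤ 1) (j : Fin 3) :
    |∫ z in Oc P j, dvg (smX gw X) z| ≤ π + 2 * ∫ r, ph r := by
  obtain ⟨R0, hR0, hR⟩ := exists_rad hc
  have haR : av k ≤ max R0 (av k) := le_max_right _ _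
  have hR' : ∀ z, max R0 (av k) ≤ ‖z‖ → X z = 0 := fun z hz => hR z ((le_max_left _ _).trans hz)
  rw [div_Oc P ((smX_smooth gw_smooth hX).of_le (by exact_mod_cast le_top)) (smX_cpt hc) (smX_out hR') haR j]
  have h1 := AI_bound P hX1 j
  have h2 := RI_bound P hX1 haR j
  have h3 := RI_bound P hX1 haR (j + 2)
  rw [abs_le] at *
  constructor <;> linarith [h1.1, h1.2, h2.1, h2.2, h3.1, h3.2]

lemma perim_Oc (j : Fin 3) : FinitePerimeter (Oc P j) := by
  refine ⟨(2 * π)⁻¹ * (π + 2 * ∫ r, ph r), fun X hX hc hX1 => ?_⟩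
  simp_rw [gdiv_eq hX]
  rw [integral_const_mul]
  apply mul_le_mul_of_nonneg_left _ (by positivity)
  exact (le_abs_self _).trans (outer_bound P hX hc hX1 j)

lemma perim_Oi : FinitePerimeter (Oi P) := by
  refine ⟨(2 * π)⁻¹ * (3 * (π + 2 * ∫ r, ph r)), fun X hX hc hX1 => ?_⟩
  simp_rw [gdiv_eq hX]
  rw [integral_const_mul]
  apply mul_le_mul_of_nonneg_left _ (by positivity)
  have hs := smX_smooth gw_smooth hX
  have h1 := int_split P (g := dvg (smX gw X))
    ((dvg_smooth hs).continuous.integrable_of_hasCompactSupport (dvg_cpt (smX_cpt hc)))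
  rw [dvg_total (hs.of_le (by exact_mod_cast le_top)) (smX_cpt hc), Fin.sum_univ_three] at h1
  have b0 := outer_bound P hX hc hX1 0
  have b1 := outer_bound P hX hc hX1 1
  have b2 := outer_bound P hX hc hX1 2
  rw [abs_le] at b0 b1 b2
  linarith [b0.1, b1.1, b2.1]

end

end Pool.Agent.W562.GP
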