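import Pool.Agent.W562.GP.Var2
import Pool.Agent.W562.GP.Defs

set_option autoImplicit false
set_option linter.all false

open Set MeasureTheory Real Filter Topology
open scoped NNReal ContDiff ComplexConjugate
open Pool.Agent.W562.GaussPart

namespace Pool.Agent.W562.GP

noncomputable section

variable {μ : ℝ} {h k : ℝ → ℝ} (P : Prof μ h k)

/-! ### smoothness of the graph function beyond the vertices -/

def Wd : Set ℝ := {y | Tg P y ∈ Ioo (-1:ℝ) 1}

lemma Wd_open : IsOpen (Wd P) := isOpen_Ioo.preimage (Tg_cont P)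

lemma Wd_of {y : ℝ} (hy : |y| ≤ bv k) : y ∈ Wd P := by
  have h1 := Tg_mem P hy
  have h2 : π/6 < 1 := by have := pi_lt_d2; norm_num at this; linarith
  exact ⟨by linarith [h1.1], by linarith [h1.2]⟩

lemma Tg_smooth {y : ℝ} (hy : y ∈ Wd P) : ContDiffAt ℝ ∞ (Tg P) y := by
  set e : ℝ ≃ₜ ℝ := (StrictMono.orderIsoOfSurjective (Yg μ h) (Yg_mono P) (Yg_surj P)).toHomeomorph with he
  have h1 : ContDiffAt ℝ ∞ (Yg μ h) (Tg P y) := by
    have h2 : ContDiffAt ℝ ∞ (fun θ => (ax h k θ).im) (Tg P y) := by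
      have hh := P.smooth.1.contDiffAt (isOpen_Ioo.mem_nhds hy)
      have hk := P.smooth.2.contDiffAt (isOpen_Ioo.mem_nhds hy)
      exact (hh.mul contDiff_sin.contDiffAt).add (hk.mul contDiff_cos.contDiffAt)
    apply h2.congr_of_eventuallyEq
    filter_upwards [isOpen_Ioo.mem_nhds hy] with θ hθ
    exact Yg_eq P (Ioo_subset_Icc_self hθ)
  exact OpenPartialHomeomorph.contDiffAt_symm_deriv (f := e.toOpenPartialHomeomorph)
    (f₀' := st μ h (Tg P y)) (a := y) (st_pos P _).ne' (mem_univ _) (Yg_deriv P _) h1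

lemma gf_smooth {y : ℝ} (hy : y ∈ Wd P) : ContDiffAt ℝ ∞ (gf P) y := by
  have h1 : ContDiffAt ℝ ∞ (fun θ => (ax h k θ).re) (Tg P y) := by
    have hh := P.smooth.1.contDiffAt (isOpen_Ioo.mem_nhds hy)
    have hk := P.smooth.2.contDiffAt (isOpen_Ioo.mem_nhds hy)
    exact (hh.mul contDiff_cos.contDiffAt).sub (hk.mul contDiff_sin.contDiffAt)
  exact h1.comp y (Tg_smooth P hy)

lemma gf_deriv' {y : ℝ} (hy : y ∈ Wd P) : HasDerivAt (gf P) (-tan (Tg P y)) y := by
  have hm : Tg P y ∈ Icc (-1:ℝ) 1 := Ioo_subset_Icc_self hy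
  have h1 := HasDerivAt.comp y (P.re_deriv hm) (Tg_deriv P y)
  refine h1.congr_deriv ?_
  unfold st
  rw [cm_of hm, tan_eq_sin_div_cos]
  have h2 := P.sg_pos hm
  have h3 : 0 < cos (Tg P y) := by linarith [cos_lb hm]
  field_simp

lemma Tg_neg {y : ℝ} (hy : y ∈ Wd P) : Tg P (-y) = - Tg P y := by
  have hm : Tg P y ∈ Icc (-1:ℝ) 1 := Ioo_subset_Icc_self hy
  have hm' : -Tg P y ∈ Icc (-1:ℝ) 1 := ⟨by linarith [hm.2], by linarith [hm.1]⟩
  have h1 : Yg μ h (-Tg P y) = -y := by
    rw [Yg_eq P hm', ax_neg P]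
    show -(ax h k (Tg P y)).im = -y
    rw [← Yg_eq P hm, Yg_Tg]
  rw [← h1, Tg_Yg]

lemma Wd_neg {y : ℝ} (hy : y ∈ Wd P) : -y ∈ Wd P := by
  show Tg P (-y) ∈ Ioo (-1:ℝ) 1
  rw [Tg_neg P hy]
  exact ⟨by linarith [hy.2], by linarith [hy.1]⟩

lemma gf_even {y : ℝ} (hy : y ∈ Wd P) : gf P (-y) = gf P y := by
  unfold gf
  rw [Tg_neg P hy, ax_neg P]

lemma gf_beyond {y : ℝ} (hy : y ∈ Wd P) (hb : bv k < y) : gf P y < y / √3 := by
  have hb0 := bv_pos P
  have hanti : AntitoneOn (gf P) (Icc (bv k) y) := by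
    have hsub : ∀ s ∈ Icc (bv k) y, s ∈ Wd P ∧ 0 ≤ Tg P s := by
      intro s hs
      have h1 : Tg P (bv k) ≤ Tg P s := (Tg_mono P).monotone hs.1
      have h2 : Tg P s ≤ Tg P y := (Tg_mono P).monotone hs.2
      rw [Tg_bv] at h1
      have := pi6_pos
      exact ⟨⟨by linarith, lt_of_le_of_lt h2 hy.2⟩, by linarith⟩
    apply antitoneOn_of_deriv_nonpos (convex_Icc _ _)
    · intro s hs
      exact (gf_deriv' P (hsub s hs).1).continuousAt.continuousWithinAt
    · intro s hs
      rw [interior_Icc] at hs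
      exact (gf_deriv' P (hsub s (Ioo_subset_Icc_self hs)).1).differentiableAt.differentiableWithinAt
    · intro s hs
      rw [interior_Icc] at hs
      obtain ⟨h1, h2⟩ := hsub s (Ioo_subset_Icc_self hs)
      rw [(gf_deriv' P h1).deriv]
      have h3 : 0 ≤ tan (Tg P s) := tan_nonneg_of_nonneg_of_le_pi_div_two h2
        (by linarith [h1.2, pi_gt_three])
      linarith
  have h1 := hanti ⟨le_rfl, hb.le⟩ ⟨hb.le, le_rfl⟩ hb.le
  rw [gf_bv] at h1
  have h2 : bv k / √3 < y / √3 := div_lt_div_of_pos_right hb sqrt3_pos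
  linarith

/-- description of the outer cell near its vertex -/
lemma outer_iff {x y : ℝ} (hy : y ∈ Wd P) (hy0 : 0 < y) : Hf P y < x ↔ gf P y < x ∧ y / √3 < x := by
  rcases le_or_gt y (bv k) with hb | hb
  · have h1 : |y| ≤ bv k := by rwa [abs_of_pos hy0]
    have h2 := Hf_ge P y
    rw [abs_of_pos hy0] at h2
    rw [Hf_of_le P h1] at h2 ⊢
    exact ⟨fun h3 => ⟨h3, lt_of_le_of_lt h2 h3⟩, fun h3 => h3.1⟩
  · have h1 : bv k ≤ |y| := by rw [abs_of_pos hy0]; exact hb.le
    have h2 := gf_beyond P hy hb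
    rw [Hf_of_ge P h1, abs_of_pos hy0]
    exact ⟨fun h3 => ⟨by linarith, h3⟩, fun h3 => h3.2⟩

include P in
/-- support function inequality -/
lemma supp_le {θ : ℝ} (hθ : θ ∈ Icc (-1:ℝ) 1) :
    (ax h k θ).re * cos (π/6) + (ax h k θ).im * sin (π/6) ≤ bv k := by
  set u : ℝ → ℝ := fun θ => (ax h k θ).re * cos (π/6) + (ax h k θ).im * sin (π/6) with hu
  have hd : ∀ s ∈ Icc (-1:ℝ) 1, HasDerivAt u (sg μ h s * sin (π/6 - s)) s := by
    intro s hs
    have h1 := ((P.re_deriv hs).mul_const (cos (π/6))).add ((P.im_deriv hs).mul_const (sin (π/6)))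
    refine h1.congr_deriv ?_
    rw [sin_sub]; ring
  have hend : u (π/6) = bv k := by
    rw [hu]; simp only
    rw [ax_pi6 P, cos_pi_div_six, sin_pi_div_six]
    simp only
    unfold av bv
    ring
  have hpi := pi6_mem
  have hp3 := pi_gt_three
  rcases le_total θ (π/6) with h0 | h0
  · have hmono : MonotoneOn u (Icc (-1) (π/6)) := by
      apply monotoneOn_of_deriv_nonneg (convex_Icc _ _)
      · intro s hs
        exact (hd s ⟨hs.1, hs.2.trans hpi.2⟩).continuousAt.continuousWithinAt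
      · intro s hs
        rw [interior_Icc] at hs
        exact (hd s ⟨hs.1.le, hs.2.le.trans hpi.2⟩).differentiableAt.differentiableWithinAt
      · intro s hs
        rw [interior_Icc] at hs
        have hs' : s ∈ Icc (-1:ℝ) 1 := ⟨hs.1.le, hs.2.le.trans hpi.2⟩
        rw [(hd s hs').deriv]
        exact mul_nonneg (P.sg_pos hs').le (sin_nonneg_of_nonneg_of_le_pi (by linarith [hs.2])
          (by linarith [hs.1]))
    have := hmono ⟨hθ.1, h0⟩ ⟨hpi.1, le_rfl⟩ h0
    rw [hend] at this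
    exact this
  · have hanti : AntitoneOn u (Icc (π/6) 1) := by
      apply antitoneOn_of_deriv_nonpos (convex_Icc _ _)
      · intro s hs
        exact (hd s ⟨hpi.1.trans hs.1, hs.2⟩).continuousAt.continuousWithinAt
      · intro s hs
        rw [interior_Icc] at hs
        exact (hd s ⟨hpi.1.trans hs.1.le, hs.2.le⟩).differentiableAt.differentiableWithinAt
      · intro s hs
        rw [interior_Icc] at hs
        have hs' : s ∈ Icc (-1:ℝ) 1 := ⟨hpi.1.trans hs.1.le, hs.2.le⟩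
        rw [(hd s hs').deriv]
        have h2 : sin (π/6 - s) = - sin (s - π/6) := by rw [← sin_neg]; congr 1; ring
        rw [h2, mul_neg, neg_nonpos]
        exact mul_nonneg (P.sg_pos hs').le (sin_nonneg_of_nonneg_of_le_pi (by linarith [hs.1])
          (by linarith [hs.2]))
    have := hanti ⟨le_rfl, hpi.2⟩ ⟨h0, hθ.2⟩ h0
    rw [hend] at this
    exact this

/-- below the extended arc one is on one side of the tangent line at the vertex -/
lemma tangent_lt {x y : ℝ} (hy : y ∈ Wd P) (hx : x < gf P y) : √3/2 * x + y/2 < bv k := by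
  have hm : Tg P y ∈ Icc (-1:ℝ) 1 := Ioo_subset_Icc_self hy
  have h1 := supp_le P hm
  rw [cos_pi_div_six, sin_pi_div_six] at h1
  have h2 : (ax h k (Tg P y)).im = y := by rw [← Yg_eq P hm, Yg_Tg]
  have h3 : (ax h k (Tg P y)).re = gf P y := rfl
  rw [h2, h3] at h1
  have := sqrt3_pos
  nlinarith

/-- description of the inner cell near a vertex -/
lemma inner_iff {x y x1 y1 : ℝ} (hy : y ∈ Wd P) (hy1 : y1 ∈ Wd P) (hy0 : 0 < y) (hy10 : y1 < 0)
    (e1 : x1 = -x/2 + √3/2 * y) (e2 : y1 = -(√3/2) * x - y/2) :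
    (x < Hf P y ∧ x1 < Hf P y1) ↔ (x < gf P y ∧ x1 < gf P y1) := by
  have h3 := sqrt3_sq
  have h3p := sqrt3_pos
  have t1 : x < gf P y → -bv k < y1 := by
    intro hx
    have := tangent_lt P hy hx
    rw [e2]; linarith
  have t2 : x1 < gf P y1 → y < bv k := by
    intro hx
    rw [← gf_even P hy1] at hx
    have := tangent_lt P (Wd_neg P hy1) hx
    have e3 : √3/2 * x1 + -y1/2 = y := by
      rw [e1, e2]; linear_combination (y/4) * h3
    linarith
  constructor
  · rintro ⟨a, b⟩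
    rcases le_or_gt y (bv k) with hb | hb
    · rw [Hf_of_le P (by rwa [abs_of_pos hy0])] at a
      have := t1 a
      rw [Hf_of_le P (by rw [abs_of_neg hy10]; linarith)] at b
      exact ⟨a, b⟩
    · exfalso
      rcases le_or_gt (-bv k) y1 with hc | hc
      · rw [Hf_of_le P (by rw [abs_of_neg hy10]; linarith)] at b
        have := t2 b
        linarith
      · rw [Hf_of_ge P (by rw [abs_of_pos hy0]; exact hb.le), abs_of_pos hy0, lt_div_iff₀ h3p] at a
        rw [Hf_of_ge P (by rw [abs_of_neg hy10]; linarith), abs_of_neg hy10, lt_div_iff₀ h3p] at b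
        rw [e1, e2] at b
        nlinarith
  · rintro ⟨a, b⟩
    have u1 := t1 a
    have u2 := t2 b
    rw [Hf_of_le P (by rw [abs_of_pos hy0]; exact u2.le), Hf_of_le P (by rw [abs_of_neg hy10]; linarith)]
    exact ⟨a, b⟩

end

end Pool.Agent.W562.GP
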