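import Pool.Agent.W562.GP.Reg

set_option autoImplicit false
set_option linter.all false

open Set MeasureTheory Real Filter Topology
open scoped NNReal ContDiff ComplexConjugate
open Pool.Agent.W562.GaussPart

namespace Pool.Agent.W562.GP

noncomputable section

variable {μ : ℝ} {h k : ℝ → ℝ} (P : Prof μ h k)

lemma Om_cast (j : Fin 3) : Om P j.castSucc = Oc P j := by fin_cases j <;> rfl
lemma Om_last : Om P (Fin.last 3) = Oi P := rfl

lemma fderiv_ne {f : ℂ → ℝ} {p v : ℂ} {a : ℝ} (ha : a ≠ 0) (hd : DifferentiableAt ℝ f p)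
    (h1 : ∀ᶠ t : ℝ in 𝓝 0, f (p + t * v) = f p + t * a) : fderiv ℝ f p ≠ 0 := by
  intro h0
  have e1 : HasDerivAt (fun t : ℝ => p + (t : ℂ) * v) v 0 := by
    have := ((hasDerivAt_id (0:ℝ)).ofReal_comp.mul_const v).const_add p
    simpa using this
  have e2 : HasFDerivAt f (fderiv ℝ f p) (p + ((0:ℝ) : ℂ) * v) := by
    have : p + ((0:ℝ) : ℂ) * v = p := by simp
    rw [this]; exact hd.hasFDerivAt
  have e3 : HasDerivAt (fun t : ℝ => f (p + (t : ℂ) * v)) (fderiv ℝ f p v) 0 := e2.comp_hasDerivAt (0:ℝ) e1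
  have e4 : HasDerivAt (fun t : ℝ => f p + t * a) (1 * a) 0 := ((hasDerivAt_id (0:ℝ)).mul_const a).const_add _
  have e5 := e4.congr_of_eventuallyEq h1
  have e6 := e3.unique e5
  rw [h0] at e6
  simp at e6
  exact ha e6.symm

/-- coordinates -/
lemma re_inner (j : Fin 3) (z : ℂ) : (cr j z).re = innerSL ℝ (rho j) z := by
  rw [innerSL_apply_apply, Complex.inner]
  unfold cr
  rw [mul_comm]
lemma im_inner (j : Fin 3) (z : ℂ) : (cr j z).im = innerSL ℝ (Complex.I * rho j) z := by
  rw [innerSL_apply_apply, Complex.inner]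
  unfold cr
  simp only [map_mul, Complex.conj_I, Complex.mul_re, Complex.mul_im, Complex.conj_re, Complex.conj_im,
    Complex.neg_re, Complex.neg_im, Complex.I_re, Complex.I_im]
  ring

lemma cr_re_smooth (j : Fin 3) : ContDiff ℝ ∞ (fun z => (cr j z).re) := by
  have : (fun z => (cr j z).re) = fun z => innerSL ℝ (rho j) z := funext (re_inner j)
  rw [this]; exact (innerSL ℝ (rho j)).contDiff
lemma cr_im_smooth (j : Fin 3) : ContDiff ℝ ∞ (fun z => (cr j z).im) := by
  have : (fun z => (cr j z).im) = fun z => innerSL ℝ (Complex.I * rho j) z := funext (im_inner j)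
  rw [this]; exact (innerSL ℝ (Complex.I * rho j)).contDiff

lemma gfcr_smooth (j : Fin 3) {z : ℂ} (hz : (cr j z).im ∈ Wd P) :
    ContDiffAt ℝ ∞ (fun z => gf P (cr j z).im) z :=
  ContDiffAt.comp z (g := gf P) (f := fun z => (cr j z).im) (gf_smooth P hz) (cr_im_smooth j).contDiffAt

lemma sq3_e (x y : ℝ) : (-x/2 + √3/2 * y) * √3 = -(√3 * x)/2 + 3/2 * y := by
  linear_combination (y/2) * sqrt3_sq

lemma sc_ne {i j : Fin 3} (hij : i ≠ j) {z : ℂ} (hz : |(cr j z).im| < √3 * (cr j z).re) :
    (cr i z).re < Hf P (cr i z).im := by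
  by_contra hc
  push Not at hc
  exact hij (sc_excl hz (sc_of_ge P hc))

/-- interior points of the arcs -/
theorem smooth_arc (j : Fin 3) {θ : ℝ} (hθ : θ ∈ Ioo (-(π/6)) (π/6)) : SmoothPoint (Om P) (ca h k j θ) := by
  have hIcc := Ioo_subset_Icc_self hθ
  refine ⟨j.castSucc, Fin.last 3, (Fin.castSucc_lt_last j).ne,
    {z | |(cr j z).im| < bv k ∧ |(cr j z).im| < √3 * (cr j z).re}, ?_, ?_,
    fun z => (cr j z).re - gf P (cr j z).im, ?_, ?_, ?_, ?_, ?_, ?_⟩
  · have c1 : Continuous (fun z => |(cr j z).im|) := (Complex.continuous_im.comp (cr_cont j)).abs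
    exact (isOpen_lt c1 continuous_const).inter
      (isOpen_lt c1 (continuous_const.mul (Complex.continuous_re.comp (cr_cont j))))
  · show |(cr j (rho j * ax h k θ)).im| < bv k ∧ |(cr j (rho j * ax h k θ)).im| < √3 * (cr j (rho j * ax h k θ)).re
    rw [cr_mul]
    refine ⟨?_, ax_sector' P hθ⟩
    rw [← Yg_eq P (sub_mem hIcc), abs_lt, ← im_pi6 P, ← Yg_eq P pi6_mem]
    have hm : -(π/6) ∈ Icc (-1:ℝ) 1 := ⟨by linarith [pi6_le], by linarith [pi6_pos]⟩
    have e1 : -Yg μ h (π/6) = Yg μ h (-(π/6)) := by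
      rw [Yg_eq P pi6_mem, Yg_eq P hm, im_pi6 P, im_npi6 P]
    rw [e1]
    exact ⟨(Yg_mono P) hθ.1, (Yg_mono P) hθ.2⟩
  · intro z hz
    apply ContDiffAt.contDiffWithinAt
    exact (cr_re_smooth j).contDiffAt.sub (gfcr_smooth P j (Wd_of P hz.1.le))
  · show (cr j (rho j * ax h k θ)).re - gf P (cr j (rho j * ax h k θ)).im = 0
    rw [cr_mul, ← Hf_of_le P (Yg_abs P hIcc), Hf_ax P hIcc, sub_self]
  · apply fderiv_ne (v := rho j) (a := 1) one_ne_zero
    · have h1 : (cr j (ca h k j θ)).im ∈ Wd P := by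
        show (cr j (rho j * ax h k θ)).im ∈ Wd P
        rw [cr_mul]
        exact Wd_of P (Yg_abs P hIcc)
      exact ((cr_re_smooth j).contDiffAt.sub (gfcr_smooth P j h1)).differentiableAt (by simp)
    · apply Eventually.of_forall
      intro t
      have e1 : cr j (ca h k j θ + t * rho j) = cr j (ca h k j θ) + t := by
        unfold cr
        linear_combination (t : ℂ) * rho_conj j
      rw [e1, Complex.add_re, Complex.add_im, Complex.ofReal_re, Complex.ofReal_im, add_zero]
      ring
  · rw [Om_cast]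
    ext z
    constructor
    · rintro ⟨a, b⟩
      refine ⟨b, ?_⟩
      have a' : Hf P (cr j z).im < (cr j z).re := a
      rw [Hf_of_le P b.1.le] at a'
      exact sub_pos.2 a'
    · rintro ⟨b, a⟩
      refine ⟨?_, b⟩
      show Hf P (cr j z).im < (cr j z).re
      rw [Hf_of_le P b.1.le]
      exact sub_pos.1 a
  · rw [Om_last]
    ext z
    constructor
    · rintro ⟨a, b⟩
      refine ⟨b, ?_⟩
      have a' : (cr j z).re < Hf P (cr j z).im := a j
      rw [Hf_of_le P b.1.le] at a'
      exact sub_neg.2 a'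
    · rintro ⟨b, a⟩
      refine ⟨?_, b⟩
      intro i
      by_cases hij : i = j
      · rw [hij, Hf_of_le P b.1.le]
        exact sub_neg.1 a
      · exact sc_ne P hij b.2
  · intro l hl1 hl2
    induction l using Fin.lastCases with
    | last => exact absurd rfl hl2
    | cast i =>
      rw [Om_cast]
      have hij : i ≠ j := fun e => hl1 (by rw [e])
      apply Set.eq_empty_of_forall_notMem
      rintro z ⟨a, b⟩
      exact absurd (sc_ne P hij b.2) (not_lt.2 (le_of_lt a))

/-- coordinates in the neighbouring frames -/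
lemma cr_j1 (j : Fin 3) (z : ℂ) : cr (j+1) z =
    ⟨-(cr j z).re/2 + √3/2 * (cr j z).im, -(√3/2) * (cr j z).re - (cr j z).im/2⟩ := by
  rw [cr_succ, cr_one]
lemma cr_j2 (j : Fin 3) (z : ℂ) : cr (j+2) z =
    ⟨-(cr j z).re/2 - √3/2 * (cr j z).im, √3/2 * (cr j z).re - (cr j z).im/2⟩ := by
  rw [cr_add, cr_two]

lemma fin3_cases (i j : Fin 3) : i = j ∨ i = j + 1 ∨ i = j + 2 := by
  revert i j; decide

lemma cr_cy (j : Fin 3) (r : ℝ) : cr j (cy j r) = ⟨r/2, √3/2 * r⟩ := by
  unfold cy; rw [cr_mul, ray_im]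

/-- interior points of the rays -/
theorem smooth_ray (j : Fin 3) {r : ℝ} (hr : av k < r) : SmoothPoint (Om P) (cy j r) := by
  have ha := av_pos P
  have h3 := sqrt3_sq
  have h3p := sqrt3_pos
  have hj1 : j + 1 ≠ j := by revert j; decide
  refine ⟨j.castSucc, (j+1).castSucc, fun e => hj1 (Fin.castSucc_injective _ e).symm,
    {z | bv k < (cr j z).im ∧ (cr (j+1) z).im < -bv k ∧ (cr (j+2) z).re < 0}, ?_, ?_,
    fun z => √3 * (cr j z).re - (cr j z).im, ?_, ?_, ?_, ?_, ?_, ?_⟩
  · have ci : ∀ i, Continuous (fun z => (cr i z).im) := fun i => Complex.continuous_im.comp (cr_cont i)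
    have cre : ∀ i, Continuous (fun z => (cr i z).re) := fun i => Complex.continuous_re.comp (cr_cont i)
    exact (isOpen_lt continuous_const (ci _)).inter ((isOpen_lt (ci _) continuous_const).inter
      (isOpen_lt (cre _) continuous_const))
  · show bv k < (cr j (cy j r)).im ∧ (cr (j+1) (cy j r)).im < -bv k ∧ (cr (j+2) (cy j r)).re < 0
    rw [cr_j1, cr_j2, cr_cy]
    have e1 : bv k < √3/2 * r := by
      unfold bv; unfold av at hr; nlinarith
    refine ⟨e1, ?_, ?_⟩
    · simp only; linarith
    · simp only; nlinarith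
  · exact ((contDiff_const.mul (cr_re_smooth j)).sub (cr_im_smooth j)).contDiffOn
  · show √3 * (cr j (cy j r)).re - (cr j (cy j r)).im = 0
    rw [cr_cy]; simp only; ring
  · apply fderiv_ne (v := rho j) (a := √3) h3p.ne'
    · exact (((contDiff_const.mul (cr_re_smooth j)).sub (cr_im_smooth j)).contDiffAt).differentiableAt (by simp)
    · apply Eventually.of_forall
      intro t
      have e1 : cr j (cy j r + t * rho j) = cr j (cy j r) + t := by
        unfold cr
        linear_combination (t : ℂ) * rho_conj j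
      rw [e1, Complex.add_re, Complex.add_im, Complex.ofReal_re, Complex.ofReal_im, add_zero]
      ring
  · rw [Om_cast]
    ext z
    constructor
    · rintro ⟨a, b⟩
      refine ⟨b, ?_⟩
      have a' : Hf P (cr j z).im < (cr j z).re := a
      have hb := bv_pos P
      have b1 : bv k < (cr j z).im := b.1
      rw [Hf_of_ge P (by rw [abs_of_pos (by linarith)]; exact b1.le), abs_of_pos (by linarith),
        div_lt_iff₀ h3p] at a'
      show 0 < √3 * (cr j z).re - (cr j z).im
      linarith
    · rintro ⟨b, a⟩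
      refine ⟨?_, b⟩
      have hb := bv_pos P
      have b1 : bv k < (cr j z).im := b.1
      show Hf P (cr j z).im < (cr j z).re
      rw [Hf_of_ge P (by rw [abs_of_pos (by linarith)]; exact b1.le), abs_of_pos (by linarith),
        div_lt_iff₀ h3p]
      have a' : 0 < √3 * (cr j z).re - (cr j z).im := a
      linarith
  · rw [Om_cast]
    ext z
    constructor
    · rintro ⟨a, b⟩
      refine ⟨b, ?_⟩
      have a' : Hf P (cr (j+1) z).im < (cr (j+1) z).re := a
      have hb := bv_pos P
      have b1 : (cr (j+1) z).im < - bv k := b.2.1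
      rw [Hf_of_ge P (by rw [abs_of_neg (by linarith)]; linarith), abs_of_neg (by linarith),
        div_lt_iff₀ h3p, cr_j1] at a'
      simp only at a'
      rw [sq3_e] at a'
      show √3 * (cr j z).re - (cr j z).im < 0
      linarith
    · rintro ⟨b, a⟩
      refine ⟨?_, b⟩
      have hb := bv_pos P
      have b1 : (cr (j+1) z).im < - bv k := b.2.1
      show Hf P (cr (j+1) z).im < (cr (j+1) z).re
      rw [Hf_of_ge P (by rw [abs_of_neg (by linarith)]; linarith), abs_of_neg (by linarith),
        div_lt_iff₀ h3p, cr_j1]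
      have a' : √3 * (cr j z).re - (cr j z).im < 0 := a
      simp only
      rw [sq3_e]
      linarith
  · intro l hl1 hl2
    induction l using Fin.lastCases with
    | last =>
      rw [Om_last]
      apply Set.eq_empty_of_forall_notMem
      rintro z ⟨a, b⟩
      have a1 := a j
      have a2 := a (j+1)
      have hb := bv_pos P
      have b1 : bv k < (cr j z).im := b.1
      have b2 : (cr (j+1) z).im < - bv k := b.2.1
      rw [Hf_of_ge P (by rw [abs_of_pos (by linarith)]; exact b1.le), abs_of_pos (by linarith),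
        lt_div_iff₀ h3p] at a1
      rw [Hf_of_ge P (by rw [abs_of_neg (by linarith)]; linarith), abs_of_neg (by linarith),
        lt_div_iff₀ h3p, cr_j1] at a2
      simp only at a2
      rw [sq3_e] at a2
      linarith
    | cast i =>
      rw [Om_cast]
      apply Set.eq_empty_of_forall_notMem
      rintro z ⟨a, b⟩
      rcases fin3_cases i j with e | e | e
      · exact hl1 (by rw [e])
      · exact hl2 (by rw [e])
      · rw [e] at a
        have a' : Hf P (cr (j+2) z).im < (cr (j+2) z).re := a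
        have b3 : (cr (j+2) z).re < 0 := b.2.2
        linarith [Hf_pos P (cr (j+2) z).im]

end

end Pool.Agent.W562.GP
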