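import Pool.Agent.W562.GP.Vol

set_option autoImplicit false
set_option linter.all false

open Set MeasureTheory Real Filter Topology
open scoped NNReal ContDiff ComplexConjugate

namespace Pool.Agent.W562.GP

noncomputable section

variable {μ : ℝ} {h k : ℝ → ℝ} (P : Prof μ h k)

lemma dt_cr (j : Fin 3) (z w : ℂ) : dt (cr j z) w = dt z (rho j * w) := by
  unfold dt cr
  simp only [Complex.mul_re, Complex.mul_im, Complex.conj_re, Complex.conj_im]
  ring

lemma dt_rho (j : Fin 3) (z w : ℂ) : dt (rho j * z) (rho j * w) = dt z w := by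
  rw [← dt_cr, cr_mul]

def rotL (j : Fin 3) : ℂ ≃ₗᵢ[ℝ] ℂ :=
  rotation ⟨rho j, mem_sphere_zero_iff_norm.2 (rho_norm j)⟩

lemma rotL_apply (j : Fin 3) (z : ℂ) : rotL j z = rho j * z := by
  rfl

lemma int_Oc (j : Fin 3) (f : ℂ → ℝ) :
    ∫ z in Oc P j, f z = ∫ w in {z : ℂ | Hf P z.im < z.re}, f (rho j * w) := by
  have h1 : rotL j ⁻¹' (Oc P j) = {z : ℂ | Hf P z.im < z.re} := by
    ext w
    rw [mem_preimage, rotL_apply]
    show Hf P (cr j (rho j * w)).im < (cr j (rho j * w)).re ↔ _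
    rw [cr_mul]; rfl
  have h2 := (rotL j).measurePreserving.setIntegral_preimage_emb
    (rotL j).toHomeomorph.measurableEmbedding f (Oc P j)
  rw [h1] at h2
  rw [← h2]
  simp_rw [rotL_apply]

/-- rotated field -/
def rY (j : Fin 3) (Y : ℂ → ℂ) (w : ℂ) : ℂ := cr j (Y (rho j * w))

lemma rY_smooth (j : Fin 3) {Y : ℂ → ℂ} (hY : ContDiff ℝ 1 Y) : ContDiff ℝ 1 (rY j Y) := by
  unfold rY cr
  exact contDiff_const.mul (hY.comp (contDiff_const.mul contDiff_id))

lemma rY_cpt (j : Fin 3) {Y : ℂ → ℂ} (hc : HasCompactSupport Y) : HasCompactSupport (rY j Y) := by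
  have h1 : HasCompactSupport (fun w => Y (rho j * w)) :=
    hc.comp_homeomorph (crH j).symm
  exact h1.comp_left (g := cr j) (by unfold cr; simp)

lemma rY_dvg (j : Fin 3) {Y : ℂ → ℂ} (hY : ContDiff ℝ 1 Y) (w : ℂ) :
    dvg (rY j Y) w = dvg Y (rho j * w) := by
  have h1 : HasFDerivAt Y (fderiv ℝ Y (rho j * w)) (rho j * w) :=
    (hY.differentiable one_ne_zero _).hasFDerivAt
  have h2 : HasFDerivAt (fun w : ℂ => rho j * w) ((ContinuousLinearMap.mul ℝ ℂ) (rho j)) w :=
    ((ContinuousLinearMap.mul ℝ ℂ) (rho j)).hasFDerivAt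
  have h3 := h1.comp w h2
  have h4 : HasFDerivAt (fun z : ℂ => cr j z) ((ContinuousLinearMap.mul ℝ ℂ) (conj (rho j)))
      (Y (rho j * w)) := ((ContinuousLinearMap.mul ℝ ℂ) (conj (rho j))).hasFDerivAt
  have h5 : HasFDerivAt (rY j Y) _ w := h4.comp w h3
  have h6 : ∀ v : ℂ, fderiv ℝ (rY j Y) w v = conj (rho j) * fderiv ℝ Y (rho j * w) (rho j * v) := by
    intro v
    rw [h5.fderiv]; rfl
  unfold dvg
  rw [h6, h6]
  set L := fderiv ℝ Y (rho j * w) with hL
  have e1 : L (rho j * 1) = (rho j).re • L 1 + (rho j).im • L Complex.I := by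
    rw [← map_smul, ← map_smul, ← map_add]
    congr 1
    apply Complex.ext <;> simp
  have e2 : L (rho j * Complex.I) = -(rho j).im • L 1 + (rho j).re • L Complex.I := by
    rw [← map_smul, ← map_smul, ← map_add]
    congr 1
    apply Complex.ext <;> simp
  rw [e1, e2]
  have hn : (rho j).re ^ 2 + (rho j).im ^ 2 = 1 := by
    rw [← normSq_eq, rho_norm]; norm_num
  simp only [Complex.mul_re, Complex.mul_im, Complex.conj_re, Complex.conj_im, Complex.add_re,
    Complex.add_im, Complex.smul_re, Complex.smul_im, smul_eq_mul]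
  linear_combination ((L 1).re + (L Complex.I).im) * hn

/-- boundary integrals -/
def AI (μ : ℝ) (h k : ℝ → ℝ) (j : Fin 3) (Y : ℂ → ℂ) : ℝ :=
  ∫ θ in (-(π/6))..(π/6), sg μ h θ * dt (Y (rho j * ax h k θ)) (rho j * -ee θ)
def RI (k : ℝ → ℝ) (R : ℝ) (j : Fin 3) (Y : ℂ → ℂ) : ℝ :=
  ∫ r in (av k)..R, dt (Y (rho j * (r * ee (π/3)))) (rho j * (Complex.I * ee (π/3)))

lemma rho_succ (j : Fin 3) : rho (j + 1) = rho j * rho 1 := by
  have h1 := cr_succ j (rho (j + 1) * 1)
  rw [cr_mul] at h1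
  have h2 : rho j * (rho 1 * 1) = rho j * (rho 1 * cr 1 (cr j (rho (j+1) * 1))) := by rw [← h1]
  rw [mul_cr, mul_cr] at h2
  rw [mul_one, mul_one] at h2
  exact h2.symm

lemma rho_one : rho 1 = ee (π/3) * ee (π/3) := by
  rw [ee_pi3]
  show (⟨-1/2, √3/2⟩ : ℂ) = _
  apply Complex.ext
  · simp
    linear_combination (1/4) * sqrt3_sq
  · simp; ring

lemma rho_pred_ee (j : Fin 3) : rho j * ee (-(π/3)) = rho (j + 2) * ee (π/3) := by
  have e : j = (j + 2) + 1 := by fin_cases j <;> rfl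
  conv_lhs => rw [e]
  rw [rho_succ, rho_one]
  have : ee (π/3) * ee (-(π/3)) = 1 := by
    rw [← ee_add, add_neg_cancel]
    apply Complex.ext <;> simp [ee]
  linear_combination (rho (j+2) * ee (π/3)) * this

/-- divergence theorem for every outer cell -/
theorem div_Oc {Y : ℂ → ℂ} (hY : ContDiff ℝ 1 Y) (hc : HasCompactSupport Y) {R : ℝ}
    (hR : ∀ z, R ≤ ‖z‖ → Y z = 0) (haR : av k ≤ R) (j : Fin 3) :
    ∫ z in Oc P j, dvg Y z = AI μ h k j Y + RI k R j Y - RI k R (j + 2) Y := by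
  rw [int_Oc P j]
  have h1 : ∀ w, dvg Y (rho j * w) = dvg (rY j Y) w := fun w => (rY_dvg j hY w).symm
  simp_rw [h1]
  rw [div_U P (rY_smooth j hY) (rY_cpt j hc) (R := R) _ haR]
  · congr 1
    congr 1
    · unfold AI
      rw [← intervalIntegral.integral_neg]
      apply intervalIntegral.integral_congr
      intro θ _
      show -(sg μ h θ * dt (cr j (Y (rho j * ax h k θ))) (ee θ)) = _
      rw [dt_cr]
      unfold dt
      simp only [Complex.mul_re, Complex.mul_im, Complex.neg_re, Complex.neg_im]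
      ring
    · unfold RI
      apply intervalIntegral.integral_congr
      intro r _
      show dt (cr j (Y (rho j * (r * ee (π/3))))) (Complex.I * ee (π/3)) = _
      rw [dt_cr]
    · unfold RI
      apply intervalIntegral.integral_congr
      intro r _
      show dt (cr j (Y (rho j * (r * ee (-(π/3)))))) (Complex.I * ee (-(π/3))) = _
      rw [dt_cr]
      have e1 : rho j * ((r:ℂ) * ee (-(π/3))) = rho (j+2) * (r * ee (π/3)) := by
        linear_combination (r:ℂ) * rho_pred_ee j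
      have e2 : rho j * (Complex.I * ee (-(π/3))) = rho (j+2) * (Complex.I * ee (π/3)) := by
        linear_combination Complex.I * rho_pred_ee j
      rw [e1, e2]
  · intro z hz
    show cr j (Y (rho j * z)) = 0
    rw [hR]
    · unfold cr; simp
    · rw [norm_mul, rho_norm, one_mul]; exact hz

end

end Pool.Agent.W562.GP
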