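import Pool.Agent.W562.GP.Ineq2

set_option autoImplicit false
set_option linter.all false

open Set MeasureTheory Real Filter Topology
open scoped NNReal ContDiff ComplexConjugate

namespace Pool.Agent.W562.GP

noncomputable section

/-! ### splitting off the symmetric part -/

lemma ray_split {f f' : Fin 3 → ℝ → ℝ} (hf : ∀ j, Continuous (f j)) (hf' : ∀ j, Continuous (f' j))
    (a R : ℝ) :
    ∑ j, ∫ r in a..R, ph r * (f' j r ^ 2 - f j r ^ 2) =
      3 * (∫ r in a..R, ph r * (((∑ j, f' j r) / 3) ^ 2 - ((∑ j, f j r) / 3) ^ 2)) +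
      ∑ j, ∫ r in a..R, ph r * ((f' j r - (∑ i, f' i r) / 3) ^ 2 - (f j r - (∑ i, f i r) / 3) ^ 2) := by
  have hph := ph_cont
  have c1 : ∀ j, Continuous (fun r => ph r * (f' j r ^ 2 - f j r ^ 2)) := by
    intro j; have := hf j; have := hf' j; fun_prop
  have cs : Continuous (fun r => ∑ j, f j r) := continuous_finset_sum _ (fun j _ => hf j)
  have cs' : Continuous (fun r => ∑ j, f' j r) := continuous_finset_sum _ (fun j _ => hf' j)
  have c2 : Continuous (fun r => 3 * (ph r * (((∑ j, f' j r) / 3) ^ 2 - ((∑ j, f j r) / 3) ^ 2))) := by fun_prop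
  have c3 : ∀ j, Continuous (fun r => ph r * ((f' j r - (∑ i, f' i r) / 3) ^ 2 - (f j r - (∑ i, f i r) / 3) ^ 2)) := by
    intro j; have := hf j; have := hf' j; fun_prop
  rw [← intervalIntegral.integral_finset_sum (fun j _ => (c1 j).intervalIntegrable _ _),
    ← intervalIntegral.integral_finset_sum (fun j _ => (c3 j).intervalIntegrable _ _),
    ← intervalIntegral.integral_const_mul, ← intervalIntegral.integral_add (c2.intervalIntegrable _ _)
      ((continuous_finset_sum _ (fun j _ => c3 j)).intervalIntegrable _ _)]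
  apply intervalIntegral.integral_congr
  intro r _
  simp only [Fin.sum_univ_three]
  ring

variable {h k : ℝ → ℝ} (P : Prof 100 h k)

def uu (g : Fin 3 → ℝ → ℝ) (x : ℝ) : ℝ := (∑ j, g j x - ∑ j, g j (-x)) / 6
def uu' (g' : Fin 3 → ℝ → ℝ) (x : ℝ) : ℝ := (∑ j, g' j x + ∑ j, g' j (-x)) / 6

lemma neg_mem' {x : ℝ} (hx : x ∈ Icc (-(π/6)) (π/6)) : -x ∈ Icc (-(π/6)) (π/6) :=
  ⟨by linarith [hx.2], by linarith [hx.1]⟩

lemma uu_deriv {g g' : Fin 3 → ℝ → ℝ} (hg : ∀ j, ∀ x ∈ Icc (-(π/6)) (π/6), HasDerivAt (g j) (g' j x) x)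
    {x : ℝ} (hx : x ∈ Icc (-(π/6)) (π/6)) : HasDerivAt (uu g) (uu' g' x) x := by
  have h1 : HasDerivAt (fun x => ∑ j, g j x) (∑ j, g' j x) x := by
    have := HasDerivAt.fun_sum (u := Finset.univ) (fun j _ => hg j x hx)
    exact this
  have h2 : HasDerivAt (fun x => ∑ j, g j (-x)) (∑ j, -(g' j (-x))) x := by
    apply HasDerivAt.fun_sum
    intro j _
    have := (hg j (-x) (neg_mem' hx)).scomp x (hasDerivAt_neg x)
    refine this.congr_deriv ?_
    simp
  refine ((h1.sub h2).div_const 6).congr_deriv ?_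
  unfold uu'
  simp only [Fin.sum_univ_three]; ring

lemma comp_neg_cont {G : ℝ → ℝ} (hG : ContinuousOn G (Icc (-(π/6)) (π/6))) :
    ContinuousOn (fun x => G (-x)) (Icc (-(π/6)) (π/6)) :=
  hG.comp continuous_neg.continuousOn (fun x hx => neg_mem' hx)

lemma uu'_cont {g' : Fin 3 → ℝ → ℝ} (hg : ∀ j, ContinuousOn (g' j) (Icc (-(π/6)) (π/6))) :
    ContinuousOn (uu' g') (Icc (-(π/6)) (π/6)) := by
  unfold uu'
  have h1 : ContinuousOn (fun x => ∑ j, g' j x) (Icc (-(π/6)) (π/6)) :=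
    continuousOn_finset_sum _ (fun j _ => hg j)
  have h2 : ContinuousOn (fun x => ∑ j, g' j (-x)) (Icc (-(π/6)) (π/6)) :=
    continuousOn_finset_sum _ (fun j _ => comp_neg_cont (hg j))
  exact (h1.add h2).div_const 6

lemma uu_odd (g : Fin 3 → ℝ → ℝ) (x : ℝ) : uu g (-x) = - uu g x := by
  unfold uu; rw [neg_neg]; ring

lemma uu'_even (g : Fin 3 → ℝ → ℝ) (x : ℝ) : uu' g (-x) = uu' g x := by
  unfold uu'; rw [neg_neg]; ring

include P in
lemma arc_split {g g' : Fin 3 → ℝ → ℝ} (hg : ∀ j, ContinuousOn (g j) (Icc (-(π/6)) (π/6)))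
    (hg' : ∀ j, ContinuousOn (g' j) (Icc (-(π/6)) (π/6))) (hu : ContinuousOn (uu g) (Icc (-(π/6)) (π/6))) :
    ∑ j, ∫ x in (-(π/6))..(π/6), (g' j x ^ 2 - (1 + sg 100 h x ^ 2) * g j x ^ 2) =
      3 * (∫ x in (-(π/6))..(π/6), (uu' g' x ^ 2 - (1 + sg 100 h x ^ 2) * uu g x ^ 2)) +
      ∑ j, ∫ x in (-(π/6))..(π/6), ((g' j x - uu' g' x) ^ 2 - (1 + sg 100 h x ^ 2) * (g j x - uu g x) ^ 2) := by
  have hs := sg_contOn P
  have hu' := uu'_cont hg'
  have c1 : ∀ j, ContinuousOn (fun x => g' j x ^ 2 - (1 + sg 100 h x ^ 2) * g j x ^ 2) (Icc (-(π/6)) (π/6)) := by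
    intro j; have := hg j; have := hg' j; fun_prop
  have c2 : ContinuousOn (fun x => 3 * (uu' g' x ^ 2 - (1 + sg 100 h x ^ 2) * uu g x ^ 2)) (Icc (-(π/6)) (π/6)) := by
    fun_prop
  have c3 : ∀ j, ContinuousOn (fun x => (g' j x - uu' g' x) ^ 2 - (1 + sg 100 h x ^ 2) * (g j x - uu g x) ^ 2)
      (Icc (-(π/6)) (π/6)) := by
    intro j; have := hg j; have := hg' j; fun_prop
  have c4 : ContinuousOn (fun x => 2 * (uu' g' x * (∑ j, (g' j x - uu' g' x)) -
      (1 + sg 100 h x ^ 2) * (uu g x * (∑ j, (g j x - uu g x))))) (Icc (-(π/6)) (π/6)) := by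
    have e1 : ContinuousOn (fun x => ∑ j, (g' j x - uu' g' x)) (Icc (-(π/6)) (π/6)) :=
      continuousOn_finset_sum _ (fun j _ => (hg' j).sub hu')
    have e2 : ContinuousOn (fun x => ∑ j, (g j x - uu g x)) (Icc (-(π/6)) (π/6)) :=
      continuousOn_finset_sum _ (fun j _ => (hg j).sub hu)
    fun_prop
  have z : ∫ x in (-(π/6))..(π/6), 2 * (uu' g' x * (∑ j, (g' j x - uu' g' x)) -
      (1 + sg 100 h x ^ 2) * (uu g x * (∑ j, (g j x - uu g x)))) = 0 := by
    apply int_odd pi6_pos.le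
    intro x _
    have e1 : ∑ j, (g' j (-x) - uu' g' (-x)) = - ∑ j, (g' j x - uu' g' x) := by
      unfold uu'; simp only [Fin.sum_univ_three, neg_neg]; ring
    have e2 : ∑ j, (g j (-x) - uu g (-x)) = ∑ j, (g j x - uu g x) := by
      unfold uu; simp only [Fin.sum_univ_three, neg_neg]; ring
    rw [e1, e2, uu_odd, uu'_even, sg_even P]; ring
  rw [← add_zero (3 * _), ← z, ← intervalIntegral.integral_finset_sum (fun j _ => ii_of npi_le (c1 j)),
    ← intervalIntegral.integral_finset_sum (fun j _ => ii_of npi_le (c3 j)),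
    ← intervalIntegral.integral_const_mul, ← intervalIntegral.integral_add (ii_of npi_le c2) (ii_of npi_le c4),
    ← intervalIntegral.integral_add ((ii_of npi_le c2).add (ii_of npi_le c4))
      (ii_of npi_le (continuousOn_finset_sum _ (fun j _ => c3 j)))]
  apply intervalIntegral.integral_congr
  intro x _
  simp only [Fin.sum_univ_three]
  ring

/-- final numerical step -/
lemma final_num {C Δ M s2 X2 η D d2 q3 : ℝ} (hC1 : 99 ≤ C) (hC2 : C ≤ 100.01) (hX0 : 0 ≤ X2)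
    (hη : 0 ≤ η) (hΔ : 0 ≤ Δ) (hs0 : 0 ≤ s2)
    (hX : X2 ≤ 4 * Δ + 27/4 * M + 3/2 * s2) (hM : 0 ≤ M + 1/6 * s2) (hs : s2 ≤ 9.46 * η)
    (hD : d2 ≤ 3.502 / 100000 * (4.2 * X2 + 2 * η)) (hDd : |D| ≤ 3/2 * d2 + 1/6 * Δ)
    (hq : q3 ≤ 1/10000 * (4.2 * X2 + 2 * η)) :
    0 ≤ 0.99 * Δ - 2.04 * |D| + 2 * C / √3 * M + 5 * C * η - C * q3 := by
  have h3 : √3 ^ 2 = 3 := sq_sqrt (by norm_num)
  have h3p : (0:ℝ) < √3 := by positivity
  have h3u : √3 ≤ 1.7321 := by
    rw [show (1.7321:ℝ) = √(1.7321^2) by rw [sqrt_sq]; norm_num]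
    exact sqrt_le_sqrt (by norm_num)
  have h3l : 1.732 ≤ √3 := by
    rw [show (1.732:ℝ) = √(1.732^2) by rw [sqrt_sq]; norm_num]
    exact sqrt_le_sqrt (by norm_num)
  have k1 : 114 ≤ 2 * C / √3 := by
    rw [le_div_iff₀ h3p]; norm_num at *; nlinarith
  have k2 : 2 * C / √3 ≤ 115.5 := by
    rw [div_le_iff₀ h3p]; norm_num at *; nlinarith
  have k3 : 114 * (M + 1/6*s2) ≤ 2 * C / √3 * (M + 1/6*s2) := mul_le_mul_of_nonneg_right k1 hM
  have k4 : 2 * C / √3 * (1/6 * s2) ≤ 115.5 * (1/6 * s2) := mul_le_mul_of_nonneg_right k2 (by positivity)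
  have k5 : C * q3 ≤ 0.010001 * (4.2 * X2 + 2 * η) := by
    calc C * q3 ≤ C * (1/10000 * (4.2 * X2 + 2 * η)) := mul_le_mul_of_nonneg_left hq (by linarith)
      _ ≤ 100.01 * (1/10000 * (4.2 * X2 + 2 * η)) := mul_le_mul_of_nonneg_right hC2 (by positivity)
      _ = 0.010001 * (4.2 * X2 + 2 * η) := by norm_num; ring
  have k6 : 99 * η ≤ C * η := mul_le_mul_of_nonneg_right hC1 hη
  have k7 : 2 * C / √3 * M = 2 * C / √3 * (M + 1/6*s2) - 2 * C / √3 * (1/6 * s2) := by ring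
  rw [k7]
  norm_num at *
  linarith

end

end Pool.Agent.W562.GP
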