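import Pool.Agent.W562.GP.Stab

set_option autoImplicit false
set_option linter.all false

open Set MeasureTheory Real Filter Topology
open scoped NNReal ContDiff ComplexConjugate

namespace Pool.Agent.W562.GP

noncomputable section

variable {h k : ℝ → ℝ} (P : Prof 100 h k)

include P in
lemma sg_sq_le {G : ℝ → ℝ} (hG : ContinuousOn G (Icc (-(π/6)) (π/6))) :
    ∫ x in (-(π/6))..(π/6), sg 100 h x ^ 2 * G x ^ 2 ≤ 1/10000 * ∫ x in (-(π/6))..(π/6), G x ^ 2 := by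
  have hs := sg_contOn P
  rw [← intervalIntegral.integral_const_mul]
  apply intervalIntegral.integral_mono_on npi_le (ii_of npi_le (by fun_prop)) (ii_of npi_le (by fun_prop))
  intro x hx
  have e1 := sg_ub P (sub_mem hx)
  have e2 := (P.sg_pos (sub_mem hx)).le
  have e3 : sg 100 h x ^ 2 ≤ (1/100) ^ 2 := pow_le_pow_left₀ e2 e1 2
  norm_num at e3 ⊢
  exact mul_le_mul_of_nonneg_right e3 (sq_nonneg _)

lemma abs_prod (a b : ℝ) : |a * b| ≤ 3/2 * a ^ 2 + 1/6 * b ^ 2 := by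
  rw [abs_le]
  constructor
  · nlinarith [sq_nonneg (3 * a + b)]
  · nlinarith [sq_nonneg (3 * a - b)]

lemma s_num {s J H0 H1 H2 η0 η1 η2 : ℝ} (hJ : (1/100.01) ^ 2 ≤ J) (h : s / √3 * J = -(H0 + H1 + H2))
    (h0 : H0 ^ 2 ≤ 1.05 / 100000000 * η0) (h1 : H1 ^ 2 ≤ 1.05 / 100000000 * η1)
    (h2 : H2 ^ 2 ≤ 1.05 / 100000000 * η2) : s ^ 2 ≤ 9.46 * (η0 + η1 + η2) := by
  have h3 : √3 ^ 2 = 3 := sq_sqrt (by norm_num)
  have h3p : (0:ℝ) < √3 := by positivity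
  have e1 : s * J = -√3 * (H0 + H1 + H2) := by
    field_simp at h
    linear_combination h
  have e2 : s ^ 2 * J ^ 2 = 3 * (H0 + H1 + H2) ^ 2 := by
    calc s ^ 2 * J ^ 2 = (s * J) ^ 2 := by ring
      _ = (√3) ^ 2 * (H0 + H1 + H2) ^ 2 := by rw [e1]; ring
      _ = _ := by rw [h3]
  have e3 : (H0 + H1 + H2) ^ 2 ≤ 3 * (H0 ^ 2 + H1 ^ 2 + H2 ^ 2) := by
    nlinarith [sq_nonneg (H0 - H1), sq_nonneg (H1 - H2), sq_nonneg (H2 - H0)]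
  have e4 : ((1/100.01 : ℝ) ^ 2) ^ 2 ≤ J ^ 2 := pow_le_pow_left₀ (by positivity) hJ 2
  have e5 : s ^ 2 * ((1/100.01 : ℝ) ^ 2) ^ 2 ≤ s ^ 2 * J ^ 2 := mul_le_mul_of_nonneg_left e4 (sq_nonneg _)
  have e6 : s ^ 2 * ((1/100.01 : ℝ) ^ 2) ^ 2 ≤ 9 * (1.05 / 100000000) * (η0 + η1 + η2) := by
    rw [e2] at e5
    linarith
  have hη : 0 ≤ η0 + η1 + η2 := by
    have a0 := sq_nonneg H0
    have a1 := sq_nonneg H1
    have a2 := sq_nonneg H2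
    norm_num at h0 h1 h2
    linarith
  norm_num at e6 ⊢
  linarith

include P in
theorem rest_est {d d' e e' : Fin 3 → ℝ → ℝ} (hd : ∀ j r, HasDerivAt (d j) (d' j r) r)
    (hd' : ∀ j, Continuous (d' j))
    (he : ∀ j, ∀ x ∈ Icc (-(π/6)) (π/6), HasDerivAt (e j) (e' j x) x)
    (he' : ∀ j, ContinuousOn (e' j) (Icc (-(π/6)) (π/6))) {R : ℝ} (haR : av k ≤ R)
    (hR : ∀ j, d j R = 0) (hm : ∀ j, d j (av k) = e j (π/6) - e (j+1) (-(π/6)))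
    (hcon : ∀ j, CC 100 h * (∫ x in (-(π/6))..(π/6), sg 100 h x ^ 2 * e j x)
      + (∫ r in (av k)..R, ph r * d j r) - (∫ r in (av k)..R, ph r * d (j+2) r) = 0)
    (hsum : ∑ j, (∫ r in (av k)..R, ph r * d j r) = 0) :
    0 ≤ (∑ j, ∫ r in (av k)..R, ph r * (d' j r ^ 2 - d j r ^ 2)) +
      CC 100 h * (∑ j, ∫ x in (-(π/6))..(π/6), (e' j x ^ 2 - (1 + sg 100 h x ^ 2) * e j x ^ 2)) +
      CC 100 h / √3 * ∑ j, (e j (π/6) ^ 2 + e (j+1) (-(π/6)) ^ 2 - 4 * e j (π/6) * e (j+1) (-(π/6))) := by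
  have hC1 := CC_lb P
  have hC2 := CC_ub P
  have hC0 : CC 100 h ≠ 0 := by linarith
  have hs := sg_contOn P
  have hsqrt : (0:ℝ) < √3 := by positivity
  have hce : ∀ j, ContinuousOn (e j) (Icc (-(π/6)) (π/6)) := fun j => E_cont (he j)
  -- basic estimates
  have A0 := fun j => ray_est (hd j) (hd' j) (av_pos P).le haR (hR j)
  have A1 := fun j => arc1 (he j) (he' j)
  have A2 := fun j => arc2 (he j)
  have A3 := fun j => arc3 P (he j)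
  have A4 := fun j => arc4 P (hce j)
  have A5 := fun j => arc4 P (Hh_cont (he j))
  have A6 := arc5 P
  have A7 := fun j => sg_sq_le P (hce j)
  have A8 : ∀ j, ∫ x in (-(π/6))..(π/6), (e' j x ^ 2 - (1 + sg 100 h x ^ 2) * e j x ^ 2) =
      (∫ x in (-(π/6))..(π/6), (e' j x ^ 2 - e j x ^ 2)) - ∫ x in (-(π/6))..(π/6), sg 100 h x ^ 2 * e j x ^ 2 := by
    intro j
    have := hce j
    have := he' j
    rw [← intervalIntegral.integral_sub (ii_of npi_le (by fun_prop)) (ii_of npi_le (by fun_prop))]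
    apply intervalIntegral.integral_congr
    intro x _
    simp only
    ring
  have N := fun j => eta_nonneg (e j)
  have a01 := av_small P
  have a02 := av_pos P
  have a03 := ph_av_lb P
  -- name everything
  set C := CC 100 h with hC
  set a := av k with ha
  set J := ∫ x in (-(π/6))..(π/6), sg 100 h x ^ 2 * cos x with hJ
  set D : Fin 3 → ℝ := fun j => ∫ r in a..R, ph r * d j r with hD
  set E : Fin 3 → ℝ := fun j => ∫ x in (-(π/6))..(π/6), sg 100 h x ^ 2 * e j x with hE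
  set Hs : Fin 3 → ℝ := fun j => ∫ x in (-(π/6))..(π/6), sg 100 h x ^ 2 * Hh (e j) x with hHs
  set q2 : Fin 3 → ℝ := fun j => ∫ x in (-(π/6))..(π/6), e j x ^ 2 with hq2
  set q3 : Fin 3 → ℝ := fun j => ∫ x in (-(π/6))..(π/6), sg 100 h x ^ 2 * e j x ^ 2 with hq3
  set q4 : Fin 3 → ℝ := fun j => ∫ x in (-(π/6))..(π/6), (e' j x ^ 2 - e j x ^ 2) with hq4
  set q5 : Fin 3 → ℝ := fun j => ∫ r in a..R, ph r * (d' j r ^ 2 - d j r ^ 2) with hq5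
  set x1 := e 0 (-(π/6)) with hx1
  set x2 := e 0 (π/6) with hx2
  set x3 := e 1 (-(π/6)) with hx3
  set x4 := e 1 (π/6) with hx4
  set x5 := e 2 (-(π/6)) with hx5
  set x6 := e 2 (π/6) with hx6
  simp only [Fin.sum_univ_three, A8]
  have z1 : (0 + 1 : Fin 3) = 1 := rfl
  have z2 : (1 + 1 : Fin 3) = 2 := rfl
  have z3 : (2 + 1 : Fin 3) = 0 := rfl
  have z4 : (0 + 2 : Fin 3) = 2 := rfl
  have z5 : (1 + 2 : Fin 3) = 0 := rfl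
  have z6 : (2 + 2 : Fin 3) = 1 := rfl
  have c0 : C * E 0 + D 0 - D 2 = 0 := hcon 0
  have c1 : C * E 1 + D 1 - D 0 = 0 := hcon 1
  have c2 : C * E 2 + D 2 - D 1 = 0 := hcon 2
  have cs : D 0 + D 1 + D 2 = 0 := by rw [Fin.sum_univ_three] at hsum; exact hsum
  have m0 : d 0 a = x2 - x3 := hm 0
  have m1 : d 1 a = x4 - x5 := hm 1
  have m2 : d 2 a = x6 - x1 := hm 2
  have r0 : ph a * (x2-x3) ^ 2 - 2 * (1 + a) * D 0 * (x2-x3) ≤ q5 0 := by rw [← m0]; exact A0 0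
  have r1 : ph a * (x4-x5) ^ 2 - 2 * (1 + a) * D 1 * (x4-x5) ≤ q5 1 := by rw [← m1]; exact A0 1
  have r2 : ph a * (x6-x1) ^ 2 - 2 * (1 + a) * D 2 * (x6-x1) ≤ q5 2 := by rw [← m2]; exact A0 2
  have s0 : (x2 ^ 2 + x1 ^ 2 - 4 * x2 * x1) / √3 + 5 * eta (e 0) ≤ q4 0 := A1 0
  have s1 : (x4 ^ 2 + x3 ^ 2 - 4 * x4 * x3) / √3 + 5 * eta (e 1) ≤ q4 1 := A1 1
  have s2 : (x6 ^ 2 + x5 ^ 2 - 4 * x6 * x5) / √3 + 5 * eta (e 2) ≤ q4 2 := A1 2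
  have t0 : q2 0 ≤ 4.2 * (x2 ^ 2 + x1 ^ 2) + 2 * eta (e 0) := A2 0
  have t1 : q2 1 ≤ 4.2 * (x4 ^ 2 + x3 ^ 2) + 2 * eta (e 1) := A2 1
  have t2 : q2 2 ≤ 4.2 * (x6 ^ 2 + x5 ^ 2) + 2 * eta (e 2) := A2 2
  have u0 : E 0 = (x2 + x1) / √3 * J + Hs 0 := A3 0
  have u1 : E 1 = (x4 + x3) / √3 * J + Hs 1 := A3 1
  have u2 : E 2 = (x6 + x5) / √3 * J + Hs 2 := A3 2
  have v0 : E 0 ^ 2 ≤ 1.05 / 100000000 * q2 0 := A4 0
  have v1 : E 1 ^ 2 ≤ 1.05 / 100000000 * q2 1 := A4 1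
  have v2 : E 2 ^ 2 ≤ 1.05 / 100000000 * q2 2 := A4 2
  have w0 : Hs 0 ^ 2 ≤ 1.05 / 100000000 * eta (e 0) := A5 0
  have w1 : Hs 1 ^ 2 ≤ 1.05 / 100000000 * eta (e 1) := A5 1
  have w2 : Hs 2 ^ 2 ≤ 1.05 / 100000000 * eta (e 2) := A5 2
  have y0 : q3 0 ≤ 1/10000 * q2 0 := A7 0
  have y1 : q3 1 ≤ 1/10000 * q2 1 := A7 1
  have y2 : q3 2 ≤ 1/10000 * q2 2 := A7 2
  have n0 := N 0
  have n1 := N 1
  have n2 := N 2
  set η0 := eta (e 0)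
  set η1 := eta (e 1)
  set η2 := eta (e 2)
  rw [z1, z2, z3]
  show 0 ≤ (q5 0 + q5 1 + q5 2) + C * ((q4 0 - q3 0) + (q4 1 - q3 1) + (q4 2 - q3 2)) + C / √3 *
    ((x2 ^ 2 + x3 ^ 2 - 4 * x2 * x3) + (x4 ^ 2 + x5 ^ 2 - 4 * x4 * x5) + (x6 ^ 2 + x1 ^ 2 - 4 * x6 * x1))
  -- the sum of the arc integrals vanishes
  have hE0 : E 0 + E 1 + E 2 = 0 := by
    have : C * (E 0 + E 1 + E 2) = 0 := by linear_combination c0 + c1 + c2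
    exact (mul_eq_zero.1 this).resolve_left hC0
  have hsq : (x1+x2+x3+x4+x5+x6)^2 ≤ 9.46 * (η0 + η1 + η2) := by
    apply s_num A6 _ w0 w1 w2
    rw [u0, u1, u2] at hE0
    linear_combination hE0
  set X2 := x1^2+x2^2+x3^2+x4^2+x5^2+x6^2 with hX2
  set M := x1^2+x2^2+x3^2+x4^2+x5^2+x6^2 - 2*(x1*x2+x2*x3+x3*x4+x4*x5+x5*x6+x6*x1) with hM
  set Δ := (x2-x3)^2+(x4-x5)^2+(x6-x1)^2 with hΔ
  have hq2s : q2 0 + q2 1 + q2 2 ≤ 4.2 * X2 + 2 * (η0 + η1 + η2) := by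
    rw [hX2]; linarith
  have hd2 : D 0 ^ 2 + D 1 ^ 2 + D 2 ^ 2 = C ^ 2 / 3 * (E 0 ^ 2 + E 1 ^ 2 + E 2 ^ 2) := by
    have e0 : C * E 0 = D 2 - D 0 := by linarith
    have e1 : C * E 1 = D 0 - D 1 := by linarith
    have e2 : C * E 2 = D 1 - D 2 := by linarith
    have : C ^ 2 / 3 * (E 0 ^ 2 + E 1 ^ 2 + E 2 ^ 2) = ((C * E 0) ^ 2 + (C * E 1) ^ 2 + (C * E 2) ^ 2) / 3 := by ring
    rw [this, e0, e1, e2]
    linear_combination (1/3 * (D 0 + D 1 + D 2)) * cs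
  have hd2' : D 0 ^ 2 + D 1 ^ 2 + D 2 ^ 2 ≤ 3.502 / 100000 * (4.2 * X2 + 2 * (η0 + η1 + η2)) := by
    rw [hd2]
    have hC2' : C ^ 2 / 3 ≤ 100.01 ^ 2 / 3 := by
      have : C ^ 2 ≤ 100.01 ^ 2 := pow_le_pow_left₀ (by linarith) hC2 2
      linarith
    have hEs : E 0 ^ 2 + E 1 ^ 2 + E 2 ^ 2 ≤ 1.05 / 100000000 * (4.2 * X2 + 2 * (η0 + η1 + η2)) := by
      have : 1.05 / 100000000 * (q2 0 + q2 1 + q2 2) ≤ 1.05 / 100000000 * (4.2 * X2 + 2 * (η0 + η1 + η2)) :=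
        mul_le_mul_of_nonneg_left hq2s (by norm_num)
      linarith
    have hpos : 0 ≤ 4.2 * X2 + 2 * (η0 + η1 + η2) := by
      have : 0 ≤ X2 := by rw [hX2]; positivity
      positivity
    calc C ^ 2 / 3 * (E 0 ^ 2 + E 1 ^ 2 + E 2 ^ 2) ≤ (100.01 ^ 2 / 3) * (E 0 ^ 2 + E 1 ^ 2 + E 2 ^ 2) :=
          mul_le_mul_of_nonneg_right hC2' (by positivity)
      _ ≤ (100.01 ^ 2 / 3) * (1.05 / 100000000 * (4.2 * X2 + 2 * (η0 + η1 + η2))) :=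
          mul_le_mul_of_nonneg_left hEs (by positivity)
      _ = ((100.01 ^ 2 / 3) * (1.05 / 100000000)) * (4.2 * X2 + 2 * (η0 + η1 + η2)) := by ring
      _ ≤ 3.502 / 100000 * (4.2 * X2 + 2 * (η0 + η1 + η2)) :=
          mul_le_mul_of_nonneg_right (by norm_num) hpos
  have hDd : |D 0 * (x2-x3) + D 1 * (x4-x5) + D 2 * (x6-x1)| ≤ 3/2 * (D 0 ^ 2 + D 1 ^ 2 + D 2 ^ 2) + 1/6 * Δ := by
    have b0 := abs_prod (D 0) (x2-x3)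
    have b1 := abs_prod (D 1) (x4-x5)
    have b2 := abs_prod (D 2) (x6-x1)
    have b3 := abs_add_le (D 0 * (x2-x3) + D 1 * (x4-x5)) (D 2 * (x6-x1))
    have b4 := abs_add_le (D 0 * (x2-x3)) (D 1 * (x4-x5))
    rw [hΔ]; linarith
  have hfin := final_num (D := D 0 * (x2-x3) + D 1 * (x4-x5) + D 2 * (x6-x1)) hC1 hC2
    (by rw [hX2]; positivity : 0 ≤ X2) (by linarith : 0 ≤ η0 + η1 + η2) (by rw [hΔ]; positivity : 0 ≤ Δ)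
    (sq_nonneg (x1+x2+x3+x4+x5+x6)) (alg1 x1 x2 x3 x4 x5 x6) (alg2 x1 x2 x3 x4 x5 x6) hsq hd2' hDd
    (q3 := q3 0 + q3 1 + q3 2) (by linarith)
  -- compare
  have l1 : 0.99 * Δ - 2.04 * |D 0 * (x2-x3) + D 1 * (x4-x5) + D 2 * (x6-x1)| ≤ q5 0 + q5 1 + q5 2 := by
    have p1 : 0.99 * Δ ≤ ph a * Δ := mul_le_mul_of_nonneg_right a03 (by rw [hΔ]; positivity)
    have p2 : 2 * (1 + a) * (D 0 * (x2-x3) + D 1 * (x4-x5) + D 2 * (x6-x1)) ≤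
        2.04 * |D 0 * (x2-x3) + D 1 * (x4-x5) + D 2 * (x6-x1)| := by
      have p3 : 2 * (1 + a) * (D 0 * (x2-x3) + D 1 * (x4-x5) + D 2 * (x6-x1)) ≤
        2 * (1 + a) * |D 0 * (x2-x3) + D 1 * (x4-x5) + D 2 * (x6-x1)| :=
        mul_le_mul_of_nonneg_left (le_abs_self _) (by linarith)
      have p4 : 2 * (1 + a) * |D 0 * (x2-x3) + D 1 * (x4-x5) + D 2 * (x6-x1)| ≤
        2.04 * |D 0 * (x2-x3) + D 1 * (x4-x5) + D 2 * (x6-x1)| :=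
        mul_le_mul_of_nonneg_right (by linarith) (abs_nonneg _)
      exact p3.trans p4
    have p5 : ph a * Δ = ph a * (x2-x3)^2 + ph a * (x4-x5)^2 + ph a * (x6-x1)^2 := by rw [hΔ]; ring
    linarith
  have l2 : (x2 ^ 2 + x1 ^ 2 - 4 * x2 * x1) / √3 + (x4 ^ 2 + x3 ^ 2 - 4 * x4 * x3) / √3
      + (x6 ^ 2 + x5 ^ 2 - 4 * x6 * x5) / √3 + 5 * (η0 + η1 + η2) ≤ q4 0 + q4 1 + q4 2 := by linarith
  have l3 : C * ((x2 ^ 2 + x1 ^ 2 - 4 * x2 * x1) / √3 + (x4 ^ 2 + x3 ^ 2 - 4 * x4 * x3) / √3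
      + (x6 ^ 2 + x5 ^ 2 - 4 * x6 * x5) / √3 + 5 * (η0 + η1 + η2)) ≤ C * (q4 0 + q4 1 + q4 2) :=
    mul_le_mul_of_nonneg_left l2 (by linarith)
  have l4 : C * ((x2 ^ 2 + x1 ^ 2 - 4 * x2 * x1) / √3 + (x4 ^ 2 + x3 ^ 2 - 4 * x4 * x3) / √3
      + (x6 ^ 2 + x5 ^ 2 - 4 * x6 * x5) / √3) + C / √3 *
    ((x2 ^ 2 + x3 ^ 2 - 4 * x2 * x3) + (x4 ^ 2 + x5 ^ 2 - 4 * x4 * x5) + (x6 ^ 2 + x1 ^ 2 - 4 * x6 * x1)) =
      2 * C / √3 * M := by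
    rw [hM]; ring
  calc (0:ℝ) ≤ 0.99 * Δ - 2.04 * |D 0 * (x2-x3) + D 1 * (x4-x5) + D 2 * (x6-x1)| + 2 * C / √3 * M
        + 5 * C * (η0 + η1 + η2) - C * (q3 0 + q3 1 + q3 2) := hfin
    _ ≤ _ := by
      rw [← l4]
      linarith

end

end Pool.Agent.W562.GP
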