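import Mathlib

set_option autoImplicit false
set_option linter.all false

open Set MeasureTheory Real Filter Topology
open scoped NNReal ContDiff

namespace Pool.Agent.W562.GP

noncomputable section

/-- the shear -/
def shH (H : ℝ → ℝ) (hH : Continuous H) : ℝ × ℝ ≃ₜ ℂ where
  toFun := fun p => ⟨H p.1 + p.2, p.1⟩
  invFun := fun z => (z.im, z.re - H z.im)
  left_inv := fun p => by ext <;> simp
  right_inv := fun z => by apply Complex.ext <;> simp
  continuous_toFun := by
    have e : (fun p : ℝ × ℝ => (⟨H p.1 + p.2, p.1⟩ : ℂ)) =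
        fun p => ((H p.1 + p.2 : ℝ) : ℂ) + (p.1 : ℂ) * Complex.I := by
      ext p; exact Complex.mk_eq_add_mul_I _ _
    rw [e]
    fun_prop
  continuous_invFun := by
    apply Continuous.prodMk Complex.continuous_im
    exact Complex.continuous_re.sub (hH.comp Complex.continuous_im)

lemma shH_apply (H : ℝ → ℝ) (hH : Continuous H) (p : ℝ × ℝ) :
    shH H hH p = ⟨H p.1 + p.2, p.1⟩ := rfl

lemma shH_mp (H : ℝ → ℝ) (hH : Continuous H) :
    MeasurePreserving (shH H hH) (volume.prod volume) volume := by
  have h1 : MeasurePreserving (fun p : ℝ × ℝ => (p.1, H p.1 + p.2)) (volume.prod volume)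
      (volume.prod volume) := by
    apply (MeasurePreserving.id volume).skew_product (g := fun y s => H y + s)
    · exact ((hH.comp continuous_fst).add continuous_snd).measurable
    · exact Eventually.of_forall fun y => map_add_left_eq_self volume (H y)
  have h2 : MeasurePreserving (Prod.swap : ℝ × ℝ → ℝ × ℝ) (volume.prod volume)
      (volume.prod volume) := Measure.measurePreserving_swap
  have h3 := Complex.volume_preserving_equiv_real_prod.symm
  have h4 := (h3.comp h2).comp h1
  exact h4

lemma ce_right (y : ℝ) : Topology.IsClosedEmbedding (fun s : ℝ => (y, s)) := by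
  refine ⟨isEmbedding_prodMkRight y, ?_⟩
  have : range (fun s : ℝ => (y, s)) = {p : ℝ × ℝ | p.1 = y} := by
    ext p
    constructor
    · rintro ⟨s, rfl⟩; rfl
    · intro hp; exact ⟨p.2, by ext <;> simp [show p.1 = y from hp]⟩
  rw [this]
  exact isClosed_eq continuous_fst continuous_const

lemma ce_left (s : ℝ) : Topology.IsClosedEmbedding (fun y : ℝ => (y, s)) := by
  refine ⟨isEmbedding_prodMkLeft s, ?_⟩
  have : range (fun y : ℝ => (y, s)) = {p : ℝ × ℝ | p.2 = s} := by
    ext p
    constructor
    · rintro ⟨s, rfl⟩; rfl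
    · intro hp; exact ⟨p.1, by ext <;> simp [show p.2 = s from hp]⟩
  rw [this]
  exact isClosed_eq continuous_snd continuous_const

/-- divergence theorem for the region right of a graph -/
theorem div_sup {H Hd : ℝ → ℝ} (hH : Continuous H) {S : Set ℝ} (hS : S.Countable)
    (hHd : ∀ y, y ∉ S → HasDerivAt H (Hd y) y) (hm : Measurable Hd) {M : ℝ}
    (hM : ∀ y, |Hd y| ≤ M) {A B : ℂ → ℝ} (hA : ContDiff ℝ 1 A) (hB : ContDiff ℝ 1 B)
    (hAc : HasCompactSupport A) (hBc : HasCompactSupport B) :
    ∫ z in {z : ℂ | H z.im < z.re}, (fderiv ℝ A z 1 + fderiv ℝ B z Complex.I) =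
      ∫ y, (-A ⟨H y, y⟩ + Hd y * B ⟨H y, y⟩) := by
  set e := shH H hH with he
  set ν : Measure ℝ := volume.restrict (Ioi 0) with hν
  have hmp := shH_mp H hH
  have hpre : e ⁻¹' {z : ℂ | H z.im < z.re} = univ ×ˢ Ioi (0:ℝ) := by
    ext p
    simp only [mem_preimage, mem_setOf_eq, mem_prod, mem_univ, true_and, mem_Ioi, he, shH_apply]
    constructor <;> intro h <;> linarith
  have hν2 : (volume.prod volume : Measure (ℝ × ℝ)).restrict (univ ×ˢ Ioi (0:ℝ)) =
      volume.prod ν := by
    rw [hν, ← Measure.prod_restrict, Measure.restrict_univ]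
  have step1 : ∫ z in {z : ℂ | H z.im < z.re}, (fderiv ℝ A z 1 + fderiv ℝ B z Complex.I) =
      ∫ p, (fderiv ℝ A (e p) 1 + fderiv ℝ B (e p) Complex.I) ∂(volume.prod ν) := by
    rw [← hmp.setIntegral_preimage_emb e.measurableEmbedding, hpre, hν2]
  rw [step1]
  -- basic functions
  have hA1 := hA.continuous_fderiv one_ne_zero
  have hB1 := hB.continuous_fderiv one_ne_zero
  set a1 : ℝ × ℝ → ℝ := fun p => fderiv ℝ A (e p) 1 with ha1
  set b1 : ℝ × ℝ → ℝ := fun p => fderiv ℝ B (e p) 1 with hb1
  set bI : ℝ × ℝ → ℝ := fun p => fderiv ℝ B (e p) Complex.I with hbI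
  have ca1 : Continuous a1 := (hA1.comp e.continuous).clm_apply continuous_const
  have cb1 : Continuous b1 := (hB1.comp e.continuous).clm_apply continuous_const
  have cbI : Continuous bI := (hB1.comp e.continuous).clm_apply continuous_const
  have sA : HasCompactSupport (fun z => fderiv ℝ A z 1) := by
    have := hAc.fderiv (𝕜 := ℝ)
    exact this.comp_left (g := fun L : ℂ →L[ℝ] ℝ => L 1) (by simp)
  have sB : ∀ v : ℂ, HasCompactSupport (fun z => fderiv ℝ B z v) := by
    intro v
    have := hBc.fderiv (𝕜 := ℝ)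
    exact this.comp_left (g := fun L : ℂ →L[ℝ] ℝ => L v) (by simp)
  have hcomp : ∀ f : ℂ → ℝ, HasCompactSupport f → HasCompactSupport (fun p => f (e p)) := by
    intro f hf
    exact hf.comp_homeomorph e
  have ia1 : Integrable a1 (volume.prod ν) := by
    rw [← hν2]
    have hs : HasCompactSupport a1 := hcomp (fun z => fderiv ℝ A z 1) sA
    exact (ca1.integrable_of_hasCompactSupport hs).integrableOn
  have ib1 : Integrable b1 (volume.prod ν) := by
    rw [← hν2]
    have hs : HasCompactSupport b1 := hcomp (fun z => fderiv ℝ B z 1) (sB 1)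
    exact (cb1.integrable_of_hasCompactSupport hs).integrableOn
  have ibI : Integrable bI (volume.prod ν) := by
    rw [← hν2]
    have hs : HasCompactSupport bI := hcomp (fun z => fderiv ℝ B z Complex.I) (sB Complex.I)
    exact (cbI.integrable_of_hasCompactSupport hs).integrableOn
  have ihb : Integrable (fun p : ℝ × ℝ => Hd p.1 * b1 p) (volume.prod ν) := by
    refine ib1.bdd_mul (c := M) (hm.comp measurable_fst).aestronglyMeasurable ?_
    exact Eventually.of_forall fun p => hM p.1
  -- s-derivatives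
  have hds : ∀ (f : ℂ → ℝ), ContDiff ℝ 1 f → ∀ y s : ℝ,
      HasDerivAt (fun s => f (e (y, s))) (fderiv ℝ f (e (y, s)) 1) s := by
    intro f hf y s
    have h1 : HasDerivAt (fun s => e (y, s)) 1 s := by
      have h2 : HasDerivAt (fun s : ℝ => ((H y + s : ℝ) : ℂ) + (y : ℂ) * Complex.I) 1 s := by
        have := (((hasDerivAt_id s).const_add (H y)).ofReal_comp).add_const ((y : ℂ) * Complex.I)
        simpa using this
      have h3 : (fun s : ℝ => ((H y + s : ℝ) : ℂ) + (y : ℂ) * Complex.I) = fun s => e (y, s) := by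
        ext s; rw [he, shH_apply]; exact (Complex.mk_eq_add_mul_I _ _).symm
      rwa [h3] at h2
    exact ((hf.differentiable one_ne_zero _).hasFDerivAt).comp_hasDerivAt s h1
  have hint : ∀ (f : ℂ → ℝ), ContDiff ℝ 1 f → HasCompactSupport f → ∀ y : ℝ,
      ∫ s, fderiv ℝ f (e (y, s)) 1 ∂ν = - f ⟨H y, y⟩ := by
    intro f hf hc y
    have h1 : Continuous (fun s => (fderiv ℝ f (e (y, s)) 1 : ℝ)) :=
      ((hf.continuous_fderiv one_ne_zero).comp (e.continuous.comp (by fun_prop))).clm_apply
        continuous_const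
    have hemb : Topology.IsClosedEmbedding (fun s : ℝ => e (y, s)) :=
      e.isClosedEmbedding.comp (ce_right y)
    have hsup : HasCompactSupport (fun s => (fderiv ℝ f (e (y, s)) 1 : ℝ)) := by
      have h2 : HasCompactSupport (fun z => (fderiv ℝ f z 1 : ℝ)) := by
        have := hc.fderiv (𝕜 := ℝ)
        exact this.comp_left (g := fun L : ℂ →L[ℝ] ℝ => L 1) (by simp)
      exact h2.comp_isClosedEmbedding hemb
    have hlim : Tendsto (fun s => f (e (y, s))) atTop (𝓝 0) := by
      have h3 : HasCompactSupport (fun s => f (e (y, s))) := hc.comp_isClosedEmbedding hemb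
      have h4 := h3.is_zero_at_infty
      exact h4.mono_left _root_.atTop_le_cocompact
    have h5 := integral_Ioi_of_hasDerivAt_of_tendsto' (a := 0) (fun s _ => hds f hf y s)
      (h1.integrable_of_hasCompactSupport hsup).integrableOn hlim
    rw [hν, h5, he, shH_apply]
    simp
  -- the y-derivative
  have hdy : ∀ y s : ℝ, y ∉ S → HasDerivAt (fun y => B (e (y, s))) (Hd y * b1 (y, s) + bI (y, s)) y := by
    intro y s hy
    have h1 : HasDerivAt (fun y => e (y, s)) ((Hd y : ℂ) + Complex.I) y := by
      have h2 : HasDerivAt (fun y : ℝ => ((H y + s : ℝ) : ℂ) + (y : ℂ) * Complex.I)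
          ((Hd y : ℂ) + Complex.I) y := by
        have h5 : HasDerivAt (fun y : ℝ => ((H y + s : ℝ) : ℂ)) (Hd y : ℂ) y :=
          ((hHd y hy).add_const s).ofReal_comp
        have h6 : HasDerivAt (fun y : ℝ => (y : ℂ) * Complex.I) Complex.I y := by
          have := ((hasDerivAt_id y).ofReal_comp).mul_const Complex.I
          simpa using this
        exact h5.add h6
      have h3 : (fun y : ℝ => ((H y + s : ℝ) : ℂ) + (y : ℂ) * Complex.I) = fun y => e (y, s) := by
        ext y; rw [he, shH_apply]; exact (Complex.mk_eq_add_mul_I _ _).symm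
      rwa [h3] at h2
    have h4 : HasDerivAt (fun y => B (e (y, s))) (fderiv ℝ B (e (y, s)) ((Hd y : ℂ) + Complex.I)) y :=
      ((hB.differentiable one_ne_zero (e (y, s))).hasFDerivAt).comp_hasDerivAt_of_eq y h1 rfl
    refine h4.congr_deriv ?_
    rw [map_add, hb1, hbI]
    have h5 : ((Hd y : ℝ) : ℂ) = (Hd y) • (1 : ℂ) := by simp
    rw [h5, map_smul]
    rfl
  obtain ⟨R, hR0, hR⟩ : ∃ R : ℝ, 0 < R ∧ ∀ z : ℂ, R ≤ ‖z‖ → B z = 0 := by
    obtain ⟨R, hR⟩ := hBc.isCompact.isBounded.subset_closedBall 0
    refine ⟨max R 0 + 1, by positivity, ?_⟩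
    intro z hz
    by_contra hne
    have h1 := hR (subset_tsupport B hne)
    rw [mem_closedBall_zero_iff] at h1
    have := le_max_left R 0
    linarith
  have hBzero : ∀ z : ℂ, R < ‖z‖ → fderiv ℝ B z = 0 := by
    intro z hz
    have h1 : B =ᶠ[𝓝 z] fun _ => 0 := by
      filter_upwards [(continuous_norm.tendsto z).eventually (lt_mem_nhds hz)] with w hw
      exact hR w hw.le
    rw [h1.fderiv_eq]; simp
  have hyint : ∀ s : ℝ, ∫ y, (Hd y * b1 (y, s) + bI (y, s)) = 0 := by
    intro s
    have hout : ∀ y : ℝ, y ∉ Ioc (-(R+1)) (R+1) → Hd y * b1 (y, s) + bI (y, s) = 0 := by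
      intro y hy
      have h1 : R < ‖e (y, s)‖ := by
        have h2 : |y| ≤ ‖e (y, s)‖ := by
          have := Complex.abs_im_le_norm (e (y, s))
          rwa [he, shH_apply] at this
        have h3 : R + 1 ≤ |y| := by
          rw [mem_Ioc, not_and_or, not_lt, not_le] at hy
          rcases hy with c | c
          · rw [abs_of_nonpos (by linarith)]; linarith
          · rw [abs_of_nonneg (by linarith)]; linarith
        linarith
      rw [hb1, hbI]
      simp only
      rw [hBzero _ h1]; simp
    rw [← setIntegral_eq_integral_of_forall_compl_eq_zero hout,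
      ← intervalIntegral.integral_of_le (by linarith)]
    have hcont : Continuous (fun y => B (e (y, s))) :=
      hB.continuous.comp (e.continuous.comp (by fun_prop))
    have hcb : Continuous (fun y => b1 (y, s)) := cb1.comp (by fun_prop)
    have hcI : Continuous (fun y => bI (y, s)) := cbI.comp (by fun_prop)
    rw [integral_eq_of_hasDerivAt_off_countable (fun y => B (e (y, s)))
      (fun y => Hd y * b1 (y, s) + bI (y, s)) hS hcont.continuousOn (fun y hy => hdy y s hy.2)]
    · have z1 : ∀ y : ℝ, R ≤ |y| → B (e (y, s)) = 0 := by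
        intro y hy
        apply hR
        have := Complex.abs_im_le_norm (e (y, s))
        rw [he, shH_apply] at this
        exact hy.trans this
      rw [z1 (R+1) (by rw [abs_of_nonneg (by linarith)]; linarith),
        z1 (-(R+1)) (by rw [abs_of_nonpos (by linarith)]; linarith), sub_zero]
    · apply IntervalIntegrable.add _ (hcI.intervalIntegrable _ _)
      have h1 := (hcb.intervalIntegrable (μ := volume) (-(R+1)) (R+1))
      rw [intervalIntegrable_iff] at h1 ⊢
      refine h1.bdd_mul (c := M) hm.aestronglyMeasurable ?_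
      exact Eventually.of_forall fun p => hM p
  -- assembly
  have hsplit : ∀ p : ℝ × ℝ, a1 p + bI p = a1 p + ((Hd p.1 * b1 p + bI p) - Hd p.1 * b1 p) := by
    intro p; ring
  have : (fun p => a1 p + bI p) = fun p => a1 p + ((Hd p.1 * b1 p + bI p) - Hd p.1 * b1 p) :=
    funext hsplit
  change ∫ p, (a1 p + bI p) ∂(volume.prod ν) = _
  have ihbI : Integrable (fun p : ℝ × ℝ => Hd p.1 * b1 p + bI p) (volume.prod ν) := ihb.add ibI
  have isub : Integrable (fun p : ℝ × ℝ => (Hd p.1 * b1 p + bI p) - Hd p.1 * b1 p) (volume.prod ν) :=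
    ihbI.sub ihb
  rw [this, integral_add ia1 isub, integral_sub ihbI ihb]
  have e1 : ∫ p, a1 p ∂(volume.prod ν) = ∫ y, - A ⟨H y, y⟩ := by
    rw [integral_prod _ ia1]
    exact integral_congr_ae (Eventually.of_forall fun y => hint A hA hAc y)
  have e2 : ∫ p, (Hd p.1 * b1 p + bI p) ∂(volume.prod ν) = 0 := by
    rw [integral_prod_symm _ ihbI]
    have : ∀ s, ∫ y, (Hd y * b1 (y, s) + bI (y, s)) = 0 := hyint
    simp only [this, integral_zero]
  have e3 : ∫ p, (Hd p.1 * b1 p) ∂(volume.prod ν) = ∫ y, Hd y * (- B ⟨H y, y⟩) := by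
    rw [integral_prod _ ihb]
    apply integral_congr_ae (Eventually.of_forall fun y => ?_)
    show ∫ s, Hd y * b1 (y, s) ∂ν = Hd y * (- B ⟨H y, y⟩)
    rw [integral_const_mul, hint B hB hBc y]
  have hgc : ∀ f : ℂ → ℝ, Continuous f → HasCompactSupport f →
      Continuous (fun y => f ⟨H y, y⟩) ∧ HasCompactSupport (fun y => f ⟨H y, y⟩) := by
    intro f hf hc
    have hemb : Topology.IsClosedEmbedding (fun y : ℝ => e (y, 0)) :=
      e.isClosedEmbedding.comp (ce_left 0)
    have h1 : (fun y => f ⟨H y, y⟩) = fun y => f (e (y, 0)) := by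
      ext y; rw [he, shH_apply]; simp
    rw [h1]
    exact ⟨hf.comp hemb.continuous, hc.comp_isClosedEmbedding hemb⟩
  have iA : Integrable (fun y => A ⟨H y, y⟩) :=
    (hgc A hA.continuous hAc).1.integrable_of_hasCompactSupport (hgc A hA.continuous hAc).2
  have iB : Integrable (fun y => B ⟨H y, y⟩) :=
    (hgc B hB.continuous hBc).1.integrable_of_hasCompactSupport (hgc B hB.continuous hBc).2
  have iHB : Integrable (fun y => Hd y * (-B ⟨H y, y⟩)) :=
    iB.neg.bdd_mul (c := M) hm.aestronglyMeasurable (Eventually.of_forall fun p => hM p)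
  have iHB' : Integrable (fun y => Hd y * (B ⟨H y, y⟩)) :=
    iB.bdd_mul (c := M) hm.aestronglyMeasurable (Eventually.of_forall fun p => hM p)
  have iA' : Integrable (fun y => -A ⟨H y, y⟩) := iA.neg
  have iHBn : Integrable (fun y => -(Hd y * (-B ⟨H y, y⟩))) := iHB.neg
  rw [e1, e2, e3, zero_sub, ← integral_neg, ← integral_add iA' iHBn]
  apply integral_congr_ae (Eventually.of_forall fun y => ?_)
  ring

end

end Pool.Agent.W562.GP
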