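import Pool.Agent.W562.GP.Rot

set_option autoImplicit false
set_option linter.all false

open Set MeasureTheory Real Filter Topology
open scoped NNReal ContDiff ComplexConjugate

namespace Pool.Agent.W562.GP

noncomputable section

variable {μ : ℝ} {h k : ℝ → ℝ} (P : Prof μ h k)

/-! ### orthonormal frames -/

lemma fr_expand {T : ℂ} (hT : ‖T‖ = 1) (z w : ℂ) :
    dt z w = dt z T * dt w T + dt z (Complex.I * T) * dt w (Complex.I * T) := by
  have hn : T.re ^ 2 + T.im ^ 2 = 1 := by rw [← normSq_eq, hT]; norm_num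
  unfold dt
  simp only [Complex.mul_re, Complex.mul_im, Complex.I_re, Complex.I_im]
  linear_combination (-(z.re * w.re) - z.im * w.im) * hn

lemma fr_lin {T : ℂ} (hT : ‖T‖ = 1) (z : ℂ) :
    z = (dt z T) • T + (dt z (Complex.I * T)) • (Complex.I * T) := by
  have hn : T.re ^ 2 + T.im ^ 2 = 1 := by rw [← normSq_eq, hT]; norm_num
  unfold dt
  apply Complex.ext
  · simp
    linear_combination (-z.re) * hn
  · simp
    linear_combination (-z.im) * hn

lemma fr_dvg {T : ℂ} (hT : ‖T‖ = 1) (X : ℂ → ℂ) (z : ℂ) :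
    dvg X z = dt (fderiv ℝ X z T) T + dt (fderiv ℝ X z (Complex.I * T)) (Complex.I * T) := by
  have hn : T.re ^ 2 + T.im ^ 2 = 1 := by rw [← normSq_eq, hT]; norm_num
  set L := fderiv ℝ X z with hL
  have e1 : L T = T.re • L 1 + T.im • L Complex.I := by
    rw [← map_smul, ← map_smul, ← map_add]
    congr 1
    apply Complex.ext <;> simp
  have e2 : L (Complex.I * T) = -T.im • L 1 + T.re • L Complex.I := by
    rw [← map_smul, ← map_smul, ← map_add]
    congr 1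
    apply Complex.ext <;> simp
  unfold dvg
  rw [← hL, e1, e2]
  unfold dt
  simp only [Complex.mul_re, Complex.mul_im, Complex.I_re, Complex.I_im, Complex.add_re,
    Complex.add_im, Complex.smul_re, Complex.smul_im, smul_eq_mul]
  linear_combination (-((L 1).re + (L Complex.I).im)) * hn

/-- trace formula used for the second variation of area -/
lemma fr_trace {T : ℂ} (hT : ‖T‖ = 1) (X : ℂ → ℂ) (z : ℂ) :
    dt (X z) (Complex.I * T) * dvg X z =
      dt (X z) (Complex.I * T) * dt (fderiv ℝ X z T) T + dt (Lie X X z) (Complex.I * T)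
        - dt (X z) T * dt (fderiv ℝ X z T) (Complex.I * T) := by
  rw [fr_dvg hT]
  have e1 : Lie X X z = (dt (X z) T) • fderiv ℝ X z T + (dt (X z) (Complex.I * T)) • fderiv ℝ X z (Complex.I * T) := by
    unfold Lie
    conv_lhs => rw [fr_lin hT (X z)]
    rw [map_add, map_smul, map_smul]
  rw [e1]
  set A := fderiv ℝ X z T
  set B := fderiv ℝ X z (Complex.I * T)
  have e2 : ∀ (a b : ℝ) (U V W : ℂ), dt (a • U + b • V) W = a * dt U W + b * dt V W := by
    intro a b U V W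
    unfold dt
    simp only [Complex.add_re, Complex.add_im, Complex.smul_re, Complex.smul_im, smul_eq_mul]
    ring
  rw [e2]
  ring

lemma gw_smooth : ContDiff ℝ ∞ gw := by
  have h1 : ContDiff ℝ ∞ (fun z : ℂ => -(dt z z) / 2) := by
    unfold dt
    have r := Complex.reCLM.contDiff (n := ∞)
    have i := Complex.imCLM.contDiff (n := ∞)
    exact (((r.mul r).add (i.mul i)).neg).div_const _
  have h2 : gw = fun z => exp (-(dt z z) / 2) := funext gw_eq
  rw [h2]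
  exact h1.exp

lemma gw_fderiv (z v : ℂ) : fderiv ℝ gw z v = -(dt z v) * gw z := by
  have h1 : HasDerivAt (fun t : ℝ => z + (t : ℂ) * v) v 0 := by
    have := ((hasDerivAt_id (0:ℝ)).ofReal_comp.mul_const v).const_add z
    simpa using this
  have h2 : HasDerivAt (fun t : ℝ => gw (z + (t : ℂ) * v)) _ 0 := gw_deriv h1
  have h3 : HasDerivAt (fun t : ℝ => gw (z + (t : ℂ) * v)) (fderiv ℝ gw z v) 0 := by
    have h4 : HasFDerivAt gw (fderiv ℝ gw z) (z + ((0:ℝ) : ℂ) * v) := by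
      have : z + ((0:ℝ) : ℂ) * v = z := by simp
      rw [this]
      exact (gw_smooth.differentiable (by simp) z).hasFDerivAt
    exact h4.comp_hasDerivAt (0:ℝ) h1
  have h5 := h3.unique h2
  rw [h5]; simp

variable {X : ℂ → ℂ}

lemma psi1_eq (hX : ContDiff ℝ ∞ X) (z : ℂ) :
    dvg (smX gw X) z = gw z * (dvg X z - dt z (X z)) := by
  rw [dvg_smX (gw_smooth.differentiable (by simp) z) (hX.differentiable (by simp) z), gw_fderiv]
  ring

/-! ### curves -/

def ca (h k : ℝ → ℝ) (j : Fin 3) (θ : ℝ) : ℂ := rho j * ax h k θ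
def ca' (μ : ℝ) (h : ℝ → ℝ) (j : Fin 3) (θ : ℝ) : ℂ := rho j * (sg μ h θ * (Complex.I * ee θ))
def cy (j : Fin 3) (r : ℝ) : ℂ := rho j * (r * ee (π/3))
def cy' (j : Fin 3) (r : ℝ) : ℂ := rho j * ee (π/3)

/-- unit tangent of the arc -/
def Ta (j : Fin 3) (θ : ℝ) : ℂ := rho j * (Complex.I * ee θ)

lemma Ta_norm (j : Fin 3) (θ : ℝ) : ‖Ta j θ‖ = 1 := by
  unfold Ta; rw [norm_mul, norm_mul, rho_norm, ee_norm, Complex.norm_I]; norm_num

lemma ITa (j : Fin 3) (θ : ℝ) : Complex.I * Ta j θ = rho j * -ee θ := by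
  unfold Ta
  linear_combination (rho j * ee θ) * Complex.I_mul_I

lemma ca'_eq (j : Fin 3) (θ : ℝ) : ca' μ h j θ = (sg μ h θ) • Ta j θ := by
  unfold ca' Ta
  rw [Complex.real_smul]; ring

include P in
lemma ca_deriv (j : Fin 3) {θ : ℝ} (hθ : θ ∈ Icc (-1:ℝ) 1) :
    HasDerivAt (ca h k j) (ca' μ h j θ) θ := (P.ax_deriv hθ).const_mul (rho j)

lemma ee_deriv (θ : ℝ) : HasDerivAt ee (Complex.I * ee θ) θ := by
  have h1 := hasDerivAt_mk (hasDerivAt_cos θ) (hasDerivAt_sin θ)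
  have e : (⟨-sin θ, cos θ⟩ : ℂ) = Complex.I * ee θ := by
    apply Complex.ext <;> simp
  rw [e] at h1
  exact h1

lemma Ta_deriv (j : Fin 3) (θ : ℝ) : HasDerivAt (Ta j) (Complex.I * Ta j θ) θ := by
  have h1 := ((ee_deriv θ).const_mul Complex.I).const_mul (rho j)
  refine h1.congr_deriv ?_
  unfold Ta; ring

lemma ITa_deriv (j : Fin 3) (θ : ℝ) : HasDerivAt (fun θ => Complex.I * Ta j θ) (-Ta j θ) θ := by
  have h1 := (Ta_deriv j θ).const_mul Complex.I
  refine h1.congr_deriv ?_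
  linear_combination (Ta j θ) * Complex.I_mul_I

lemma dt_ca_Ta (j : Fin 3) (θ : ℝ) : dt (ca h k j θ) (Ta j θ) = k θ := by
  unfold ca Ta
  rw [dt_rho]
  unfold dt ax
  simp only [Complex.mul_re, Complex.mul_im, Complex.I_re, Complex.I_im, ee_re, ee_im]
  have := sin_sq_add_cos_sq θ
  linear_combination (k θ) * this

lemma dt_ca_ITa (j : Fin 3) (θ : ℝ) : dt (ca h k j θ) (Complex.I * Ta j θ) = -h θ := by
  rw [ITa]
  unfold ca
  rw [dt_rho]
  unfold dt ax
  simp only [Complex.neg_re, Complex.neg_im, ee_re, ee_im]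
  have := sin_sq_add_cos_sq θ
  linear_combination (-h θ) * this

/-- normal component along the arc -/
def fa (h k : ℝ → ℝ) (X : ℂ → ℂ) (j : Fin 3) (θ : ℝ) : ℝ := dt (X (ca h k j θ)) (Complex.I * Ta j θ)
/-- tangential component along the arc -/
def ua (h k : ℝ → ℝ) (X : ℂ → ℂ) (j : Fin 3) (θ : ℝ) : ℝ := dt (X (ca h k j θ)) (Ta j θ)
/-- derivative of the field along the arc -/
def aa (μ : ℝ) (h k : ℝ → ℝ) (X : ℂ → ℂ) (j : Fin 3) (θ : ℝ) : ℂ :=
  fderiv ℝ X (ca h k j θ) (ca' μ h j θ)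
def fa' (μ : ℝ) (h k : ℝ → ℝ) (X : ℂ → ℂ) (j : Fin 3) (θ : ℝ) : ℝ :=
  dt (aa μ h k X j θ) (Complex.I * Ta j θ) - ua h k X j θ

include P in
lemma Xca_deriv (hX : ContDiff ℝ ∞ X) (j : Fin 3) {θ : ℝ} (hθ : θ ∈ Icc (-1:ℝ) 1) :
    HasDerivAt (fun θ => X (ca h k j θ)) (aa μ h k X j θ) θ :=
  ((hX.differentiable (by simp) _).hasFDerivAt).comp_hasDerivAt θ (ca_deriv P j hθ)

lemma dt_neg_right (z w : ℂ) : dt z (-w) = - dt z w := by unfold dt; simp; ring

include P in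
lemma fa_deriv (hX : ContDiff ℝ ∞ X) (j : Fin 3) {θ : ℝ} (hθ : θ ∈ Icc (-1:ℝ) 1) :
    HasDerivAt (fa h k X j) (fa' μ h k X j θ) θ := by
  have := dt_deriv (Xca_deriv P hX j hθ) (ITa_deriv j θ)
  refine this.congr_deriv ?_
  rw [dt_neg_right]; rfl

include P in
lemma ua_deriv (hX : ContDiff ℝ ∞ X) (j : Fin 3) {θ : ℝ} (hθ : θ ∈ Icc (-1:ℝ) 1) :
    HasDerivAt (ua h k X j) (dt (aa μ h k X j θ) (Ta j θ) + fa h k X j θ) θ :=
  dt_deriv (Xca_deriv P hX j hθ) (Ta_deriv j θ)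

/-- boundary term -/
def Bt (κ : ℝ) (X : ℂ → ℂ) (y T : ℂ) : ℝ :=
  gw y * (dt (Lie X X y) T - dt (X y) T * dt y (X y) + κ * (dt (X y) T * dt (X y) (Complex.I * T)))

def Bt1 (X : ℂ → ℂ) (y T : ℂ) : ℝ := gw y * dt (X y) T

include P in
/-- first variation along the arc -/
theorem arc_first (hX : ContDiff ℝ ∞ X) (j : Fin 3) {θ : ℝ} (hθ : θ ∈ Icc (-1:ℝ) 1) :
    HasDerivAt (fun θ => Bt1 X (ca h k j θ) (Ta j θ))
      (g1 (ca h k j θ) (ca' μ h j θ) (aa μ h k X j θ) (X (ca h k j θ))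
        + μ * (sg μ h θ * dt (smX gw X (ca h k j θ)) (Complex.I * Ta j θ))) θ := by
  have h1 := (gw_deriv (ca_deriv P j hθ)).mul (ua_deriv P hX j hθ)
  refine h1.congr_deriv ?_
  have hσ := P.sg_pos hθ
  have hκ := P.muh hθ
  have hn : ‖ca' μ h j θ‖ = sg μ h θ := by
    rw [ca'_eq, norm_smul, Ta_norm, mul_one, Real.norm_of_nonneg hσ.le]
  have e1 : ∀ w, dt (ca' μ h j θ) w = sg μ h θ * dt (Ta j θ) w := by
    intro w; rw [ca'_eq]; unfold dt
    simp only [Complex.smul_re, Complex.smul_im, smul_eq_mul]; ring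
  have e2 : dt (ca h k j θ) (ca' μ h j θ) = sg μ h θ * k θ := by
    rw [dt_comm, e1, dt_comm, dt_ca_Ta]
  have e3 : dt (ca h k j θ) (X (ca h k j θ)) = k θ * ua h k X j θ - h θ * fa h k X j θ := by
    rw [fr_expand (Ta_norm j θ), dt_ca_Ta, dt_ca_ITa]
    unfold ua fa; ring
  have e4 : dt (smX gw X (ca h k j θ)) (Complex.I * Ta j θ) = gw (ca h k j θ) * fa h k X j θ := by
    unfold smX fa dt
    simp only [Complex.mul_re, Complex.mul_im, Complex.ofReal_re, Complex.ofReal_im]; ring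
  unfold g1
  rw [hn, e1, e2, e3, e4, dt_comm (Ta j θ)]
  have hsg : sg μ h θ = 1 / (μ + h θ) := rfl
  rw [hsg]
  have hk0 : μ + h θ ≠ 0 := by linarith
  set a := dt (aa μ h k X j θ) (Ta j θ)
  set f := fa h k X j θ
  set u := ua h k X j θ
  set g := gw (ca h k j θ)
  field_simp
  ring

include P in
/-- second variation along the arc -/
theorem arc_second (hX : ContDiff ℝ ∞ X) (j : Fin 3) {θ : ℝ} (hθ : θ ∈ Icc (-1:ℝ) 1) :
    HasDerivAt (fun θ => Bt (μ + h θ) X (ca h k j θ) (Ta j θ))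
      (g2 (ca h k j θ) (ca' μ h j θ) (aa μ h k X j θ) (aa μ h k (Lie X X) j θ) (X (ca h k j θ))
          (Lie X X (ca h k j θ))
        + μ * (sg μ h θ * dt (smX (dvg (smX gw X)) X (ca h k j θ)) (Complex.I * Ta j θ))
        - (CC μ h * (fa' μ h k X j θ ^ 2 - fa h k X j θ ^ 2)
          - sg μ h θ * gw (ca h k j θ) * fa h k X j θ ^ 2)) θ := by
  have hL := Lie_smooth hX hX
  have d1 := gw_deriv (ca_deriv P j hθ)
  have d2 := ua_deriv P hX j hθ
  have d3 := fa_deriv P hX j hθ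
  have d4 := ua_deriv P hL j hθ
  have d5 := (P.hd θ).const_add μ
  have d6 := dt_deriv (ca_deriv P j hθ) (Xca_deriv P hX j hθ)
  have h1 := d1.mul ((d4.sub (d2.mul d6)).add (d5.mul (d2.mul d3)))
  refine h1.congr_deriv ?_
  have hσ := P.sg_pos hθ
  have hκ := P.muh hθ
  have hn : ‖ca' μ h j θ‖ = sg μ h θ := by
    rw [ca'_eq, norm_smul, Ta_norm, mul_one, Real.norm_of_nonneg hσ.le]
  have e1 : ∀ w, dt (ca' μ h j θ) w = sg μ h θ * dt (Ta j θ) w := by
    intro w; rw [ca'_eq]; unfold dt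
    simp only [Complex.smul_re, Complex.smul_im, smul_eq_mul]; ring
  have e2 : dt (ca h k j θ) (ca' μ h j θ) = sg μ h θ * k θ := by
    rw [dt_comm, e1, dt_comm, dt_ca_Ta]
  have e3 : dt (ca h k j θ) (X (ca h k j θ)) = k θ * ua h k X j θ - h θ * fa h k X j θ := by
    rw [fr_expand (Ta_norm j θ), dt_ca_Ta, dt_ca_ITa]
    unfold ua fa; ring
  have e5 : dt (ca h k j θ) (Lie X X (ca h k j θ)) =
      k θ * ua h k (Lie X X) j θ - h θ * fa h k (Lie X X) j θ := by
    rw [fr_expand (Ta_norm j θ), dt_ca_Ta, dt_ca_ITa]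
    unfold ua fa; ring
  have e6 : dt (X (ca h k j θ)) (X (ca h k j θ)) = ua h k X j θ ^ 2 + fa h k X j θ ^ 2 := by
    rw [fr_expand (Ta_norm j θ)]
    unfold ua fa; ring
  have e7 : dt (ca h k j θ) (aa μ h k X j θ) =
      k θ * dt (aa μ h k X j θ) (Ta j θ) - h θ * dt (aa μ h k X j θ) (Complex.I * Ta j θ) := by
    rw [fr_expand (Ta_norm j θ), dt_ca_Ta, dt_ca_ITa]; ring
  have e8 : dt (aa μ h k X j θ) (aa μ h k X j θ) =
      dt (aa μ h k X j θ) (Ta j θ) ^ 2 + dt (aa μ h k X j θ) (Complex.I * Ta j θ) ^ 2 := by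
    rw [fr_expand (Ta_norm j θ)]; ring
  have e9 : sg μ h θ * dt (smX (dvg (smX gw X)) X (ca h k j θ)) (Complex.I * Ta j θ) =
      gw (ca h k j θ) * (fa h k X j θ * dt (aa μ h k X j θ) (Ta j θ)
        + sg μ h θ * fa h k (Lie X X) j θ - ua h k X j θ * dt (aa μ h k X j θ) (Complex.I * Ta j θ)
        - sg μ h θ * fa h k X j θ * dt (ca h k j θ) (X (ca h k j θ))) := by
    have t1 : dt (smX (dvg (smX gw X)) X (ca h k j θ)) (Complex.I * Ta j θ) =
        dvg (smX gw X) (ca h k j θ) * dt (X (ca h k j θ)) (Complex.I * Ta j θ) := by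
      unfold smX dt
      simp only [Complex.mul_re, Complex.mul_im, Complex.ofReal_re, Complex.ofReal_im]; ring
    have t2 := fr_trace (Ta_norm j θ) X (ca h k j θ)
    have t3 : ∀ w, dt (aa μ h k X j θ) w = sg μ h θ * dt (fderiv ℝ X (ca h k j θ) (Ta j θ)) w := by
      intro w
      unfold aa
      rw [ca'_eq, map_smul]
      unfold dt
      simp only [Complex.smul_re, Complex.smul_im, smul_eq_mul]; ring
    rw [t1, psi1_eq hX, t3, t3]
    unfold fa ua
    linear_combination (sg μ h θ * gw (ca h k j θ)) * t2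
  have e10 : CC μ h = (μ + h θ) * gw (ca h k j θ) := by
    rw [← first_integral P hθ]
    unfold gw ca
    rw [norm_mul, rho_norm, one_mul]
  rw [e9, e10]
  unfold g2
  rw [hn, e1, e1, e1, e2, e3, e5, e6, e7, e8, dt_comm (Ta j θ), dt_comm (Ta j θ), dt_comm (Ta j θ)]
  unfold fa'
  have hsg : sg μ h θ = 1 / (μ + h θ) := rfl
  rw [hsg]
  have hk0 : μ + h θ ≠ 0 := by linarith
  have hu : dt (X (ca h k j θ)) (Ta j θ) = ua h k X j θ := rfl
  have hu2 : dt (Lie X X (ca h k j θ)) (Ta j θ) = ua h k (Lie X X) j θ := rfl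
  have hf : dt (X (ca h k j θ)) (Complex.I * Ta j θ) = fa h k X j θ := rfl
  simp only [Pi.sub_apply, Pi.mul_apply, Pi.add_apply, hu, hu2, hf, e3]
  set κ := μ + h θ with hκd
  have hμ : μ = κ - h θ := by rw [hκd]; ring
  rw [hμ]
  set a := dt (aa μ h k X j θ) (Ta j θ)
  set n := dt (aa μ h k X j θ) (Complex.I * Ta j θ)
  set b := dt (aa μ h k (Lie X X) j θ) (Ta j θ)
  set zT := ua h k (Lie X X) j θ
  set zN := fa h k (Lie X X) j θ
  set f := fa h k X j θ
  set u := ua h k X j θ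
  set g := gw (ca h k j θ)
  field_simp
  ring

end

end Pool.Agent.W562.GP
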