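import Pool.Agent.W562.GP.Var

set_option autoImplicit false
set_option linter.all false

open Set MeasureTheory Real Filter Topology
open scoped NNReal ContDiff ComplexConjugate

namespace Pool.Agent.W562.GP

noncomputable section

variable {μ : ℝ} {h k : ℝ → ℝ} (P : Prof μ h k) {X : ℂ → ℂ}

/-- direction of the ray -/
def Er (j : Fin 3) : ℂ := rho j * ee (π/3)

lemma Er_norm (j : Fin 3) : ‖Er j‖ = 1 := by unfold Er; rw [norm_mul, rho_norm, ee_norm]; norm_num

lemma cy_eq (j : Fin 3) (r : ℝ) : cy j r = (r : ℂ) * Er j := by unfold cy Er; ring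

lemma cy_deriv (j : Fin 3) (r : ℝ) : HasDerivAt (cy j) (cy' j r) r := by
  have h1 : HasDerivAt (fun r : ℝ => (r : ℂ) * Er j) (Er j) r := by
    have := ((hasDerivAt_id r).ofReal_comp).mul_const (Er j)
    simpa using this
  have h2 : cy j = fun r : ℝ => (r : ℂ) * Er j := funext (cy_eq j)
  rw [h2]
  exact h1

def fr (X : ℂ → ℂ) (j : Fin 3) (r : ℝ) : ℝ := dt (X (cy j r)) (Complex.I * Er j)
def ur (X : ℂ → ℂ) (j : Fin 3) (r : ℝ) : ℝ := dt (X (cy j r)) (Er j)
def ar (X : ℂ → ℂ) (j : Fin 3) (r : ℝ) : ℂ := fderiv ℝ X (cy j r) (cy' j r)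
def fr' (X : ℂ → ℂ) (j : Fin 3) (r : ℝ) : ℝ := dt (ar X j r) (Complex.I * Er j)

lemma Xcy_deriv (hX : ContDiff ℝ ∞ X) (j : Fin 3) (r : ℝ) :
    HasDerivAt (fun r => X (cy j r)) (ar X j r) r :=
  ((hX.differentiable (by simp) _).hasFDerivAt).comp_hasDerivAt r (cy_deriv j r)

lemma dt_zero_right (z : ℂ) : dt z 0 = 0 := by unfold dt; simp

lemma fr_deriv (hX : ContDiff ℝ ∞ X) (j : Fin 3) (r : ℝ) : HasDerivAt (fr X j) (fr' X j r) r := by
  have := dt_deriv (Xcy_deriv hX j r) (hasDerivAt_const r (Complex.I * Er j))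
  refine this.congr_deriv ?_
  rw [dt_zero_right, add_zero]; rfl

lemma ur_deriv (hX : ContDiff ℝ ∞ X) (j : Fin 3) (r : ℝ) :
    HasDerivAt (ur X j) (dt (ar X j r) (Er j)) r := by
  have := dt_deriv (Xcy_deriv hX j r) (hasDerivAt_const r (Er j))
  refine this.congr_deriv ?_
  rw [dt_zero_right, add_zero]

lemma dt_cy (j : Fin 3) (r : ℝ) (w : ℂ) : dt (cy j r) w = r * dt (Er j) w := by
  rw [cy_eq]; unfold dt
  simp only [Complex.mul_re, Complex.mul_im, Complex.ofReal_re, Complex.ofReal_im]; ring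

lemma dt_Er_Er (j : Fin 3) : dt (Er j) (Er j) = 1 := by rw [dt_self, Er_norm]; norm_num
lemma dt_Er_IEr (j : Fin 3) : dt (Er j) (Complex.I * Er j) = 0 := by
  unfold dt
  simp only [Complex.mul_re, Complex.mul_im, Complex.I_re, Complex.I_im]; ring

lemma cy'_eq (j : Fin 3) (r : ℝ) : cy' j r = Er j := rfl

theorem ray_first (hX : ContDiff ℝ ∞ X) (j : Fin 3) (r : ℝ) :
    HasDerivAt (fun r => Bt1 X (cy j r) (Er j))
      (g1 (cy j r) (cy' j r) (ar X j r) (X (cy j r))) r := by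
  have h1 := (gw_deriv (cy_deriv j r)).mul (ur_deriv hX j r)
  refine h1.congr_deriv ?_
  unfold g1
  rw [cy'_eq, Er_norm, dt_cy, dt_cy, dt_Er_Er, dt_comm (Er j) (ar X j r), dt_comm (Er j) (X (cy j r))]
  unfold ur
  ring

theorem ray_second (hX : ContDiff ℝ ∞ X) (j : Fin 3) (r : ℝ) :
    HasDerivAt (fun r => Bt 0 X (cy j r) (Er j))
      (g2 (cy j r) (cy' j r) (ar X j r) (ar (Lie X X) j r) (X (cy j r)) (Lie X X (cy j r))
        - gw (cy j r) * (fr' X j r ^ 2 - fr X j r ^ 2)) r := by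
  have hL := Lie_smooth hX hX
  have d1 := gw_deriv (cy_deriv j r)
  have d2 := ur_deriv hX j r
  have d3 := fr_deriv hX j r
  have d4 := ur_deriv hL j r
  have d5 := (hasDerivAt_const r (0:ℝ))
  have d6 := dt_deriv (cy_deriv j r) (Xcy_deriv hX j r)
  have h1 := d1.mul ((d4.sub (d2.mul d6)).add (d5.mul (d2.mul d3)))
  refine h1.congr_deriv ?_
  have e6 : dt (X (cy j r)) (X (cy j r)) = ur X j r ^ 2 + fr X j r ^ 2 := by
    rw [fr_expand (Er_norm j)]
    unfold ur fr; ring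
  have e8 : dt (ar X j r) (ar X j r) = dt (ar X j r) (Er j) ^ 2 + fr' X j r ^ 2 := by
    rw [fr_expand (Er_norm j)]
    unfold fr'; ring
  have hu : dt (X (cy j r)) (Er j) = ur X j r := rfl
  have hu2 : dt (Lie X X (cy j r)) (Er j) = ur (Lie X X) j r := rfl
  unfold g2
  simp only [Pi.sub_apply, Pi.mul_apply, Pi.add_apply]
  rw [cy'_eq, Er_norm, e6, e8]
  simp only [dt_cy, dt_Er_Er, dt_comm (Er j), hu, hu2]
  ring

/-! ### the vertices -/

lemma vertex_T (j : Fin 3) : Ta j (π/6) - Ta (j+1) (-(π/6)) - Er j = 0 := by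
  have h1 : Ta j (π/6) = rho j * ⟨-1/2, √3/2⟩ := by
    unfold Ta; rw [ee_pi6]; congr 1
    apply Complex.ext
    · simp; ring
    · simp
  have h2 : Ta (j+1) (-(π/6)) = rho j * -1 := by
    unfold Ta
    rw [rho_succ, rho_one, mul_assoc]
    congr 1
    have e1 : ee (π/3) * ee (π/3) * (Complex.I * ee (-(π/6))) = Complex.I * ee (π/2) := by
      have : π/2 = π/3 + π/3 + -(π/6) := by ring
      rw [this, ee_add, ee_add]; ring
    rw [e1]
    apply Complex.ext <;> simp [ee]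
  rw [h1, h2]
  unfold Er
  rw [ee_pi3, ← mul_sub, ← mul_sub]
  have : (⟨-1/2, √3/2⟩ : ℂ) - -1 - ⟨1/2, √3/2⟩ = 0 := by
    apply Complex.ext
    · simp; norm_num
    · simp
  rw [this, mul_zero]

include P in
lemma vertex_p1 (j : Fin 3) : ca h k j (π/6) = cy j (av k) := by
  unfold ca cy; rw [ax_pi6' P]

lemma ee_neg3 : ee (-(π/3)) = ⟨1/2, -(√3/2)⟩ := by
  unfold ee; rw [cos_neg, sin_neg, cos_pi_div_three, sin_pi_div_three]

include P in
lemma ax_npi6' : ax h k (-(π/6)) = av k * ee (-(π/3)) := by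
  rw [ax_npi6 P, ee_neg3]
  apply Complex.ext
  · simp; ring
  · simp [av, bv]; ring

include P in
lemma vertex_p2 (j : Fin 3) : ca h k (j+1) (-(π/6)) = cy j (av k) := by
  unfold ca cy
  rw [ax_npi6' P]
  have e := rho_pred_ee (j+1)
  have e2 : (j + 1 + 2 : Fin 3) = j := by fin_cases j <;> rfl
  rw [e2] at e
  linear_combination (av k : ℂ) * e

lemma dt_sub_right (z v w : ℂ) : dt z (v - w) = dt z v - dt z w := by
  unfold dt; simp only [Complex.sub_re, Complex.sub_im]; ring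

lemma vertex_dt (j : Fin 3) (z : ℂ) : dt z (Ta j (π/6)) - dt z (Ta (j+1) (-(π/6))) - dt z (Er j) = 0 := by
  rw [← dt_sub_right, ← dt_sub_right, vertex_T, dt_zero_right]

include P in
theorem vertex_first (j : Fin 3) :
    Bt1 X (ca h k j (π/6)) (Ta j (π/6)) - Bt1 X (ca h k (j+1) (-(π/6))) (Ta (j+1) (-(π/6)))
      - Bt1 X (cy j (av k)) (Er j) = 0 := by
  rw [vertex_p1 P, vertex_p2 P]
  unfold Bt1
  linear_combination (gw (cy j (av k))) * vertex_dt j (X (cy j (av k)))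

lemma Ta_E (j : Fin 3) : Ta j (π/6) = Er j * ⟨1/2, √3/2⟩ ∧ Ta (j+1) (-(π/6)) = Er j * ⟨-1/2, √3/2⟩ := by
  have h1 : Ta j (π/6) = rho j * (Complex.I * ee (π/6)) := rfl
  have h2 : Complex.I * ee (π/6) = ee (π/3) * ⟨1/2, √3/2⟩ := by
    rw [ee_pi6, ee_pi3]
    apply Complex.ext
    · simp; linear_combination (1/4) * sqrt3_sq
    · simp; ring
  have h3 : Ta j (π/6) = Er j * ⟨1/2, √3/2⟩ := by
    rw [h1, h2]; unfold Er; ring
  refine ⟨h3, ?_⟩
  have h4 := vertex_T j
  have h5 : Ta (j+1) (-(π/6)) = Ta j (π/6) - Er j := by linear_combination -h4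
  rw [h5, h3]
  have h6 : (⟨-1/2, √3/2⟩ : ℂ) = ⟨1/2, √3/2⟩ - 1 := by
    apply Complex.ext
    · simp; norm_num
    · simp
  rw [h6]; ring

include P in
/-- the matching condition -/
theorem matching (j : Fin 3) :
    fr X j (av k) = fa h k X j (π/6) - fa h k X (j+1) (-(π/6)) := by
  unfold fr fa
  rw [vertex_p1 P, vertex_p2 P]
  rw [← dt_sub_right, ← mul_sub]
  have h4 := vertex_T j
  have h5 : Ta j (π/6) - Ta (j+1) (-(π/6)) = Er j := by linear_combination h4
  rw [h5]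

include P in
theorem vertex_second (j : Fin 3) :
    Bt (μ + h (π/6)) X (ca h k j (π/6)) (Ta j (π/6))
      - Bt (μ + h (-(π/6))) X (ca h k (j+1) (-(π/6))) (Ta (j+1) (-(π/6)))
      - Bt 0 X (cy j (av k)) (Er j) =
    CC μ h / √3 * (fa h k X j (π/6) ^ 2 + fa h k X (j+1) (-(π/6)) ^ 2
      - 4 * fa h k X j (π/6) * fa h k X (j+1) (-(π/6))) := by
  rw [P.even]
  have e10 : CC μ h = (μ + h (π/6)) * gw (cy j (av k)) := by
    rw [← first_integral P pi6_mem, ← vertex_p1 P]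
    unfold gw ca
    rw [norm_mul, rho_norm, one_mul]
  unfold fa
  rw [e10, vertex_p1 P, vertex_p2 P]
  unfold Bt
  have v1 := vertex_dt j (Lie X X (cy j (av k)))
  have v2 := vertex_dt j (X (cy j (av k)))
  set η := X (cy j (av k)) with hη
  set g := gw (cy j (av k))
  set κ := μ + h (π/6)
  obtain ⟨hT1, hT2⟩ := Ta_E j
  -- components in the frame of the ray
  set p := dt η (Er j) with hp
  set q := dt η (Complex.I * Er j) with hq
  have a1 : dt η (Ta j (π/6)) = p/2 + √3/2 * q := by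
    rw [hT1, hp, hq]; unfold dt
    simp only [Complex.mul_re, Complex.mul_im, Complex.I_re, Complex.I_im]; ring
  have a2 : dt η (Complex.I * Ta j (π/6)) = -(√3/2) * p + q/2 := by
    rw [hT1, hp, hq]; unfold dt
    simp only [Complex.mul_re, Complex.mul_im, Complex.I_re, Complex.I_im]; ring
  have a3 : dt η (Ta (j+1) (-(π/6))) = -p/2 + √3/2 * q := by
    rw [hT2, hp, hq]; unfold dt
    simp only [Complex.mul_re, Complex.mul_im, Complex.I_re, Complex.I_im]; ring
  have a4 : dt η (Complex.I * Ta (j+1) (-(π/6))) = -(√3/2) * p - q/2 := by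
    rw [hT2, hp, hq]; unfold dt
    simp only [Complex.mul_re, Complex.mul_im, Complex.I_re, Complex.I_im]; ring
  have h3 : √3 ^ 2 = 3 := sq_sqrt (by norm_num)
  have hs := sqrt3_pos
  have key : (p/2 + √3/2 * q) * (-(√3/2) * p + q/2) - (-p/2 + √3/2 * q) * (-(√3/2) * p - q/2) =
      1 / √3 * ((-(√3/2) * p + q/2)^2 + (-(√3/2) * p - q/2)^2
        - 4 * (-(√3/2) * p + q/2) * (-(√3/2) * p - q/2)) := by
    field_simp
    ring_nf
    rw [h3]; ring
  rw [a1, a2, a3, a4] 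
  rw [a1, a3] at v2
  linear_combination g * v1 - g * dt (cy j (av k)) η * v2 + g * κ * key

end

end Pool.Agent.W562.GP
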