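import Pool.Agent.W562.GP.Len

set_option autoImplicit false
set_option linter.all false

open Set MeasureTheory Real Filter Topology
open scoped NNReal ContDiff ComplexConjugate

namespace Pool.Agent.W562.GP

noncomputable section

lemma det_eq (L : ℂ →L[ℝ] ℂ) :
    L.det = (L 1).re * (L Complex.I).im - (L Complex.I).re * (L 1).im := by
  rw [ContinuousLinearMap.det, ← LinearMap.det_toMatrix Complex.basisOneI, Matrix.det_fin_two]
  simp [LinearMap.toMatrix_apply]

variable {X : ℂ → ℂ} {F : ℝ → ℂ → ℂ}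

def Jf (F : ℝ → ℂ → ℂ) (t : ℝ) (z : ℂ) : ℝ :=
  (Dv F id t z 1).re * (Dv F id t z Complex.I).im - (Dv F id t z Complex.I).re * (Dv F id t z 1).im

def JD (X : ℂ → ℂ) (F : ℝ → ℂ → ℂ) (t : ℝ) (z : ℂ) : ℝ :=
  (Dv F X t z 1).re * (Dv F id t z Complex.I).im + (Dv F id t z 1).re * (Dv F X t z Complex.I).im
  - ((Dv F X t z Complex.I).re * (Dv F id t z 1).im + (Dv F id t z Complex.I).re * (Dv F X t z 1).im)

lemma Jf_eq (t : ℝ) (z : ℂ) : (fderiv ℝ (F t) z).det = Jf F t z := by
  rw [det_eq]; rfl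

lemma re_deriv' {f : ℝ → ℂ} {f' : ℂ} {t : ℝ} (hf : HasDerivAt f f' t) :
    HasDerivAt (fun t => (f t).re) f'.re t := Complex.reCLM.hasFDerivAt.comp_hasDerivAt t hf
lemma im_deriv' {f : ℝ → ℂ} {f' : ℂ} {t : ℝ} (hf : HasDerivAt f f' t) :
    HasDerivAt (fun t => (f t).im) f'.im t := Complex.imCLM.hasFDerivAt.comp_hasDerivAt t hf

/-- multiplication of a field by a scalar -/
def smX (ψ : ℂ → ℝ) (X : ℂ → ℂ) (z : ℂ) : ℂ := (ψ z : ℂ) * X z

lemma dvg_smX {ψ : ℂ → ℝ} {X : ℂ → ℂ} {z : ℂ} (hψ : DifferentiableAt ℝ ψ z)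
    (hX : DifferentiableAt ℝ X z) : dvg (smX ψ X) z = ψ z * dvg X z + fderiv ℝ ψ z (X z) := by
  have h1 : HasFDerivAt (fun z => (ψ z : ℂ)) (Complex.ofRealCLM.comp (fderiv ℝ ψ z)) z :=
    Complex.ofRealCLM.hasFDerivAt.comp z hψ.hasFDerivAt
  have h2 : HasFDerivAt (smX ψ X) _ z := h1.mul hX.hasFDerivAt
  have h3 : fderiv ℝ ψ z (X z) = (X z).re * fderiv ℝ ψ z 1 + (X z).im * fderiv ℝ ψ z Complex.I := by
    conv_lhs => rw [← Complex.re_add_im (X z)]
    rw [map_add]
    have e1 : ((X z).re : ℂ) = (X z).re • (1 : ℂ) := by simp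
    have e2 : ((X z).im : ℂ) * Complex.I = (X z).im • Complex.I := by simp
    rw [e1, e2, map_smul, map_smul]; simp
  unfold dvg
  rw [h2.fderiv, h3]
  simp
  ring

lemma smX_smooth {ψ : ℂ → ℝ} {X : ℂ → ℂ} (hψ : ContDiff ℝ ∞ ψ) (hX : ContDiff ℝ ∞ X) :
    ContDiff ℝ ∞ (smX ψ X) := by
  unfold smX
  exact (Complex.ofRealCLM.contDiff.comp hψ).mul hX

lemma smX_cpt {ψ : ℂ → ℝ} {X : ℂ → ℂ} (hc : HasCompactSupport X) : HasCompactSupport (smX ψ X) :=
  hc.mul_left

lemma dvg_smooth {Y : ℂ → ℂ} (hY : ContDiff ℝ ∞ Y) : ContDiff ℝ ∞ (dvg Y) := by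
  have h1 : ContDiff ℝ ∞ (fderiv ℝ Y) := hY.fderiv_right (by simp)
  unfold dvg
  exact (Complex.reCLM.contDiff.comp (h1.clm_apply contDiff_const)).add
    (Complex.imCLM.contDiff.comp (h1.clm_apply contDiff_const))

lemma dvg_cpt {Y : ℂ → ℂ} (hc : HasCompactSupport Y) : HasCompactSupport (dvg Y) := by
  have h1 := hc.fderiv (𝕜 := ℝ)
  exact h1.comp_left (g := fun L : ℂ →L[ℝ] ℂ => (L 1).re + (L Complex.I).im) (by simp)

section

variable (hX : ContDiff ℝ ∞ X) (hc : HasCompactSupport X) (hF : IsFlow X F)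

include hX hc hF in
lemma Jf_deriv (t : ℝ) (z : ℂ) : HasDerivAt (fun t => Jf F t z) (JD X F t z) t := by
  have e : ∀ v, HasDerivAt (fun t => Dv F id t z v) (Dv F X t z v) t := by
    intro v
    have := Dv_deriv hX hc hF contDiff_id t z v
    rwa [Lie_id] at this
  have h := ((re_deriv' (e 1)).mul (im_deriv' (e Complex.I))).sub
    ((re_deriv' (e Complex.I)).mul (im_deriv' (e 1)))
  exact h

include hF in
lemma Jf_zero (z : ℂ) : Jf F 0 z = 1 := by
  unfold Jf
  rw [Dv_zero hF, Dv_zero hF]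
  simp

include hF in
lemma JD_zero (z : ℂ) : JD X F 0 z = dvg X z := by
  unfold JD dvg
  rw [Dv_zero hF, Dv_zero hF, Dv_zero hF, Dv_zero hF]
  simp

include hX hc hF in
lemma Jf_ne (t : ℝ) (z : ℂ) : Jf F t z ≠ 0 := by
  rw [← Jf_eq]
  have h1 : HasFDerivAt (F t) (fderiv ℝ (F t) z) z :=
    ((flow_sm hX hc hF t).differentiable (by simp) z).hasFDerivAt
  have h2 : HasFDerivAt (F (-t)) (fderiv ℝ (F (-t)) (F t z)) (F t z) :=
    ((flow_sm hX hc hF (-t)).differentiable (by simp) _).hasFDerivAt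
  have h3 := h2.comp z h1
  have h4 : F (-t) ∘ F t = id := by funext w; exact flow_inv hX hc hF t w
  rw [h4] at h3
  have h5 := h3.unique (hasFDerivAt_id z)
  intro h0
  have h6 := congrArg ContinuousLinearMap.det h5
  have h7 : ((fderiv ℝ (F (-t)) (F t z)).comp (fderiv ℝ (F t) z)).det =
      (fderiv ℝ (F (-t)) (F t z)).det * (fderiv ℝ (F t) z).det := by
    unfold ContinuousLinearMap.det
    exact LinearMap.det_comp _ _
  rw [h7, h0, mul_zero] at h6
  have h8 : (ContinuousLinearMap.id ℝ ℂ).det = 1 := by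
    unfold ContinuousLinearMap.det
    exact LinearMap.det_id
  rw [h8] at h6
  exact zero_ne_one h6

include hX hc hF in
lemma Jf_pos (t : ℝ) (z : ℂ) : 0 < Jf F t z := by
  by_contra hcon
  push Not at hcon
  have hcont : Continuous (fun t => Jf F t z) :=
    continuous_iff_continuousAt.2 fun t => (Jf_deriv hX hc hF t z).continuousAt
  have h0 : (0:ℝ) ∈ uIcc (Jf F t z) (Jf F 0 z) := by
    rw [Jf_zero hF, uIcc_of_le (by linarith)]
    exact ⟨hcon, zero_le_one⟩
  obtain ⟨s, _, hs⟩ := intermediate_value_uIcc (a := t) (b := 0) hcont.continuousOn h0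
  exact Jf_ne hX hc hF s z hs

include hX hc hF in
lemma Jf_cont : Continuous (fun q : ℝ × ℂ => Jf F q.1 q.2) := by
  have e : ∀ v, Continuous (fun q : ℝ × ℂ => Dv F id q.1 q.2 v) := fun v =>
    (Dv_cont hX hc hF contDiff_id).comp (by fun_prop : Continuous (fun q : ℝ × ℂ => ((q.1, q.2, v) : ℝ × ℂ × ℂ)))
  unfold Jf
  exact ((Complex.continuous_re.comp (e _)).mul (Complex.continuous_im.comp (e _))).sub
    ((Complex.continuous_re.comp (e _)).mul (Complex.continuous_im.comp (e _)))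

include hX hc hF in
lemma JD_cont : Continuous (fun q : ℝ × ℂ => JD X F q.1 q.2) := by
  have e : ∀ v, Continuous (fun q : ℝ × ℂ => Dv F id q.1 q.2 v) := fun v =>
    (Dv_cont hX hc hF contDiff_id).comp (by fun_prop : Continuous (fun q : ℝ × ℂ => ((q.1, q.2, v) : ℝ × ℂ × ℂ)))
  have e' : ∀ v, Continuous (fun q : ℝ × ℂ => Dv F X q.1 q.2 v) := fun v =>
    (Dv_cont hX hc hF hX).comp (by fun_prop : Continuous (fun q : ℝ × ℂ => ((q.1, q.2, v) : ℝ × ℂ × ℂ)))
  unfold JD
  exact (((Complex.continuous_re.comp (e' _)).mul (Complex.continuous_im.comp (e _))).add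
    ((Complex.continuous_re.comp (e _)).mul (Complex.continuous_im.comp (e' _)))).sub
    (((Complex.continuous_re.comp (e' _)).mul (Complex.continuous_im.comp (e _))).add
    ((Complex.continuous_re.comp (e _)).mul (Complex.continuous_im.comp (e' _))))

include hX hc hF in
/-- change of variables -/
lemma vol_image {S : Set ℂ} (hS : IsOpen S) (ψ : ℂ → ℝ) (t : ℝ) :
    ∫ z in F t '' S, ψ z = ∫ z in S, Jf F t z * ψ (F t z) := by
  have h1 := integral_image_eq_integral_abs_det_fderiv_smul (μ := volume) hS.measurableSet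
    (f := F t) (f' := fun z => fderiv ℝ (F t) z)
    (fun z hz => (((flow_sm hX hc hF t).differentiable (by simp) z).hasFDerivAt).hasFDerivWithinAt)
    ((flowH hX hc hF t).injective.injOn) ψ
  rw [h1]
  apply integral_congr_ae (Eventually.of_forall fun z => ?_)
  show |(fderiv ℝ (F t) z).det| • ψ (F t z) = Jf F t z * ψ (F t z)
  rw [Jf_eq, abs_of_pos (Jf_pos hX hc hF t z), smul_eq_mul]

include hX hc hF in
theorem transport0 {S : Set ℂ} (hS : IsOpen S) {ψ : ℂ → ℝ} (hψ : ContDiff ℝ ∞ ψ)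
    (hi : Integrable ψ) :
    HasDerivAt (fun t => ∫ z in F t '' S, ψ z) (∫ z in S, dvg (smX ψ X) z) 0 := by
  have e1 : (fun t => ∫ z in F t '' S, ψ z) = fun t => ∫ z in S, Jf F t z * ψ (F t z) :=
    funext fun t => vol_image hX hc hF hS ψ t
  rw [e1]
  obtain ⟨R, hR0, hR⟩ := exists_rad hc
  have hdψ : Continuous (fun z => fderiv ℝ ψ z (X z)) :=
    (hψ.continuous_fderiv (by simp)).clm_apply hX.continuous
  have hFc : Continuous (fun q : ℝ × ℂ => F q.1 q.2) := (flow_smooth hX hc hF).continuous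
  set g' : ℝ → ℂ → ℝ := fun t z => JD X F t z * ψ (F t z) +
    Jf F t z * fderiv ℝ ψ (F t z) (X (F t z)) with hg'
  have g'c : Continuous (fun q : ℝ × ℂ => g' q.1 q.2) :=
    ((JD_cont hX hc hF).mul (hψ.continuous.comp hFc)).add
      ((Jf_cont hX hc hF).mul (hdψ.comp hFc))
  have hK : IsCompact (Icc (-1:ℝ) 1 ×ˢ Metric.closedBall (0:ℂ) R) :=
    isCompact_Icc.prod (isCompact_closedBall _ _)
  obtain ⟨M, hM⟩ := hK.exists_bound_of_continuousOn g'c.continuousOn
  have hM0 : 0 ≤ M := (norm_nonneg _).trans (hM (0, 0) ⟨⟨by norm_num, by norm_num⟩, by simp [hR0.le]⟩)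
  have hout : ∀ t z, R < ‖z‖ → g' t z = 0 := by
    intro t z hz
    have hev : ∀ᶠ w in 𝓝 z, R < ‖w‖ := (continuous_norm.tendsto z).eventually (lt_mem_nhds hz)
    have h1 : ∀ v, Dv F X t z v = 0 := by
      intro v
      unfold Dv
      have : (fun w => X (F t w)) =ᶠ[𝓝 z] fun _ => 0 := by
        filter_upwards [hev] with w hw
        rw [flow_fix hX hc hF (hR w hw.le), hR w hw.le]
      rw [this.fderiv_eq]; simp
    rw [hg']
    simp only
    unfold JD
    rw [h1, h1, flow_fix hX hc hF (hR z hz.le), hR z hz.le]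
    simp
  have hder : ∀ t z, HasDerivAt (fun t => Jf F t z * ψ (F t z)) (g' t z) t := by
    intro t z
    have a1 := Jf_deriv hX hc hF t z
    have a2 : HasDerivAt (fun t => ψ (F t z)) (fderiv ℝ ψ (F t z) (X (F t z))) t :=
      ((hψ.differentiable (by simp) _).hasFDerivAt).comp_hasDerivAt t (hF.deriv t z)
    exact a1.mul a2
  have key := hasDerivAt_integral_of_dominated_loc_of_deriv_le (μ := volume.restrict S)
    (F := fun t z => Jf F t z * ψ (F t z)) (F' := g') (x₀ := (0:ℝ)) (s := Icc (-1:ℝ) 1)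
    (bound := fun z => (Metric.closedBall (0:ℂ) R).indicator (fun _ => M) z)
    (Icc_mem_nhds (by norm_num) (by norm_num))
    (Eventually.of_forall fun t => by
      have c1 : Continuous (fun z => Jf F t z * ψ (F t z)) :=
        ((Jf_cont hX hc hF).comp (by fun_prop : Continuous (fun z : ℂ => ((t, z) : ℝ × ℂ)))).mul
          (hψ.continuous.comp (flow_sm hX hc hF t).continuous)
      exact c1.aestronglyMeasurable)
    (by
      have : (fun z => Jf F 0 z * ψ (F 0 z)) = ψ := by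
        funext z; rw [Jf_zero hF, hF.zero, one_mul]
      rw [this]
      exact hi.integrableOn)
    ((g'c.comp (by fun_prop : Continuous (fun z : ℂ => (((0:ℝ), z) : ℝ × ℂ)))).aestronglyMeasurable)
    (Eventually.of_forall fun z t ht => by
      by_cases hz : ‖z‖ ≤ R
      · rw [indicator_of_mem (by rwa [mem_closedBall_zero_iff])]
        exact hM (t, z) ⟨ht, by rwa [mem_closedBall_zero_iff]⟩
      · rw [hout t z (not_le.1 hz), indicator_of_notMem (by rwa [mem_closedBall_zero_iff])]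
        simp)
    (by
      apply Integrable.integrableOn
      rw [integrable_indicator_iff Metric.isClosed_closedBall.measurableSet]
      exact integrableOn_const (isCompact_closedBall _ _).measure_lt_top.ne)
    (Eventually.of_forall fun z t ht => hder t z)
  refine key.2.congr_deriv ?_
  apply integral_congr_ae (Eventually.of_forall fun z => ?_)
  show JD X F 0 z * ψ (F 0 z) + Jf F 0 z * fderiv ℝ ψ (F 0 z) (X (F 0 z)) = _
  rw [JD_zero hF, Jf_zero hF, hF.zero, dvg_smX (hψ.differentiable (by simp) z)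
    (hX.differentiable (by simp) z)]
  ring

include hX hc hF in
theorem transport {S : Set ℂ} (hS : IsOpen S) {ψ : ℂ → ℝ} (hψ : ContDiff ℝ ∞ ψ)
    (hi : Integrable ψ) (t : ℝ) :
    HasDerivAt (fun t => ∫ z in F t '' S, ψ z) (∫ z in F t '' S, dvg (smX ψ X) z) t := by
  have hS' : IsOpen (F t '' S) := (flowH hX hc hF t).isOpenMap S hS
  have h1 := transport0 hX hc hF hS' hψ hi
  have h2 : ∀ u, F u '' (F t '' S) = F (u + t) '' S := by
    intro u
    rw [← image_comp]
    congr 1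
    funext z
    exact (flow_add hX hc hF u t z).symm
  have h3 : HasDerivAt (fun u => ∫ z in F (u + t) '' S, ψ z) (∫ z in F t '' S, dvg (smX ψ X) z) 0 := by
    have : (fun u => ∫ z in F (u + t) '' S, ψ z) = fun u => ∫ z in F u '' (F t '' S), ψ z :=
      funext fun u => by rw [h2 u]
    rw [this]; exact h1
  have h4 : HasDerivAt (fun s : ℝ => s - t) 1 t := (hasDerivAt_id t).sub_const t
  have h5 : HasDerivAt (fun u => ∫ z in F (u + t) '' S, ψ z) (∫ z in F t '' S, dvg (smX ψ X) z) (t - t) := by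
    rw [sub_self]; exact h3
  have h6 := HasDerivAt.comp (h := fun s : ℝ => s - t) t h5 h4
  have h7 : (fun u => ∫ z in F (u + t) '' S, ψ z) ∘ (fun s : ℝ => s - t) =
      fun t => ∫ z in F t '' S, ψ z := by
    funext s
    simp
  rw [h7, mul_one] at h6
  exact h6

end

end

end Pool.Agent.W562.GP
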